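import Pool.Agent.N250.GAP.Pol

/-!
# Nondivergence for a modular lattice with polynomial weights
-/

open MeasureTheory Set Polynomial
open scoped ENNReal

namespace Pool.Agent.N250.GAP

/-- the data: a family of positive polynomials, indexed by a lattice with a rank function -/
structure Sys (S : Type) [Lattice S] (r D : ℕ) (rk : S → ℕ) (P : S → ℝ[X]) : Prop where
  rk_le : ∀ a, rk a ≤ r
  modular : ∀ a b, a ≠ b → rk a = rk b → ∃ j, 1 ≤ j ∧ rk (a ⊔ b) = rk a + j ∧ rk a = rk (a ⊓ b) + j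
  deg : ∀ a, (P a).natDegree ≤ D
  pos : ∀ a t, 0 < (P a).eval t
  sub : ∀ a b t, (P (a ⊔ b)).eval t * (P (a ⊓ b)).eval t ≤ (P a).eval t * (P b).eval t

/-- the weight of `a` on an interval -/
noncomputable def wt {S : Type} (r : ℕ) (β ε : ℝ) (rk : S → ℕ) (P : S → ℝ[X]) (a : S) (x h : ℝ) : ℝ :=
  ε ^ (rk a * (r - rk a)) * (M (P a) x h) ^ (-β)

/-- the largest weight -/
noncomputable def G {S : Type} (r : ℕ) (β ε : ℝ) (rk : S → ℕ) (P : S → ℝ[X]) (x h : ℝ) : ℝ≥0∞ :=
  ⨆ a, ENNReal.ofReal (wt r β ε rk P a x h)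

/-- the constant of the comparison of `I` with its parts -/
noncomputable def QK (D K : ℕ) : ℝ := (D + 1) * (D * K : ℝ) ^ D

theorem QK_ge {D K : ℕ} (hD : 1 ≤ D) (hK : 1 ≤ K) : 1 ≤ QK D K := by
  have h1 : (1 : ℝ) ≤ D := by exact_mod_cast hD
  have h2 : (1 : ℝ) ≤ K := by exact_mod_cast hK
  have h3 : (1 : ℝ) ≤ (D * K : ℝ) ^ D := one_le_pow₀ (by nlinarith)
  unfold QK
  nlinarith

theorem M_child {D : ℕ} (hD : 1 ≤ D) {P : ℝ[X]} (hP : P.natDegree ≤ D) {x h : ℝ} (hh : 0 < h) {K l : ℕ}
    (hK : 1 ≤ K) (hl : l < K) : M P x h ≤ QK D K * M P (x + l * (h / K)) (h / K) := by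
  have hK0 : (0 : ℝ) < K := by exact_mod_cast hK
  have hlK : (l : ℝ) + 1 ≤ K := by exact_mod_cast hl
  have hw : 0 < h / K := by positivity
  have e1 : (K : ℝ) * (h / K) = h := by field_simp
  have h0 : 0 ≤ (l : ℝ) * (h / K) := by positivity
  have h1 : ((l : ℝ) + 1) * (h / K) ≤ K * (h / K) := by gcongr
  have h2 := M_comp hD hP (x := x) (h := h) (x' := x + l * (h / K)) (h' := h / K) (L := h) hw hh.le
    (fun z hz y hy => by
      rw [abs_le]
      constructor
      · linarith [hz.1, hy.2]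
      · linarith [hz.2, hy.1]) (div_le_self hh.le (by exact_mod_cast hK))
  have e2 : (D : ℝ) * h / (h / K) = D * K := by field_simp
  rw [e2] at h2
  exact h2

/-- **One step.** -/
theorem step {D : ℕ} (hD : 1 ≤ D) {β : ℝ} (hβ : 0 < β) (hβD : β * D < 1) (r : ℕ) :
    ∃ C1 C2 : ℝ, 1 ≤ C1 ∧ 1 ≤ C2 ∧ ∀ K : ℕ, 1 ≤ K → ∀ ε : ℝ, 0 < ε → 
      ε = C2 ^ (-β) / 2 * (QK D K) ^ (-β) →
      ∀ (S : Type) [Lattice S] [Nonempty S] (rk : S → ℕ) (P : S → ℝ[X]), Sys S r D rk P →
      ∀ x h : ℝ, 0 < h → ∑ l ∈ Finset.range K, G r β ε rk P (x + l * (h / K)) (h / K) ≤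
        ENNReal.ofReal (C1 * K) * G r β ε rk P x h := by
  obtain ⟨Cb, hCb, hpow⟩ := sum_neg_pow hD hβ hβD
  obtain ⟨C2, hC2, hmul⟩ := M_mul hD
  refine ⟨1 + (r + 1) * Cb, C2, by nlinarith [(Nat.cast_nonneg r : (0 : ℝ) ≤ r)], hC2, ?_⟩
  intro K hK ε hε0 hε S _ _ rk P hS x h hh
  have hK0 : (0 : ℝ) < K := by exact_mod_cast hK
  have hC1 : (0 : ℝ) < 1 + (r + 1) * Cb := by nlinarith [(Nat.cast_nonneg r : (0 : ℝ) ≤ r)]
  have hw : 0 < h / K := by positivity
  by_cases hG : G r β ε rk P x h = ⊤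
  · rw [hG, ENNReal.mul_top]
    · exact le_top
    · rw [Ne, ENNReal.ofReal_eq_zero, not_le]
      positivity
  set g : ℝ := (G r β ε rk P x h).toReal with hg
  have hGg : G r β ε rk P x h = ENNReal.ofReal g := (ENNReal.ofReal_toReal hG).symm
  have hMpos : ∀ (a : S) (y k : ℝ), 0 < k → 0 < M (P a) y k := by
    intro a y k hk
    have := le_M (P := P a) (x := y) (h := k) (t := y) ⟨le_rfl, by linarith⟩
    rw [abs_of_pos (hS.pos a y)] at this
    exact (hS.pos a y).trans_le this
  have hwt : ∀ (a : S) (y k : ℝ), 0 < k → 0 < wt r β ε rk P a y k := by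
    intro a y k hk
    have := hMpos a y k hk
    unfold wt
    positivity
  have hgpos : 0 ≤ g := ENNReal.toReal_nonneg
  have hle : ∀ a, wt r β ε rk P a x h ≤ g := by
    intro a
    have h1 : ENNReal.ofReal (wt r β ε rk P a x h) ≤ ENNReal.ofReal g := by
      rw [← hGg]
      exact le_iSup (fun a => ENNReal.ofReal (wt r β ε rk P a x h)) a
    exact (ENNReal.ofReal_le_ofReal_iff hgpos).1 h1
  have hg0 : 0 < g := by
    obtain ⟨a⟩ := (inferInstance : Nonempty S)
    exact (hwt a x h hh).trans_le (hle a)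
  have hQ1 := QK_ge hD hK
  have hQ0 : 0 < QK D K := by linarith
  set τ : ℝ := (QK D K) ^ (-β) with hτ
  have hτ0 : 0 < τ := by positivity
  have hτ1 : τ ≤ 1 := by
    rw [hτ]
    exact Real.rpow_le_one_of_one_le_of_nonpos hQ1 (by linarith)
  have hC20 : 0 < C2 := by linarith
  set c1 : ℝ := C2 ^ (-β) with hc1
  have hc10 : 0 < c1 := by positivity
  have hc11 : c1 ≤ 1 := by
    rw [hc1]
    exact Real.rpow_le_one_of_one_le_of_nonpos hC2 (by linarith)
  have hε1 : ε ≤ 1 := by rw [hε]; nlinarith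
  -- children
  have hchild : ∀ l < K, ∀ a, wt r β ε rk P a (x + l * (h / K)) (h / K) * τ ≤ wt r β ε rk P a x h := by
    intro l hl a
    unfold wt
    rw [mul_assoc]
    have h1 := M_child hD (hS.deg a) hh hK hl (x := x)
    have h2 := hMpos a (x + l * (h / K)) (h / K) hw
    have h3 := hMpos a x h hh
    gcongr
    rw [hτ, ← Real.mul_rpow h2.le hQ0.le, mul_comm]
    exact Real.rpow_le_rpow_of_nonpos h3 h1 (by linarith)
  -- uniqueness
  have huniq : ∀ a b, rk a = rk b → τ * g < wt r β ε rk P a x h → τ * g < wt r β ε rk P b x h → a = b := by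
    intro a b hab ha hb
    by_contra hne
    obtain ⟨j, hj, h1, h2⟩ := hS.modular a b hne hab
    set m := rk (a ⊓ b) with hm
    have hr : m + 2 * j ≤ r := by
      have := hS.rk_le (a ⊔ b)
      omega
    have e1 : rk (a ⊔ b) * (r - rk (a ⊔ b)) + m * (r - m) + 2 * j ^ 2 = 2 * (rk a * (r - rk a)) := by
      rw [h1, h2]
      obtain ⟨s, hs⟩ := Nat.exists_eq_add_of_le hr
      have e2 : r - (m + j + j) = s := by omega
      have e3 : r - m = s + 2 * j := by omega
      have e4 : r - (m + j) = s + j := by omega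
      rw [e2, e3, e4]
      ring
    have hA := hMpos a x h hh
    have hB := hMpos b x h hh
    have hU := hMpos (a ⊔ b) x h hh
    have hI := hMpos (a ⊓ b) x h hh
    have h3 : M (P (a ⊔ b)) x h * M (P (a ⊓ b)) x h ≤ C2 * (M (P a) x h * M (P b) x h) := by
      refine (hmul _ _ (hS.deg _) (hS.deg _) x h hh).trans ?_
      gcongr
      apply M_le hh.le
      intro t ht
      rw [eval_mul, abs_of_pos (mul_pos (hS.pos _ _) (hS.pos _ _))]
      refine (hS.sub a b t).trans ?_
      have h4 := le_M (P := P a) ht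
      have h5 := le_M (P := P b) ht
      rw [abs_of_pos (hS.pos _ _)] at h4 h5
      exact mul_le_mul h4 h5 (hS.pos _ _).le hA.le
    have h4 : c1 * ((M (P a) x h) ^ (-β) * (M (P b) x h) ^ (-β)) ≤
        (M (P (a ⊔ b)) x h) ^ (-β) * (M (P (a ⊓ b)) x h) ^ (-β) := by
      rw [hc1, ← Real.mul_rpow hA.le hB.le, ← Real.mul_rpow hU.le hI.le,
        ← Real.mul_rpow hC20.le (by positivity)]
      exact Real.rpow_le_rpow_of_nonpos (by positivity) h3 (by linarith)
    have h5 : wt r β ε rk P (a ⊔ b) x h * wt r β ε rk P (a ⊓ b) x h ≤ g * g :=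
      mul_le_mul (hle _) (hle _) (hwt _ _ _ hh).le hg0.le
    have h6 : (τ * g) * (τ * g) < wt r β ε rk P a x h * wt r β ε rk P b x h :=
      mul_lt_mul'' ha hb (by positivity) (by positivity)
    have h7 : c1 * (wt r β ε rk P a x h * wt r β ε rk P b x h) ≤ ε ^ (2 * j ^ 2) *
        (wt r β ε rk P (a ⊔ b) x h * wt r β ε rk P (a ⊓ b) x h) := by
      unfold wt
      rw [← hab]
      calc c1 * (ε ^ (rk a * (r - rk a)) * M (P a) x h ^ (-β) * (ε ^ (rk a * (r - rk a)) * M (P b) x h ^ (-β)))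
          = ε ^ (2 * (rk a * (r - rk a))) * (c1 * (M (P a) x h ^ (-β) * M (P b) x h ^ (-β))) := by
            rw [two_mul, pow_add]; ring
        _ ≤ ε ^ (2 * (rk a * (r - rk a))) * (M (P (a ⊔ b)) x h ^ (-β) * M (P (a ⊓ b)) x h ^ (-β)) := by
            gcongr
        _ = _ := by
            rw [← e1, pow_add, pow_add]
            ring
    have h8 : ε ^ (2 * j ^ 2) ≤ ε ^ 2 := by
      apply pow_le_pow_of_le_one hε0.le hε1
      nlinarith
    have h9 : c1 * ((τ * g) * (τ * g)) < ε ^ 2 * (g * g) := by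
      calc c1 * ((τ * g) * (τ * g)) < c1 * (wt r β ε rk P a x h * wt r β ε rk P b x h) := by gcongr
        _ ≤ _ := h7
        _ ≤ ε ^ 2 * (g * g) := by
          have hp1 := hwt (a ⊔ b) x h hh
          have hp2 := hwt (a ⊓ b) x h hh
          gcongr
    have h10 : ε ^ 2 ≤ c1 * τ ^ 2 := by
      rw [hε]
      have : (c1 / 2 * τ) ^ 2 = c1 * (c1 / 4 * τ ^ 2) := by ring
      rw [this]
      have h11 : c1 / 4 * τ ^ 2 ≤ 1 * τ ^ 2 := by gcongr; linarith
      nlinarith
    have h11 : c1 * τ ^ 2 * (g * g) < ε ^ 2 * (g * g) := by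
      calc c1 * τ ^ 2 * (g * g) = c1 * ((τ * g) * (τ * g)) := by ring
        _ < _ := h9
    have h12 : ε ^ 2 * (g * g) ≤ c1 * τ ^ 2 * (g * g) := by gcongr
    linarith
  -- the exceptional elements
  classical
  set E : ℕ → ℕ → ℝ := fun i l => if hx : ∃ a, rk a = i ∧ τ * g < wt r β ε rk P a x h then
    wt r β ε rk P hx.choose (x + l * (h / K)) (h / K) else 0 with hE
  have hE0 : ∀ i l, 0 ≤ E i l := by
    intro i l
    rw [hE]
    simp only
    split_ifs with hx
    · exact (hwt _ _ _ hw).le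
    · exact le_rfl
  have hEs : ∀ i, ∑ l ∈ Finset.range K, E i l ≤ Cb * K * g := by
    intro i
    by_cases hx : ∃ a, rk a = i ∧ τ * g < wt r β ε rk P a x h
    · have e1 : ∀ l, E i l = ε ^ (rk hx.choose * (r - rk hx.choose)) *
          (M (P hx.choose) (x + l * (h / K)) (h / K)) ^ (-β) := by
        intro l
        rw [hE]
        simp only
        rw [dif_pos hx]
        rfl
      simp only [e1]
      rw [← Finset.mul_sum]
      have h1 := hpow (P hx.choose) (hS.deg _) (fun t => abs_pos.2 (hS.pos _ t).ne') x h hh K hK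
      calc _ ≤ ε ^ (rk hx.choose * (r - rk hx.choose)) * (Cb * K * (M (P hx.choose) x h) ^ (-β)) := by
            gcongr
        _ = Cb * K * wt r β ε rk P hx.choose x h := by unfold wt; ring
        _ ≤ _ := by
          have := hle hx.choose
          gcongr
    · have e1 : ∀ l, E i l = 0 := by
        intro l
        rw [hE]
        simp only
        rw [dif_neg hx]
      simp only [e1, Finset.sum_const_zero]
      positivity
  have hmain : ∀ l < K, ∀ a, wt r β ε rk P a (x + l * (h / K)) (h / K) ≤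
      g + ∑ i ∈ Finset.range (r + 1), E i l := by
    intro l hl a
    by_cases ha : τ * g < wt r β ε rk P a x h
    · have hx : ∃ b, rk b = rk a ∧ τ * g < wt r β ε rk P b x h := ⟨a, rfl, ha⟩
      have e1 : hx.choose = a := huniq _ _ hx.choose_spec.1 hx.choose_spec.2 ha
      have e2 : E (rk a) l = wt r β ε rk P a (x + l * (h / K)) (h / K) := by
        rw [hE]
        simp only
        rw [dif_pos hx, e1]
      rw [← e2]
      have h1 : E (rk a) l ≤ ∑ i ∈ Finset.range (r + 1), E i l :=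
        Finset.single_le_sum (f := fun i => E i l) (fun i _ => hE0 i l)
          (Finset.mem_range.2 (Nat.lt_succ_of_le (hS.rk_le a)))
      linarith
    · have h1 := (hchild l hl a).trans (not_lt.1 ha)
      have h2 : wt r β ε rk P a (x + l * (h / K)) (h / K) ≤ g := by
        rw [mul_comm τ g] at h1
        exact le_of_mul_le_mul_right h1 hτ0
      have h3 : 0 ≤ ∑ i ∈ Finset.range (r + 1), E i l := Finset.sum_nonneg fun i _ => hE0 i l
      linarith
  calc ∑ l ∈ Finset.range K, G r β ε rk P (x + l * (h / K)) (h / K)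
      ≤ ∑ l ∈ Finset.range K, ENNReal.ofReal (g + ∑ i ∈ Finset.range (r + 1), E i l) := by
        apply Finset.sum_le_sum
        intro l hl
        exact iSup_le fun a => ENNReal.ofReal_le_ofReal (hmain l (Finset.mem_range.1 hl) a)
    _ = ENNReal.ofReal (∑ l ∈ Finset.range K, (g + ∑ i ∈ Finset.range (r + 1), E i l)) := by
        rw [ENNReal.ofReal_sum_of_nonneg]
        intro l _
        have : 0 ≤ ∑ i ∈ Finset.range (r + 1), E i l := Finset.sum_nonneg fun i _ => hE0 i l
        linarith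
    _ ≤ ENNReal.ofReal ((1 + (r + 1) * Cb) * K * g) := by
        apply ENNReal.ofReal_le_ofReal
        rw [Finset.sum_add_distrib, Finset.sum_comm]
        have h1 : ∑ i ∈ Finset.range (r + 1), ∑ l ∈ Finset.range K, E i l ≤
            ∑ i ∈ Finset.range (r + 1), Cb * K * g := Finset.sum_le_sum fun i _ => hEs i
        simp only [Finset.sum_const, Finset.card_range, nsmul_eq_mul] at h1 ⊢
        push_cast at h1
        nlinarith
    _ = ENNReal.ofReal ((1 + (r + 1) * Cb) * K) * G r β ε rk P x h := by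
        rw [hGg, ← ENNReal.ofReal_mul (by positivity)]

theorem lint_biUnion_le {X ι : Type*} [MeasurableSpace X] {μ : Measure X} (f : X → ℝ≥0∞) (A : ι → Set X)
    (s : Finset ι) : ∫⁻ t in ⋃ i ∈ s, A i, f t ∂μ ≤ ∑ i ∈ s, ∫⁻ t in A i, f t ∂μ := by
  classical
  induction s using Finset.induction_on with
  | empty => simp
  | insert a s ha ih =>
    rw [Finset.set_biUnion_insert, Finset.sum_insert ha]
    exact (lintegral_union_le _ _ _).trans (by gcongr)

/-- **The integral bound.** -/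
theorem integ {S : Type} {r K : ℕ} (hK : 1 ≤ K) {β ε C1 : ℝ} (hC1 : 0 ≤ C1) {rk : S → ℕ} {P : S → ℝ[X]}
    (hst : ∀ x h : ℝ, 0 < h → ∑ l ∈ Finset.range K, G r β ε rk P (x + l * (h / K)) (h / K) ≤
        ENNReal.ofReal (C1 * K) * G r β ε rk P x h)
    {δ : ℝ} {F : ℝ → ℝ≥0∞} {C0 : ℝ≥0∞}
    (hF : ∀ x h : ℝ, 0 < h → h ≤ δ → ∀ t ∈ Icc x (x + h), F t ≤ C0 * G r β ε rk P x h) :
    ∀ (J : ℕ) (x h : ℝ), 0 < h → h ≤ δ * K ^ J → ∫⁻ t in Icc x (x + h), F t ≤
      C0 * ENNReal.ofReal (C1 ^ J * h) * G r β ε rk P x h := by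
  have hK0 : (0 : ℝ) < K := by exact_mod_cast hK
  intro J
  induction J with
  | zero =>
    intro x h hh hle
    rw [pow_zero, mul_one] at hle
    calc ∫⁻ t in Icc x (x + h), F t ≤ ∫⁻ t in Icc x (x + h), C0 * G r β ε rk P x h :=
          setLIntegral_mono' measurableSet_Icc (fun t ht => hF x h hh hle t ht)
      _ = C0 * ENNReal.ofReal (C1 ^ 0 * h) * G r β ε rk P x h := by
          rw [setLIntegral_const, Real.volume_Icc, pow_zero, one_mul]
          rw [show x + h - x = h by ring]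
          ring
  | succ J ih =>
    intro x h hh hle
    have hw : 0 < h / K := by positivity
    have hle' : h / K ≤ δ * K ^ J := by
      rw [div_le_iff₀ hK0]
      calc h ≤ _ := hle
        _ = _ := by ring
    have hcov : Icc x (x + h) ⊆ ⋃ l ∈ Finset.range K, Icc (x + l * (h / K)) (x + l * (h / K) + h / K) := by
      intro t ht
      have hq : 0 ≤ (t - x) / (h / K) := div_nonneg (by linarith [ht.1]) hw.le
      rcases lt_or_ge ⌊(t - x) / (h / K)⌋₊ K with h1 | h1
      · simp only [mem_iUnion, exists_prop, Finset.mem_range]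
        refine ⟨⌊(t - x) / (h / K)⌋₊, h1, ?_, ?_⟩
        · have := Nat.floor_le hq
          rw [le_div_iff₀ hw] at this
          linarith
        · have := (Nat.lt_floor_add_one ((t - x) / (h / K))).le
          rw [div_le_iff₀ hw] at this
          linarith
      · -- the right end point
        have h2 : (K : ℝ) ≤ (t - x) / (h / K) := (by exact_mod_cast h1 : (K : ℝ) ≤ ⌊(t - x) / (h / K)⌋₊).trans
          (Nat.floor_le hq)
        rw [le_div_iff₀ hw] at h2
        have e1 : (K : ℝ) * (h / K) = h := by field_simp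
        have e2 : t = x + h := le_antisymm ht.2 (by linarith)
        simp only [mem_iUnion, exists_prop, Finset.mem_range]
        refine ⟨K - 1, by omega, ?_⟩
        have e3 : ((K - 1 : ℕ) : ℝ) = K - 1 := by
          rw [Nat.cast_sub hK, Nat.cast_one]
        rw [e3, e2]
        constructor
        · nlinarith
        · nlinarith
    calc ∫⁻ t in Icc x (x + h), F t
        ≤ ∫⁻ t in ⋃ l ∈ Finset.range K, Icc (x + l * (h / K)) (x + l * (h / K) + h / K), F t :=
          lintegral_mono_set hcov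
      _ ≤ ∑ l ∈ Finset.range K, ∫⁻ t in Icc (x + l * (h / K)) (x + l * (h / K) + h / K), F t :=
          lint_biUnion_le _ _ _
      _ ≤ ∑ l ∈ Finset.range K, C0 * ENNReal.ofReal (C1 ^ J * (h / K)) *
            G r β ε rk P (x + l * (h / K)) (h / K) := by
          apply Finset.sum_le_sum
          intro l _
          exact ih _ _ hw hle'
      _ = C0 * ENNReal.ofReal (C1 ^ J * (h / K)) *
            ∑ l ∈ Finset.range K, G r β ε rk P (x + l * (h / K)) (h / K) := by rw [Finset.mul_sum]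
      _ ≤ C0 * ENNReal.ofReal (C1 ^ J * (h / K)) * (ENNReal.ofReal (C1 * K) * G r β ε rk P x h) := by
          gcongr
          exact hst x h hh
      _ = C0 * ENNReal.ofReal (C1 ^ (J + 1) * h) * G r β ε rk P x h := by
          rw [← mul_assoc, mul_assoc C0, ← ENNReal.ofReal_mul (by positivity)]
          congr 3
          rw [pow_succ]
          field_simp

end Pool.Agent.N250.GAP
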