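import Pool.Agent.N250.GAP.Graph
import Pool.Agent.H810R3.Tub.Per2
import Pool.Agent.R134.Kak.Large

/-!
# The integral inequality for boxes dual to caps, for families in progressions
-/

open MeasureTheory Set ENNReal NNReal Metric Matrix

namespace Pool.Agent.N250.GAP

open Pool.Agent.H810R3.Tub (Space box nor Fb Fb_measurable box_coord)

variable {d : ℕ}

theorem box_int {r : ℕ} (hr : 1 ≤ r) (hd : 1 ≤ d) {q : ℝ} (hq : 1 < (q - 1) * d) {K : ℝ} (hK : 1 ≤ K)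
    {σ : ℝ} (hσ : 0 < σ) (hσ1 : σ ≤ 1) : ∃ E : ℝ, 0 < E ∧
    ∀ N : ℝ, 1 ≤ N → ∀ (ι : Type) [Fintype ι] [Nonempty ι] (ω β : ι → Vec d) (s : ι → ℝ)
      (f : ι → Fin d → Space d) (L : Fin r → ℕ) (V A : Matrix (Fin d) (Fin r) ℝ) (k : ι → Fin r → ℤ),
    (∀ i, ‖ω i‖ ≤ 1) → (∀ i j, i ≠ j → σ / N ≤ ‖ω i - ω j‖) →
    (∀ i, Orthonormal ℝ (Fin.cons (nor (ω i)) (f i) : Fin (d + 1) → Space d)) →
    (∀ i j, 0 ≤ k i j ∧ k i j < L j) →
    (∀ i j, ((ω j - ω i : Vec d).ofLp : Fin d → ℝ) = V *ᵥ (fun l => (((k j - k i) l : ℤ) : ℝ))) →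
    (∀ i j, ((β j - β i : Vec d).ofLp : Fin d → ℝ) = A *ᵥ (fun l => (((k j - k i) l : ℤ) : ℝ))) →
    ((∏ j, L j : ℕ) : ℝ) ≤ K * Fintype.card ι →
    ∫⁻ y, Fb N ω f (fun i => WithLp.toLp 2 (β i + s i • (-(2 : ℝ) • ω i), s i)) y ^ q ≤
      ENNReal.ofReal (E * N ^ (d + 2) * (Fintype.card ι : ℝ) ^ (q - 1 / (d : ℝ))) := by
  have hd0 : (0 : ℝ) < d := by exact_mod_cast hd
  have hd1 : (1 : ℝ) ≤ d := by exact_mod_cast hd
  have hq0 : 0 < q := by
    by_contra h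
    push Not at h
    nlinarith
  obtain ⟨C, hC, hmain⟩ := graph_main hr hd hq hK (H := (1 + (d : ℝ)) / 2) (ρ := 2 * d / σ) (B := 2)
    (by linarith) (by positivity) (by norm_num)
  refine ⟨C * σ ^ d, by positivity, ?_⟩
  intro N hN ι _ _ ω β s f L V A k hω hsep hf hk hV hA hL
  have hN0 : 0 < N := by linarith
  have h1 := hmain (σ / N) (by positivity) (by rw [div_le_one hN0]; linarith) (N ^ 2) (by positivity) ι
    (fun i => -(2 : ℝ) • ω i) β s L (-(2 : ℝ) • V) A k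
    (fun i => by
      rw [norm_smul, norm_neg, Real.norm_eq_abs, abs_of_pos (by norm_num : (0 : ℝ) < 2)]
      linarith [hω i])
    (fun i j hij => by
      rw [← smul_sub, norm_smul, norm_neg, Real.norm_eq_abs, abs_of_pos (by norm_num : (0 : ℝ) < 2)]
      have := hsep i j hij
      have h0 : 0 ≤ ‖ω i - ω j‖ := norm_nonneg _
      linarith)
    hk (fun i j => by
      rw [smul_mulVec, ← hV i j, ← smul_sub]
      rfl)
    hA hL
  rw [fub ((Fb_measurable N ω f _).pow_const q)]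
  have hR : C * (σ / N) ^ d * (N ^ 2) ^ (d + 1) * (Fintype.card ι : ℝ) ^ (q - 1 / (d : ℝ)) =
      C * σ ^ d * N ^ (d + 2) * (Fintype.card ι : ℝ) ^ (q - 1 / (d : ℝ)) := by
    have e : (σ / N) ^ d * (N ^ 2) ^ (d + 1) = σ ^ d * N ^ (d + 2) := by
      rw [div_pow, div_mul_eq_mul_div, div_eq_iff (by positivity), ← pow_mul]
      ring
    rw [mul_assoc C, e]
    ring
  rw [hR] at h1
  refine le_trans ?_ h1
  refine lintegral_mono fun t => lintegral_mono fun x => ENNReal.rpow_le_rpow ?_ hq0.le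
  unfold Fb
  refine Finset.sum_le_sum fun i _ => ?_
  by_cases hm : (WithLp.toLp 2 (x, t) : Space d) ∈ box N (nor (ω i)) (f i)
      (WithLp.toLp 2 (β i + s i • (-(2 : ℝ) • ω i), s i))
  · rw [indicator_of_mem hm]
    obtain ⟨g1, g2⟩ := box_coord hN (hω i) (hf i) hm
    have e1 : ((WithLp.toLp 2 (x, t) : Space d) - WithLp.toLp 2 (β i + s i • (-(2 : ℝ) • ω i), s i)).snd =
      t - s i := rfl
    have e2 : ((WithLp.toLp 2 (x, t) : Space d) - WithLp.toLp 2 (β i + s i • (-(2 : ℝ) • ω i), s i)).fst =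
        x - (β i + s i • (-(2 : ℝ) • ω i)) := rfl
    rw [e1] at g1 g2
    rw [e2] at g1
    rw [gt_of_mem]
    · refine g2.trans (le_of_eq ?_)
      ring
    · have e3 : x - (β i + t • -(2 : ℝ) • ω i) = x - (β i + s i • (-(2 : ℝ) • ω i)) + (2 * (t - s i)) • ω i := by
        module
      rw [e3]
      refine g1.trans (le_of_eq ?_)
      field_simp
  · rw [indicator_of_notMem hm]
    exact bot_le

end Pool.Agent.N250.GAP
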