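import Pool.Agent.N250.GAP.Fam

/-!
# The polynomials attached to a progression of lines, and the starting estimate
-/

open Matrix Module Polynomial MeasureTheory
open scoped ENNReal

namespace Pool.Agent.N250.GAP

/-- a linear pencil applied to a family of integer vectors -/
noncomputable def Lp {r : ℕ} {ρ κ : Type} (X0 X1 : Matrix ρ (Fin r) ℝ) (x : κ → Fin r → ℤ) :
    Matrix ρ κ ℝ[X] := of fun s k => C ((X0 * Rm x) s k) + C ((X1 * Rm x) s k) * X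

theorem natDegree_Lp {r : ℕ} {ρ κ : Type} (X0 X1 : Matrix ρ (Fin r) ℝ) (x : κ → Fin r → ℤ) (s : ρ) (k : κ) :
    (Lp X0 X1 x s k).natDegree ≤ 1 := by
  unfold Lp
  rw [of_apply]
  refine (natDegree_add_le _ _).trans ?_
  rw [natDegree_C]
  refine max_le (Nat.zero_le _) ((natDegree_mul_le).trans ?_)
  rw [natDegree_C, natDegree_X]

theorem eval_Lp {r : ℕ} {ρ κ : Type} [Fintype ρ] [Fintype κ] [DecidableEq κ]
    (X0 X1 : Matrix ρ (Fin r) ℝ) (x : κ → Fin r → ℤ) (t : ℝ) :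
    ((Lp X0 X1 x)ᵀ * Lp X0 X1 x).det.eval t = (gm ((X0 + t • X1)ᵀ * (X0 + t • X1)) x).det := by
  have h1 := (Polynomial.evalRingHom t).map_det ((Lp X0 X1 x)ᵀ * Lp X0 X1 x)
  rw [Polynomial.coe_evalRingHom] at h1
  rw [h1]
  congr 1
  have e1 : (Lp X0 X1 x).map (Polynomial.evalRingHom t) = (X0 + t • X1) * Rm x := by
    ext s k
    rw [Matrix.map_apply, Polynomial.coe_evalRingHom, Matrix.add_mul, Matrix.smul_mul, Matrix.add_apply,
      Matrix.smul_apply, smul_eq_mul]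
    unfold Lp
    rw [of_apply, eval_add, eval_mul, eval_C, eval_C, eval_X]
    ring
  rw [RingHom.mapMatrix_apply, Matrix.map_mul, Matrix.transpose_map, e1]
  unfold gm
  rw [transpose_mul]
  simp only [Matrix.mul_assoc]

variable {r d : ℕ}

noncomputable def W0 (N : Fin r → ℝ) (V A : Matrix (Fin d) (Fin r) ℝ) (δ : ℝ) :
    Matrix ((Fin r ⊕ Fin d) ⊕ Fin d) (Fin r) ℝ := fromRows (Wc N V) (δ⁻¹ • A)

noncomputable def W1 (V : Matrix (Fin d) (Fin r) ℝ) (δ : ℝ) :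
    Matrix ((Fin r ⊕ Fin d) ⊕ Fin d) (Fin r) ℝ := fromRows 0 (δ⁻¹ • V)

noncomputable def U0 (N : Fin r → ℝ) (V A : Matrix (Fin d) (Fin r) ℝ) (δ : ℝ) :
    Matrix ((Fin r ⊕ Fin d) ⊕ Fin d) (Fin r) ℝ := fromRows (Wc N (-A)) (δ⁻¹ • V)

noncomputable def U1 (V A : Matrix (Fin d) (Fin r) ℝ) (δ : ℝ) :
    Matrix ((Fin r ⊕ Fin d) ⊕ Fin d) (Fin r) ℝ := fromRows (fromRows 0 V) (δ⁻¹ • A)

theorem Wt_eq (N : Fin r → ℝ) (V A : Matrix (Fin d) (Fin r) ℝ) (δ t : ℝ) :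
    Wt N V A δ t = W0 N V A δ + t • W1 V δ := by
  ext s k
  rcases s with s | s
  · simp [Wt, W0, W1]
  · simp [Wt, W0, W1]
    ring

theorem Us_eq (N : Fin r → ℝ) (V A : Matrix (Fin d) (Fin r) ℝ) (δ t : ℝ) :
    Us N V A δ t = U0 N V A δ + t • U1 V A δ := by
  ext s k
  rcases s with (s | s) | s
  · simp [Us, U0, U1, Wc]
  · simp [Us, U0, U1, Wc]
    ring
  · simp [Us, U0, U1]
    ring

/-- the polynomial `t ↦ DD (At t) a` -/
noncomputable def PP (N : Fin r → ℝ) (V A : Matrix (Fin d) (Fin r) ℝ) (δ : ℝ)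
    (a : Submodule ℚ (Fin r → ℚ)) : ℝ[X] :=
  ((Lp (W0 N V A δ) (W1 V δ) (fun i => (bs a i : Fin r → ℤ)))ᵀ *
    Lp (W0 N V A δ) (W1 V δ) (fun i => (bs a i : Fin r → ℤ))).det

/-- the polynomial `s ↦ DD (Hs s) a` -/
noncomputable def QQ (N : Fin r → ℝ) (V A : Matrix (Fin d) (Fin r) ℝ) (δ : ℝ)
    (a : Submodule ℚ (Fin r → ℚ)) : ℝ[X] :=
  ((Lp (U0 N V A δ) (U1 V A δ) (fun i => (bs a i : Fin r → ℤ)))ᵀ *
    Lp (U0 N V A δ) (U1 V A δ) (fun i => (bs a i : Fin r → ℤ))).det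

theorem PP_eval (N : Fin r → ℝ) (V A : Matrix (Fin d) (Fin r) ℝ) (δ : ℝ)
    (a : Submodule ℚ (Fin r → ℚ)) (t : ℝ) : (PP N V A δ a).eval t = DD (At N V A δ t) a := by
  unfold PP DD At
  rw [eval_Lp, ← Wt_eq]

theorem QQ_eval (N : Fin r → ℝ) (V A : Matrix (Fin d) (Fin r) ℝ) (δ : ℝ)
    (a : Submodule ℚ (Fin r → ℚ)) (t : ℝ) : (QQ N V A δ a).eval t = DD (Hs N V A δ t) a := by
  unfold QQ DD Hs
  rw [eval_Lp, ← Us_eq]

theorem rk_le (a : Submodule ℚ (Fin r → ℚ)) : finrank ℚ a ≤ r := by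
  have := Submodule.finrank_le a
  rwa [finrank_fin_fun] at this

theorem PP_deg (N : Fin r → ℝ) (V A : Matrix (Fin d) (Fin r) ℝ) (δ : ℝ)
    (a : Submodule ℚ (Fin r → ℚ)) : (PP N V A δ a).natDegree ≤ 2 * d := by
  apply natDegree_gram
  · intro s k
    unfold Lp
    rw [of_apply]
    have : (W1 V δ * Rm fun i => (bs a i : Fin r → ℤ)) (Sum.inl s) k = 0 := by
      rw [Matrix.mul_apply]
      apply Finset.sum_eq_zero
      intro j _
      simp [W1]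
    rw [this, C_0, zero_mul, add_zero, natDegree_C]
  · intro s k
    exact natDegree_Lp _ _ _ _ _

theorem QQ_deg (N : Fin r → ℝ) (V A : Matrix (Fin d) (Fin r) ℝ) (δ : ℝ)
    (a : Submodule ℚ (Fin r → ℚ)) : (QQ N V A δ a).natDegree ≤ 2 * r := by
  apply natDegree_gram' (by rw [Fintype.card_fin, finrank_N]; exact rk_le a)
  intro s k
  exact natDegree_Lp _ _ _ _ _

/-- the system of polynomials -/
theorem sys {N : Fin r → ℝ} (hN : ∀ j, 0 < N j) (V A : Matrix (Fin d) (Fin r) ℝ) (δ : ℝ) :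
    Sys (Submodule ℚ (Fin r → ℚ)) r (2 * d) (fun a => finrank ℚ a) (PP N V A δ) where
  rk_le := rk_le
  modular := by
    intro a b hne hab
    have h1 := Submodule.finrank_sup_add_finrank_inf_eq a b
    have h2 : finrank ℚ (a ⊓ b : Submodule ℚ (Fin r → ℚ)) < finrank ℚ a := by
      apply Submodule.finrank_lt_finrank_of_lt
      refine lt_of_le_of_ne inf_le_left ?_
      intro h
      apply hne
      exact Submodule.eq_of_le_of_finrank_eq (inf_eq_left.1 h) hab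
    refine ⟨finrank ℚ a - finrank ℚ (a ⊓ b : Submodule ℚ (Fin r → ℚ)), by omega, ?_, ?_⟩
    · omega
    · omega
  deg := PP_deg N V A δ
  pos := by
    intro a t
    rw [PP_eval]
    exact DD_pos (At_posDef hN t) a
  sub := by
    intro a b t
    simp only [PP_eval]
    exact DD_sub (At_posDef hN t) a b

/-- separation: a nonzero vector of the box does not have both a small slope and a small position -/
def SepBox (N : Fin r → ℝ) (V A : Matrix (Fin d) (Fin r) ℝ) (δ : ℝ) : Prop :=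
  ∀ n : Fin r → ℤ, n ≠ 0 → (∀ j, |(n j : ℝ)| ≤ N j) → ‖A *ᵥ (fun j => (n j : ℝ))‖ < 1 →
    δ ≤ ‖V *ᵥ (fun j => (n j : ℝ))‖

theorem sep_one {N : Fin r → ℝ} (hN : ∀ j, 0 < N j) {V A : Matrix (Fin d) (Fin r) ℝ} {δ : ℝ}
    (hδ : 0 < δ) (hs : SepBox N V A δ) (n : Fin r → ℤ) (hn : n ≠ 0) : 1 ≤ qf (Hs N V A δ 0) n := by
  by_contra hcon
  push Not at hcon
  unfold qf at hcon
  rw [Hs_quad] at hcon
  set z : Fin r → ℝ := fun j => (n j : ℝ) with hz
  have p1 : 0 ≤ ∑ j, ((N j)⁻¹ * z j) ^ 2 := Finset.sum_nonneg fun j _ => sq_nonneg _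
  have p2 : ∀ k, 0 ≤ (0 * (V *ᵥ z) k - (A *ᵥ z) k) ^ 2 + (δ⁻¹ * (0 * (A *ᵥ z) k + (V *ᵥ z) k)) ^ 2 :=
    fun k => by positivity
  have p3 : 0 ≤ ∑ k, ((0 * (V *ᵥ z) k - (A *ᵥ z) k) ^ 2 + (δ⁻¹ * (0 * (A *ᵥ z) k + (V *ᵥ z) k)) ^ 2) :=
    Finset.sum_nonneg fun k _ => p2 k
  have h1 : ∀ j, |(n j : ℝ)| ≤ N j := by
    intro j
    have h2 : ((N j)⁻¹ * z j) ^ 2 ≤ ∑ j, ((N j)⁻¹ * z j) ^ 2 :=
      Finset.single_le_sum (f := fun j => ((N j)⁻¹ * z j) ^ 2) (fun j _ => sq_nonneg _) (Finset.mem_univ j)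
    have h3 : ((N j)⁻¹ * z j) ^ 2 ≤ 1 := by linarith
    rw [sq_le_one_iff_abs_le_one, abs_mul, abs_of_pos (inv_pos.2 (hN j)), inv_mul_le_iff₀ (hN j), mul_one] at h3
    exact h3
  have h4 : ∀ k, |(A *ᵥ z) k| < 1 ∧ |(V *ᵥ z) k| < δ := by
    intro k
    have h5 := Finset.single_le_sum (f := fun k => (0 * (V *ᵥ z) k - (A *ᵥ z) k) ^ 2 +
      (δ⁻¹ * (0 * (A *ᵥ z) k + (V *ᵥ z) k)) ^ 2) (fun k _ => p2 k) (Finset.mem_univ k)
    simp only [zero_mul, zero_sub, zero_add] at h5 hcon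
    have h6 : (-(A *ᵥ z) k) ^ 2 + (δ⁻¹ * (V *ᵥ z) k) ^ 2 < 1 := by linarith
    have q1 := sq_nonneg (-(A *ᵥ z) k)
    have q2 := sq_nonneg (δ⁻¹ * (V *ᵥ z) k)
    constructor
    · have : (-(A *ᵥ z) k) ^ 2 < 1 := by linarith
      rw [neg_sq] at this
      exact (sq_lt_one_iff_abs_lt_one _).1 this
    · have : (δ⁻¹ * (V *ᵥ z) k) ^ 2 < 1 := by linarith
      rw [sq_lt_one_iff_abs_lt_one, abs_mul, abs_of_pos (inv_pos.2 hδ), inv_mul_lt_iff₀ hδ, mul_one] at this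
      exact this
  have h7 : ‖A *ᵥ z‖ < 1 := (pi_norm_lt_iff one_pos).2 fun k => by
    rw [Real.norm_eq_abs]
    exact (h4 k).1
  have h8 : ‖V *ᵥ z‖ < δ := (pi_norm_lt_iff hδ).2 fun k => by
    rw [Real.norm_eq_abs]
    exact (h4 k).2
  exact absurd (hs n hn h1 h7) (not_le.2 h8)

/-- the starting estimate, first part -/
theorem DD_start (hr : 1 ≤ r) {N : Fin r → ℝ} (hN : ∀ j, 0 < N j) {V A : Matrix (Fin d) (Fin r) ℝ} {δ : ℝ}
    (hδ : 0 < δ) (hs : SepBox N V A δ) (a : Submodule ℚ (Fin r → ℚ)) :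
    (1 / (4 * (r : ℝ))) ^ r ≤ DD (Hs N V A δ 0) a := by
  unfold DD
  set x : Fin (finrank ℤ (GAP.N a)) → Fin r → ℤ := fun i => (bs a i : Fin r → ℤ) with hx
  have hxi : LinearIndependent ℤ x := basis_indep (bs a)
  have h1 := minkowski (gm_posDef (Hs_posDef (V := V) (A := A) (δ := δ) hN 0) hxi) (by
    intro y hy
    have h2 := sep_one hN hδ hs (∑ j, y j • x j) (by
      intro h0
      apply hy
      ext j
      exact Fintype.linearIndependent_iff.1 hxi y h0 j)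
    refine h2.trans (le_of_eq ?_)
    have h3 : Rm x *ᵥ (fun j => (y j : ℝ)) = fun k => (((∑ j, y j • x j) k : ℤ) : ℝ) := by
      ext k
      simp only [mulVec, dotProduct, Rm, of_apply, Finset.sum_apply, Pi.smul_apply, smul_eq_mul]
      push_cast
      exact Finset.sum_congr rfl fun j _ => mul_comm _ _
    unfold qf gm
    rw [← h3, ← mulVec_mulVec, ← mulVec_mulVec, dotProduct_mulVec _ (Rm x)ᵀ, vecMul_transpose])
  refine le_trans ?_ h1
  have hk : finrank ℤ (GAP.N a) ≤ r := by rw [finrank_N]; exact rk_le a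
  set k := finrank ℤ (GAP.N a) with hkdef
  have hr0 : (0 : ℝ) < r := by exact_mod_cast hr
  have hr1 : 1 / (4 * (r : ℝ)) ≤ 1 := by
    rw [div_le_one (by positivity)]
    have : (1 : ℝ) ≤ r := by exact_mod_cast hr
    linarith
  calc (1 / (4 * (r : ℝ))) ^ r ≤ (1 / (4 * (r : ℝ))) ^ k := pow_le_pow_of_le_one (by positivity) hr1 hk
    _ ≤ (1 / (4 * (k : ℝ))) ^ k := by
      rcases Nat.eq_zero_or_pos k with h0 | h0
      · rw [h0, pow_zero, pow_zero]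
      · have hk0 : (0 : ℝ) < k := by exact_mod_cast h0
        have hkr : (k : ℝ) ≤ r := by exact_mod_cast hk
        gcongr

/-- **The starting estimate.** -/
theorem start (hr : 1 ≤ r) : ∃ c : ℝ, 0 < c ∧ ∀ (d : ℕ) (N : Fin r → ℝ), (∀ j, 0 < N j) →
    ∀ (V A : Matrix (Fin d) (Fin r) ℝ) (δ : ℝ), 0 < δ → δ ≤ 1 → SepBox N V A δ →
    ∀ a, c ≤ M (PP N V A δ a) (-1) 2 := by
  have hr0 : (0 : ℝ) < r := by exact_mod_cast hr
  set Q : ℝ := (((2 * r : ℕ) : ℝ) + 1) * (((2 * r : ℕ) : ℝ) * 2 / 1) ^ (2 * r) with hQ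
  have hQ0 : 0 < Q := by positivity
  refine ⟨(1 / (4 * (r : ℝ))) ^ r / Q / 18 ^ r, by positivity, ?_⟩
  intro d N hN V A δ hδ hδ1 hs a
  have h1 := DD_start hr hN hδ hs a
  have h2 := M_comp (D := 2 * r) (by omega) (QQ_deg N V A δ a) (x := 0) (h := 0) (x' := 1) (h' := 1)
    (L := 2) one_pos le_rfl (fun z hz y hy => by
      rw [abs_le]
      constructor
      · linarith [hz.1, hy.2]
      · linarith [hz.2, hy.1]) (by norm_num)
  have h3 := le_M (P := QQ N V A δ a) (x := 0) (h := 0) (t := 0) ⟨le_rfl, by norm_num⟩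
  rw [QQ_eval] at h3
  obtain ⟨s, hs1, hs2⟩ := exists_M (P := QQ N V A δ a) (x := 1) (h := 1) zero_le_one
  rw [QQ_eval, abs_of_pos (DD_pos (Hs_posDef hN s) a)] at hs2
  have hs3 : s ≤ 2 := by linarith [hs1.2]
  have hs0 : 0 < s := by linarith [hs1.1]
  have h4 := DD_rot (V := V) (A := A) hN hδ hδ1 hs1.1 hs3 a
  have h5 : |(PP N V A δ a).eval (1 / s)| ≤ M (PP N V A δ a) (-1) 2 := by
    apply le_M
    constructor
    · have : 0 < 1 / s := by positivity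
      linarith
    · have : 1 / s ≤ 1 := by
        rw [div_le_one hs0]
        exact hs1.1
      linarith
  rw [PP_eval, abs_of_pos (DD_pos (At_posDef hN _) a)] at h5
  have h6 : (1 / (4 * (r : ℝ))) ^ r ≤ Q * (18 ^ r * M (PP N V A δ a) (-1) 2) := by
    calc _ ≤ DD (Hs N V A δ 0) a := h1
      _ ≤ |DD (Hs N V A δ 0) a| := le_abs_self _
      _ ≤ _ := h3
      _ ≤ Q * M (QQ N V A δ a) 1 1 := h2
      _ = Q * DD (Hs N V A δ s) a := by rw [hs2]
      _ ≤ Q * (18 ^ r * DD (At N V A δ (1 / s)) a) := by gcongr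
      _ ≤ _ := by gcongr
  rw [div_div, div_le_iff₀ (by positivity)]
  linarith

end Pool.Agent.N250.GAP
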