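import Pool.Agent.N250.GAP.Tree2
import Pool.Agent.N250.GAP.Fam2

/-!
# Counting the lines of a progression which are close at the height `t`
-/

open Matrix Module Polynomial MeasureTheory Set
open scoped ENNReal

namespace Pool.Agent.N250.GAP

/-- nondivergence for the forms of a progression -/
theorem free_At {r d : ℕ} (hd : 1 ≤ d) {β : ℝ} (hβ : 0 < β) (hβd : β * ((2 * d : ℕ) : ℝ) < 1) :
    ∃ C : ℝ, 0 < C ∧ ∀ (N : Fin r → ℝ), (∀ j, 0 < N j) → ∀ (V A : Matrix (Fin d) (Fin r) ℝ)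
    (δ : ℝ), 0 < δ → ∀ (x h : ℝ), 0 < h → ∀ c : ℝ, 0 < c → (∀ a, c ≤ M (PP N V A δ a) x h) →
      ∫⁻ t in Icc x (x + h), (⨆ a, ENNReal.ofReal (DD (At N V A δ t) a ^ (-β))) ≤
        ENNReal.ofReal (C * h * c ^ (-β)) := by
  obtain ⟨C, hC, hfree⟩ := free (D := 2 * d) (by omega) hβ hβd r
  refine ⟨(3 ^ r) ^ β * C, by positivity, ?_⟩
  intro N hN V A δ hδ x h hh c hc hstart
  have h1 := hfree (Submodule ℚ (Fin r → ℚ)) (fun a => finrank ℚ a) (PP N V A δ) (sys hN V A δ) δ hδ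
    (fun t => ⨆ a, ENNReal.ofReal (DD (At N V A δ t) a ^ (-β))) (ENNReal.ofReal ((3 ^ r) ^ β)) (by
      intro y k hk hkδ t ht u hu hall
      apply iSup_le
      intro a
      have hDt := DD_pos (At_posDef (V := V) (A := A) (δ := δ) hN t) a
      have hMk : 0 < M (PP N V A δ a) y k := M_pos' (sys hN V A δ) a y hk
      have h1 : M (PP N V A δ a) y k ≤ 3 ^ r * DD (At N V A δ t) a := by
        apply M_le hk.le
        intro s hs
        rw [PP_eval, abs_of_pos (DD_pos (At_posDef hN _) a)]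
        apply DD_near hN hδ
        rw [abs_le]
        constructor
        · linarith [hs.1, ht.2]
        · linarith [hs.2, ht.1]
      have h2 : DD (At N V A δ t) a ^ (-β) ≤ (3 ^ r) ^ β * M (PP N V A δ a) y k ^ (-β) := by
        have h3 : (3 ^ r * DD (At N V A δ t) a) ^ (-β) ≤ M (PP N V A δ a) y k ^ (-β) :=
          Real.rpow_le_rpow_of_nonpos hMk h1 (by linarith)
        rw [Real.mul_rpow (by positivity) hDt.le] at h3
        have h4 : ((3 : ℝ) ^ r) ^ (-β) = (((3 : ℝ) ^ r) ^ β)⁻¹ := Real.rpow_neg (by positivity) _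
        rw [h4, inv_mul_le_iff₀ (by positivity)] at h3
        exact h3
      rw [← ENNReal.ofReal_mul (by positivity)]
      apply ENNReal.ofReal_le_ofReal
      refine h2.trans ?_
      have := hall a
      gcongr) x h hh (c ^ (-β)) (by positivity)
    (fun a => Real.rpow_le_rpow_of_nonpos hc (hstart a) (by linarith))
  refine h1.trans (le_of_eq ?_)
  rw [← ENNReal.ofReal_mul (by positivity)]
  congr 1
  ring

section

variable {r d : ℕ}

/-- integer vectors of a box with small slopes and positions -/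
def Zs (N : Fin r → ℝ) (V A : Matrix (Fin d) (Fin r) ℝ) (κ ρv ρa : ℝ) : Set (Fin r → ℤ) :=
  {n | (∀ j, |(n j : ℝ)| ≤ κ * N j) ∧ ‖V *ᵥ (fun j => (n j : ℝ))‖ ≤ ρv ∧ ‖A *ᵥ (fun j => (n j : ℝ))‖ ≤ ρa}

/-- integer vectors of a box with small slopes, and small at the height `t` -/
def Ps (N : Fin r → ℝ) (V A : Matrix (Fin d) (Fin r) ℝ) (δ κ t : ℝ) : Set (Fin r → ℤ) :=
  {n | (∀ j, |(n j : ℝ)| ≤ κ * N j) ∧ ‖V *ᵥ (fun j => (n j : ℝ))‖ ≤ κ ∧
    ‖A *ᵥ (fun j => (n j : ℝ)) + t • V *ᵥ (fun j => (n j : ℝ))‖ ≤ κ * δ}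

theorem box_finite (c : Fin r → ℝ) : {n : Fin r → ℤ | ∀ j, |(n j : ℝ)| ≤ c j}.Finite := by
  have hf : (Set.pi Set.univ (fun j : Fin r => Set.Icc (-(⌊c j⌋)) (⌊c j⌋))).Finite :=
    Set.Finite.pi (fun j => Set.finite_Icc (-(⌊c j⌋)) (⌊c j⌋))
  apply hf.subset
  intro n hn j _
  have h1 := abs_le.1 (hn j)
  have h2 : n j ≤ ⌊c j⌋ := Int.le_floor.2 h1.2
  have h3 : -n j ≤ ⌊c j⌋ := Int.le_floor.2 (by push_cast; linarith [h1.1])
  exact Set.mem_Icc.2 ⟨by linarith, h2⟩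

theorem Zs_finite (N : Fin r → ℝ) (V A : Matrix (Fin d) (Fin r) ℝ) (κ ρv ρa : ℝ) : (Zs N V A κ ρv ρa).Finite :=
  (box_finite (fun j => κ * N j)).subset fun _ hn => hn.1

theorem Ps_finite (N : Fin r → ℝ) (V A : Matrix (Fin d) (Fin r) ℝ) (δ κ t : ℝ) : (Ps N V A δ κ t).Finite :=
  (box_finite (fun j => κ * N j)).subset fun _ hn => hn.1

/-- the number of the lines which are close to a given one at the height `t` -/
noncomputable def mt (N : Fin r → ℝ) (V A : Matrix (Fin d) (Fin r) ℝ) (δ κ t : ℝ) : ℕ :=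
  (Ps N V A δ κ t).ncard

theorem floor_cell {x c : ℝ} (h : |x| ≤ c) : ⌊x⌋ ∈ Finset.Icc (-((⌊c⌋₊ : ℤ) + 1)) ((⌊c⌋₊ : ℤ) + 1) := by
  have h1 := abs_le.1 h
  have hc : 0 ≤ c := (abs_nonneg x).trans h
  have h2 := Nat.lt_floor_add_one c
  have h3 := Int.floor_le x
  have h4 := Int.lt_floor_add_one x
  rw [Finset.mem_Icc]
  constructor
  · have : (-((⌊c⌋₊ : ℝ) + 1)) < (⌊x⌋ : ℝ) + 1 := by linarith [h1.1]
    have h5 : (-((⌊c⌋₊ : ℤ) + 1)) < ⌊x⌋ + 1 := by exact_mod_cast this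
    omega
  · have : (⌊x⌋ : ℝ) < (⌊c⌋₊ : ℝ) + 1 := by linarith [h1.2]
    have h5 : ⌊x⌋ < (⌊c⌋₊ : ℤ) + 1 := by exact_mod_cast this
    omega

theorem card_cell {c : ℝ} (hc : 0 ≤ c) :
    ((Finset.Icc (-((⌊c⌋₊ : ℤ) + 1)) ((⌊c⌋₊ : ℤ) + 1)).card : ℝ) ≤ 2 * c + 3 := by
  rw [Int.card_Icc]
  have : ((⌊c⌋₊ : ℤ) + 1 + 1 - -((⌊c⌋₊ : ℤ) + 1)).toNat = 2 * ⌊c⌋₊ + 3 := by omega
  rw [this]
  push_cast
  linarith [Nat.floor_le hc]

theorem floor_eq_abs {x y : ℝ} (h : ⌊x⌋ = ⌊y⌋) : |x - y| < 1 := Int.abs_sub_lt_one_of_floor_eq_floor h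

/-- **cells** -/
theorem Zs_card {N : Fin r → ℝ} (hN : ∀ j, 0 < N j) {V A : Matrix (Fin d) (Fin r) ℝ} {δ : ℝ} (hδ : 0 < δ)
    (hs : SepBox N V A δ) {κ ρv ρa : ℝ} (hκ : 0 ≤ κ) (hρv : 0 ≤ ρv) (hρa : 0 ≤ ρa)
    (Z : Finset (Fin r → ℤ)) (hZ : ∀ n ∈ Z, n ∈ Zs N V A κ ρv ρa) :
    (Z.card : ℝ) ≤ (2 * κ + 3) ^ r * (2 * (ρv / δ) + 3) ^ d * (2 * ρa + 3) ^ d := by
  classical
  have hq : 0 ≤ ρv / δ := by positivity
  set I1 := Finset.Icc (-((⌊κ⌋₊ : ℤ) + 1)) ((⌊κ⌋₊ : ℤ) + 1) with hI1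
  set I2 := Finset.Icc (-((⌊ρv / δ⌋₊ : ℤ) + 1)) ((⌊ρv / δ⌋₊ : ℤ) + 1) with hI2
  set I3 := Finset.Icc (-((⌊ρa⌋₊ : ℤ) + 1)) ((⌊ρa⌋₊ : ℤ) + 1) with hI3
  let φ : (Fin r → ℤ) → (Fin r → ℤ) × (Fin d → ℤ) × (Fin d → ℤ) := fun n =>
    (fun j => ⌊(n j : ℝ) / N j⌋, fun k => ⌊(V *ᵥ (fun j => (n j : ℝ))) k / δ⌋,
      fun k => ⌊(A *ᵥ (fun j => (n j : ℝ))) k⌋)
  have h1 : Z.card ≤ ((Fintype.piFinset fun _ : Fin r => I1) ×ˢ ((Fintype.piFinset fun _ : Fin d => I2) ×ˢ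
      (Fintype.piFinset fun _ : Fin d => I3))).card := by
    apply Finset.card_le_card_of_injOn φ
    · intro n hn
      obtain ⟨a1, a2, a3⟩ := hZ n hn
      simp only [Finset.coe_product, Set.mem_prod, Finset.mem_coe, Fintype.mem_piFinset, φ]
      refine ⟨fun j => floor_cell ?_, fun k => floor_cell ?_, fun k => floor_cell ?_⟩
      · rw [abs_div, abs_of_pos (hN j), div_le_iff₀ (hN j)]
        exact a1 j
      · rw [abs_div, abs_of_pos hδ]
        gcongr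
        exact (norm_le_pi_norm (V *ᵥ fun j => (n j : ℝ)) k).trans a2
      · exact (norm_le_pi_norm (A *ᵥ fun j => (n j : ℝ)) k).trans a3
    · intro n hn m hm hnm
      by_contra hne
      have e1 : ∀ j, ⌊(n j : ℝ) / N j⌋ = ⌊(m j : ℝ) / N j⌋ := fun j => congrFun (congrArg Prod.fst hnm) j
      have e2 : ∀ k, ⌊(V *ᵥ (fun j => (n j : ℝ))) k / δ⌋ = ⌊(V *ᵥ (fun j => (m j : ℝ))) k / δ⌋ :=
        fun k => congrFun (congrArg (fun p => p.2.1) hnm) k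
      have e3 : ∀ k, ⌊(A *ᵥ (fun j => (n j : ℝ))) k⌋ = ⌊(A *ᵥ (fun j => (m j : ℝ))) k⌋ :=
        fun k => congrFun (congrArg (fun p => p.2.2) hnm) k
      have ecast : (fun j => (((n - m) j : ℤ) : ℝ)) = (fun j => (n j : ℝ)) - (fun j => (m j : ℝ)) := by
        ext j
        simp
      have f1 : ∀ j, |(((n - m) j : ℤ) : ℝ)| ≤ N j := by
        intro j
        have := floor_eq_abs (e1 j)
        rw [← sub_div, abs_div, abs_of_pos (hN j), div_lt_one (hN j)] at this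
        have e : (((n - m) j : ℤ) : ℝ) = (n j : ℝ) - m j := by simp
        rw [e]
        exact this.le
      have f2 : ‖V *ᵥ (fun j => (((n - m) j : ℤ) : ℝ))‖ < δ := by
        rw [ecast, mulVec_sub, pi_norm_lt_iff hδ]
        intro k
        have := floor_eq_abs (e2 k)
        rw [← sub_div, abs_div, abs_of_pos hδ, div_lt_one hδ] at this
        rw [Pi.sub_apply, Real.norm_eq_abs]
        exact this
      have f3 : ‖A *ᵥ (fun j => (((n - m) j : ℤ) : ℝ))‖ < 1 := by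
        rw [ecast, mulVec_sub, pi_norm_lt_iff one_pos]
        intro k
        rw [Pi.sub_apply, Real.norm_eq_abs]
        exact floor_eq_abs (e3 k)
      exact absurd (hs (n - m) (sub_ne_zero.2 hne) f1 f3) (not_le.2 f2)
  rw [Finset.card_product, Finset.card_product, Fintype.card_piFinset_const, Fintype.card_piFinset_const,
    Fintype.card_piFinset_const] at h1
  have h2 : (Z.card : ℝ) ≤ ((I1.card : ℝ) ^ r) * (((I2.card : ℝ) ^ d) * ((I3.card : ℝ) ^ d)) := by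
    exact_mod_cast h1
  refine h2.trans ?_
  have c1 := card_cell hκ
  have c2 := card_cell hq
  have c3 := card_cell hρa
  rw [mul_assoc]
  gcongr

/-- the count and the covolumes -/
theorem mt_le {N : Fin r → ℝ} (hN : ∀ j, 0 < N j) (V A : Matrix (Fin d) (Fin r) ℝ) {δ : ℝ} (hδ : 0 < δ)
    {κ : ℝ} (hκ : 1 ≤ κ) (t : ℝ) {β : ℝ} (hβ : 0 < β) :
    ENNReal.ofReal ((mt N V A δ κ t : ℝ) ^ (2 * β)) ≤
      ENNReal.ofReal ((9 ^ r * (r.factorial) * (κ * ((r : ℝ) + 2 * d + 1)) ^ (2 * r)) ^ β) *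
      ⨆ a, ENNReal.ofReal (DD (At N V A δ t) a ^ (-β)) := by
  have hR : 1 ≤ κ * ((r : ℝ) + 2 * d + 1) := by
    have h1 : (1 : ℝ) ≤ (r : ℝ) + 2 * d + 1 := by
      have : (0 : ℝ) ≤ r := Nat.cast_nonneg _
      have : (0 : ℝ) ≤ d := Nat.cast_nonneg _
      linarith
    nlinarith
  set Z := (Ps_finite N V A δ κ t).toFinset with hZ
  have hcard : Z.card = mt N V A δ κ t := by
    rw [mt, Set.ncard_eq_toFinset_card _ (Ps_finite N V A δ κ t)]
  obtain ⟨a, ha⟩ := count (At_posDef (V := V) (A := A) (δ := δ) hN t) Z hR (by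
    intro n hn
    rw [hZ, Set.Finite.mem_toFinset] at hn
    obtain ⟨a1, a2, a3⟩ := hn
    unfold qf
    rw [At_quad]
    have b1 : ∀ j, ((N j)⁻¹ * (n j : ℝ)) ^ 2 ≤ κ ^ 2 := by
      intro j
      rw [← sq_abs, abs_mul, abs_of_pos (inv_pos.2 (hN j))]
      have : (N j)⁻¹ * |(n j : ℝ)| ≤ κ := by
        rw [inv_mul_le_iff₀ (hN j), mul_comm]
        exact a1 j
      have h0 : 0 ≤ (N j)⁻¹ * |(n j : ℝ)| := mul_nonneg (inv_pos.2 (hN j)).le (abs_nonneg _)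
      gcongr
    have b2 : ∀ k, (V *ᵥ (fun j => (n j : ℝ))) k ^ 2 + (δ⁻¹ * ((A *ᵥ (fun j => (n j : ℝ))) k +
        t * (V *ᵥ (fun j => (n j : ℝ))) k)) ^ 2 ≤ κ ^ 2 + κ ^ 2 := by
      intro k
      have c1 := (norm_le_pi_norm (V *ᵥ fun j => (n j : ℝ)) k).trans a2
      have c2 := (norm_le_pi_norm (A *ᵥ (fun j => (n j : ℝ)) + t • V *ᵥ (fun j => (n j : ℝ))) k).trans a3
      rw [Real.norm_eq_abs] at c1 c2
      rw [Pi.add_apply, Pi.smul_apply, smul_eq_mul] at c2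
      have c3 : |δ⁻¹ * ((A *ᵥ (fun j => (n j : ℝ))) k + t * (V *ᵥ (fun j => (n j : ℝ))) k)| ≤ κ := by
        rw [abs_mul, abs_of_pos (inv_pos.2 hδ), inv_mul_le_iff₀ hδ]
        linarith
      apply add_le_add
      · rw [← sq_abs]
        gcongr
      · rw [← sq_abs]
        gcongr
    calc _ ≤ ∑ _j : Fin r, κ ^ 2 + ∑ _k : Fin d, (κ ^ 2 + κ ^ 2) :=
          add_le_add (Finset.sum_le_sum fun j _ => b1 j) (Finset.sum_le_sum fun k _ => b2 k)
      _ = κ ^ 2 * ((r : ℝ) + 2 * d) := by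
          simp only [Finset.sum_const, Finset.card_univ, Fintype.card_fin, nsmul_eq_mul]
          ring
      _ ≤ (κ * ((r : ℝ) + 2 * d + 1)) ^ 2 := by
          rw [mul_pow]
          have : (0 : ℝ) ≤ r := Nat.cast_nonneg _
          have : (0 : ℝ) ≤ d := Nat.cast_nonneg _
          gcongr
          nlinarith)
  rw [hcard] at ha
  set Q : ℝ := 9 ^ r * (r.factorial) * (κ * ((r : ℝ) + 2 * d + 1)) ^ (2 * r) with hQ
  have hQ0 : 0 < Q := by positivity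
  have hDa := DD_pos (At_posDef (V := V) (A := A) (δ := δ) hN t) a
  have h1 : ((mt N V A δ κ t : ℝ)) ^ (2 * β) ≤ Q ^ β * DD (At N V A δ t) a ^ (-β) := by
    have h2 : ((mt N V A δ κ t : ℝ)) ^ (2 : ℕ) ≤ Q / DD (At N V A δ t) a := by
      rw [le_div_iff₀ hDa]
      exact ha
    calc ((mt N V A δ κ t : ℝ)) ^ (2 * β) = (((mt N V A δ κ t : ℝ)) ^ (2 : ℕ)) ^ β := by
          rw [← Real.rpow_natCast, ← Real.rpow_mul (Nat.cast_nonneg _)]
          norm_num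
      _ ≤ (Q / DD (At N V A δ t) a) ^ β := by gcongr
      _ = _ := by
          rw [Real.div_rpow hQ0.le hDa.le, Real.rpow_neg hDa.le, div_eq_mul_inv]
  calc ENNReal.ofReal ((mt N V A δ κ t : ℝ) ^ (2 * β)) ≤ ENNReal.ofReal (Q ^ β * DD (At N V A δ t) a ^ (-β)) :=
        ENNReal.ofReal_le_ofReal h1
    _ = ENNReal.ofReal (Q ^ β) * ENNReal.ofReal (DD (At N V A δ t) a ^ (-β)) := ENNReal.ofReal_mul (by positivity)
    _ ≤ _ := by
        gcongr
        exact le_iSup (fun a => ENNReal.ofReal (DD (At N V A δ t) a ^ (-β))) a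

end

end Pool.Agent.N250.GAP
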