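import Mathlib
import Pool.Agent.H393R2.Geom2

/-!
# Determinants of positive definite matrices: monotonicity, Fischer, Koteljanskii, Minkowski
-/

open Matrix

namespace Pool.Agent.N250.GAP

theorem det_add_rank_one {n : Type*} [Fintype n] [DecidableEq n] {X : Matrix n n ℝ} (hX : X.PosDef)
    (v : n → ℝ) : X.det ≤ (X + vecMulVec v (star v)).det := by
  have hu : IsUnit X.det := isUnit_iff_ne_zero.2 hX.det_pos.ne'
  have e1 : vecMulVec v (star v) = replicateCol Unit v * replicateRow Unit (star v) := by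
    rw [vecMulVec_eq Unit]
  rw [e1, det_add_replicateCol_mul_replicateRow hu]
  have h1 : 0 ≤ star v ⬝ᵥ (X⁻¹ *ᵥ v) := hX.inv.posSemidef.dotProduct_mulVec_nonneg v
  have h2 : (1 + replicateRow Unit (star v) * X⁻¹ * replicateCol Unit v).det = 1 + star v ⬝ᵥ (X⁻¹ *ᵥ v) := by
    rw [det_unique, Matrix.add_apply, Matrix.one_apply_eq, Matrix.mul_assoc]
    congr 1
  rw [h2]
  nlinarith [hX.det_pos]

theorem det_add_sum {n : Type*} [Fintype n] [DecidableEq n] (m : ℕ) (v : Fin m → (n → ℝ)) :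
    ∀ {X : Matrix n n ℝ}, X.PosDef → X.det ≤ (X + ∑ i, vecMulVec (v i) (star (v i))).det := by
  induction m with
  | zero => intro X _; simp
  | succ m ih =>
    intro X hX
    rw [Fin.sum_univ_succ, ← add_assoc]
    refine (det_add_rank_one hX (v 0)).trans ?_
    exact ih (fun i => v i.succ) (hX.add_posSemidef (posSemidef_vecMulVec_self_star _))

/-- The determinant is monotone. -/
theorem det_mono {n : Type*} [Fintype n] [DecidableEq n] {X Y : Matrix n n ℝ} (hX : X.PosDef)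
    (hY : (Y - X).PosSemidef) : X.det ≤ Y.det := by
  obtain ⟨m, v, hv⟩ := posSemidef_iff_eq_sum_vecMulVec.1 hY
  have := det_add_sum m v hX
  rwa [← hv, add_sub_cancel] at this

theorem det_mono' {n : Type*} [Fintype n] [DecidableEq n] {X Y : Matrix n n ℝ} (hX : X.PosSemidef)
    (hY0 : Y.PosSemidef) (hY : (Y - X).PosSemidef) : X.det ≤ Y.det := by
  by_cases h : X.det = 0
  · rw [h]
    exact hY0.det_nonneg
  · exact det_mono (hX.posDef_iff_det_ne_zero.2 h) hY

/-- Fischer's inequality. -/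
theorem fischer {m n : Type*} [Fintype m] [DecidableEq m] [Fintype n] [DecidableEq n]
    {S : Matrix (m ⊕ n) (m ⊕ n) ℝ} (hS : S.PosDef) : S.det ≤ S.toBlocks₁₁.det * S.toBlocks₂₂.det := by
  have hE : (S.toBlocks₁₁).PosDef := hS.submatrix (e := Sum.inl) Sum.inl_injective
  have hH : (S.toBlocks₂₂).PosDef := hS.submatrix (e := Sum.inr) Sum.inr_injective
  have hS21 : S.toBlocks₂₁ = (S.toBlocks₁₂)ᴴ := by
    ext i j
    exact (congrFun (congrFun hS.isHermitian (Sum.inr i)) (Sum.inl j)).symm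
  have e1 : S = fromBlocks S.toBlocks₁₁ S.toBlocks₁₂ (S.toBlocks₁₂)ᴴ S.toBlocks₂₂ := by
    rw [← hS21, fromBlocks_toBlocks]
  have : Invertible S.toBlocks₁₁ := invertibleOfIsUnitDet _ (isUnit_iff_ne_zero.2 hE.det_pos.ne')
  have h1 : (S.toBlocks₂₂ - (S.toBlocks₁₂)ᴴ * (S.toBlocks₁₁)⁻¹ * S.toBlocks₁₂).PosSemidef := by
    rw [← PosDef.fromBlocks₁₁ _ _ hE, ← e1]
    exact hS.posSemidef
  have h2 : S.det = S.toBlocks₁₁.det *
      (S.toBlocks₂₂ - (S.toBlocks₁₂)ᴴ * (S.toBlocks₁₁)⁻¹ * S.toBlocks₁₂).det := by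
    conv_lhs => rw [e1]
    rw [det_fromBlocks₁₁, invOf_eq_nonsing_inv]
  rw [h2]
  apply mul_le_mul_of_nonneg_left _ hE.det_pos.le
  apply det_mono' h1 hH.posSemidef
  rw [sub_sub_cancel]
  exact hE.inv.posSemidef.conjTranspose_mul_mul_same _

/-- Koteljanskii's inequality. -/
theorem kotel {k l m : Type*} [Fintype k] [DecidableEq k] [Fintype l] [DecidableEq l] [Fintype m]
    [DecidableEq m] {P : Matrix (k ⊕ (l ⊕ m)) (k ⊕ (l ⊕ m)) ℝ} (hP : P.PosDef) :
    P.det * (P.submatrix Sum.inl Sum.inl).det ≤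
      (P.submatrix (Sum.elim Sum.inl (Sum.inr ∘ Sum.inl)) (Sum.elim Sum.inl (Sum.inr ∘ Sum.inl)) :
        Matrix (k ⊕ l) (k ⊕ l) ℝ).det *
      (P.submatrix (Sum.elim Sum.inl (Sum.inr ∘ Sum.inr)) (Sum.elim Sum.inl (Sum.inr ∘ Sum.inr)) :
        Matrix (k ⊕ m) (k ⊕ m) ℝ).det := by
  have hA : (P.toBlocks₁₁).PosDef := hP.submatrix (e := Sum.inl) Sum.inl_injective
  have hP21 : P.toBlocks₂₁ = (P.toBlocks₁₂)ᴴ := by
    ext i j
    exact (congrFun (congrFun hP.isHermitian (Sum.inr i)) (Sum.inl j)).symm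
  have : Invertible P.toBlocks₁₁ := invertibleOfIsUnitDet _ (isUnit_iff_ne_zero.2 hA.det_pos.ne')
  set A := P.toBlocks₁₁ with hAdef
  set B := P.toBlocks₁₂ with hB
  set D := P.toBlocks₂₂ with hD
  set S := D - Bᴴ * A⁻¹ * B with hS
  have e1 : P = fromBlocks A B Bᴴ D := by
    rw [← hP21, hAdef, hB, hD, fromBlocks_toBlocks]
  have hS0 : S.PosSemidef := by
    rw [hS, ← PosDef.fromBlocks₁₁ _ _ hA, ← e1]
    exact hP.posSemidef
  have h2 : P.det = A.det * S.det := by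
    rw [e1, det_fromBlocks₁₁, invOf_eq_nonsing_inv]
  have hS1 : S.PosDef := by
    rw [hS0.posDef_iff_det_ne_zero]
    intro h
    have := hP.det_pos
    rw [h2, h, mul_zero] at this
    exact lt_irrefl _ this
  have h3 : (P.submatrix (Sum.elim Sum.inl (Sum.inr ∘ Sum.inl)) (Sum.elim Sum.inl (Sum.inr ∘ Sum.inl)) :
        Matrix (k ⊕ l) (k ⊕ l) ℝ).det = A.det * S.toBlocks₁₁.det := by
    have e2 : (P.submatrix (Sum.elim Sum.inl (Sum.inr ∘ Sum.inl)) (Sum.elim Sum.inl (Sum.inr ∘ Sum.inl)) :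
        Matrix (k ⊕ l) (k ⊕ l) ℝ) = fromBlocks A (B.submatrix id Sum.inl) ((B.submatrix id Sum.inl)ᴴ)
        (D.submatrix Sum.inl Sum.inl) := by
      conv_lhs => rw [e1]
      ext i j
      rcases i with i | i <;> rcases j with j | j <;> rfl
    rw [e2, det_fromBlocks₁₁, invOf_eq_nonsing_inv]
    congr 1
  have h4 : (P.submatrix (Sum.elim Sum.inl (Sum.inr ∘ Sum.inr)) (Sum.elim Sum.inl (Sum.inr ∘ Sum.inr)) :
        Matrix (k ⊕ m) (k ⊕ m) ℝ).det = A.det * S.toBlocks₂₂.det := by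
    have e2 : (P.submatrix (Sum.elim Sum.inl (Sum.inr ∘ Sum.inr)) (Sum.elim Sum.inl (Sum.inr ∘ Sum.inr)) :
        Matrix (k ⊕ m) (k ⊕ m) ℝ) = fromBlocks A (B.submatrix id Sum.inr) ((B.submatrix id Sum.inr)ᴴ)
        (D.submatrix Sum.inr Sum.inr) := by
      conv_lhs => rw [e1]
      ext i j
      rcases i with i | i <;> rcases j with j | j <;> rfl
    rw [e2, det_fromBlocks₁₁, invOf_eq_nonsing_inv]
    congr 1
  have h5 : (P.submatrix Sum.inl Sum.inl).det = A.det := rfl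
  rw [h2, h3, h4, h5]
  have h6 := fischer hS1
  have h7 := hA.det_pos
  calc A.det * S.det * A.det = A.det * A.det * S.det := by ring
    _ ≤ A.det * A.det * (S.toBlocks₁₁.det * S.toBlocks₂₂.det) := by gcongr
    _ = _ := by ring

open scoped MatrixOrder in
theorem exists_factor {n : Type*} [Fintype n] [DecidableEq n] {A : Matrix n n ℝ} (hA : A.PosSemidef) :
    ∃ B : Matrix n n ℝ, A = Bᵀ * B := by
  obtain ⟨B, hB⟩ := CStarAlgebra.nonneg_iff_eq_star_mul_self.mp hA.nonneg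
  refine ⟨B, ?_⟩
  rw [hB, star_eq_conjTranspose, conjTranspose_eq_transpose_of_trivial]

/-- **Minkowski's theorem**: a form which is at least one at the nonzero integer points has a
determinant which is not small. -/
theorem minkowski {k : ℕ} {A : Matrix (Fin k) (Fin k) ℝ} (hA : A.PosDef)
    (h1 : ∀ y : Fin k → ℤ, y ≠ 0 → 1 ≤ (fun i => (y i : ℝ)) ⬝ᵥ (A *ᵥ fun i => (y i : ℝ))) :
    (1 / (4 * (k : ℝ))) ^ k ≤ A.det := by
  obtain ⟨B, hB⟩ := exists_factor hA.posSemidef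
  have hdet : A.det = B.det ^ 2 := by rw [hB, det_mul, det_transpose, sq]
  have hB0 : B.det ≠ 0 := by
    intro h
    have := hA.det_pos
    rw [hdet, h] at this
    norm_num at this
  rcases Nat.eq_zero_or_pos k with h0 | hk
  · subst h0
    rw [hdet, det_isEmpty]
    norm_num
  have hk0 : (0 : ℝ) < k := by exact_mod_cast hk
  set c : ℝ := 1 / (2 * Real.sqrt k) with hc
  have hs : 0 < Real.sqrt k := Real.sqrt_pos.2 hk0
  have hc0 : 0 < c := by positivity
  have hc2 : c ^ 2 = 1 / (4 * k) := by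
    rw [hc, div_pow, mul_pow, Real.sq_sqrt hk0.le]
    norm_num
  have key : c ^ k ≤ |B.det| := by
    by_contra hcon
    push Not at hcon
    obtain ⟨x, hx0, hx⟩ := Pool.Agent.H393R2.Geom.minkowski_forms B hB0 (fun _ => c) (fun _ => hc0)
      (by rwa [Finset.prod_const, Finset.card_univ, Fintype.card_fin])
    have h2 := h1 x hx0
    have h3 : (fun i => (x i : ℝ)) ⬝ᵥ (A *ᵥ fun i => (x i : ℝ)) = ∑ l, (B *ᵥ fun i => (x i : ℝ)) l ^ 2 := by
      rw [hB, ← mulVec_mulVec, dotProduct_mulVec, vecMul_transpose, dotProduct]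
      exact Finset.sum_congr rfl fun l _ => (sq _).symm
    have h4 : ∑ l : Fin k, (B *ᵥ fun i => (x i : ℝ)) l ^ 2 ≤ ∑ l : Fin k, c ^ 2 := by
      apply Finset.sum_le_sum
      intro l _
      have := hx l
      rw [Pool.Agent.H393R2.Geom.app_apply] at this
      rw [← sq_abs]
      gcongr
    rw [Finset.sum_const, Finset.card_univ, Fintype.card_fin, nsmul_eq_mul, hc2] at h4
    have h5 : (k : ℝ) * (1 / (4 * k)) = 1 / 4 := by field_simp
    rw [h5] at h4
    linarith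
  calc (1 / (4 * (k : ℝ))) ^ k = (c ^ k) ^ 2 := by rw [← hc2, ← pow_mul, ← pow_mul, mul_comm]
    _ ≤ |B.det| ^ 2 := by gcongr
    _ = A.det := by rw [sq_abs, hdet]

end Pool.Agent.N250.GAP
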