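import Pool.Agent.N250.GAP.Lat2
import Pool.Agent.N250.GAP.Abs

/-!
# The forms attached to a progression of lines
-/

open Matrix Module Polynomial

namespace Pool.Agent.N250.GAP

/-! ### Degrees -/

theorem det_gram_sum {ρ κ : Type} [Fintype ρ] [DecidableEq ρ] [Fintype κ] [DecidableEq κ]
    (W : Matrix ρ κ ℝ[X]) : (Wᵀ * W).det =
      ∑ f : κ → ρ, (∏ i, W (f i) i) * (of fun i j => W (f i) j : Matrix κ κ ℝ[X]).det := by
  have e1 : (Wᵀ * W) = of fun i => ∑ s : ρ, W s i • W s := by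
    ext i j
    rw [Matrix.mul_apply]
    simp only [transpose_apply, of_apply, Finset.sum_apply, Pi.smul_apply, smul_eq_mul]
  rw [e1]
  change Matrix.detRowAlternating (fun i => ∑ s : ρ, W s i • W s) = _
  rw [← AlternatingMap.coe_multilinearMap, MultilinearMap.map_sum]
  apply Finset.sum_congr rfl
  intro f _
  rw [MultilinearMap.map_smul_univ]
  rfl

/-- the degree of a Gram determinant in which `d` rows are linear and the others are constant -/
theorem natDegree_gram {σ κ : Type} [Fintype σ] [DecidableEq σ] [Fintype κ] [DecidableEq κ] {d : ℕ}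
    (W : Matrix (σ ⊕ Fin d) κ ℝ[X]) (h0 : ∀ s k, (W (Sum.inl s) k).natDegree = 0)
    (h1 : ∀ s k, (W (Sum.inr s) k).natDegree ≤ 1) : (Wᵀ * W).det.natDegree ≤ 2 * d := by
  rw [det_gram_sum]
  apply natDegree_sum_le_of_forall_le
  intro f _
  by_cases hf : Function.Injective f
  · set e : σ ⊕ Fin d → ℕ := Sum.elim (fun _ => 0) (fun _ => 1) with he
    have hWe : ∀ s k, (W s k).natDegree ≤ e s := by
      intro s k
      rcases s with s | s
      · exact (h0 s k).le
      · exact h1 s k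
    have hsum : ∑ i, e (f i) ≤ d := by
      have h2 : ∑ i, e (f i) = (Finset.univ.filter fun i => (f i).isRight = true).card := by
        rw [Finset.card_filter]
        apply Finset.sum_congr rfl
        intro i _
        rcases f i with s | s <;> simp [he]
      rw [h2]
      have h3 : (Finset.univ.filter fun i => (f i).isRight = true).card ≤
          (Finset.univ.image (Sum.inr : Fin d → σ ⊕ Fin d)).card := by
        apply Finset.card_le_card_of_injOn f _ hf.injOn
        intro i hi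
        simp only [Finset.coe_filter, Finset.mem_univ, true_and, Set.mem_ofPred_eq] at hi
        obtain ⟨y, hy⟩ := Sum.isRight_iff.1 hi
        simp [hy]
      rw [Finset.card_image_of_injective _ Sum.inr_injective, Finset.card_univ, Fintype.card_fin] at h3
      exact h3
    refine (natDegree_mul_le).trans ?_
    have h4 : (∏ i, W (f i) i).natDegree ≤ d :=
      ((natDegree_prod_le _ _).trans (Finset.sum_le_sum fun i _ => hWe _ _)).trans hsum
    have h5 : (of fun i j => W (f i) j : Matrix κ κ ℝ[X]).det.natDegree ≤ d := by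
      rw [det_apply]
      apply natDegree_sum_le_of_forall_le
      intro σ' _
      refine (natDegree_smul_le _ _).trans ?_
      refine (natDegree_prod_le _ _).trans ?_
      calc ∑ i, ((of fun i j => W (f i) j : Matrix κ κ ℝ[X]) (σ' i) i).natDegree ≤ ∑ i, e (f (σ' i)) :=
            Finset.sum_le_sum fun i _ => hWe _ _
        _ = ∑ i, e (f i) := Equiv.sum_comp σ' (fun i => e (f i))
        _ ≤ d := hsum
    omega
  · have h6 : (of fun i j => W (f i) j : Matrix κ κ ℝ[X]).det = 0 := by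
      rw [Function.Injective] at hf
      push Not at hf
      obtain ⟨i, j, hij, hne⟩ := hf
      apply det_zero_of_row_eq hne
      ext k
      simp [hij]
    rw [h6, mul_zero, natDegree_zero]
    exact Nat.zero_le _

/-- the degree of a Gram determinant with linear entries -/
theorem natDegree_gram' {ρ κ : Type} [Fintype ρ] [DecidableEq ρ] [Fintype κ] [DecidableEq κ] {k : ℕ}
    (hk : Fintype.card κ ≤ k)
    (W : Matrix ρ κ ℝ[X]) (h1 : ∀ s k, (W s k).natDegree ≤ 1) : (Wᵀ * W).det.natDegree ≤ 2 * k := by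
  rw [det_apply]
  apply natDegree_sum_le_of_forall_le
  intro σ' _
  refine (natDegree_smul_le _ _).trans ?_
  refine (natDegree_prod_le _ _).trans ?_
  calc ∑ i, ((Wᵀ * W) (σ' i) i).natDegree ≤ ∑ i : κ, 2 := by
        apply Finset.sum_le_sum
        intro i _
        rw [Matrix.mul_apply]
        apply natDegree_sum_le_of_forall_le
        intro s _
        refine natDegree_mul_le.trans ?_
        have := h1 s (σ' i)
        have := h1 s i
        simp only [transpose_apply]
        omega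
    _ = Fintype.card κ * 2 := by simp
    _ ≤ 2 * k := by omega

/-! ### The forms -/

/-- the rows which do not depend on `t` -/
noncomputable def Wc {r d : ℕ} (N : Fin r → ℝ) (V : Matrix (Fin d) (Fin r) ℝ) :
    Matrix (Fin r ⊕ Fin d) (Fin r) ℝ := fromRows (diagonal fun j => (N j)⁻¹) V

/-- `n ↦ (n / N, V n, (A n + t V n) / δ)` -/
noncomputable def Wt {r d : ℕ} (N : Fin r → ℝ) (V A : Matrix (Fin d) (Fin r) ℝ) (δ t : ℝ) :
    Matrix ((Fin r ⊕ Fin d) ⊕ Fin d) (Fin r) ℝ := fromRows (Wc N V) (δ⁻¹ • (A + t • V))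

/-- `n ↦ (n / N, s V n - A n, (s A n + V n) / δ)` -/
noncomputable def Us {r d : ℕ} (N : Fin r → ℝ) (V A : Matrix (Fin d) (Fin r) ℝ) (δ s : ℝ) :
    Matrix ((Fin r ⊕ Fin d) ⊕ Fin d) (Fin r) ℝ := fromRows (Wc N (s • V - A)) (δ⁻¹ • (s • A + V))

/-- the form at the height `t` -/
noncomputable def At {r d : ℕ} (N : Fin r → ℝ) (V A : Matrix (Fin d) (Fin r) ℝ) (δ t : ℝ) :
    Matrix (Fin r) (Fin r) ℝ := (Wt N V A δ t)ᵀ * Wt N V A δ t

noncomputable def Hs {r d : ℕ} (N : Fin r → ℝ) (V A : Matrix (Fin d) (Fin r) ℝ) (δ s : ℝ) :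
    Matrix (Fin r) (Fin r) ℝ := (Us N V A δ s)ᵀ * Us N V A δ s

variable {r d : ℕ} {N : Fin r → ℝ} {V A : Matrix (Fin d) (Fin r) ℝ} {δ : ℝ}

theorem Wc_mulVec (N : Fin r → ℝ) (V : Matrix (Fin d) (Fin r) ℝ) (z : Fin r → ℝ) :
    Wc N V *ᵥ z = Sum.elim (fun j => (N j)⁻¹ * z j) (V *ᵥ z) := by
  unfold Wc
  rw [fromRows_mulVec]
  congr 1
  ext j
  rw [mulVec_diagonal]

theorem quad_gram {ρ : Type} [Fintype ρ] (W : Matrix ρ (Fin r) ℝ) (z : Fin r → ℝ) :
    z ⬝ᵥ ((Wᵀ * W) *ᵥ z) = ∑ s, (W *ᵥ z) s ^ 2 := by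
  rw [← mulVec_mulVec, dotProduct_mulVec, vecMul_transpose, dotProduct]
  exact Finset.sum_congr rfl fun l _ => (sq _).symm

theorem At_quad (t : ℝ) (z : Fin r → ℝ) : z ⬝ᵥ (At N V A δ t *ᵥ z) =
    ∑ j, ((N j)⁻¹ * z j) ^ 2 + ∑ k, ((V *ᵥ z) k ^ 2 + (δ⁻¹ * ((A *ᵥ z) k + t * (V *ᵥ z) k)) ^ 2) := by
  unfold At
  rw [quad_gram]
  unfold Wt
  rw [fromRows_mulVec, Fintype.sum_sum_type, Wc_mulVec, Fintype.sum_sum_type, Finset.sum_add_distrib]
  simp only [Sum.elim_inl, Sum.elim_inr, smul_mulVec, add_mulVec, Pi.smul_apply, Pi.add_apply, smul_eq_mul]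
  ring

theorem Hs_quad (s : ℝ) (z : Fin r → ℝ) : z ⬝ᵥ (Hs N V A δ s *ᵥ z) =
    ∑ j, ((N j)⁻¹ * z j) ^ 2 + ∑ k, ((s * (V *ᵥ z) k - (A *ᵥ z) k) ^ 2 +
      (δ⁻¹ * (s * (A *ᵥ z) k + (V *ᵥ z) k)) ^ 2) := by
  unfold Hs
  rw [quad_gram]
  unfold Us
  rw [fromRows_mulVec, Fintype.sum_sum_type, Wc_mulVec, Fintype.sum_sum_type, Finset.sum_add_distrib]
  simp only [Sum.elim_inl, Sum.elim_inr, smul_mulVec, add_mulVec, sub_mulVec, Pi.smul_apply, Pi.add_apply,
    Pi.sub_apply, smul_eq_mul]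
  ring

theorem Wc_inj (hN : ∀ j, 0 < N j) (V : Matrix (Fin d) (Fin r) ℝ) : Function.Injective (Wc N V).mulVec := by
  intro y z h
  rw [Wc_mulVec, Wc_mulVec] at h
  ext j
  have := congrFun h (Sum.inl j)
  simp only [Sum.elim_inl] at this
  exact mul_left_cancel₀ (inv_ne_zero (hN j).ne') this

theorem At_posDef (hN : ∀ j, 0 < N j) (t : ℝ) : (At N V A δ t).PosDef := by
  have h1 : Function.Injective (Wt N V A δ t).mulVec := by
    intro y z h
    apply Wc_inj hN V
    unfold Wt at h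
    rw [fromRows_mulVec, fromRows_mulVec] at h
    ext j
    have := congrFun h (Sum.inl j)
    simpa using this
  have := Matrix.PosDef.conjTranspose_mul_self (Wt N V A δ t) h1
  rwa [conjTranspose_eq_transpose_of_trivial] at this

theorem Hs_posDef (hN : ∀ j, 0 < N j) (s : ℝ) : (Hs N V A δ s).PosDef := by
  have h1 : Function.Injective (Us N V A δ s).mulVec := by
    intro y z h
    apply Wc_inj hN (s • V - A)
    unfold Us at h
    rw [fromRows_mulVec, fromRows_mulVec] at h
    ext j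
    have := congrFun h (Sum.inl j)
    simpa using this
  have := Matrix.PosDef.conjTranspose_mul_self (Us N V A δ s) h1
  rwa [conjTranspose_eq_transpose_of_trivial] at this

/-- comparison of determinants from a comparison of forms -/
theorem DD_le {X Y : Matrix (Fin r) (Fin r) ℝ} (hX : X.PosDef) (hY : Y.PosDef) {c : ℝ} (hc : 0 ≤ c)
    (h : ∀ z : Fin r → ℝ, z ⬝ᵥ (X *ᵥ z) ≤ c * (z ⬝ᵥ (Y *ᵥ z))) (a : Submodule ℚ (Fin r → ℚ)) :
    DD X a ≤ c ^ (finrank ℚ a) * DD Y a := by
  unfold DD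
  set x : Fin (finrank ℤ (GAP.N a)) → Fin r → ℤ := fun i => (bs a i : Fin r → ℤ) with hx
  have h1 : c ^ (finrank ℚ a) * (gm Y x).det = (gm (c • Y) x).det := by
    have : gm (c • Y) x = c • gm Y x := by
      unfold gm
      rw [Matrix.mul_smul, Matrix.smul_mul]
    rw [this, det_smul, Fintype.card_fin]
    congr 2
    exact (finrank_N a).symm
  rw [h1]
  apply det_mono (gm_posDef hX (basis_indep (bs a)))
  have h2 : (c • Y - X).PosSemidef := by
    apply PosSemidef.of_dotProduct_mulVec_nonneg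
    · exact (hY.isHermitian.smul (by simp [IsSelfAdjoint])).sub hX.isHermitian
    · intro z
      rw [sub_mulVec, smul_mulVec, dotProduct_sub, dotProduct_smul, smul_eq_mul]
      have := h z
      simp only [star_trivial]
      linarith
  have h3 := h2.conjTranspose_mul_mul_same (Rm x)
  rw [conjTranspose_eq_transpose_of_trivial] at h3
  have h4 : gm (c • Y) x - gm X x = (Rm x)ᵀ * (c • Y - X) * Rm x := by
    unfold gm
    rw [Matrix.mul_sub, Matrix.sub_mul]
  rw [h4]
  exact h3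

/-- neighbouring heights -/
theorem DD_near (hN : ∀ j, 0 < N j) (hδ : 0 < δ) {s t : ℝ} (hst : |s - t| ≤ δ)
    (a : Submodule ℚ (Fin r → ℚ)) : DD (At N V A δ s) a ≤ 3 ^ r * DD (At N V A δ t) a := by
  have h0 : ∀ z : Fin r → ℝ, z ⬝ᵥ (At N V A δ s *ᵥ z) ≤ 3 * (z ⬝ᵥ (At N V A δ t *ᵥ z)) := ?_
  · have h1 := DD_le (At_posDef hN s) (At_posDef hN t) (c := 3) (by norm_num) h0 a
    refine h1.trans ?_
    have h2 : finrank ℚ a ≤ r := by
      have := Submodule.finrank_le a
      rwa [finrank_fin_fun] at this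
    have h3 := DD_pos (At_posDef (V := V) (A := A) (δ := δ) hN t) a
    have h4 : (3 : ℝ) ^ finrank ℚ a ≤ 3 ^ r := pow_le_pow_right₀ (by norm_num) h2
    gcongr
  · intro z
    rw [At_quad, At_quad, mul_add, Finset.mul_sum, Finset.mul_sum]
    apply add_le_add
    · apply Finset.sum_le_sum
      intro j _
      nlinarith [sq_nonneg ((N j)⁻¹ * z j)]
    · apply Finset.sum_le_sum
      intro k _
      set u := (V *ᵥ z) k
      set w := (A *ᵥ z) k
      have e1 : δ⁻¹ * (w + s * u) = δ⁻¹ * (w + t * u) + (δ⁻¹ * (s - t)) * u := by ring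
      have h2 : (δ⁻¹ * (s - t)) ^ 2 ≤ 1 := by
        rw [sq_le_one_iff_abs_le_one, abs_mul, abs_of_pos (inv_pos.2 hδ), inv_mul_le_iff₀ hδ, mul_one]
        exact hst
      rw [e1]
      set b := δ⁻¹ * (w + t * u)
      set c := δ⁻¹ * (s - t)
      have h3 : (c * u) ^ 2 ≤ u ^ 2 := by
        rw [mul_pow]
        nlinarith [sq_nonneg u]
      nlinarith [sq_nonneg (b - c * u)]

/-- the starting estimate, second part -/
theorem DD_rot (hN : ∀ j, 0 < N j) (hδ : 0 < δ) (hδ1 : δ ≤ 1) {s : ℝ} (hs1 : 1 ≤ s) (hs2 : s ≤ 2)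
    (a : Submodule ℚ (Fin r → ℚ)) : DD (Hs N V A δ s) a ≤ 18 ^ r * DD (At N V A δ (1 / s)) a := by
  have h0 : ∀ z : Fin r → ℝ, z ⬝ᵥ (Hs N V A δ s *ᵥ z) ≤ 18 * (z ⬝ᵥ (At N V A δ (1 / s) *ᵥ z)) := ?_
  · have h1 := DD_le (Hs_posDef hN s) (At_posDef hN (1 / s)) (c := 18) (by norm_num) h0 a
    refine h1.trans ?_
    have h2 : finrank ℚ a ≤ r := by
      have := Submodule.finrank_le a
      rwa [finrank_fin_fun] at this
    have h3 := DD_pos (At_posDef (V := V) (A := A) (δ := δ) hN (1 / s)) a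
    have h4 : (18 : ℝ) ^ finrank ℚ a ≤ 18 ^ r := pow_le_pow_right₀ (by norm_num) h2
    gcongr
  · intro z
    rw [At_quad, Hs_quad, mul_add, Finset.mul_sum, Finset.mul_sum]
    have hs0 : 0 < s := by linarith
    apply add_le_add
    · apply Finset.sum_le_sum
      intro j _
      nlinarith [sq_nonneg ((N j)⁻¹ * z j)]
    · apply Finset.sum_le_sum
      intro k _
      set u := (V *ᵥ z) k
      set w := (A *ᵥ z) k
      set t := 1 / s with ht
      have hst : s * t = 1 := by rw [ht]; field_simp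
      have ht1 : t ≤ 1 := by rw [ht, div_le_one hs0]; exact hs1
      have ht0 : 0 < t := by positivity
      set b := δ⁻¹ * (w + t * u) with hb
      have e1 : δ⁻¹ * (s * w + u) = s * b := by
        rw [hb]
        calc δ⁻¹ * (s * w + u) = δ⁻¹ * (s * w + (s * t) * u) := by rw [hst, one_mul]
          _ = _ := by ring
      have e2 : s * u - w = (s + t) * u - δ * b := by
        rw [hb]
        field_simp
        ring
      rw [e1, e2]
      have h3 : ((s + t) * u) ^ 2 ≤ 9 * u ^ 2 := by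
        rw [mul_pow]
        have : (s + t) ^ 2 ≤ 9 := by nlinarith
        nlinarith [sq_nonneg u]
      have h4 : (δ * b) ^ 2 ≤ b ^ 2 := by
        rw [mul_pow]
        have : δ ^ 2 ≤ 1 := by nlinarith
        nlinarith [sq_nonneg b]
      have h5 : (s * b) ^ 2 ≤ 4 * b ^ 2 := by
        rw [mul_pow]
        have : s ^ 2 ≤ 4 := by nlinarith
        nlinarith [sq_nonneg b]
      nlinarith [sq_nonneg ((s + t) * u + δ * b)]

end Pool.Agent.N250.GAP
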