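import Pool.Agent.N250.GAP.Tube

/-!
# The inequality for graph tubes, at any scale
-/

open MeasureTheory Set ENNReal NNReal Metric Matrix

namespace Pool.Agent.N250.GAP

variable {d : ℕ}

/-- the indicator of the graph tube number `i` -/
noncomputable def gt {ι : Type} (L ρ : ℝ) (v β : ι → Vec d) (s : ι → ℝ) (i : ι) (t : ℝ) (x : Vec d) : ℝ≥0∞ :=
  (Icc (s i - L) (s i + L)).indicator (fun _ => (closedBall (β i + t • v i) ρ).indicator
    (fun _ => (1 : ℝ≥0∞)) x) t

theorem gt_one {ι : Type} {L ρ : ℝ} {v β : ι → Vec d} {s : ι → ℝ} {i : ι} {t : ℝ} {x : Vec d}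
    (h : gt L ρ v β s i t x ≠ 0) : t ∈ Icc (s i - L) (s i + L) ∧ ‖x - (β i + t • v i)‖ ≤ ρ ∧
      gt L ρ v β s i t x = 1 := by
  have h1 : t ∈ Icc (s i - L) (s i + L) := by
    by_contra hc
    exact h (indicator_of_notMem hc _)
  have h2 : gt L ρ v β s i t x = (closedBall (β i + t • v i) ρ).indicator (fun _ => (1 : ℝ≥0∞)) x :=
    indicator_of_mem h1 _
  have h3 : x ∈ closedBall (β i + t • v i) ρ := by
    by_contra hc
    rw [h2] at h
    exact h (indicator_of_notMem hc _)
  refine ⟨h1, ?_, ?_⟩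
  · rwa [mem_closedBall, dist_eq_norm] at h3
  · rw [h2, indicator_of_mem h3]

theorem gt_of_mem {ι : Type} {L ρ : ℝ} {v β : ι → Vec d} {s : ι → ℝ} {i : ι} {t : ℝ} {x : Vec d}
    (h1 : |t - s i| ≤ L) (h2 : ‖x - (β i + t • v i)‖ ≤ ρ) : gt L ρ v β s i t x = 1 := by
  have h3 : t ∈ Icc (s i - L) (s i + L) := by
    have := abs_le.1 h1
    exact ⟨by linarith, by linarith⟩
  unfold gt
  rw [indicator_of_mem h3, indicator_of_mem]
  rwa [mem_closedBall, dist_eq_norm]

theorem gt_meas {ι : Type} (L ρ : ℝ) (v β : ι → Vec d) (s : ι → ℝ) (i : ι) (t : ℝ) :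
    Measurable (fun x => gt L ρ v β s i t x) := by
  by_cases ht : t ∈ Icc (s i - L) (s i + L)
  · have : (fun x => gt L ρ v β s i t x) = (closedBall (β i + t • v i) ρ).indicator (fun _ => (1 : ℝ≥0∞)) := by
      funext x
      exact indicator_of_mem ht _
    rw [this]
    exact measurable_const.indicator measurableSet_closedBall
  · have : (fun x => gt L ρ v β s i t x) = fun _ => 0 := by
      funext x
      exact indicator_of_notMem ht _
    rw [this]
    exact measurable_const

theorem gt_lint {ι : Type} (L : ℝ) {ρ : ℝ} (hρ : 0 ≤ ρ) (v β : ι → Vec d) (s : ι → ℝ) (i : ι) (t : ℝ) :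
    ∫⁻ x : Vec d, gt L ρ v β s i t x = (Icc (s i - L) (s i + L)).indicator
      (fun _ => ENNReal.ofReal (ρ ^ d * (volume (ball (0 : Vec d) 1)).toReal)) t := by
  have hωtop : volume (ball (0 : Vec d) 1) ≠ ∞ := measure_ball_lt_top.ne
  by_cases ht : t ∈ Icc (s i - L) (s i + L)
  · rw [indicator_of_mem ht]
    have : ∀ x, gt L ρ v β s i t x = (closedBall (β i + t • v i) ρ).indicator (fun _ => (1 : ℝ≥0∞)) x :=
      fun x => indicator_of_mem ht _
    simp only [this]
    rw [lintegral_indicator_const measurableSet_closedBall, one_mul,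
      Measure.addHaar_closedBall _ _ hρ, finrank_euclideanSpace, Fintype.card_fin,
      ENNReal.ofReal_mul (by positivity), ENNReal.ofReal_toReal hωtop]
  · have : ∀ x, gt L ρ v β s i t x = 0 := fun x => indicator_of_notMem ht _
    simp only [this, lintegral_zero]
    rw [indicator_of_notMem ht]

/-- **The inequality for families of graph tubes of positive density in progressions**. -/
theorem graph_main {r : ℕ} (hr : 1 ≤ r) (hd : 1 ≤ d) {q : ℝ} (hq : 1 < (q - 1) * d) {K : ℝ} (hK : 1 ≤ K)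
    {H ρ B : ℝ} (hH : 1 ≤ H) (hρ : 0 ≤ ρ) (hB : 0 ≤ B) :
    ∃ C : ℝ, 0 < C ∧ ∀ δ : ℝ, 0 < δ → δ ≤ 1 → ∀ R : ℝ, 0 < R → ∀ (ι : Type) [Fintype ι] [Nonempty ι]
      (v β : ι → Vec d) (s : ι → ℝ) (N : Fin r → ℕ) (V A : Matrix (Fin d) (Fin r) ℝ) (k : ι → Fin r → ℤ),
      (∀ i, ‖v i‖ ≤ B) → (∀ i j, i ≠ j → δ ≤ ‖v i - v j‖) →
      (∀ i j, 0 ≤ k i j ∧ k i j < N j) →
      (∀ i j, ((v j - v i : Vec d).ofLp : Fin d → ℝ) = V *ᵥ (fun l => (((k j - k i) l : ℤ) : ℝ))) →
      (∀ i j, ((β j - β i : Vec d).ofLp : Fin d → ℝ) = A *ᵥ (fun l => (((k j - k i) l : ℤ) : ℝ))) →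
      ((∏ j, N j : ℕ) : ℝ) ≤ K * Fintype.card ι →
      ∫⁻ t : ℝ, ∫⁻ x : Vec d, (∑ i, gt (H * R) (ρ * δ * R) v β s i t x) ^ q ≤
        ENNReal.ofReal (C * δ ^ d * R ^ (d + 1) * (Fintype.card ι : ℝ) ^ (q - 1 / d)) := by
  classical
  have hd0 : (0 : ℝ) < d := by exact_mod_cast hd
  have hd1 : (1 : ℝ) ≤ d := by exact_mod_cast hd
  have hH0 : 0 < H := by linarith
  have hq1 : 0 < q - 1 := by
    by_contra h
    push Not at h
    nlinarith
  have hq0 : 0 < q := by linarith
  set M : ℕ := ⌊4 ^ r * K⌋₊ + 1 with hMdef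
  have hM : 4 ^ r * K < M := by
    rw [hMdef]
    push_cast
    exact Nat.lt_floor_add_one _
  have hM0 : 0 < M := by omega
  have hMr : (1 : ℝ) ≤ M := by exact_mod_cast hM0
  have hdM : (1 : ℝ) ≤ d * M := by nlinarith
  have hHB : 0 ≤ H * B := by positivity
  set κ : ℝ := 2 * (d * M) * (ρ + H * B + 1) with hκdef
  have hκM : (M : ℝ) ≤ κ := by
    have h1 : (M : ℝ) ≤ d * M := by nlinarith
    rw [hκdef]
    nlinarith
  have hκ1 : 1 ≤ κ := by linarith
  have hκB : 2 * (H * B) ≤ κ := by
    rw [hκdef]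
    nlinarith
  obtain ⟨C, hC, hbig⟩ := int_big hr hd hκ1 hq
  set ω : ℝ := (volume (ball (0 : Vec d) 1)).toReal with hω
  have hω00 : 0 ≤ ω := ENNReal.toReal_nonneg
  refine ⟨(ρ ^ d * ω) * (H * (C * ((4 * κ + 1) ^ r * K) ^ (q - 1 - 1 / d))) + 1, by positivity, ?_⟩
  intro δ hδ hδ1 R hR ι _ _ v β s N V A k hv hsep hk hV hA hcard
  have hn0 : (1 : ℝ) ≤ Fintype.card ι := by
    have : 0 < Fintype.card ι := Fintype.card_pos
    exact_mod_cast this
  have hN1 : ∀ j, 1 ≤ N j := by
    intro j
    obtain ⟨i⟩ := (inferInstance : Nonempty ι)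
    have := hk i j
    omega
  set δ' : ℝ := δ / d / M with hδ'
  have hδ'0 : 0 < δ' := by positivity
  have hδ'1 : δ' ≤ 1 := by
    rw [hδ', div_div]
    apply div_le_one_of_le₀ _ (by positivity)
    linarith
  set N' : Fin r → ℝ := fun j => N j / M with hN'
  have hN'0 : ∀ j, 0 < N' j := by
    intro j
    have : (0 : ℝ) < N j := by exact_mod_cast hN1 j
    rw [hN']
    positivity
  have hN'le : ∀ j, N' j ≤ N j := by
    intro j
    exact div_le_self (Nat.cast_nonneg _) hMr
  have hsep1 : ∀ i j, i ≠ j → δ / d ≤ ‖V *ᵥ (fun l => (((k j - k i) l : ℤ) : ℝ))‖ := by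
    intro i j hij
    rw [← hV i j, div_le_iff₀ hd0]
    have h1 := norm_le_sup (v j - v i)
    have h2 := hsep j i (Ne.symm hij)
    linarith
  have hsf : ∀ n : Fin r → ℤ, n ≠ 0 → (∀ j, |(n j : ℝ)| ≤ N' j) → δ' ≤ ‖V *ᵥ (fun l => (n l : ℝ))‖ :=
    fun n hn hnN => sep_family hk hsep1 hcard hM hM0 n hn hnN
  have hsb : ∀ A' : Matrix (Fin d) (Fin r) ℝ, SepBox N' (H • V) A' δ' := by
    intro A' n hn hnN _
    rw [smul_mulVec, norm_smul, Real.norm_eq_abs, abs_of_pos hH0]
    have := hsf n hn hnN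
    nlinarith
  set X : ℝ := (4 * κ + 1) ^ r * (K * Fintype.card ι) with hXdef
  have hX1 : 1 ≤ X := by
    have h1 : (1 : ℝ) ≤ (4 * κ + 1) ^ r := one_le_pow₀ (by linarith)
    have h2 : (1 : ℝ) ≤ K * Fintype.card ι := by nlinarith
    nlinarith
  have hXc : ∀ A' : Matrix (Fin d) (Fin r) ℝ, ((Zs N' (H • V) A' (2 * κ) (2 * κ) (4 * κ)).ncard : ℝ) ≤ X := by
    intro A'
    refine (Zs_box hN1 (by positivity) hN'le _ _ _ _).trans ?_
    have e : 2 * (2 * κ) + 1 = 4 * κ + 1 := by ring
    rw [e, hXdef]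
    gcongr
  set L : ℝ := H * R with hL
  have hL0 : 0 < L := by positivity
  -- the multiplicity at the height `t`, for the tube number `i`
  let m : ι → ℝ → ℝ := fun i τ => (mt N' (H • V) (R⁻¹ • (A + s i • V)) δ' κ τ : ℝ)
  have hm : ∀ i, ∫⁻ t in Icc (s i - L) (s i + L), ENNReal.ofReal (m i ((t - s i) / L) ^ (q - 1)) ≤
      ENNReal.ofReal (L * (C * X ^ (q - 1 - 1 / d))) := by
    intro i
    rw [window hL0 (s i) (fun τ => ENNReal.ofReal (m i τ ^ (q - 1)))
      (((mt_meas _ _ _ _ _).pow_const _).ennreal_ofReal)]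
    rw [ENNReal.ofReal_mul hL0.le]
    gcongr
    exact hbig N' hN'0 _ _ δ' hδ'0 hδ'1 (hsb _) X hX1 (hXc _)
  have hρδ : 0 ≤ ρ * δ * R := by positivity
  let f : ι → ℝ → Vec d → ℝ≥0∞ := gt L (ρ * δ * R) v β s
  -- the number of the tubes through a point
  have hmult : ∀ i t x, f i t x ≠ 0 → ∑ j, f j t x ≤ ENNReal.ofReal (m i ((t - s i) / L)) := by
    intro i t x hi
    obtain ⟨hti, hxi, -⟩ := gt_one hi
    set J : Finset ι := Finset.univ.filter fun j => f j t x ≠ 0 with hJ
    have h1 : ∑ j, f j t x ≤ (J.card : ℝ≥0∞) := by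
      have e1 : ∑ j, f j t x = ∑ j ∈ J, f j t x := by
        rw [hJ, Finset.sum_filter_ne_zero]
      rw [e1]
      calc ∑ j ∈ J, f j t x ≤ ∑ _j ∈ J, 1 := by
            apply Finset.sum_le_sum
            intro j hj
            exact (gt_one (Finset.mem_filter.1 hj).2).2.2.le
        _ = J.card := by simp
    have h2 : J.card ≤ mt N' (H • V) (R⁻¹ • (A + s i • V)) δ' κ ((t - s i) / L) := by
      unfold mt
      have hki : ∀ j j', k j - k i = k j' - k i → j = j' := by
        intro j j' hjj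
        by_contra hne
        have h3 : k j = k j' := by simpa using hjj
        have h4 := hsep1 j j' hne
        rw [h3, sub_self] at h4
        have e : (fun l : Fin r => (((0 : Fin r → ℤ) l : ℤ) : ℝ)) = 0 := by
          ext l
          simp
        rw [e, mulVec_zero, norm_zero] at h4
        have : 0 < δ / d := by positivity
        linarith
      have h3 : (J.image fun j => k j - k i).card = J.card :=
        Finset.card_image_of_injOn fun j _ j' _ h => hki j j' h
      rw [← h3, ← Set.ncard_coe_finset]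
      apply Set.ncard_le_ncard _ (Ps_finite _ _ _ _ _ _)
      intro n hn
      rw [Finset.mem_coe, Finset.mem_image] at hn
      obtain ⟨j, hj, rfl⟩ := hn
      obtain ⟨htj, hxj, -⟩ := gt_one (Finset.mem_filter.1 hj).2
      refine ⟨fun l => ?_, ?_, ?_⟩
      · have h4 := hk i l
        have h5 := hk j l
        have h6 : |(((k j - k i) l : ℤ) : ℝ)| ≤ N l := by
          rw [Pi.sub_apply, abs_le]
          constructor
          · have : -(N l : ℤ) ≤ k j l - k i l := by omega
            exact_mod_cast this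
          · have : k j l - k i l ≤ N l := by omega
            exact_mod_cast this
        refine h6.trans ?_
        have h7 : (0 : ℝ) < N l := by exact_mod_cast hN1 l
        show (N l : ℝ) ≤ κ * (N l / M)
        rw [mul_div_assoc', le_div_iff₀ (by linarith), mul_comm]
        gcongr
      · show ‖(H • V) *ᵥ (fun l => (((k j - k i) l : ℤ) : ℝ))‖ ≤ κ
        rw [smul_mulVec, ← hV i j, norm_smul, Real.norm_eq_abs, abs_of_pos hH0]
        have h4 := sup_le_norm (v j - v i)
        have h5 : ‖v j - v i‖ ≤ 2 * B := (norm_sub_le _ _).trans (by linarith [hv i, hv j])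
        have h6 : H * ‖((v j - v i : Vec d).ofLp : Fin d → ℝ)‖ ≤ H * (2 * B) := by
          gcongr
          exact h4.trans h5
        linarith
      · show ‖(R⁻¹ • (A + s i • V)) *ᵥ (fun l => (((k j - k i) l : ℤ) : ℝ)) + ((t - s i) / L) •
          ((H • V) *ᵥ (fun l => (((k j - k i) l : ℤ) : ℝ)))‖ ≤ κ * δ'
        have e1 : (R⁻¹ • (A + s i • V)) *ᵥ (fun l => (((k j - k i) l : ℤ) : ℝ)) + ((t - s i) / L) •
            ((H • V) *ᵥ (fun l => (((k j - k i) l : ℤ) : ℝ))) =
            ((R⁻¹ • (β j - β i + t • (v j - v i)) : Vec d).ofLp : Fin d → ℝ) := by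
          have e4 : (t - s i) / L = R⁻¹ * ((t - s i) / H) := by
            rw [hL]
            field_simp
          rw [e4, smul_mulVec, add_mulVec, smul_mulVec, smul_mulVec, ← hV i j, ← hA i j, mul_smul, ← smul_add,
            smul_smul, add_assoc, ← add_smul]
          have : s i + (t - s i) / H * H = t := by
            field_simp
            ring
          rw [this]
          rfl
        rw [e1]
        refine (sup_le_norm _).trans ?_
        have e2 : β j - β i + t • (v j - v i) = (x - (β i + t • v i)) - (x - (β j + t • v j)) := by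
          rw [smul_sub]
          abel
        have e3 : κ * δ' = 2 * (ρ + H * B + 1) * δ := by
          rw [hκdef, hδ']
          field_simp
        have e5 : ‖(x - (β i + t • v i)) - (x - (β j + t • v j))‖ ≤ 2 * (ρ * δ * R) :=
          (norm_sub_le _ _).trans (by linarith)
        rw [e2, e3, norm_smul, norm_inv, Real.norm_eq_abs, abs_of_pos hR, inv_mul_le_iff₀ hR]
        refine e5.trans ?_
        have e6 : R * (2 * (ρ + H * B + 1) * δ) = 2 * (ρ * δ * R) + 2 * (H * B + 1) * δ * R := by ring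
        rw [e6]
        have : 0 ≤ 2 * (H * B + 1) * δ * R := by positivity
        linarith
    refine h1.trans ?_
    rw [← ENNReal.ofReal_natCast]
    exact ENNReal.ofReal_le_ofReal (Nat.cast_le.2 h2)
  have hm0 : ∀ i τ, 0 ≤ m i τ := fun i τ => Nat.cast_nonneg _
  have hpow : ∀ t x, (∑ i, f i t x) ^ q ≤ ∑ i, f i t x * ENNReal.ofReal (m i ((t - s i) / L) ^ (q - 1)) := by
    intro t x
    have e1 : (∑ i, f i t x) ^ q = (∑ i, f i t x) * (∑ i, f i t x) ^ (q - 1) := by
      have : q = 1 + (q - 1) := by ring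
      conv_lhs => rw [this]
      rw [ENNReal.rpow_add_of_nonneg _ _ (by norm_num) hq1.le, ENNReal.rpow_one]
    rw [e1, Finset.sum_mul]
    apply Finset.sum_le_sum
    intro i _
    by_cases h0 : f i t x = 0
    · rw [h0, zero_mul]
      exact bot_le
    · gcongr
      rw [← ENNReal.ofReal_rpow_of_nonneg (hm0 i _) hq1.le]
      apply ENNReal.rpow_le_rpow (hmult i t x h0) hq1.le
  calc ∫⁻ t : ℝ, ∫⁻ x : Vec d, (∑ i, f i t x) ^ q
      ≤ ∫⁻ t : ℝ, ∑ i, (Icc (s i - L) (s i + L)).indicator
          (fun t => ENNReal.ofReal ((ρ * δ * R) ^ d * ω) * ENNReal.ofReal (m i ((t - s i) / L) ^ (q - 1))) t := by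
        refine lintegral_mono fun t => ?_
        calc ∫⁻ x : Vec d, (∑ i, f i t x) ^ q
            ≤ ∫⁻ x : Vec d, ∑ i, f i t x * ENNReal.ofReal (m i ((t - s i) / L) ^ (q - 1)) :=
              lintegral_mono fun x => hpow t x
          _ = ∑ i, (∫⁻ x : Vec d, f i t x) * ENNReal.ofReal (m i ((t - s i) / L) ^ (q - 1)) := by
              rw [lintegral_finsetSum _ (fun i _ => (gt_meas _ _ _ _ _ i t).mul_const _)]
              apply Finset.sum_congr rfl
              intro i _
              rw [lintegral_mul_const _ (gt_meas _ _ _ _ _ i t)]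
          _ ≤ _ := by
              apply Finset.sum_le_sum
              intro i _
              have h1 := gt_lint L hρδ v β s i t
              show (∫⁻ x : Vec d, gt L (ρ * δ * R) v β s i t x) * _ ≤ _
              rw [h1]
              by_cases ht : t ∈ Icc (s i - L) (s i + L)
              · rw [indicator_of_mem ht, indicator_of_mem ht]
              · rw [indicator_of_notMem ht, indicator_of_notMem ht, zero_mul]
    _ = ∑ i, ∫⁻ t in Icc (s i - L) (s i + L),
          ENNReal.ofReal ((ρ * δ * R) ^ d * ω) * ENNReal.ofReal (m i ((t - s i) / L) ^ (q - 1)) := by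
        rw [lintegral_finsetSum']
        · apply Finset.sum_congr rfl
          intro i _
          rw [lintegral_indicator measurableSet_Icc]
        · intro i _
          apply Measurable.aemeasurable
          apply Measurable.indicator _ measurableSet_Icc
          apply Measurable.const_mul
          apply Measurable.ennreal_ofReal
          apply Measurable.pow_const
          exact (mt_meas _ _ _ _ _).comp ((measurable_id.sub_const _).div_const _)
    _ ≤ ∑ _i : ι, ENNReal.ofReal ((ρ * δ * R) ^ d * ω) * ENNReal.ofReal (L * (C * X ^ (q - 1 - 1 / d))) := by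
        apply Finset.sum_le_sum
        intro i _
        rw [lintegral_const_mul' _ _ ENNReal.ofReal_ne_top]
        gcongr
        exact hm i
    _ ≤ _ := by
        rw [Finset.sum_const, Finset.card_univ, nsmul_eq_mul, ← ENNReal.ofReal_mul (by positivity),
          ← ENNReal.ofReal_natCast, ← ENNReal.ofReal_mul (by positivity)]
        apply ENNReal.ofReal_le_ofReal
        have e1 : X ^ (q - 1 - 1 / (d : ℝ)) = ((4 * κ + 1) ^ r * K) ^ (q - 1 - 1 / (d : ℝ)) *
            (Fintype.card ι : ℝ) ^ (q - 1 - 1 / (d : ℝ)) := by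
          rw [hXdef, ← mul_assoc, Real.mul_rpow (by positivity) (by positivity)]
        have e2 : (Fintype.card ι : ℝ) ^ (q - 1 / (d : ℝ)) = (Fintype.card ι : ℝ) *
            (Fintype.card ι : ℝ) ^ (q - 1 - 1 / (d : ℝ)) := by
          have : q - 1 / (d : ℝ) = 1 + (q - 1 - 1 / (d : ℝ)) := by ring
          rw [this, Real.rpow_add (by linarith), Real.rpow_one]
        rw [e1, e2, mul_pow, mul_pow, pow_succ R d, hL]
        have e3 : 0 ≤ δ ^ d * (R ^ d * R) * ((Fintype.card ι : ℝ) * (Fintype.card ι : ℝ) ^ (q - 1 - 1 / (d : ℝ))) := by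
          positivity
        nlinarith [e3]

end Pool.Agent.N250.GAP
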