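import Pool.Agent.N250.GAP.NLloc
import Pool.Agent.N3.ST.H

/-!
# Sets of lines of bounded doubling: the local estimate of the rich heights
-/

set_option autoImplicit false

open MeasureTheory Set
open scoped Pointwise

namespace Pool.Agent.N250.GAP

open Pool.Agent.N3.ST.H (freiman count_F incl)

/-- the local version of `S_double` -/
theorem double_loc (d : ℕ) (hd : 1 ≤ d) (K s : ℝ) (hK : 1 ≤ K) (hs0 : 0 < s) (hs : s < 1 / d) :
    ∃ C : ℝ, 0 < C ∧ ∀ (δ : ℝ), 0 < δ → ∀ (A : Finset (N3.ST.Vec d × N3.ST.Vec d)),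
    ((A + A).card : ℝ) ≤ K * (A.card : ℝ) →
    (∀ F : Finset (N3.ST.Vec d × N3.ST.Vec d), F ⊆ A → (∃ v₀ : N3.ST.Vec d, ∀ p ∈ F, ‖p.1 - v₀‖ ≤ δ) →
      (F.card : ℝ) ≤ K) →
    ∀ x h lam : ℝ, 0 < h → h ≤ 2 → 1 ≤ lam → volume {t ∈ Icc x (x + h) | ∃ F ⊆ A,
      (∃ y : N3.ST.Vec d, ∀ p ∈ F, ‖p.2 + t • p.1 - y‖ ≤ δ) ∧ lam ≤ (F.card : ℝ)} ≤
      ENNReal.ofReal (C * h ^ (1 - d * s) * lam ^ (-s)) := by
  obtain ⟨r0, V0, T0, hV0, hT0, hfr⟩ := freiman d K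
  have hNL' := fun r : ℕ => nl_loc r d hd (K * T0 * 2 ^ r * V0) (1 / 2) s (by norm_num) (by norm_num) hs0 hs
  choose Cf hCf0 hCf using hNL'
  have hT0' : 0 < T0 := by linarith
  refine ⟨(∑ r ∈ Finset.range (r0 + 1), Cf r) * T0 ^ s, ?_, ?_⟩
  · refine mul_pos (Finset.sum_pos (fun r _ => hCf0 r) ⟨0, by simp⟩) (Real.rpow_pos_of_pos hT0' _)
  intro δ hδ A hA2 hdir x h lam hh hh2 hlam
  rcases A.eq_empty_or_nonempty with rfl | hA
  · have : {t ∈ Icc x (x + h) | ∃ F ⊆ (∅ : Finset (N3.ST.Vec d × N3.ST.Vec d)),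
        (∃ y : N3.ST.Vec d, ∀ p ∈ F, ‖p.2 + t • p.1 - y‖ ≤ δ) ∧ lam ≤ (F.card : ℝ)} = ∅ := by
      rw [Set.eq_empty_iff_forall_notMem]
      rintro t ⟨_, F, hF, _, hl⟩
      rw [Finset.subset_empty.1 hF, Finset.card_empty, Nat.cast_zero] at hl
      linarith
    rw [this, measure_empty]
    exact bot_le
  obtain ⟨r, g, L, T, hr, hvol, hT, hcov⟩ := hfr A hA hA2
  choose! τ hτ c hc hac using hcov
  set L' : Fin r → ℝ := fun i => max (2 * (L i : ℝ)) (1 / 2) with hL'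
  set w : Fin r → N3.ST.Vec d := fun i => (2 * δ)⁻¹ • ((g i).2 + x • (g i).1) with hw
  set u : Fin r → N3.ST.Vec d := fun i => (2 * δ)⁻¹ • (g i).1 with hu
  have hL'0 : ∀ i, 0 < L' i := fun i => lt_of_lt_of_le (by norm_num) (le_max_right _ _)
  have hu' : ∀ F : Finset (Fin r → ℤ), (∀ n ∈ F, (∀ i, |(n i : ℝ)| ≤ 1 / 2 * L' i) ∧
        ‖∑ i, (n i : ℝ) • u i‖ ≤ 1 / 2) → (F.card : ℝ) ≤ K * T0 * 2 ^ r * V0 := by
    intro F hF
    refine count_F hK hA hdir g L T hvol hT0'.le hT τ c hτ hc hac F ?_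
    intro n hn
    obtain ⟨h1, h2⟩ := hF n hn
    refine ⟨fun i => ?_, ?_⟩
    · have h3 := h1 i
      have h4 : 1 / 2 * L' i < (L i : ℝ) + 1 := by
        rw [hL']
        simp only
        rcases le_total (2 * (L i : ℝ)) (1 / 2) with h5 | h5
        · rw [max_eq_right h5]
          have : (0 : ℝ) ≤ L i := Nat.cast_nonneg _
          linarith
        · rw [max_eq_left h5]; linarith
      have h5 : |(n i : ℝ)| < (L i : ℝ) + 1 := lt_of_le_of_lt h3 h4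
      have h6 : |n i| < (L i : ℤ) + 1 := by exact_mod_cast h5
      omega
    · have h3 : ∑ i, (n i : ℝ) • (g i).1 = (2 * δ) • ∑ i, (n i : ℝ) • u i := by
        rw [Finset.smul_sum]
        refine Finset.sum_congr rfl fun i _ => ?_
        rw [hu]
        simp only
        rw [smul_comm (2 * δ), smul_inv_smul₀ (by positivity)]
      rw [h3, norm_smul, Real.norm_of_nonneg (by positivity)]
      nlinarith
  have hmain := hCf r L' hL'0 w u hu' 0 h (by norm_num) (by norm_num) hh hh2 (max 1 (lam / T0)) (le_max_left _ _)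
  rw [zero_add] at hmain
  set N := {t ∈ Icc (0 : ℝ) h | ∃ F : Finset (Fin r → ℤ),
        (∀ n ∈ F, (∀ i, |(n i : ℝ)| ≤ L' i) ∧ ‖∑ i, (n i : ℝ) • (w i + t • u i)‖ ≤ 1) ∧
        max 1 (lam / T0) ≤ (F.card : ℝ)} with hN
  have hsub : {t ∈ Icc x (x + h) | ∃ F ⊆ A,
      (∃ y : N3.ST.Vec d, ∀ p ∈ F, ‖p.2 + t • p.1 - y‖ ≤ δ) ∧ lam ≤ (F.card : ℝ)} ⊆
      (fun t => t + -x) ⁻¹' N := by
    rintro t ⟨ht, F, hFA, ⟨y, hy⟩, hl⟩
    rw [Set.mem_preimage, hN]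
    refine ⟨⟨by linarith [ht.1], by linarith [ht.2]⟩, ?_⟩
    rw [← sub_eq_add_neg]
    exact incl hδ hT0 hlam A g L T hT τ c hτ hc hac F hFA y hy hl
  refine (measure_mono hsub).trans ?_
  rw [measure_preimage_add_right]
  refine hmain.trans (ENNReal.ofReal_le_ofReal ?_)
  have h1 : (max 1 (lam / T0)) ^ (-s) ≤ (lam / T0) ^ (-s) :=
    Real.rpow_le_rpow_of_nonpos (by positivity) (le_max_right _ _) (by linarith)
  have h2 : (lam / T0) ^ (-s) = T0 ^ s * lam ^ (-s) := by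
    rw [Real.div_rpow (by linarith) hT0'.le, Real.rpow_neg hT0'.le, div_inv_eq_mul, mul_comm]
  have h3 : Cf r ≤ ∑ r ∈ Finset.range (r0 + 1), Cf r :=
    Finset.single_le_sum (fun i _ => (hCf0 i).le) (Finset.mem_range.2 (by omega))
  have h4 : 0 ≤ h ^ (1 - d * s) := by positivity
  have hl0 : 0 < lam := by linarith
  calc Cf r * h ^ (1 - d * s) * (max 1 (lam / T0)) ^ (-s) ≤ Cf r * h ^ (1 - d * s) * (T0 ^ s * lam ^ (-s)) := by
        rw [← h2]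
        exact mul_le_mul_of_nonneg_left h1 (mul_nonneg (hCf0 r).le h4)
    _ ≤ (∑ r ∈ Finset.range (r0 + 1), Cf r) * h ^ (1 - d * s) * (T0 ^ s * lam ^ (-s)) := by
        gcongr
    _ = _ := by ring

/-- the same for intervals of length at most `4` -/
theorem double_loc4 (d : ℕ) (hd : 1 ≤ d) (K s : ℝ) (hK : 1 ≤ K) (hs0 : 0 < s) (hs : s < 1 / d) :
    ∃ C : ℝ, 0 < C ∧ ∀ (δ : ℝ), 0 < δ → ∀ (A : Finset (N3.ST.Vec d × N3.ST.Vec d)),
    ((A + A).card : ℝ) ≤ K * (A.card : ℝ) →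
    (∀ F : Finset (N3.ST.Vec d × N3.ST.Vec d), F ⊆ A → (∃ v₀ : N3.ST.Vec d, ∀ p ∈ F, ‖p.1 - v₀‖ ≤ δ) →
      (F.card : ℝ) ≤ K) →
    ∀ x h lam : ℝ, 0 < h → h ≤ 4 → 1 ≤ lam → volume {t ∈ Icc x (x + h) | ∃ F ⊆ A,
      (∃ y : N3.ST.Vec d, ∀ p ∈ F, ‖p.2 + t • p.1 - y‖ ≤ δ) ∧ lam ≤ (F.card : ℝ)} ≤
      ENNReal.ofReal (C * h ^ (1 - d * s) * lam ^ (-s)) := by
  obtain ⟨C, hC, h1⟩ := double_loc d hd K s hK hs0 hs
  have hd0 : (0 : ℝ) < d := by exact_mod_cast hd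
  refine ⟨2 * C, by positivity, ?_⟩
  intro δ hδ A hA2 hdir x h lam hh hh4 hlam
  have g1 := h1 δ hδ A hA2 hdir x (h / 2) lam (by positivity) (by linarith) hlam
  have g2 := h1 δ hδ A hA2 hdir (x + h / 2) (h / 2) lam (by positivity) (by linarith) hlam
  have hsub : {t ∈ Icc x (x + h) | ∃ F ⊆ A,
      (∃ y : N3.ST.Vec d, ∀ p ∈ F, ‖p.2 + t • p.1 - y‖ ≤ δ) ∧ lam ≤ (F.card : ℝ)} ⊆
      {t ∈ Icc x (x + h / 2) | ∃ F ⊆ A,
        (∃ y : N3.ST.Vec d, ∀ p ∈ F, ‖p.2 + t • p.1 - y‖ ≤ δ) ∧ lam ≤ (F.card : ℝ)} ∪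
      {t ∈ Icc (x + h / 2) (x + h / 2 + h / 2) | ∃ F ⊆ A,
        (∃ y : N3.ST.Vec d, ∀ p ∈ F, ‖p.2 + t • p.1 - y‖ ≤ δ) ∧ lam ≤ (F.card : ℝ)} := by
    rintro t ⟨ht, hF⟩
    rcases le_total t (x + h / 2) with h2 | h2
    · left
      exact ⟨⟨ht.1, h2⟩, hF⟩
    · right
      exact ⟨⟨h2, by linarith [ht.2]⟩, hF⟩
  refine (measure_mono hsub).trans ((measure_union_le _ _).trans ((add_le_add g1 g2).trans ?_))
  have hl0 : 0 < lam := by linarith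
  rw [← ENNReal.ofReal_add (by positivity) (by positivity)]
  apply ENNReal.ofReal_le_ofReal
  have hds1 : (d : ℝ) * s < 1 := by
    rw [lt_div_iff₀ hd0] at hs
    linarith
  have h3 : (h / 2) ^ (1 - d * s) ≤ h ^ (1 - d * s) :=
    Real.rpow_le_rpow (by positivity) (by linarith) (by linarith)
  have h4 : 0 ≤ lam ^ (-s) := by positivity
  nlinarith [mul_le_mul_of_nonneg_right (mul_le_mul_of_nonneg_left h3 hC.le) h4]

end Pool.Agent.N250.GAP
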