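import Pool.Agent.N250.GAP.Pts

/-!
# The integrals of the powers of the multiplicity
-/

open Matrix Module Polynomial MeasureTheory Set
open scoped ENNReal

namespace Pool.Agent.N250.GAP

theorem mt_pos {r d : ℕ} {N : Fin r → ℝ} (hN : ∀ j, 0 < N j) (V A : Matrix (Fin d) (Fin r) ℝ) {δ κ : ℝ}
    (hδ : 0 < δ) (hκ : 0 ≤ κ) (t : ℝ) : 1 ≤ mt N V A δ κ t := by
  unfold mt
  rw [Nat.one_le_iff_ne_zero, ← Nat.pos_iff_ne_zero, Set.ncard_pos (Ps_finite N V A δ κ t)]
  refine ⟨0, fun j => ?_, ?_, ?_⟩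
  · simp only [Pi.zero_apply, Int.cast_zero, abs_zero]
    exact mul_nonneg hκ (hN j).le
  · have : (fun j : Fin r => (((0 : Fin r → ℤ) j : ℤ) : ℝ)) = 0 := by
      ext j
      simp
    rw [this, mulVec_zero, norm_zero]
    exact hκ
  · have : (fun j : Fin r => (((0 : Fin r → ℤ) j : ℤ) : ℝ)) = 0 := by
      ext j
      simp
    rw [this, mulVec_zero, mulVec_zero, smul_zero, add_zero, norm_zero]
    positivity

/-- the scale-free bound for small powers of the multiplicity -/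
theorem int_small {r d : ℕ} (hr : 1 ≤ r) (hd : 1 ≤ d) {κ θ : ℝ} (hκ : 1 ≤ κ) (hθ : 0 < θ) (hθd : θ * d < 1) :
    ∃ C : ℝ, 0 < C ∧ ∀ (N : Fin r → ℝ), (∀ j, 0 < N j) → ∀ (V A : Matrix (Fin d) (Fin r) ℝ)
    (δ : ℝ), 0 < δ → δ ≤ 1 → SepBox N V A δ → ∀ (x h : ℝ), -5 ≤ x → x ≤ 1 → 0 < h → h ≤ 8 →
      ∫⁻ t in Icc x (x + h), ENNReal.ofReal ((mt N V A δ κ t : ℝ) ^ θ) ≤
        ENNReal.ofReal (C * h ^ (1 - d * θ)) := by
  obtain ⟨c, hc, hstart⟩ := start hr
  obtain ⟨C, hC, hfree⟩ := free_At (r := r) (β := θ / 2) hd (by positivity) (by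
    push_cast
    linarith)
  set D : ℕ := 2 * d with hD
  have hD1 : 1 ≤ D := by omega
  have hD0 : (0 : ℝ) < D := by exact_mod_cast hD1
  set c1 : ℝ := c / ((D + 1) * (10 * D) ^ D) with hc1
  have hc1' : 0 < c1 := by positivity
  set Q : ℝ := (9 ^ r * (r.factorial) * (κ * ((r : ℝ) + 2 * d + 1)) ^ (2 * r)) ^ (θ / 2) with hQ
  have hQ0 : 0 < Q := by positivity
  refine ⟨Q * (C * c1 ^ (-(θ / 2))), by positivity, ?_⟩
  intro N hN V A δ hδ hδ1 hs x h hx hx1 hh hh8
  have h1 := hfree N hN V A δ hδ x h hh (c1 * h ^ D) (by positivity) (by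
    intro a
    have h2 := hstart d N hN V A δ hδ hδ1 hs a
    have h3 := M_comp (D := D) hD1 (PP_deg N V A δ a) (x := -1) (h := 2) (x' := x) (h' := h) (L := 10)
      hh (by norm_num) (fun z hz y hy => by
        rw [abs_le]
        constructor
        · linarith [hz.1, hy.2]
        · linarith [hz.2, hy.1]) (by linarith)
    have h4 := h2.trans h3
    have e : c1 * h ^ D = c / ((D + 1) * (D * 10 / h) ^ D) := by
      rw [hc1, div_pow]
      have : (D : ℝ) * 10 = 10 * D := mul_comm _ _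
      rw [this]
      field_simp
    rw [e, div_le_iff₀ (by positivity), mul_comm]
    exact h4)
  have hmt : ∀ t, ENNReal.ofReal ((mt N V A δ κ t : ℝ) ^ θ) ≤ ENNReal.ofReal Q *
      ⨆ a, ENNReal.ofReal (DD (At N V A δ t) a ^ (-(θ / 2))) := by
    intro t
    have h5 := mt_le hN V A hδ hκ t (β := θ / 2) (by positivity)
    have e : 2 * (θ / 2) = θ := by ring
    rw [e] at h5
    exact h5
  calc ∫⁻ t in Icc x (x + h), ENNReal.ofReal ((mt N V A δ κ t : ℝ) ^ θ)
      ≤ ∫⁻ t in Icc x (x + h), ENNReal.ofReal Q * ⨆ a, ENNReal.ofReal (DD (At N V A δ t) a ^ (-(θ / 2))) :=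
        lintegral_mono hmt
    _ = ENNReal.ofReal Q * ∫⁻ t in Icc x (x + h), ⨆ a, ENNReal.ofReal (DD (At N V A δ t) a ^ (-(θ / 2))) :=
        lintegral_const_mul' _ _ ENNReal.ofReal_ne_top
    _ ≤ ENNReal.ofReal Q * ENNReal.ofReal (C * h * (c1 * h ^ D) ^ (-(θ / 2))) := by gcongr
    _ = _ := by
        rw [← ENNReal.ofReal_mul hQ0.le]
        congr 1
        rw [Real.mul_rpow hc1'.le (by positivity), ← Real.rpow_natCast h D, ← Real.rpow_mul hh.le]
        have e1 : ((D : ℕ) : ℝ) * (-(θ / 2)) = - (d * θ) := by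
          rw [hD]
          push_cast
          ring
        rw [e1]
        have e2 : h ^ (1 - d * θ) = h * h ^ (-(d * θ)) := by
          rw [sub_eq_add_neg, Real.rpow_add hh, Real.rpow_one]
        rw [e2]
        ring

/-- **the sharp bound for large powers of the multiplicity** -/
theorem int_big {r d : ℕ} (hr : 1 ≤ r) (hd : 1 ≤ d) {κ s : ℝ} (hκ : 1 ≤ κ) (hs : 1 < s * d) :
    ∃ C : ℝ, 0 < C ∧ ∀ (N : Fin r → ℝ), (∀ j, 0 < N j) → ∀ (V A : Matrix (Fin d) (Fin r) ℝ)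
    (δ : ℝ), 0 < δ → δ ≤ 1 → SepBox N V A δ → ∀ X : ℝ, 1 ≤ X →
      ((Zs N V A (2 * κ) (2 * κ) (4 * κ)).ncard : ℝ) ≤ X →
      ∫⁻ t in Icc (-1 : ℝ) 1, ENNReal.ofReal ((mt N V A δ κ t : ℝ) ^ s) ≤
        ENNReal.ofReal (C * X ^ (s - 1 / d)) := by
  have hd0 : (0 : ℝ) < d := by exact_mod_cast hd
  have hs0 : 0 < s := by
    by_contra h
    push Not at h
    nlinarith
  -- the auxiliary exponent
  obtain ⟨θ, hθ, hθd, hθs⟩ : ∃ θ : ℝ, 0 < θ ∧ θ * d < 1 ∧ 2 < (s + θ) * d := by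
    have h1 : max 0 (2 / d - s) < 1 / d := by
      apply max_lt (by positivity)
      have : 1 / (d : ℝ) < s := by
        rw [div_lt_iff₀ hd0]
        exact hs
      have e : 2 / (d : ℝ) = 1 / d + 1 / d := by ring
      linarith
    obtain ⟨θ, h2, h3⟩ := exists_between h1
    have h4 := (max_lt_iff.1 h2).1
    have h5 := (max_lt_iff.1 h2).2
    refine ⟨θ, h4, ?_, ?_⟩
    · rwa [lt_div_iff₀ hd0] at h3
    · have : 2 / (d : ℝ) < s + θ := by linarith
      rwa [div_lt_iff₀ hd0] at this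
  have hsθ : 0 < s - θ := by nlinarith
  obtain ⟨C, hC, hsm⟩ := int_small hr hd hκ hθ hθd
  set K0 : ℝ := (4 * κ + 3) ^ r * (8 * κ + 6) ^ d * (8 * κ + 3) ^ d with hK0
  have hK0' : 0 < K0 := by positivity
  set η : ℝ := d * (s + θ) / 2 - 1 with hη
  have hη0 : 0 < η := by
    rw [hη]
    linarith
  set q : ℝ := (2 : ℝ) ^ (-η) with hq
  have hq0 : 0 < q := by positivity
  have hq1 : q < 1 := Real.rpow_lt_one_of_one_lt_of_neg (by norm_num) (by linarith)
  set K : ℝ := (K0 ^ (1 / 2 : ℝ)) ^ (s - θ) * (C * 4 ^ (1 - d * θ)) with hK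
  have hK' : 0 < K := by positivity
  have hq1' : 0 < 1 - q := by linarith
  refine ⟨2 + K / (1 - q), by positivity, ?_⟩
  intro N hN V A δ hδ hδ1 hsep X hX1 hX
  have hX0 : 0 < X := by linarith
  have hκ0 : 0 ≤ κ := by linarith
  have hmX : ∀ t ∈ Icc (-1 : ℝ) 1, (mt N V A δ κ t : ℝ) ≤ X := fun t ht =>
    mt_le_X hN hδ1 hκ0 (abs_le.2 ht) hX
  have hm1 : ∀ t, (1 : ℝ) ≤ mt N V A δ κ t := fun t => by
    exact_mod_cast mt_pos hN V A hδ hκ0 t
  -- the maximum
  obtain ⟨t0, ht0, hmax⟩ : ∃ t0 ∈ Icc (-1 : ℝ) 1, ∀ t ∈ Icc (-1 : ℝ) 1, mt N V A δ κ t ≤ mt N V A δ κ t0 := by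
    have hne : ((fun t => mt N V A δ κ t) '' Icc (-1 : ℝ) 1).Nonempty :=
      (nonempty_Icc.2 (by norm_num)).image _
    have hbd : BddAbove ((fun t => mt N V A δ κ t) '' Icc (-1 : ℝ) 1) := by
      refine ⟨⌊X⌋₊, ?_⟩
      rintro _ ⟨t, ht, rfl⟩
      exact Nat.le_floor (hmX t ht)
    obtain ⟨t0, ht0, h0⟩ := Nat.sSup_mem hne hbd
    refine ⟨t0, ht0, fun t ht => ?_⟩
    have := le_csSup hbd (mem_image_of_mem _ ht)
    rw [← h0] at this
    exact this
  set ρ : ℝ := X ^ (-(1 / (d : ℝ))) with hρ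
  have hρ0 : 0 < ρ := by positivity
  have hρd : ρ ^ d = X⁻¹ := by
    rw [hρ, ← Real.rpow_natCast, ← Real.rpow_mul hX0.le]
    have : -(1 / (d : ℝ)) * d = -1 := by field_simp
    rw [this, Real.rpow_neg_one]
  have hρ1 : ρ ≤ 1 := Real.rpow_le_one_of_one_le_of_nonpos hX1 (by
    rw [neg_nonpos]
    positivity)
  let B : ℕ → Set ℝ := fun l => Icc (-1 : ℝ) 1 ∩ {t | 2 ^ l * ρ ≤ |t - t0| ∧ |t - t0| ≤ 2 ^ (l + 1) * ρ}
  let A0 : Set ℝ := Icc (-1 : ℝ) 1 ∩ Icc (t0 - ρ) (t0 + ρ)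
  have hcov : Icc (-1 : ℝ) 1 ⊆ A0 ∪ ⋃ l, B l := by
    intro t ht
    by_cases h : |t - t0| ≤ ρ
    · left
      have := abs_le.1 h
      exact ⟨ht, by linarith, by linarith⟩
    · right
      push Not at h
      obtain ⟨l, hl1, hl2⟩ := exists_nat_pow_near (x := |t - t0| / ρ) (y := 2) (by
        rw [le_div_iff₀ hρ0]
        linarith) (by norm_num)
      rw [mem_iUnion]
      refine ⟨l, ht, ?_, ?_⟩
      · rwa [le_div_iff₀ hρ0] at hl1
      · rw [div_lt_iff₀ hρ0] at hl2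
        exact hl2.le
  have hA0 : ∫⁻ t in A0, ENNReal.ofReal ((mt N V A δ κ t : ℝ) ^ s) ≤ ENNReal.ofReal (2 * X ^ (s - 1 / d)) := by
    calc ∫⁻ t in A0, ENNReal.ofReal ((mt N V A δ κ t : ℝ) ^ s) ≤ ∫⁻ _t in A0, ENNReal.ofReal (X ^ s) := by
          apply setLIntegral_mono' (measurableSet_Icc.inter measurableSet_Icc)
          intro t ht
          apply ENNReal.ofReal_le_ofReal
          have := hmX t ht.1
          have := hm1 t
          gcongr
      _ = ENNReal.ofReal (X ^ s) * volume A0 := setLIntegral_const _ _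
      _ ≤ ENNReal.ofReal (X ^ s) * ENNReal.ofReal (2 * ρ) := by
          gcongr
          refine (measure_mono inter_subset_right).trans ?_
          rw [Real.volume_Icc]
          apply ENNReal.ofReal_le_ofReal
          linarith
      _ = _ := by
          rw [← ENNReal.ofReal_mul (by positivity)]
          congr 1
          rw [hρ, sub_eq_add_neg, Real.rpow_add hX0]
          ring
  have hB : ∀ l, ∫⁻ t in B l, ENNReal.ofReal ((mt N V A δ κ t : ℝ) ^ s) ≤
      ENNReal.ofReal (K * X ^ (s - 1 / d) * q ^ l) := by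
    intro l
    by_cases hl : (2 : ℝ) ^ l * ρ ≤ 2
    swap
    · push Not at hl
      have : B l = ∅ := by
        rw [Set.eq_empty_iff_forall_notMem]
        rintro t ⟨ht, h1, -⟩
        have h2 : |t - t0| ≤ 2 := by
          rw [abs_le]
          constructor <;> linarith [ht.1, ht.2, ht0.1, ht0.2]
        linarith
      rw [this, Measure.restrict_empty, lintegral_zero_measure]
      exact bot_le
    set h : ℝ := 2 ^ (l + 1) * ρ with hh
    have hh0 : 0 < h := by positivity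
    have hh4 : h ≤ 4 := by
      rw [hh, pow_succ]
      linarith
    have hBm : MeasurableSet (B l) := by
      apply measurableSet_Icc.inter
      apply MeasurableSet.inter
      · exact measurableSet_le measurable_const ((measurable_id.sub_const _).abs)
      · exact measurableSet_le ((measurable_id.sub_const _).abs) measurable_const
    set Y : ℝ := K0 ^ (1 / 2 : ℝ) * X * 2 ^ (-(l * d / 2 : ℝ)) with hY
    have hY0 : 0 < Y := by positivity
    have hmY : ∀ t ∈ B l, (mt N V A δ κ t : ℝ) ≤ Y := by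
      rintro t ⟨ht, h1, h2⟩
      have h2l : 0 < (2 : ℝ) ^ l * ρ := by positivity
      have hne : t ≠ t0 := by
        rintro rfl
        rw [sub_self, abs_zero] at h1
        linarith
      have h3 := two_pt hN hδ hδ1 hsep hκ hX (abs_le.2 ht) (abs_le.2 ht0) hne
      have h4 : (mt N V A δ κ t : ℝ) * mt N V A δ κ t ≤ X * (K0 * (((2 : ℝ) ^ l * ρ) ^ d)⁻¹) := by
        calc (mt N V A δ κ t : ℝ) * mt N V A δ κ t ≤ mt N V A δ κ t * mt N V A δ κ t0 := by
              have : (mt N V A δ κ t : ℝ) ≤ mt N V A δ κ t0 := by exact_mod_cast hmax t ht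
              gcongr
          _ ≤ _ := h3
          _ ≤ _ := by gcongr
      have h5 : X * (K0 * (((2 : ℝ) ^ l * ρ) ^ d)⁻¹) = Y ^ 2 := by
        have e3 : (K0 ^ (1 / 2 : ℝ)) ^ 2 = K0 := by
          rw [← Real.sqrt_eq_rpow, Real.sq_sqrt hK0'.le]
        have e4 : ((2 : ℝ) ^ (-(l * d / 2 : ℝ))) ^ 2 = (((2 : ℝ) ^ l) ^ d)⁻¹ := by
          rw [← Real.rpow_natCast ((2 : ℝ) ^ (-(l * d / 2 : ℝ))), ← Real.rpow_mul (by norm_num)]
          have e2 : -(l * d / 2 : ℝ) * ((2 : ℕ) : ℝ) = -((l * d : ℕ) : ℝ) := by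
            push_cast
            ring
          rw [e2, Real.rpow_neg (by norm_num), Real.rpow_natCast, ← pow_mul]
        rw [hY, mul_pow, mul_pow, mul_pow, e3, e4, hρd, mul_inv, inv_inv]
        ring
      rw [h5, ← sq] at h4
      exact (sq_le_sq₀ (Nat.cast_nonneg _) hY0.le).1 h4
    calc ∫⁻ t in B l, ENNReal.ofReal ((mt N V A δ κ t : ℝ) ^ s)
        ≤ ∫⁻ t in B l, ENNReal.ofReal (Y ^ (s - θ)) * ENNReal.ofReal ((mt N V A δ κ t : ℝ) ^ θ) := by
          apply setLIntegral_mono' hBm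
          intro t ht
          rw [← ENNReal.ofReal_mul (by positivity)]
          apply ENNReal.ofReal_le_ofReal
          have h1 := hm1 t
          have h2 : (mt N V A δ κ t : ℝ) ^ s = (mt N V A δ κ t : ℝ) ^ (s - θ) * (mt N V A δ κ t : ℝ) ^ θ := by
            rw [← Real.rpow_add (by linarith)]
            congr 1
            ring
          rw [h2]
          have := hmY t ht
          gcongr
      _ = ENNReal.ofReal (Y ^ (s - θ)) * ∫⁻ t in B l, ENNReal.ofReal ((mt N V A δ κ t : ℝ) ^ θ) :=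
          lintegral_const_mul' _ _ ENNReal.ofReal_ne_top
      _ ≤ ENNReal.ofReal (Y ^ (s - θ)) * ∫⁻ t in Icc (t0 - h) (t0 - h + 2 * h),
            ENNReal.ofReal ((mt N V A δ κ t : ℝ) ^ θ) := by
          gcongr
          rintro t ⟨-, -, h2⟩
          have := abs_le.1 h2
          exact ⟨by linarith, by linarith⟩
      _ ≤ ENNReal.ofReal (Y ^ (s - θ)) * ENNReal.ofReal (C * (2 * h) ^ (1 - d * θ)) := by
          gcongr
          exact hsm N hN V A δ hδ hδ1 hsep (t0 - h) (2 * h) (by linarith [ht0.1]) (by linarith [ht0.2])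
            (by positivity) (by linarith)
      _ = _ := by
          rw [← ENNReal.ofReal_mul (by positivity)]
          congr 1
          have e1 : 2 * h = 4 * (2 ^ (l : ℝ) * X ^ (-(1 / (d : ℝ)))) := by
            rw [hh, hρ, Real.rpow_natCast, pow_succ]
            ring
          have e4 : Y ^ (s - θ) = (K0 ^ (1 / 2 : ℝ)) ^ (s - θ) * X ^ (s - θ) * 2 ^ (-(l * d / 2 : ℝ) * (s - θ)) := by
            rw [hY, Real.mul_rpow (by positivity) (by positivity), Real.mul_rpow (by positivity) (by positivity),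
              ← Real.rpow_mul (by norm_num : (0 : ℝ) ≤ 2)]
          have e5 : (4 * ((2 : ℝ) ^ (l : ℝ) * X ^ (-(1 / (d : ℝ))))) ^ (1 - d * θ) =
              4 ^ (1 - d * θ) * (2 ^ ((l : ℝ) * (1 - d * θ)) * X ^ (-(1 / (d : ℝ)) * (1 - d * θ))) := by
            rw [Real.mul_rpow (by positivity) (by positivity), Real.mul_rpow (by positivity) (by positivity),
              ← Real.rpow_mul (by norm_num : (0 : ℝ) ≤ 2), ← Real.rpow_mul hX0.le]
          rw [e1, e4, e5, hK, hq, ← Real.rpow_natCast ((2 : ℝ) ^ (-η)) l,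
            ← Real.rpow_mul (by norm_num : (0 : ℝ) ≤ 2)]
          have e2 : X ^ (s - 1 / (d : ℝ)) = X ^ (s - θ) * X ^ (-(1 / (d : ℝ)) * (1 - d * θ)) := by
            rw [← Real.rpow_add hX0]
            congr 1
            field_simp
            ring
          have e3 : (2 : ℝ) ^ (-η * (l : ℝ)) = 2 ^ (-(l * d / 2 : ℝ) * (s - θ)) * 2 ^ ((l : ℝ) * (1 - d * θ)) := by
            rw [← Real.rpow_add (by norm_num)]
            congr 1
            rw [hη]
            ring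
          rw [e2, e3]
          ring
  calc ∫⁻ t in Icc (-1 : ℝ) 1, ENNReal.ofReal ((mt N V A δ κ t : ℝ) ^ s)
      ≤ ∫⁻ t in A0 ∪ ⋃ l, B l, ENNReal.ofReal ((mt N V A δ κ t : ℝ) ^ s) := lintegral_mono_set hcov
    _ ≤ (∫⁻ t in A0, ENNReal.ofReal ((mt N V A δ κ t : ℝ) ^ s)) +
        ∫⁻ t in ⋃ l, B l, ENNReal.ofReal ((mt N V A δ κ t : ℝ) ^ s) := lintegral_union_le _ _ _
    _ ≤ ENNReal.ofReal (2 * X ^ (s - 1 / d)) + ∑' l, ENNReal.ofReal (K * X ^ (s - 1 / d) * q ^ l) := by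
        refine add_le_add hA0 ((lintegral_iUnion_le _ _).trans ?_)
        exact ENNReal.tsum_le_tsum hB
    _ = _ := by
        rw [← ENNReal.ofReal_tsum_of_nonneg (fun l => by positivity)
          ((summable_geometric_of_lt_one hq0.le hq1).mul_left _), tsum_mul_left,
          tsum_geometric_of_lt_one hq0.le hq1, ← ENNReal.ofReal_add (by positivity) (by positivity)]
        congr 1
        ring

end Pool.Agent.N250.GAP
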