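import Pool.Agent.N250.GAP.Det

/-!
# Gram determinants of the integer points of rational subspaces
-/

open Matrix Module

namespace Pool.Agent.N250.GAP

variable {r : ℕ}

/-- rational coordinates -/
def cQ (r : ℕ) : (Fin r → ℤ) →ₗ[ℤ] (Fin r → ℚ) where
  toFun x i := x i
  map_add' x y := by ext i; simp
  map_smul' c x := by ext i; simp

@[simp] theorem cQ_apply (x : Fin r → ℤ) (i : Fin r) : cQ r x i = x i := rfl

theorem cQ_inj : Function.Injective (cQ r) := by
  intro x y h
  ext i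
  have := congrFun h i
  simpa using this

/-- the integer points of a rational subspace -/
def N (a : Submodule ℚ (Fin r → ℚ)) : Submodule ℤ (Fin r → ℤ) := (a.restrictScalars ℤ).comap (cQ r)

theorem mem_N {a : Submodule ℚ (Fin r → ℚ)} {x : Fin r → ℤ} : x ∈ N a ↔ cQ r x ∈ a := Iff.rfl

theorem N_inf (a b : Submodule ℚ (Fin r → ℚ)) : N (a ⊓ b) = N a ⊓ N b := by
  ext x
  simp [mem_N, Submodule.mem_inf]

theorem N_mono {a b : Submodule ℚ (Fin r → ℚ)} (h : a ≤ b) : N a ≤ N b := fun _ hx => h hx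

theorem N_sat {a : Submodule ℚ (Fin r → ℚ)} {x : Fin r → ℤ} {m : ℤ} (hm : m ≠ 0) (h : m • x ∈ N a) :
    x ∈ N a := by
  rw [mem_N, map_smul] at h
  rw [mem_N]
  have hm' : (m : ℚ) ≠ 0 := by exact_mod_cast hm
  have h2 : (m : ℚ)⁻¹ • (m • cQ r x) ∈ a := a.smul_mem _ h
  rwa [← Int.cast_smul_eq_zsmul ℚ m, smul_smul, inv_mul_cancel₀ hm', one_smul] at h2

theorem indep_iff {κ : Type} {x : κ → Fin r → ℤ} :
    LinearIndependent ℤ x ↔ LinearIndependent ℚ (fun i => cQ r (x i)) := by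
  rw [← LinearIndependent.iff_fractionRing ℤ ℚ]
  constructor
  · intro h
    exact h.map' (cQ r) (LinearMap.ker_eq_bot.2 cQ_inj)
  · intro h
    exact LinearIndependent.of_comp (cQ r) h

/-- every rational vector has an integer multiple with integer coordinates -/
theorem exists_mul (v : Fin r → ℚ) : ∃ (m : ℤ) (x : Fin r → ℤ), m ≠ 0 ∧ (m : ℚ) • v = cQ r x := by
  refine ⟨∏ i, ((v i).den : ℤ), fun i => (v i).num * ∏ j ∈ Finset.univ.erase i, ((v j).den : ℤ), ?_, ?_⟩
  · rw [Finset.prod_ne_zero_iff]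
    intro i _
    exact_mod_cast (v i).den_nz
  · ext i
    rw [Pi.smul_apply, smul_eq_mul, cQ_apply, ← Finset.mul_prod_erase Finset.univ _ (Finset.mem_univ i)]
    push_cast
    have h1 : ((v i).den : ℚ) * v i = (v i).num := Rat.den_mul_eq_num (v i)
    calc ((v i).den : ℚ) * (∏ j ∈ Finset.univ.erase i, ((v j).den : ℚ)) * v i =
        ((v i).den : ℚ) * v i * ∏ j ∈ Finset.univ.erase i, ((v j).den : ℚ) := by ring
      _ = _ := by rw [h1]

/-- a basis of the integer points -/
noncomputable def bs (a : Submodule ℚ (Fin r → ℚ)) : Basis (Fin (finrank ℤ (N a))) ℤ (N a) :=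
  Module.finBasis ℤ (N a)

theorem basis_indep {κ : Type} {a : Submodule ℚ (Fin r → ℚ)} (B : Basis κ ℤ (N a)) :
    LinearIndependent ℤ (fun i => (B i : Fin r → ℤ)) :=
  B.linearIndependent.map' (N a).subtype (Submodule.ker_subtype _)

theorem basis_span {κ : Type} {a : Submodule ℚ (Fin r → ℚ)} (B : Basis κ ℤ (N a)) :
    Submodule.span ℚ (Set.range fun i => cQ r (B i)) = a := by
  apply le_antisymm
  · rw [Submodule.span_le]
    rintro _ ⟨i, rfl⟩
    exact (B i).2
  · intro v hv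
    obtain ⟨m, x, hm, hx⟩ := exists_mul v
    have hxN : x ∈ N a := by
      rw [mem_N, ← hx]
      exact a.smul_mem _ hv
    have hm' : (m : ℚ) ≠ 0 := by exact_mod_cast hm
    have hv2 : v = (m : ℚ)⁻¹ • cQ r x := by rw [← hx, smul_smul, inv_mul_cancel₀ hm', one_smul]
    rw [hv2]
    apply Submodule.smul_mem
    have h1 : (⟨x, hxN⟩ : N a) ∈ Submodule.span ℤ (Set.range B) := by
      rw [B.span_eq]
      trivial
    have h2 : cQ r x ∈ (Submodule.span ℤ (Set.range B)).map ((cQ r).comp (N a).subtype) :=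
      ⟨⟨x, hxN⟩, h1, rfl⟩
    rw [Submodule.map_span, ← Set.range_comp] at h2
    exact Submodule.span_le_restrictScalars ℤ ℚ _ h2

theorem finrank_N (a : Submodule ℚ (Fin r → ℚ)) : finrank ℤ (N a) = finrank ℚ a := by
  have h1 := basis_span (bs a)
  have h2 : LinearIndependent ℚ (fun i => cQ r (bs a i)) := indep_iff.1 (basis_indep (bs a))
  have h3 := finrank_span_eq_card h2
  rw [h1, Fintype.card_fin] at h3
  exact h3.symm

theorem card_basis {κ : Type} [Fintype κ] {a : Submodule ℚ (Fin r → ℚ)} (B : Basis κ ℤ (N a)) :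
    Fintype.card κ = finrank ℚ a := by
  rw [← finrank_N, finrank_eq_card_basis B]

/-- the matrix of a family of integer vectors -/
def Rm {κ : Type} (x : κ → Fin r → ℤ) : Matrix (Fin r) κ ℝ := of fun i j => ((x j i : ℤ) : ℝ)

/-- the Gram matrix of a family of integer vectors with respect to a form -/
def gm {κ : Type} (A : Matrix (Fin r) (Fin r) ℝ) (x : κ → Fin r → ℤ) : Matrix κ κ ℝ :=
  (Rm x)ᵀ * A * Rm x

theorem Rm_inj {κ : Type} [Fintype κ] {x : κ → Fin r → ℤ} (hx : LinearIndependent ℤ x) :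
    Function.Injective (Rm x).mulVec := by
  classical
  have h1 : LinearIndependent ℚ (fun i => cQ r (x i)) := indep_iff.1 hx
  set X : Matrix (Fin r) κ ℚ := of fun i j => ((x j i : ℤ) : ℚ) with hX
  have h2 : Function.Injective X.mulVec := by
    rw [Matrix.mulVec_injective_iff]
    exact h1
  obtain ⟨g, hg⟩ := (Matrix.mulVecLin X).exists_leftInverse_of_injective (LinearMap.ker_eq_bot.2 h2)
  set L : Matrix κ (Fin r) ℚ := LinearMap.toMatrix' g with hL
  have h3 : L * X = 1 := by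
    have := congrArg LinearMap.toMatrix' hg
    rw [LinearMap.toMatrix'_comp, LinearMap.toMatrix'_id] at this
    rw [hL]
    convert this
    rw [← Matrix.toLin'_apply', LinearMap.toMatrix'_toLin']
  have h4 : L.map (algebraMap ℚ ℝ) * Rm x = 1 := by
    have e1 : Rm x = X.map (algebraMap ℚ ℝ) := by
      ext i j
      simp [Rm, hX]
    rw [e1, ← Matrix.map_mul, h3]
    simp
  intro y z hyz
  have := congrArg (L.map (algebraMap ℚ ℝ)).mulVec hyz
  simpa [Matrix.mulVec_mulVec, h4] using this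

theorem gm_posDef {κ : Type} [Fintype κ] {A : Matrix (Fin r) (Fin r) ℝ} (hA : A.PosDef)
    {x : κ → Fin r → ℤ} (hx : LinearIndependent ℤ x) : (gm A x).PosDef := by
  have := hA.conjTranspose_mul_mul_same (B := Rm x) (Rm_inj hx)
  rwa [conjTranspose_eq_transpose_of_trivial] at this

/-- change of a basis -/
theorem gm_change {κ κ' : Type} [Fintype κ] {a : Submodule ℚ (Fin r → ℚ)} (B : Basis κ ℤ (N a))
    (y : κ' → Fin r → ℤ) (hy : ∀ j, y j ∈ N a) : ∃ C : Matrix κ κ' ℤ,
      (∀ j i, C i j = B.repr ⟨y j, hy j⟩ i) ∧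
      Rm y = Rm (fun i => (B i : Fin r → ℤ)) * C.map (Int.cast : ℤ → ℝ) := by
  refine ⟨of fun i j => B.repr ⟨y j, hy j⟩ i, fun _ _ => rfl, ?_⟩
  ext k j
  have h1 := B.sum_repr ⟨y j, hy j⟩
  have h2 := congrArg (fun z : N a => (z : Fin r → ℤ) k) h1
  simp only [Submodule.coe_sum, Submodule.coe_smul, Finset.sum_apply, Pi.smul_apply, smul_eq_mul] at h2
  rw [Matrix.mul_apply]
  simp only [Rm, of_apply, Matrix.map_apply]
  rw [← h2]
  push_cast
  exact Finset.sum_congr rfl fun i _ => mul_comm _ _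

theorem det_change {κ : Type} [Fintype κ] [DecidableEq κ] (A : Matrix (Fin r) (Fin r) ℝ)
    {a : Submodule ℚ (Fin r → ℚ)} (B : Basis κ ℤ (N a)) (y : κ → Fin r → ℤ) (hy : ∀ j, y j ∈ N a) :
    (gm A y).det = ((B.det fun j => (⟨y j, hy j⟩ : N a) : ℤ) : ℝ) ^ 2 *
      (gm A (fun i => (B i : Fin r → ℤ))).det := by
  obtain ⟨C, hC, hR⟩ := gm_change B y hy
  have e1 : B.det (fun j => (⟨y j, hy j⟩ : N a)) = C.det := by
    rw [Basis.det_apply]
    congr 1
    ext i j
    rw [Basis.toMatrix_apply, hC]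
  have e2 : (C.map (Int.cast : ℤ → ℝ)).det = (C.det : ℝ) := by
    have := (Int.castRingHom ℝ).map_det C
    simpa using this.symm
  unfold gm
  rw [hR, transpose_mul, e1, ← e2]
  have : (C.map (Int.cast : ℤ → ℝ))ᵀ * (Rm fun i => (B i : Fin r → ℤ))ᵀ * A *
      ((Rm fun i => (B i : Fin r → ℤ)) * C.map (Int.cast : ℤ → ℝ)) =
      (C.map (Int.cast : ℤ → ℝ))ᵀ * ((Rm fun i => (B i : Fin r → ℤ))ᵀ * A * (Rm fun i => (B i : Fin r → ℤ))) *
      C.map (Int.cast : ℤ → ℝ) := by
    simp only [Matrix.mul_assoc]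
  rw [this, det_mul, det_mul, det_transpose]
  ring

theorem gm_reindex {κ κ' : Type} [Fintype κ] [DecidableEq κ] [Fintype κ'] [DecidableEq κ']
    (A : Matrix (Fin r) (Fin r) ℝ) (x : κ → Fin r → ℤ) (e : κ' ≃ κ) :
    (gm A (fun i => x (e i))).det = (gm A x).det := by
  have : gm A (fun i => x (e i)) = (gm A x).submatrix e e := by
    ext i j
    simp only [gm, Matrix.submatrix_apply, Matrix.mul_apply, Rm, of_apply, transpose_apply]
  rw [this, det_submatrix_equiv_self]

/-- the Gram determinant of a basis is the smallest one -/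
theorem det_min {κ κ' : Type} [Fintype κ] [DecidableEq κ] [Fintype κ'] [DecidableEq κ']
    {A : Matrix (Fin r) (Fin r) ℝ} (hA : A.PosDef) {a : Submodule ℚ (Fin r → ℚ)} (B : Basis κ ℤ (N a))
    (y : κ' → Fin r → ℤ) (hy : ∀ j, y j ∈ N a) (hyi : LinearIndependent ℤ y)
    (hc : Fintype.card κ = Fintype.card κ') :
    (gm A (fun i => (B i : Fin r → ℤ))).det ≤ (gm A y).det := by
  let e : κ ≃ κ' := Fintype.equivOfCardEq hc
  rw [← gm_reindex A y e]
  have h1 := det_change A B (fun i => y (e i)) (fun j => hy _)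
  have h2 : 0 < (gm A fun i => y (e i)).det :=
    (gm_posDef hA (hyi.comp e e.injective)).det_pos
  have h3 : 0 < (gm A (fun i => (B i : Fin r → ℤ))).det := (gm_posDef hA (basis_indep B)).det_pos
  rw [h1] at h2 ⊢
  set q : ℤ := B.det fun j => (⟨y (e j), hy (e j)⟩ : N a) with hq
  have hq0 : q ≠ 0 := by
    intro h
    rw [h] at h2
    norm_num at h2
  have hq1 : (1 : ℝ) ≤ (q : ℝ) ^ 2 := by
    have : (1 : ℤ) ≤ q ^ 2 := by
      have := Int.one_le_abs hq0
      rw [← sq_abs]
      nlinarith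
    exact_mod_cast this
  nlinarith

theorem det_basis_eq {κ κ' : Type} [Fintype κ] [DecidableEq κ] [Fintype κ'] [DecidableEq κ']
    {A : Matrix (Fin r) (Fin r) ℝ} (hA : A.PosDef) {a : Submodule ℚ (Fin r → ℚ)} (B : Basis κ ℤ (N a))
    (B' : Basis κ' ℤ (N a)) :
    (gm A (fun i => (B i : Fin r → ℤ))).det = (gm A (fun i => (B' i : Fin r → ℤ))).det := by
  have hc : Fintype.card κ = Fintype.card κ' := by rw [card_basis B, card_basis B']
  exact le_antisymm (det_min hA B _ (fun j => (B' j).2) (basis_indep B') hc)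
    (det_min hA B' _ (fun j => (B j).2) (basis_indep B) hc.symm)

/-- a basis of `N a` which extends a basis of `N b`, `b ≤ a` -/
theorem exists_extend {κ : Type} {a b : Submodule ℚ (Fin r → ℚ)} (h : b ≤ a) (B : Basis κ ℤ (N b)) :
    ∃ (n : ℕ) (B' : Basis (κ ⊕ Fin n) ℤ (N a)), ∀ i, ((B' (Sum.inl i) : N a) : Fin r → ℤ) = B i := by
  set W : Submodule ℤ (N a) := (N b).comap (N a).subtype with hW
  let e : W ≃ₗ[ℤ] N b := Submodule.comapSubtypeEquivOfLe (N_mono h)
  let BW : Basis κ ℤ W := B.map e.symm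
  have htf : Module.IsTorsionFree ℤ (N a ⧸ W) := by
    rw [Module.isTorsionFree_iff_smul_eq_zero]
    intro m q hq
    by_cases hm : m = 0
    · exact Or.inl hm
    right
    obtain ⟨x, rfl⟩ := W.mkQ_surjective q
    rw [Submodule.mkQ_apply] at hq ⊢
    rw [← Submodule.Quotient.mk_smul, Submodule.Quotient.mk_eq_zero] at hq
    rw [Submodule.Quotient.mk_eq_zero]
    exact N_sat hm hq
  have : Module.Free ℤ (N a ⧸ W) := Module.free_of_finite_type_torsion_free'
  let BQ := Module.finBasis ℤ (N a ⧸ W)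
  refine ⟨_, Basis.sumQuot BW BQ, ?_⟩
  intro i
  rw [Basis.sumQuot_inl]
  rfl

end Pool.Agent.N250.GAP
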