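import Pool.Agent.N250.GAP.Lat

/-!
# Submodularity of the Gram determinants, and the number of small integer points
-/

open Matrix Module

namespace Pool.Agent.N250.GAP

variable {r : ℕ}

/-- the Gram determinant of the integer points of a rational subspace (the square of the covolume) -/
noncomputable def DD (A : Matrix (Fin r) (Fin r) ℝ) (a : Submodule ℚ (Fin r → ℚ)) : ℝ :=
  (gm A (fun i => (bs a i : Fin r → ℤ))).det

theorem DD_pos {A : Matrix (Fin r) (Fin r) ℝ} (hA : A.PosDef) (a : Submodule ℚ (Fin r → ℚ)) :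
    0 < DD A a := (gm_posDef hA (basis_indep (bs a))).det_pos

theorem DD_eq {κ : Type} [Fintype κ] [DecidableEq κ] {A : Matrix (Fin r) (Fin r) ℝ} (hA : A.PosDef)
    {a : Submodule ℚ (Fin r → ℚ)} (B : Basis κ ℤ (N a)) :
    DD A a = (gm A (fun i => (B i : Fin r → ℤ))).det := det_basis_eq hA (bs a) B

theorem basis_span_int {κ : Type} {a : Submodule ℚ (Fin r → ℚ)} (B : Basis κ ℤ (N a)) :
    Submodule.span ℤ (Set.range fun i => (B i : Fin r → ℤ)) = N a := by
  have h1 := congrArg (Submodule.map (N a).subtype) B.span_eq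
  rw [Submodule.map_span, ← Set.range_comp, Submodule.map_top, Submodule.range_subtype] at h1
  exact h1

/-- **Submodularity of the covolume.** -/
theorem DD_sub {A : Matrix (Fin r) (Fin r) ℝ} (hA : A.PosDef) (a b : Submodule ℚ (Fin r → ℚ)) :
    DD A (a ⊔ b) * DD A (a ⊓ b) ≤ DD A a * DD A b := by
  set B0 := bs (a ⊓ b) with hB0
  obtain ⟨n1, B1, h1⟩ := exists_extend (inf_le_left : a ⊓ b ≤ a) B0
  obtain ⟨n2, B2, h2⟩ := exists_extend (inf_le_right : a ⊓ b ≤ b) B0
  set ν : Fin (finrank ℤ (N (a ⊓ b))) → Fin r → ℤ := fun i => (B0 i : Fin r → ℤ) with hν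
  set α : Fin n1 → Fin r → ℤ := fun i => (B1 (Sum.inr i) : Fin r → ℤ) with hα
  set β : Fin n2 → Fin r → ℤ := fun i => (B2 (Sum.inr i) : Fin r → ℤ) with hβ
  have e1 : (fun i => (B1 i : Fin r → ℤ)) = Sum.elim ν α := by
    ext i : 1
    rcases i with i | i
    · exact h1 i
    · rfl
  have e2 : (fun i => (B2 i : Fin r → ℤ)) = Sum.elim ν β := by
    ext i : 1
    rcases i with i | i
    · exact h2 i
    · rfl
  have i1 : LinearIndependent ℤ (Sum.elim ν α) := by
    rw [← e1]
    exact basis_indep B1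
  have i2 : LinearIndependent ℤ (Sum.elim ν β) := by
    rw [← e2]
    exact basis_indep B2
  have s0 : Submodule.span ℤ (Set.range ν) = N (a ⊓ b) := basis_span_int B0
  have s1 : Submodule.span ℤ (Set.range (Sum.elim ν α)) = N a := by rw [← e1]; exact basis_span_int B1
  have s2 : Submodule.span ℤ (Set.range β) ≤ N b := by
    rw [Submodule.span_le]
    rintro _ ⟨i, rfl⟩
    exact (B2 (Sum.inr i)).2
  have i3 : LinearIndependent ℤ (Sum.elim (Sum.elim ν α) β) := by
    have h3 := linearIndependent_sum.1 i2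
    simp only [Sum.elim_comp_inl, Sum.elim_comp_inr] at h3
    apply i1.sum_type h3.2.1
    rw [Submodule.disjoint_def]
    intro z hz1 hz2
    rw [s1] at hz1
    have hz3 : z ∈ N (a ⊓ b) := by
      rw [N_inf]
      exact ⟨hz1, s2 hz2⟩
    rw [← s0] at hz3
    exact (Submodule.disjoint_def.1 h3.2.2) z hz3 hz2
  set x : Fin (finrank ℤ (N (a ⊓ b))) ⊕ (Fin n1 ⊕ Fin n2) → Fin r → ℤ := Sum.elim ν (Sum.elim α β) with hx
  have i4 : LinearIndependent ℤ x := by
    have : x = (Sum.elim (Sum.elim ν α) β) ∘ (Equiv.sumAssoc _ _ _).symm := by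
      ext i : 1
      rcases i with i | i | i <;> rfl
    rw [this]
    exact i3.comp _ (Equiv.injective _)
  have hk := kotel (gm_posDef hA i4)
  have g1 : ((gm A x).submatrix Sum.inl Sum.inl).det = DD A (a ⊓ b) := rfl
  have g2 : ((gm A x).submatrix (Sum.elim Sum.inl (Sum.inr ∘ Sum.inl)) (Sum.elim Sum.inl (Sum.inr ∘ Sum.inl)) :
        Matrix (Fin (finrank ℤ (N (a ⊓ b))) ⊕ Fin n1) (Fin (finrank ℤ (N (a ⊓ b))) ⊕ Fin n1) ℝ).det = DD A a := by
    rw [DD_eq hA B1, e1]
    congr 1
    ext i j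
    rcases i with i | i <;> rcases j with j | j <;> rfl
  have g3 : ((gm A x).submatrix (Sum.elim Sum.inl (Sum.inr ∘ Sum.inr)) (Sum.elim Sum.inl (Sum.inr ∘ Sum.inr)) :
        Matrix (Fin (finrank ℤ (N (a ⊓ b))) ⊕ Fin n2) (Fin (finrank ℤ (N (a ⊓ b))) ⊕ Fin n2) ℝ).det = DD A b := by
    rw [DD_eq hA B2, e2]
    congr 1
    ext i j
    rcases i with i | i <;> rcases j with j | j <;> rfl
  rw [g1, g2, g3] at hk
  refine le_trans ?_ hk
  have hmem : ∀ j, x j ∈ N (a ⊔ b) := by
    intro j
    rcases j with j | j | j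
    · exact N_mono (inf_le_left.trans le_sup_left) (B0 j).2
    · exact N_mono le_sup_left (B1 (Sum.inr j)).2
    · exact N_mono le_sup_right (B2 (Sum.inr j)).2
  have hcard : Fintype.card (Fin (finrank ℤ (N (a ⊔ b)))) =
      Fintype.card (Fin (finrank ℤ (N (a ⊓ b))) ⊕ (Fin n1 ⊕ Fin n2)) := by
    have c0 := card_basis B0
    have c1 := card_basis B1
    have c2 := card_basis B2
    have c3 := Submodule.finrank_sup_add_finrank_inf_eq a b
    simp only [Fintype.card_sum, Fintype.card_fin] at c0 c1 c2 ⊢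
    rw [finrank_N]
    omega
  have := det_min hA (bs (a ⊔ b)) x hmem i4 hcard
  have hp := DD_pos hA (a ⊓ b)
  exact mul_le_mul_of_nonneg_right this hp.le

theorem indep_of_det {κ : Type} [Fintype κ] [DecidableEq κ] {A : Matrix (Fin r) (Fin r) ℝ}
    {x : κ → Fin r → ℤ} (h : (gm A x).det ≠ 0) : LinearIndependent ℤ x := by
  rw [Fintype.linearIndependent_iff]
  intro g hg
  by_contra hcon
  push Not at hcon
  apply h
  rw [← Matrix.exists_mulVec_eq_zero_iff]
  refine ⟨fun i => (g i : ℝ), ?_, ?_⟩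
  · obtain ⟨i, hi⟩ := hcon
    intro h0
    have := congrFun h0 i
    simp only [Pi.zero_apply, Int.cast_eq_zero] at this
    exact hi this
  · have h1 : Rm x *ᵥ (fun i => (g i : ℝ)) = 0 := by
      ext k
      have h2 := congrFun hg k
      simp only [Finset.sum_apply, Pi.smul_apply, smul_eq_mul, Pi.zero_apply] at h2
      simp only [mulVec, dotProduct, Rm, of_apply, Pi.zero_apply]
      have h3 : ((∑ c, g c * x c k : ℤ) : ℝ) = 0 := by rw [h2]; simp
      push_cast at h3
      rw [← h3]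
      exact Finset.sum_congr rfl fun c _ => mul_comm _ _
    unfold gm
    rw [← mulVec_mulVec, h1, mulVec_zero]

/-- the value of the form at an integer vector -/
def qf (A : Matrix (Fin r) (Fin r) ℝ) (n : Fin r → ℤ) : ℝ :=
  (fun i => (n i : ℝ)) ⬝ᵥ (A *ᵥ fun i => (n i : ℝ))

theorem gm_apply {κ : Type} (A : Matrix (Fin r) (Fin r) ℝ) (x : κ → Fin r → ℤ) (i j : κ) :
    gm A x i j = (fun k => (x i k : ℝ)) ⬝ᵥ (A *ᵥ fun k => (x j k : ℝ)) := by
  unfold gm
  rw [Matrix.mul_assoc, Matrix.mul_apply]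
  simp only [transpose_apply, Rm, of_apply, dotProduct, Matrix.mul_apply, mulVec]

theorem abs_gm_le {κ : Type} {A : Matrix (Fin r) (Fin r) ℝ} (hA : A.PosSemidef) {x : κ → Fin r → ℤ} {c : ℝ}
    (h : ∀ i, qf A (x i) ≤ c) (i j : κ) : |gm A x i j| ≤ c := by
  rw [gm_apply]
  set u : Fin r → ℝ := fun k => (x i k : ℝ) with hu
  set v : Fin r → ℝ := fun k => (x j k : ℝ) with hv
  have h1 : u ⬝ᵥ (A *ᵥ u) ≤ c := h i
  have h2 : v ⬝ᵥ (A *ᵥ v) ≤ c := h j
  have hsym : v ⬝ᵥ (A *ᵥ u) = u ⬝ᵥ (A *ᵥ v) := by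
    rw [dotProduct_mulVec, ← mulVec_transpose, dotProduct_comm]
    have : Aᵀ = A := by
      have := hA.isHermitian
      rwa [Matrix.IsHermitian, conjTranspose_eq_transpose_of_trivial] at this
    rw [this]
  have h3 : 0 ≤ (u + v) ⬝ᵥ (A *ᵥ (u + v)) := by
    have := hA.dotProduct_mulVec_nonneg (u + v)
    simpa using this
  have h4 : 0 ≤ (u - v) ⬝ᵥ (A *ᵥ (u - v)) := by
    have := hA.dotProduct_mulVec_nonneg (u - v)
    simpa using this
  rw [mulVec_add, add_dotProduct, dotProduct_add, dotProduct_add, hsym] at h3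
  rw [mulVec_sub, sub_dotProduct, dotProduct_sub, dotProduct_sub, hsym] at h4
  rw [abs_le]
  constructor <;> linarith

/-- **The number of small integer points is bounded by a covolume.** -/
theorem count {A : Matrix (Fin r) (Fin r) ℝ} (hA : A.PosDef) (P : Finset (Fin r → ℤ)) {R : ℝ} (hR : 1 ≤ R)
    (hP : ∀ n ∈ P, qf A n ≤ R ^ 2) :
    ∃ a : Submodule ℚ (Fin r → ℚ), (P.card : ℝ) ^ 2 * DD A a ≤ 9 ^ r * (r.factorial) * R ^ (2 * r) := by
  classical
  set S : Set (Fin r → ℚ) := cQ r '' (P : Set (Fin r → ℤ)) with hS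
  set a : Submodule ℚ (Fin r → ℚ) := Submodule.span ℚ S with ha
  refine ⟨a, ?_⟩
  set i := finrank ℚ a with hi
  have hir : i ≤ r := by
    have := Submodule.finrank_le a
    rwa [finrank_fin_fun] at this
  -- an independent family in `P`
  obtain ⟨b, hbS, hbspan, hbi⟩ := exists_linearIndependent ℚ S
  have hbfin : b.Finite := (P.finite_toSet.image _).subset hbS
  have : Fintype b := hbfin.fintype
  have hbcard : Fintype.card b = i := by
    have h1 := finrank_span_eq_card hbi
    rw [Subtype.range_coe, hbspan] at h1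
    exact h1.symm
  let eb : Fin i ≃ b := (Fintype.equivFinOfCardEq hbcard).symm
  have hch : ∀ k : Fin i, ∃ n : P, cQ r n = (eb k : Fin r → ℚ) := by
    intro k
    obtain ⟨n, hn, h2⟩ := hbS (eb k).2
    exact ⟨⟨n, hn⟩, h2⟩
  choose x0 hx0 using hch
  have hx0i : LinearIndependent ℤ (fun k => ((x0 k : P) : Fin r → ℤ)) := by
    rw [indep_iff]
    simp only [hx0]
    exact hbi.comp eb eb.injective
  have : Nonempty (Fin i → P) := ⟨x0⟩
  obtain ⟨x, hx⟩ := Finite.exists_max (fun x : Fin i → P => (gm A (fun k => (x k : Fin r → ℤ))).det)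
  have hDx : 0 < (gm A (fun k => (x k : Fin r → ℤ))).det := (gm_posDef hA hx0i).det_pos.trans_le (hx x0)
  have hxi : LinearIndependent ℤ (fun k => ((x k : P) : Fin r → ℤ)) := indep_of_det hDx.ne'
  have hPN : ∀ n ∈ P, n ∈ N a := fun n hn => Submodule.subset_span ⟨n, hn, rfl⟩
  -- coordinates
  have hspan : ∀ n ∈ P, ∃ y : Fin i → ℝ, Rm (fun k => ((x k : P) : Fin r → ℤ)) *ᵥ y = (fun k => (n k : ℝ)) := by
    intro n hn
    have h1 : Submodule.span ℚ (Set.range fun k => cQ r (x k)) = a := by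
      apply Submodule.eq_of_le_of_finrank_eq
      · rw [Submodule.span_le]
        rintro _ ⟨k, rfl⟩
        exact hPN _ (x k).2
      · rw [finrank_span_eq_card (indep_iff.1 hxi), Fintype.card_fin]
    have h2 : cQ r n ∈ Submodule.span ℚ (Set.range fun k => cQ r (x k)) := by
      rw [h1]
      exact hPN n hn
    rw [Submodule.mem_span_range_iff_exists_fun] at h2
    obtain ⟨c, hc⟩ := h2
    refine ⟨fun k => (c k : ℝ), ?_⟩
    ext k
    have h3 := congrFun hc k
    simp only [Finset.sum_apply, Pi.smul_apply, smul_eq_mul, cQ_apply] at h3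
    simp only [mulVec, dotProduct, Rm, of_apply]
    have h4 : ((∑ j, c j * (((x j : Fin r → ℤ) k : ℤ) : ℚ) : ℚ) : ℝ) = ((n k : ℤ) : ℝ) := by
      rw [h3]
      norm_num
    push_cast at h4
    rw [← h4]
    exact Finset.sum_congr rfl fun j _ => mul_comm _ _
  have hy1 : ∀ n ∈ P, ∀ y : Fin i → ℝ, Rm (fun k => ((x k : P) : Fin r → ℤ)) *ᵥ y = (fun k => (n k : ℝ)) →
      ∀ j, |y j| ≤ 1 := by
    intro n hn y hy j
    set x' : Fin i → P := Function.update x j ⟨n, hn⟩ with hx'
    have e1 : Rm (fun k => ((x' k : P) : Fin r → ℤ)) =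
        Rm (fun k => ((x k : P) : Fin r → ℤ)) * (1 : Matrix (Fin i) (Fin i) ℝ).updateCol j y := by
      ext k l
      rw [Matrix.mul_apply]
      by_cases hl : l = j
      · subst hl
        simp only [updateCol_self, Rm, of_apply, hx', Function.update_self]
        have := congrFun hy k
        simp only [mulVec, dotProduct, Rm, of_apply] at this
        exact this.symm
      · simp only [updateCol_ne hl, Rm, of_apply, hx', Function.update_of_ne hl]
        rw [Finset.sum_eq_single l]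
        · simp
        · intro m _ hm
          simp [Matrix.one_apply_ne hm]
        · intro h
          exact absurd (Finset.mem_univ l) h
    have e2 : ((1 : Matrix (Fin i) (Fin i) ℝ).updateCol j y).det = y j := by
      rw [← cramer_apply, cramer_one]
      rfl
    have e3 : (gm A (fun k => (x' k : Fin r → ℤ))).det = y j ^ 2 * (gm A (fun k => (x k : Fin r → ℤ))).det := by
      unfold gm
      rw [e1, transpose_mul]
      have : ((1 : Matrix (Fin i) (Fin i) ℝ).updateCol j y)ᵀ * (Rm fun k => ((x k : P) : Fin r → ℤ))ᵀ * A *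
          ((Rm fun k => ((x k : P) : Fin r → ℤ)) * (1 : Matrix (Fin i) (Fin i) ℝ).updateCol j y) =
          ((1 : Matrix (Fin i) (Fin i) ℝ).updateCol j y)ᵀ * ((Rm fun k => ((x k : P) : Fin r → ℤ))ᵀ * A *
          (Rm fun k => ((x k : P) : Fin r → ℤ))) * (1 : Matrix (Fin i) (Fin i) ℝ).updateCol j y := by
        simp only [Matrix.mul_assoc]
      rw [this, det_mul, det_mul, det_transpose, e2]
      ring
    have h5 := hx x'
    rw [e3] at h5
    have h6 : y j ^ 2 ≤ 1 := by
      by_contra hcon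
      push Not at hcon
      nlinarith
    exact (sq_le_one_iff_abs_le_one _).1 h6
  -- the sublattice generated by `x`
  have hfr : finrank ℤ (N a) = i := finrank_N a
  let B : Basis (Fin i) ℤ (N a) := (bs a).reindex (finCongr hfr)
  let x1 : Fin i → N a := fun k => ⟨x k, hPN _ (x k).2⟩
  have hx1i : LinearIndependent ℤ x1 := by
    apply LinearIndependent.of_comp (N a).subtype
    exact hxi
  set H : Submodule ℤ (N a) := Submodule.span ℤ (Set.range x1) with hH
  let BH : Basis (Fin i) ℤ H := Basis.span hx1i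
  have hBH : ∀ k, ((BH k : H) : N a) = x1 k := fun k => congrArg Subtype.val (Basis.span_apply hx1i k)
  have hq := Submodule.natAbs_det_basis_change B H BH
  have hq2 : (fun k => ((BH k : H) : N a)) = x1 := funext hBH
  have hdetx := det_change A B (fun k => (x k : Fin r → ℤ)) (fun j => hPN _ (x j).2)
  have hDB : (gm A (fun k => (B k : Fin r → ℤ))).det = DD A a := (DD_eq hA B).symm
  rw [hDB] at hdetx
  set q : ℤ := B.det (fun j => (⟨x j, hPN _ (x j).2⟩ : N a)) with hqdef
  have hq3 : q.natAbs = Nat.card (N a ⧸ H) := by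
    rw [← hq, hqdef]
    congr 2
    exact hq2.symm
  have hqne : q ≠ 0 := by
    intro h
    rw [hdetx, h] at hDx
    norm_num at hDx
  have hfinq : Finite (N a ⧸ H) := Nat.finite_of_card_ne_zero (by rw [← hq3]; exact Int.natAbs_ne_zero.2 hqne)
  -- the injection
  choose! y hy using hspan
  let φ : P → (N a ⧸ H) × (Fin i → Finset.Icc (-1 : ℤ) 1) := fun n =>
    (Submodule.Quotient.mk ⟨n, hPN _ n.2⟩, fun j => ⟨⌊y n j⌋, by
      have h1 := abs_le.1 (hy1 n n.2 (y n) (hy n n.2) j)
      rw [Finset.mem_Icc]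
      constructor
      · rw [Int.le_floor]
        push_cast
        exact h1.1
      · have : ⌊y n j⌋ < 2 := by
          rw [Int.floor_lt]
          push_cast
          linarith [h1.2]
        omega⟩)
  have hφ : Function.Injective φ := by
    intro n m hnm
    have h1 : Submodule.Quotient.mk (p := H) (⟨n, hPN _ n.2⟩ : N a) = Submodule.Quotient.mk ⟨m, hPN _ m.2⟩ :=
      congrArg Prod.fst hnm
    have h2 : ∀ j, ⌊y n j⌋ = ⌊y m j⌋ := by
      intro j
      have := congrFun (congrArg Prod.snd hnm) j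
      exact congrArg Subtype.val this
    rw [Submodule.Quotient.eq, hH, Submodule.mem_span_range_iff_exists_fun] at h1
    obtain ⟨c, hc⟩ := h1
    have h3 : Rm (fun k => ((x k : P) : Fin r → ℤ)) *ᵥ (fun j => (c j : ℝ)) =
        Rm (fun k => ((x k : P) : Fin r → ℤ)) *ᵥ (y n - y m) := by
      rw [mulVec_sub, hy n n.2, hy m m.2]
      ext k
      have h4 := congrArg (fun z : N a => (z : Fin r → ℤ) k) hc
      simp only [Submodule.coe_sum, Submodule.coe_smul, Finset.sum_apply, Pi.smul_apply, smul_eq_mul,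
        AddSubgroupClass.coe_sub, Pi.sub_apply, x1] at h4
      simp only [mulVec, dotProduct, Rm, of_apply, Pi.sub_apply]
      have h5 : ((∑ j, c j * (x j : Fin r → ℤ) k : ℤ) : ℝ) = (((n : Fin r → ℤ) k - (m : Fin r → ℤ) k : ℤ) : ℝ) := by
        rw [h4]
      push_cast at h5
      rw [← h5]
      exact Finset.sum_congr rfl fun j _ => mul_comm _ _
    have h6 := Rm_inj hxi h3
    have h7 : ∀ j, c j = 0 := by
      intro j
      have h8 := congrFun h6 j
      simp only [Pi.sub_apply] at h8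
      have h9 := Int.floor_eq_iff.1 (h2 j)
      have h10 := Int.floor_eq_iff.1 (rfl : ⌊y m j⌋ = ⌊y m j⌋)
      have h11 : (c j : ℝ) < 1 := by rw [h8]; linarith [h9.2, h10.1]
      have h12 : (-1 : ℝ) < c j := by rw [h8]; linarith [h9.1, h10.2]
      have h13 : c j < 1 := by exact_mod_cast h11
      have h14 : -1 < c j := by exact_mod_cast h12
      omega
    simp only [h7, zero_smul, Finset.sum_const_zero] at hc
    have h15 := congrArg (fun z : N a => (z : Fin r → ℤ)) hc
    simp only [ZeroMemClass.coe_zero, AddSubgroupClass.coe_sub] at h15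
    exact Subtype.ext (sub_eq_zero.1 h15.symm)
  have hcard := Nat.card_le_card_of_injective φ hφ
  rw [Nat.card_prod, ← hq3, Nat.card_eq_fintype_card, Fintype.card_coe, Nat.card_eq_fintype_card,
    Fintype.card_fun, Fintype.card_coe, Fintype.card_fin] at hcard
  have h16 : (Finset.Icc (-1 : ℤ) 1).card = 3 := by decide
  rw [h16] at hcard
  -- the upper bound of the determinant
  have h17 : (gm A (fun k => (x k : Fin r → ℤ))).det ≤ (i.factorial : ℝ) * (R ^ 2) ^ i := by
    have h18 := Matrix.det_le (A := gm A (fun k => (x k : Fin r → ℤ))) (abv := AbsoluteValue.abs) (x := R ^ 2)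
      (fun k l => abs_gm_le hA.posSemidef (fun k => hP _ (x k).2) k l)
    rw [Fintype.card_fin, nsmul_eq_mul] at h18
    exact (le_abs_self _).trans h18
  have h19 : ((P.card : ℕ) : ℝ) ≤ |(q : ℝ)| * 3 ^ i := by
    have : ((P.card : ℕ) : ℝ) ≤ ((q.natAbs * 3 ^ i : ℕ) : ℝ) := by exact_mod_cast hcard
    refine this.trans (le_of_eq ?_)
    push_cast
    rw [Nat.cast_natAbs]
    push_cast
    rfl
  have hDa := DD_pos hA a
  calc (P.card : ℝ) ^ 2 * DD A a ≤ (|(q : ℝ)| * 3 ^ i) ^ 2 * DD A a := by gcongr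
    _ = 9 ^ i * ((q : ℝ) ^ 2 * DD A a) := by
      rw [mul_pow, sq_abs, ← pow_mul, mul_comm i 2, pow_mul]
      norm_num
      ring
    _ = 9 ^ i * (gm A (fun k => (x k : Fin r → ℤ))).det := by rw [hdetx]
    _ ≤ 9 ^ i * ((i.factorial : ℝ) * (R ^ 2) ^ i) := by gcongr
    _ = 9 ^ i * (i.factorial : ℝ) * R ^ (2 * i) := by rw [pow_mul]; ring
    _ ≤ 9 ^ r * (r.factorial) * R ^ (2 * r) := by
      have h20 : (i.factorial : ℝ) ≤ r.factorial := by exact_mod_cast Nat.factorial_le hir
      have h21 : (9 : ℝ) ^ i ≤ 9 ^ r := pow_le_pow_right₀ (by norm_num) hir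
      have h22 : R ^ (2 * i) ≤ R ^ (2 * r) := pow_le_pow_right₀ hR (by omega)
      gcongr

end Pool.Agent.N250.GAP
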