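import Pool.Agent.N250.GAP.Graph

/-!
# From the local bound for the rich heights to the sharp inequality, for arbitrary families
-/

open MeasureTheory Set ENNReal NNReal Metric

namespace Pool.Agent.N250.GAP

variable {d : ℕ}

/-- separated points in a ball -/
theorem pack2 {ι : Type*} (J : Finset ι) (v : ι → Vec d) {δ r : ℝ} (hδ : 0 < δ) (hr : 0 ≤ r) (i₀ : ι)
    (hsep : ∀ i ∈ J, ∀ j ∈ J, i ≠ j → δ ≤ ‖v i - v j‖)
    (hdiam : ∀ i ∈ J, ‖v i - v i₀‖ ≤ r) : (J.card : ℝ) ≤ (1 + 2 * r / δ) ^ d := by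
  classical
  have hsub : (⋃ i ∈ J, ball (v i) (δ / 2)) ⊆ ball (v i₀) (r + δ / 2) := by
    intro x hx
    simp only [mem_iUnion] at hx
    obtain ⟨i, hi, hx⟩ := hx
    rw [mem_ball] at hx ⊢
    have h2 : dist (v i) (v i₀) ≤ r := by rw [dist_eq_norm]; exact hdiam i hi
    have h3 := dist_triangle x (v i) (v i₀)
    linarith
  have hdis : Set.PairwiseDisjoint (J : Set ι) (fun i => ball (v i) (δ / 2)) := by
    intro i hi j hj hij
    apply ball_disjoint_ball
    rw [dist_eq_norm]
    have := hsep i hi j hj hij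
    linarith
  have h1 := measure_mono (μ := (volume : Measure (Vec d))) hsub
  rw [measure_biUnion_finset hdis (fun i _ => measurableSet_ball)] at h1
  have h2 : ∀ (x : Vec d) {r : ℝ}, 0 < r → volume (ball x r) = ENNReal.ofReal (r ^ d) * volume (ball (0 : Vec d) 1) := by
    intro x r hr
    rw [Measure.addHaar_ball_of_pos _ _ hr, finrank_euclideanSpace, Fintype.card_fin]
  rw [Finset.sum_congr rfl (fun i _ => h2 (v i) (by positivity : (0 : ℝ) < δ / 2)), Finset.sum_const, nsmul_eq_mul,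
    h2 (v i₀) (by positivity : (0 : ℝ) < r + δ / 2), ← mul_assoc] at h1
  have hB0 : volume (ball (0 : Vec d) 1) ≠ 0 := (measure_ball_pos _ _ one_pos).ne'
  have hBt : volume (ball (0 : Vec d) 1) ≠ ∞ := measure_ball_lt_top.ne
  rw [ENNReal.mul_le_mul_iff_left hB0 hBt, ← ENNReal.ofReal_natCast, ← ENNReal.ofReal_mul (Nat.cast_nonneg _),
    ENNReal.ofReal_le_ofReal_iff (by positivity)] at h1
  have h4 : (0 : ℝ) < (δ / 2) ^ d := by positivity
  have h5 : (1 + 2 * r / δ) ^ d * (δ / 2) ^ d = (r + δ / 2) ^ d := by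
    rw [← mul_pow]
    congr 1
    field_simp
    ring
  rw [← h5] at h1
  exact le_of_mul_le_mul_right h1 h4

/-- the algebra of the incidence count -/
theorem inc_alg {ι : Type*} [Fintype ι] (Θ : Finset ℝ) (A : ι → ℝ → ℝ) (Γ : ℝ → ℝ) {lam b P : ℝ}
    (hlam : 0 < lam) (hP : 0 ≤ P) (hb : 0 ≤ b)
    (hA : ∀ i t, 0 ≤ A i t) (hΓ : ∀ t, 0 ≤ Γ t) (h1 : ∀ t ∈ Θ, lam * Γ t ≤ ∑ i, A i t)
    (h2 : ∀ i t, A i t ≤ b) (h3 : ∀ t ∈ Θ, ∀ t' ∈ Θ, t ≠ t' → ∑ i, A i t * A i t' ≤ P * (Γ t * Γ t'))
    (hc : 2 * (Fintype.card ι * P) ≤ lam ^ 2) :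
    lam * ∑ t ∈ Θ, Γ t ≤ 2 * (Fintype.card ι * b) := by
  classical
  set D : ℝ := ∑ i, ∑ t ∈ Θ, A i t with hD
  set G : ℝ := ∑ t ∈ Θ, Γ t with hG
  have hD0 : 0 ≤ D := Finset.sum_nonneg fun i _ => Finset.sum_nonneg fun t _ => hA i t
  have hG0 : 0 ≤ G := Finset.sum_nonneg fun t _ => hΓ t
  have hDG : lam * G ≤ D := by
    rw [hD, Finset.sum_comm, hG, Finset.mul_sum]
    exact Finset.sum_le_sum h1
  have hCS : D ^ 2 ≤ Fintype.card ι * ∑ i, (∑ t ∈ Θ, A i t) ^ 2 := by
    have := sq_sum_le_card_mul_sum_sq (s := (Finset.univ : Finset ι)) (f := fun i => ∑ t ∈ Θ, A i t)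
    rwa [Finset.card_univ] at this
  have hsq : ∑ i, (∑ t ∈ Θ, A i t) ^ 2 ≤ b * D + P * G ^ 2 := by
    have e1 : ∑ i, (∑ t ∈ Θ, A i t) ^ 2 = ∑ t ∈ Θ, ∑ t' ∈ Θ, ∑ i, A i t * A i t' := by
      simp only [sq, Finset.sum_mul_sum]
      rw [Finset.sum_comm]
      apply Finset.sum_congr rfl
      intro t _
      rw [Finset.sum_comm]
    rw [e1]
    have e2 : ∀ t ∈ Θ, ∑ t' ∈ Θ, ∑ i, A i t * A i t' ≤ b * ∑ i, A i t + P * (Γ t * G) := by
      intro t ht
      rw [← Finset.add_sum_erase _ _ ht]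
      apply add_le_add
      · rw [Finset.mul_sum]
        apply Finset.sum_le_sum
        intro i _
        have := h2 i t
        have := hA i t
        nlinarith
      · calc ∑ t' ∈ Θ.erase t, ∑ i, A i t * A i t' ≤ ∑ t' ∈ Θ.erase t, P * (Γ t * Γ t') := by
              apply Finset.sum_le_sum
              intro t' ht'
              rw [Finset.mem_erase] at ht'
              exact h3 t ht t' ht'.2 (Ne.symm ht'.1)
          _ ≤ ∑ t' ∈ Θ, P * (Γ t * Γ t') := by
              apply Finset.sum_le_sum_of_subset_of_nonneg (Finset.erase_subset _ _)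
              intro t' _ _
              exact mul_nonneg hP (mul_nonneg (hΓ t) (hΓ t'))
          _ = P * (Γ t * G) := by
              rw [hG, Finset.mul_sum, Finset.mul_sum]
    refine (Finset.sum_le_sum e2).trans (le_of_eq ?_)
    rw [Finset.sum_add_distrib, ← Finset.mul_sum, ← Finset.mul_sum, ← Finset.sum_mul]
    rw [← hG, hD, Finset.sum_comm]
    ring
  have hY0 : (0 : ℝ) ≤ Fintype.card ι := Nat.cast_nonneg _
  have h4 : D ^ 2 ≤ Fintype.card ι * b * D + lam ^ 2 / 2 * G ^ 2 := by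
    calc D ^ 2 ≤ Fintype.card ι * (b * D + P * G ^ 2) := hCS.trans (by gcongr)
      _ = Fintype.card ι * b * D + (Fintype.card ι * P) * G ^ 2 := by ring
      _ ≤ _ := by
          gcongr
          linarith
  have h5 : (lam * G) ^ 2 ≤ D ^ 2 := by
    have : 0 ≤ lam * G := by positivity
    gcongr
  have h6 : D ^ 2 ≤ 2 * (Fintype.card ι * b) * D := by
    have : lam ^ 2 / 2 * G ^ 2 = (lam * G) ^ 2 / 2 := by ring
    nlinarith
  have h7 : D ≤ 2 * (Fintype.card ι * b) := by
    by_contra hcon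
    push Not at hcon
    have hDpos : 0 < D := lt_of_le_of_lt (by positivity) hcon
    nlinarith
  linarith

section

variable {ι : Type} [Fintype ι] (L ρ : ℝ) (v β : ι → Vec d) (s : ι → ℝ)

/-- the number of the graph tubes through a point -/
noncomputable def mu (t : ℝ) (x : Vec d) : ℝ≥0∞ := ∑ i, gt L ρ v β s i t x

omit [Fintype ι] in
theorem gt_meas2 (i : ι) : Measurable (fun p : ℝ × Vec d => gt L ρ v β s i p.1 p.2) := by
  have e : (fun p : ℝ × Vec d => gt L ρ v β s i p.1 p.2) =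
      ({p : ℝ × Vec d | p.1 ∈ Icc (s i - L) (s i + L) ∧ ‖p.2 - (β i + p.1 • v i)‖ ≤ ρ}).indicator (fun _ => 1) := by
    funext p
    unfold gt
    by_cases h1 : p.1 ∈ Icc (s i - L) (s i + L)
    · rw [indicator_of_mem h1]
      by_cases h2 : p.2 ∈ closedBall (β i + p.1 • v i) ρ
      · rw [indicator_of_mem h2, indicator_of_mem]
        exact ⟨h1, by rwa [mem_closedBall, dist_eq_norm] at h2⟩
      · rw [indicator_of_notMem h2, indicator_of_notMem]
        rintro ⟨-, h3⟩
        exact h2 (by rwa [mem_closedBall, dist_eq_norm])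
    · rw [indicator_of_notMem h1, indicator_of_notMem]
      rintro ⟨h3, -⟩
      exact h1 h3
  rw [e]
  apply measurable_const.indicator
  have e2 : {p : ℝ × Vec d | p.1 ∈ Icc (s i - L) (s i + L) ∧ ‖p.2 - (β i + p.1 • v i)‖ ≤ ρ} =
      (Prod.fst ⁻¹' Icc (s i - L) (s i + L)) ∩ {p : ℝ × Vec d | ‖p.2 - (β i + p.1 • v i)‖ ≤ ρ} := rfl
  rw [e2]
  apply MeasurableSet.inter
  · exact measurable_fst measurableSet_Icc
  · apply measurableSet_le _ measurable_const
    exact (measurable_snd.sub (measurable_const.add (measurable_fst.smul_const _))).norm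

theorem mu_meas2 : Measurable (fun p : ℝ × Vec d => mu L ρ v β s p.1 p.2) :=
  Finset.measurable_fun_sum _ fun i _ => gt_meas2 L ρ v β s i

theorem mu_meas (t : ℝ) : Measurable (fun x => mu L ρ v β s t x) :=
  Finset.measurable_fun_sum _ fun i _ => gt_meas L ρ v β s i t

theorem mu_le (t : ℝ) (x : Vec d) : mu L ρ v β s t x ≤ Fintype.card ι := by
  unfold mu
  calc ∑ i, gt L ρ v β s i t x ≤ ∑ _i : ι, 1 := by
        apply Finset.sum_le_sum
        intro i _
        by_cases h : gt L ρ v β s i t x = 0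
        · rw [h]
          exact bot_le
        · exact (gt_one h).2.2.le
    _ = Fintype.card ι := by simp

/-- the rich points at the height `t` -/
def Gl (lam t : ℝ) : Set (Vec d) := {x | ENNReal.ofReal lam ≤ mu L ρ v β s t x}

theorem Gl_meas (lam t : ℝ) : MeasurableSet (Gl L ρ v β s lam t) :=
  measurableSet_le measurable_const (mu_meas L ρ v β s t)

variable {L ρ v β s}

omit [Fintype ι] in
theorem gt_lint_le (hρ : 0 ≤ ρ) (i : ι) (t : ℝ) (S : Set (Vec d)) :
    ∫⁻ x in S, gt L ρ v β s i t x ≤ ENNReal.ofReal (ρ ^ d * (volume (ball (0 : Vec d) 1)).toReal) := by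
  refine (setLIntegral_le_lintegral _ _).trans ?_
  rw [gt_lint L hρ v β s i t]
  exact indicator_apply_le' (fun _ => le_rfl) (fun _ => bot_le)

/-- **the incidence count** -/
theorem inc_count {δ h P : ℝ} (hδ : 0 < δ) (hρ : 0 ≤ ρ) (hh : 0 < h)
    (hsep : ∀ i j, i ≠ j → δ ≤ ‖v i - v j‖) (hPdef : P = (1 + 8 * ρ / (h * δ)) ^ d)
    {lam : ℝ} (hlam : 1 ≤ lam) (Θ : Finset ℝ) (hΘ : ∀ t ∈ Θ, ∀ t' ∈ Θ, t ≠ t' → h ≤ |t - t'|)
    (hc : 2 * (Fintype.card ι * P) ≤ lam ^ 2) :
    ∑ t ∈ Θ, volume (Gl L ρ v β s lam t) ≤ ENNReal.ofReal (2 * (Fintype.card ι *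
      (ρ ^ d * (volume (ball (0 : Vec d) 1)).toReal)) / lam) := by
  classical
  have hlam0 : 0 < lam := by linarith
  set b : ℝ := ρ ^ d * (volume (ball (0 : Vec d) 1)).toReal with hb
  have hb0 : 0 ≤ b := by positivity
  have hP0 : 0 ≤ P := by
    rw [hPdef]
    positivity
  set A : ι → ℝ → ℝ := fun i t => (∫⁻ x in Gl L ρ v β s lam t, gt L ρ v β s i t x).toReal with hA
  set Γ : ℝ → ℝ := fun t => (volume (Gl L ρ v β s lam t)).toReal with hΓ
  have hAfin : ∀ i t, ∫⁻ x in Gl L ρ v β s lam t, gt L ρ v β s i t x ≠ ∞ := fun i t =>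
    ((gt_lint_le hρ i t _).trans_lt ENNReal.ofReal_lt_top).ne
  have hkey : ∀ t, ENNReal.ofReal lam * volume (Gl L ρ v β s lam t) ≤
      ∑ i, ∫⁻ x in Gl L ρ v β s lam t, gt L ρ v β s i t x := by
    intro t
    rw [← lintegral_finsetSum _ (fun i _ => gt_meas L ρ v β s i t), ← setLIntegral_const]
    apply setLIntegral_mono' (Gl_meas L ρ v β s lam t)
    intro x hx
    exact hx
  have hsumfin : ∀ t, ∑ i, ∫⁻ x in Gl L ρ v β s lam t, gt L ρ v β s i t x ≠ ∞ := fun t =>
    (ENNReal.sum_lt_top.2 fun i _ => (hAfin i t).lt_top).ne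
  have hl0 : ENNReal.ofReal lam ≠ 0 := by
    rw [ne_eq, ENNReal.ofReal_eq_zero, not_le]
    exact hlam0
  have hΓfin : ∀ t, volume (Gl L ρ v β s lam t) ≠ ∞ := by
    intro t htop
    have h1 := hkey t
    rw [htop, ENNReal.mul_top hl0, top_le_iff] at h1
    exact hsumfin t h1
  have h1 : ∀ t ∈ Θ, lam * Γ t ≤ ∑ i, A i t := by
    intro t _
    have h2 := ENNReal.toReal_mono (hsumfin t) (hkey t)
    rw [ENNReal.toReal_mul, ENNReal.toReal_ofReal hlam0.le, ENNReal.toReal_sum (fun i _ => hAfin i t)] at h2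
    exact h2
  have h2 : ∀ i t, A i t ≤ b := by
    intro i t
    have h3 := ENNReal.toReal_mono ENNReal.ofReal_ne_top (gt_lint_le (L := L) (v := v) (β := β) (s := s) hρ i t
      (Gl L ρ v β s lam t))
    rwa [ENNReal.toReal_ofReal hb0] at h3
  have h3 : ∀ t ∈ Θ, ∀ t' ∈ Θ, t ≠ t' → ∑ i, A i t * A i t' ≤ P * (Γ t * Γ t') := by
    intro t ht t' ht' hne
    have hh' := hΘ t ht t' ht' hne
    -- the number of the tubes through two points
    have hpt : ∀ x y, ∑ i, gt L ρ v β s i t x * gt L ρ v β s i t' y ≤ ENNReal.ofReal P := by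
      intro x y
      set J : Finset ι := Finset.univ.filter fun i => gt L ρ v β s i t x * gt L ρ v β s i t' y ≠ 0 with hJ
      have e1 : ∑ i, gt L ρ v β s i t x * gt L ρ v β s i t' y = (J.card : ℝ≥0∞) := by
        have e2 : ∑ i, gt L ρ v β s i t x * gt L ρ v β s i t' y =
            ∑ i ∈ J, gt L ρ v β s i t x * gt L ρ v β s i t' y := by
          rw [hJ, Finset.sum_filter_ne_zero]
        rw [e2]
        have e3 : ∀ i ∈ J, gt L ρ v β s i t x * gt L ρ v β s i t' y = 1 := by
          intro i hi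
          have hi' := (Finset.mem_filter.1 hi).2
          rw [(gt_one (left_ne_zero_of_mul hi')).2.2, (gt_one (right_ne_zero_of_mul hi')).2.2, mul_one]
        rw [Finset.sum_congr rfl e3]
        simp
      rw [e1, ← ENNReal.ofReal_natCast]
      apply ENNReal.ofReal_le_ofReal
      rcases J.eq_empty_or_nonempty with h0 | ⟨i₀, hi₀⟩
      · rw [h0, Finset.card_empty, Nat.cast_zero]
        exact hP0
      rw [hPdef]
      have h4 := pack2 J v hδ (r := 4 * ρ / h) (by positivity) i₀ (fun i _ j _ hij => hsep i j hij) (by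
        intro i hi
        have hi' := (Finset.mem_filter.1 hi).2
        have hi₀' := (Finset.mem_filter.1 hi₀).2
        have g1 := (gt_one (left_ne_zero_of_mul hi')).2.1
        have g2 := (gt_one (right_ne_zero_of_mul hi')).2.1
        have g3 := (gt_one (left_ne_zero_of_mul hi₀')).2.1
        have g4 := (gt_one (right_ne_zero_of_mul hi₀')).2.1
        have e : (t - t') • (v i - v i₀) = -(x - (β i + t • v i)) + (x - (β i₀ + t • v i₀)) +
            (y - (β i + t' • v i)) - (y - (β i₀ + t' • v i₀)) := by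
          module
        have g5 : |t - t'| * ‖v i - v i₀‖ ≤ 4 * ρ := by
          have : |t - t'| * ‖v i - v i₀‖ = ‖(t - t') • (v i - v i₀)‖ := by rw [norm_smul, Real.norm_eq_abs]
          rw [this, e]
          calc ‖-(x - (β i + t • v i)) + (x - (β i₀ + t • v i₀)) + (y - (β i + t' • v i)) -
                (y - (β i₀ + t' • v i₀))‖ ≤ ‖-(x - (β i + t • v i)) + (x - (β i₀ + t • v i₀)) +
                (y - (β i + t' • v i))‖ + ‖y - (β i₀ + t' • v i₀)‖ := norm_sub_le _ _
            _ ≤ ‖-(x - (β i + t • v i)) + (x - (β i₀ + t • v i₀))‖ + ‖y - (β i + t' • v i)‖ +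
                ‖y - (β i₀ + t' • v i₀)‖ := by gcongr; exact norm_add_le _ _
            _ ≤ ‖-(x - (β i + t • v i))‖ + ‖x - (β i₀ + t • v i₀)‖ + ‖y - (β i + t' • v i)‖ +
                ‖y - (β i₀ + t' • v i₀)‖ := by gcongr; exact norm_add_le _ _
            _ ≤ 4 * ρ := by
                rw [norm_neg]
                linarith
        rw [le_div_iff₀ hh, mul_comm]
        exact le_trans (by gcongr) g5)
      refine h4.trans (le_of_eq ?_)
      congr 2
      field_simp
      ring
    have h5 : ∑ i, (∫⁻ x in Gl L ρ v β s lam t, gt L ρ v β s i t x) *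
        (∫⁻ y in Gl L ρ v β s lam t', gt L ρ v β s i t' y) ≤
        ENNReal.ofReal P * (volume (Gl L ρ v β s lam t) * volume (Gl L ρ v β s lam t')) := by
      calc ∑ i, (∫⁻ x in Gl L ρ v β s lam t, gt L ρ v β s i t x) *
            (∫⁻ y in Gl L ρ v β s lam t', gt L ρ v β s i t' y)
          = ∑ i, ∫⁻ x in Gl L ρ v β s lam t, ∫⁻ y in Gl L ρ v β s lam t',
              gt L ρ v β s i t x * gt L ρ v β s i t' y := by
            apply Finset.sum_congr rfl
            intro i _
            rw [← lintegral_mul_const _ (gt_meas L ρ v β s i t)]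
            apply lintegral_congr
            intro x
            rw [lintegral_const_mul _ (gt_meas L ρ v β s i t')]
        _ = ∫⁻ x in Gl L ρ v β s lam t, ∫⁻ y in Gl L ρ v β s lam t',
              ∑ i, gt L ρ v β s i t x * gt L ρ v β s i t' y := by
            rw [← lintegral_finsetSum]
            · apply lintegral_congr
              intro x
              rw [lintegral_finsetSum]
              intro i _
              exact (gt_meas L ρ v β s i t').const_mul _
            · intro i _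
              have : (fun x => ∫⁻ y in Gl L ρ v β s lam t', gt L ρ v β s i t x * gt L ρ v β s i t' y) =
                  fun x => gt L ρ v β s i t x * ∫⁻ y in Gl L ρ v β s lam t', gt L ρ v β s i t' y := by
                funext x
                rw [lintegral_const_mul _ (gt_meas L ρ v β s i t')]
              rw [this]
              exact (gt_meas L ρ v β s i t).mul_const _
        _ ≤ ∫⁻ _x in Gl L ρ v β s lam t, ∫⁻ _y in Gl L ρ v β s lam t', ENNReal.ofReal P :=
            lintegral_mono fun x => lintegral_mono fun y => hpt x y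
        _ = _ := by
            rw [setLIntegral_const, setLIntegral_const]
            ring
    have h6 := ENNReal.toReal_mono (ENNReal.mul_ne_top ENNReal.ofReal_ne_top
      (ENNReal.mul_ne_top (hΓfin t) (hΓfin t'))) h5
    rw [ENNReal.toReal_sum (fun i _ => ENNReal.mul_ne_top (hAfin i t) (hAfin i t')), ENNReal.toReal_mul,
      ENNReal.toReal_mul, ENNReal.toReal_ofReal hP0] at h6
    simp only [ENNReal.toReal_mul] at h6
    exact h6
  have h4 := inc_alg Θ A Γ hlam0 hP0 hb0 (fun i t => ENNReal.toReal_nonneg) (fun t => ENNReal.toReal_nonneg)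
    h1 h2 h3 hc
  have h5 : ∑ t ∈ Θ, volume (Gl L ρ v β s lam t) = ENNReal.ofReal (∑ t ∈ Θ, Γ t) := by
    rw [ENNReal.ofReal_sum_of_nonneg (fun t _ => ENNReal.toReal_nonneg)]
    apply Finset.sum_congr rfl
    intro t _
    exact (ENNReal.ofReal_toReal (hΓfin t)).symm
  rw [h5]
  apply ENNReal.ofReal_le_ofReal
  rw [le_div_iff₀ hlam0, mul_comm]
  exact h4

end

end Pool.Agent.N250.GAP
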