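import Pool.Agent.N250.GAP.Loss

/-!
# From the local bound for the rich heights to the sharp inequality, for arbitrary families (2)
-/

open MeasureTheory Set ENNReal NNReal Metric

namespace Pool.Agent.N250.GAP

variable {d : ℕ}

/-- sums of suprema over intervals -/
theorem sup_sum {h : ℝ} (hh : 0 < h) (g : ℝ → ℝ≥0∞) {B : ℝ≥0∞} (hB : B ≠ ∞)
    (hg : ∀ Θ : Finset ℝ, (∀ t ∈ Θ, ∀ t' ∈ Θ, t ≠ t' → h ≤ |t - t'|) → ∑ t ∈ Θ, g t ≤ B) (c : ℤ)
    (F : Finset ℤ) (hF : ∀ m ∈ F, ∃ k : ℤ, m = 2 * k + c) :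
    ∑ m ∈ F, ⨆ t ∈ Ico ((m : ℝ) * h) (((m : ℝ) + 1) * h), g t ≤ 2 * B := by
  classical
  have hfin : ∀ m : ℤ, (⨆ t ∈ Ico ((m : ℝ) * h) (((m : ℝ) + 1) * h), g t) ≤ B := by
    intro m
    apply iSup₂_le
    intro t _
    have := hg {t} (by
      intro a ha b hb hab
      rw [Finset.mem_singleton] at ha hb
      exact absurd (ha.trans hb.symm) hab)
    rwa [Finset.sum_singleton] at this
  have hex : ∀ m : ℤ, ∃ t ∈ Ico ((m : ℝ) * h) (((m : ℝ) + 1) * h),
      (⨆ t ∈ Ico ((m : ℝ) * h) (((m : ℝ) + 1) * h), g t) ≤ 2 * g t := by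
    intro m
    by_cases h0 : (⨆ t ∈ Ico ((m : ℝ) * h) (((m : ℝ) + 1) * h), g t) = 0
    · refine ⟨(m : ℝ) * h, ⟨le_rfl, by nlinarith⟩, ?_⟩
      rw [h0]
      exact bot_le
    · have hne : (⨆ t ∈ Ico ((m : ℝ) * h) (((m : ℝ) + 1) * h), g t) ≠ ∞ := ne_top_of_le_ne_top hB (hfin m)
      have h1 := ENNReal.half_lt_self h0 hne
      obtain ⟨t, ht⟩ := lt_iSup_iff.1 h1
      obtain ⟨ht1, ht2⟩ := lt_iSup_iff.1 ht
      refine ⟨t, ht1, ?_⟩
      have h2 := ht2.le
      rw [ENNReal.div_le_iff (by norm_num) (by norm_num)] at h2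
      rw [mul_comm 2]
      exact h2
  choose T hT1 hT2 using hex
  have hsepT : ∀ m ∈ F, ∀ m' ∈ F, m ≠ m' → h ≤ |T m - T m'| := by
    have key : ∀ m ∈ F, ∀ m' ∈ F, m < m' → h ≤ |T m - T m'| := by
      intro m hm m' hm' hlt
      obtain ⟨k, hk⟩ := hF m hm
      obtain ⟨k', hk'⟩ := hF m' hm'
      have h1 : m + 2 ≤ m' := by omega
      have h2 : (m : ℝ) + 2 ≤ m' := by exact_mod_cast h1
      have h3 := (hT1 m).2
      have h4 := (hT1 m').1
      rw [abs_sub_comm]
      refine le_trans ?_ (le_abs_self _)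
      nlinarith
    intro m hm m' hm' hne
    rcases lt_or_gt_of_ne hne with hlt | hlt
    · exact key m hm m' hm' hlt
    · rw [abs_sub_comm]
      exact key m' hm' m hm hlt
  have hinj : Set.InjOn T (F : Set ℤ) := by
    intro m hm m' hm' hTT
    by_contra hne
    have := hsepT m hm m' hm' hne
    rw [hTT, sub_self, abs_zero] at this
    linarith
  calc ∑ m ∈ F, ⨆ t ∈ Ico ((m : ℝ) * h) (((m : ℝ) + 1) * h), g t ≤ ∑ m ∈ F, 2 * g (T m) :=
        Finset.sum_le_sum fun m _ => hT2 m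
    _ = 2 * ∑ t ∈ F.image T, g t := by
        rw [← Finset.mul_sum, Finset.sum_image hinj]
    _ ≤ 2 * B := by
        gcongr
        apply hg
        intro t ht t' ht' hne
        rw [Finset.mem_image] at ht ht'
        obtain ⟨m, hm, rfl⟩ := ht
        obtain ⟨m', hm', rfl⟩ := ht'
        exact hsepT m hm m' hm' (fun hmm => hne (by rw [hmm]))

theorem sup_sum_all {h : ℝ} (hh : 0 < h) (g : ℝ → ℝ≥0∞) {B : ℝ≥0∞} (hB : B ≠ ∞)
    (hg : ∀ Θ : Finset ℝ, (∀ t ∈ Θ, ∀ t' ∈ Θ, t ≠ t' → h ≤ |t - t'|) → ∑ t ∈ Θ, g t ≤ B) :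
    ∑' m : ℤ, ⨆ t ∈ Ico ((m : ℝ) * h) (((m : ℝ) + 1) * h), g t ≤ 4 * B := by
  classical
  rw [ENNReal.tsum_eq_iSup_sum]
  apply iSup_le
  intro F
  rw [← Finset.sum_filter_add_sum_filter_not F (fun m => Even m)]
  have h1 := sup_sum hh g hB hg 0 (F.filter fun m => Even m) (by
    intro m hm
    obtain ⟨k, hk⟩ := (Finset.mem_filter.1 hm).2
    exact ⟨k, by omega⟩)
  have h2 := sup_sum hh g hB hg 1 (F.filter fun m => ¬ Even m) (by
    intro m hm
    have := (Finset.mem_filter.1 hm).2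
    rw [Int.not_even_iff_odd] at this
    obtain ⟨k, hk⟩ := this
    exact ⟨k, by omega⟩)
  refine (add_le_add h1 h2).trans (le_of_eq ?_)
  rw [← add_mul]
  norm_num

section

variable {ι : Type} [Fintype ι] (L ρ : ℝ) (v β : ι → Vec d) (s : ι → ℝ)

theorem vol_meas (lam : ℝ) : Measurable (fun t => volume (Gl L ρ v β s lam t)) := by
  have h1 : MeasurableSet {p : ℝ × Vec d | ENNReal.ofReal lam ≤ mu L ρ v β s p.1 p.2} :=
    measurableSet_le measurable_const (mu_meas2 L ρ v β s)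
  exact measurable_measure_prodMk_left h1

/-- the heights at which there are rich points (up to null sets) -/
def Eh (lam : ℝ) : Set ℝ := {t | volume (Gl L ρ v β s lam t) ≠ 0}

theorem Eh_meas (lam : ℝ) : MeasurableSet (Eh L ρ v β s lam) := by
  have : Eh L ρ v β s lam = (fun t => volume (Gl L ρ v β s lam t)) ⁻¹' {0}ᶜ := rfl
  rw [this]
  exact vol_meas L ρ v β s lam (measurableSet_singleton 0).compl

theorem vol_le_ind (lam t : ℝ) (c : ℝ≥0∞) (h : volume (Gl L ρ v β s lam t) ≤ c) :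
    volume (Gl L ρ v β s lam t) ≤ (Eh L ρ v β s lam).indicator (fun _ => c) t := by
  by_cases h0 : volume (Gl L ρ v β s lam t) = 0
  · rw [h0]
    exact bot_le
  · rw [indicator_of_mem (show t ∈ Eh L ρ v β s lam from h0)]
    exact h

/-- rich levels of large multiplicity -/
theorem lam_large {δ h P : ℝ} (hδ : 0 < δ) (hρ : 0 ≤ ρ) (hh : 0 < h)
    (hsep : ∀ i j, i ≠ j → δ ≤ ‖v i - v j‖) (hPdef : P = (1 + 8 * ρ / (h * δ)) ^ d)
    {lam : ℝ} (hlam : 1 ≤ lam) (hc : 2 * (Fintype.card ι * P) ≤ lam ^ 2) {c : ℝ≥0∞}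
    (hE : ∀ x, volume (Eh L ρ v β s lam ∩ Icc x (x + h)) ≤ c) :
    ∫⁻ t, volume (Gl L ρ v β s lam t) ≤ c * (4 * ENNReal.ofReal (2 * (Fintype.card ι *
      (ρ ^ d * (volume (ball (0 : Vec d) 1)).toReal)) / lam)) := by
  set B := ENNReal.ofReal (2 * (Fintype.card ι * (ρ ^ d * (volume (ball (0 : Vec d) 1)).toReal)) / lam) with hB
  have h1 := sup_sum_all hh (fun t => volume (Gl L ρ v β s lam t)) (B := B) ENNReal.ofReal_ne_top
    (fun Θ hΘ => inc_count hδ hρ hh hsep hPdef hlam Θ hΘ hc)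
  have hcov : (⋃ m : ℤ, Ico ((m : ℝ) * h) (((m : ℝ) + 1) * h)) = univ := by
    rw [Set.eq_univ_iff_forall]
    intro t
    rw [mem_iUnion]
    refine ⟨⌊t / h⌋, ?_, ?_⟩
    · rw [← le_div_iff₀ hh]
      exact Int.floor_le _
    · rw [← div_lt_iff₀ hh]
      exact Int.lt_floor_add_one _
  calc ∫⁻ t, volume (Gl L ρ v β s lam t)
      = ∫⁻ t in ⋃ m : ℤ, Ico ((m : ℝ) * h) (((m : ℝ) + 1) * h), volume (Gl L ρ v β s lam t) := by
        rw [hcov, Measure.restrict_univ]
    _ ≤ ∑' m : ℤ, ∫⁻ t in Ico ((m : ℝ) * h) (((m : ℝ) + 1) * h), volume (Gl L ρ v β s lam t) :=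
        lintegral_iUnion_le _ _
    _ ≤ ∑' m : ℤ, c * ⨆ t ∈ Ico ((m : ℝ) * h) (((m : ℝ) + 1) * h), volume (Gl L ρ v β s lam t) := by
        apply ENNReal.tsum_le_tsum
        intro m
        set S := ⨆ t ∈ Ico ((m : ℝ) * h) (((m : ℝ) + 1) * h), volume (Gl L ρ v β s lam t) with hS
        calc ∫⁻ t in Ico ((m : ℝ) * h) (((m : ℝ) + 1) * h), volume (Gl L ρ v β s lam t)
            ≤ ∫⁻ t in Ico ((m : ℝ) * h) (((m : ℝ) + 1) * h), (Eh L ρ v β s lam).indicator (fun _ => S) t := by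
              apply setLIntegral_mono' measurableSet_Ico
              intro t ht
              apply vol_le_ind
              rw [hS]
              exact le_iSup₂ (f := fun t _ => volume (Gl L ρ v β s lam t)) t ht
          _ = S * volume (Eh L ρ v β s lam ∩ Ico ((m : ℝ) * h) (((m : ℝ) + 1) * h)) := by
              rw [lintegral_indicator_const (Eh_meas L ρ v β s lam), Measure.restrict_apply (Eh_meas L ρ v β s lam)]
          _ ≤ S * c := by
              gcongr
              refine le_trans (measure_mono ?_) (hE ((m : ℝ) * h))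
              apply inter_subset_inter_right
              intro t ht
              exact ⟨ht.1, by linarith [ht.2]⟩
          _ = c * S := mul_comm _ _
    _ = c * ∑' m : ℤ, ⨆ t ∈ Ico ((m : ℝ) * h) (((m : ℝ) + 1) * h), volume (Gl L ρ v β s lam t) :=
        ENNReal.tsum_mul_left
    _ ≤ _ := by gcongr

/-- rich levels of small multiplicity -/
theorem lam_small (hρ : 0 ≤ ρ) {lam : ℝ} (hlam : 1 ≤ lam) {c : ℝ≥0∞}
    (hE : ∀ x, volume (Eh L ρ v β s lam ∩ Icc x (x + 2 * L)) ≤ c) :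
    ∫⁻ t, volume (Gl L ρ v β s lam t) ≤ c * ENNReal.ofReal ((Fintype.card ι *
      (ρ ^ d * (volume (ball (0 : Vec d) 1)).toReal)) / lam) := by
  have hlam0 : 0 < lam := by linarith
  have hl0 : ENNReal.ofReal lam ≠ 0 := by
    rw [ne_eq, ENNReal.ofReal_eq_zero, not_le]
    exact hlam0
  set b : ℝ := ρ ^ d * (volume (ball (0 : Vec d) 1)).toReal with hb
  have hb0 : 0 ≤ b := by positivity
  have h1 : ∀ t, volume (Gl L ρ v β s lam t) ≤ ∑ i, (Icc (s i - L) (s i + L)).indicator
      (fun _ => ENNReal.ofReal (b / lam)) t := by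
    intro t
    have h2 : ENNReal.ofReal lam * volume (Gl L ρ v β s lam t) ≤ ∑ i, (Icc (s i - L) (s i + L)).indicator
        (fun _ => ENNReal.ofReal b) t := by
      have h3 := mul_meas_ge_le_lintegral (μ := volume) (mu_meas L ρ v β s t) (ENNReal.ofReal lam)
      refine h3.trans (le_of_eq ?_)
      unfold mu
      rw [lintegral_finsetSum _ (fun i _ => gt_meas L ρ v β s i t)]
      apply Finset.sum_congr rfl
      intro i _
      rw [gt_lint L hρ v β s i t]
    have h4 : volume (Gl L ρ v β s lam t) ≤ (∑ i, (Icc (s i - L) (s i + L)).indicator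
        (fun _ => ENNReal.ofReal b) t) / ENNReal.ofReal lam := by
      rw [ENNReal.le_div_iff_mul_le (Or.inl hl0) (Or.inl ENNReal.ofReal_ne_top), mul_comm]
      exact h2
    refine h4.trans (le_of_eq ?_)
    rw [div_eq_mul_inv, Finset.sum_mul]
    apply Finset.sum_congr rfl
    intro i _
    by_cases ht : t ∈ Icc (s i - L) (s i + L)
    · rw [indicator_of_mem ht, indicator_of_mem ht, ← div_eq_mul_inv, ENNReal.ofReal_div_of_pos hlam0]
    · rw [indicator_of_notMem ht, indicator_of_notMem ht, zero_mul]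
  calc ∫⁻ t, volume (Gl L ρ v β s lam t)
      ≤ ∫⁻ t, (Eh L ρ v β s lam).indicator (fun t => ∑ i, (Icc (s i - L) (s i + L)).indicator
          (fun _ => ENNReal.ofReal (b / lam)) t) t := by
        apply lintegral_mono
        intro t
        have h2 := vol_le_ind L ρ v β s lam t _ (h1 t)
        refine h2.trans (le_of_eq ?_)
        by_cases ht : t ∈ Eh L ρ v β s lam
        · rw [indicator_of_mem ht, indicator_of_mem ht]
        · rw [indicator_of_notMem ht, indicator_of_notMem ht]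
    _ = ∑ i, ∫⁻ t in Eh L ρ v β s lam, (Icc (s i - L) (s i + L)).indicator
          (fun _ => ENNReal.ofReal (b / lam)) t := by
        rw [lintegral_indicator (Eh_meas L ρ v β s lam), lintegral_finsetSum]
        intro i _
        exact measurable_const.indicator measurableSet_Icc
    _ = ∑ i, ENNReal.ofReal (b / lam) * volume (Eh L ρ v β s lam ∩ Icc (s i - L) (s i + L)) := by
        apply Finset.sum_congr rfl
        intro i _
        rw [lintegral_indicator_const measurableSet_Icc, Measure.restrict_apply measurableSet_Icc, inter_comm]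
    _ ≤ ∑ _i : ι, ENNReal.ofReal (b / lam) * c := by
        apply Finset.sum_le_sum
        intro i _
        gcongr
        have h5 := hE (s i - L)
        have h6 : s i - L + 2 * L = s i + L := by ring
        rwa [h6] at h5
    _ = _ := by
        rw [Finset.sum_const, Finset.card_univ, nsmul_eq_mul, ← mul_assoc, ← ENNReal.ofReal_natCast,
          ← ENNReal.ofReal_mul (Nat.cast_nonneg _), mul_comm]
        congr 2
        ring

/-- dyadic decomposition -/
theorem dyadic {q : ℝ} (hq : 0 < q) :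
    ∫⁻ t, ∫⁻ x, mu L ρ v β s t x ^ q ≤ ∑' j : ℕ, ENNReal.ofReal ((2 : ℝ) ^ (((j : ℝ) + 1) * q)) *
      ∫⁻ t, volume (Gl L ρ v β s ((2 : ℝ) ^ j) t) := by
  have hpt : ∀ t x, mu L ρ v β s t x ^ q ≤ ∑' j : ℕ, (Gl L ρ v β s ((2 : ℝ) ^ j) t).indicator
      (fun _ => ENNReal.ofReal ((2 : ℝ) ^ (((j : ℝ) + 1) * q))) x := by
    intro t x
    obtain ⟨n, hn⟩ : ∃ n : ℕ, mu L ρ v β s t x = n := by
      classical
      refine ⟨(Finset.univ.filter fun i => gt L ρ v β s i t x ≠ 0).card, ?_⟩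
      unfold mu
      have e1 : ∑ i, gt L ρ v β s i t x = ∑ i ∈ Finset.univ.filter (fun i => gt L ρ v β s i t x ≠ 0),
          gt L ρ v β s i t x := by
        rw [Finset.sum_filter_ne_zero]
      rw [e1, Finset.sum_congr rfl (fun i hi => (gt_one (Finset.mem_filter.1 hi).2).2.2)]
      simp
    rcases Nat.eq_zero_or_pos n with h0 | h0
    · rw [hn, h0, Nat.cast_zero, ENNReal.zero_rpow_of_pos hq]
      exact bot_le
    · set j := Nat.log 2 n with hj
      have h1 : 2 ^ j ≤ n := Nat.pow_log_le_self 2 (by omega)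
      have h2 : n < 2 ^ (j + 1) := Nat.lt_pow_succ_log_self (by norm_num) n
      refine le_trans ?_ (ENNReal.le_tsum j)
      rw [indicator_of_mem]
      · rw [hn, ← ENNReal.ofReal_natCast, ENNReal.ofReal_rpow_of_nonneg (Nat.cast_nonneg _) hq.le]
        apply ENNReal.ofReal_le_ofReal
        rw [Real.rpow_mul (by norm_num)]
        apply Real.rpow_le_rpow (Nat.cast_nonneg _) _ hq.le
        have h3 : (n : ℝ) ≤ 2 ^ (j + 1) := by exact_mod_cast h2.le
        refine h3.trans (le_of_eq ?_)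
        rw [← Real.rpow_natCast]
        push_cast
        rfl
      · show ENNReal.ofReal ((2 : ℝ) ^ j) ≤ mu L ρ v β s t x
        rw [hn, ← ENNReal.ofReal_natCast]
        apply ENNReal.ofReal_le_ofReal
        exact_mod_cast h1
  calc ∫⁻ t, ∫⁻ x, mu L ρ v β s t x ^ q
      ≤ ∫⁻ t, ∫⁻ x, ∑' j : ℕ, (Gl L ρ v β s ((2 : ℝ) ^ j) t).indicator
          (fun _ => ENNReal.ofReal ((2 : ℝ) ^ (((j : ℝ) + 1) * q))) x :=
        lintegral_mono fun t => lintegral_mono fun x => hpt t x
    _ = ∫⁻ t, ∑' j : ℕ, ENNReal.ofReal ((2 : ℝ) ^ (((j : ℝ) + 1) * q)) *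
          volume (Gl L ρ v β s ((2 : ℝ) ^ j) t) := by
        apply lintegral_congr
        intro t
        rw [lintegral_tsum]
        · congr 1
          funext j
          rw [lintegral_indicator_const (Gl_meas L ρ v β s _ t)]
        · intro j
          exact (measurable_const.indicator (Gl_meas L ρ v β s _ t)).aemeasurable
    _ = _ := by
        rw [lintegral_tsum]
        · congr 1
          funext j
          rw [lintegral_const_mul _ (vol_meas L ρ v β s _)]
        · intro j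
          exact ((vol_meas L ρ v β s _).const_mul _).aemeasurable

end

end Pool.Agent.N250.GAP
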