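import Pool.Agent.N250.GAP.Loss2

/-!
# From the local bound for the rich heights to the sharp inequality, for arbitrary families (3)
-/

open MeasureTheory Set ENNReal NNReal Metric

namespace Pool.Agent.N250.GAP

variable {d : ℕ}

/-- one level -/
theorem level_bound (hd : 1 ≤ d) {θ : ℝ} (hθ : 0 < θ) (hθd : θ * d < 1) {L ρ₀ Cn : ℝ}
    (hL : 1 / 2 ≤ L) (hρ₀ : 0 ≤ ρ₀) (hCn : 0 ≤ Cn) :
    ∃ C : ℝ, 0 < C ∧ ∀ δ : ℝ, 0 < δ → ∀ (ι : Type) [Fintype ι] [Nonempty ι] (v β : ι → Vec d) (s : ι → ℝ),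
      (∀ i j, i ≠ j → δ ≤ ‖v i - v j‖) → ∀ lam : ℝ, 1 ≤ lam →
      (∀ x h : ℝ, 0 < h → h ≤ 2 * L → volume (Eh L (ρ₀ * δ) v β s lam ∩ Icc x (x + h)) ≤
        ENNReal.ofReal (Cn * h ^ (1 - d * θ) * lam ^ (-θ))) →
      ∫⁻ t, volume (Gl L (ρ₀ * δ) v β s lam t) ≤
        ENNReal.ofReal (C * δ ^ d * (Fintype.card ι : ℝ) ^ (1 + 1 / d - θ) * lam ^ (θ - 2 / d - 1)) := by
  have hd0 : (0 : ℝ) < d := by exact_mod_cast hd
  set ω : ℝ := (volume (ball (0 : Vec d) 1)).toReal with hω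
  have hω0 : 0 ≤ ω := ENNReal.toReal_nonneg
  set κ : ℝ := 1 + 8 * ρ₀ with hκ
  have hκ1 : 1 ≤ κ := by rw [hκ]; linarith
  have hκ0 : 0 < κ := by linarith
  have hL0 : 0 < L := by linarith
  have he : 0 < 1 / (d : ℝ) - θ := by
    rw [sub_pos, lt_div_iff₀ hd0]
    exact hθd
  set C1 : ℝ := Cn * (2 * L) ^ (1 - d * θ) * (2 * κ ^ d) ^ (1 / (d : ℝ) - θ) * (ρ₀ ^ d * ω) with hC1
  set C2 : ℝ := Cn * (κ * (2 : ℝ) ^ (1 / (d : ℝ))) ^ (1 - d * θ) * 8 * (ρ₀ ^ d * ω) with hC2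
  have hC10 : 0 ≤ C1 := by positivity
  have hC20 : 0 ≤ C2 := by positivity
  refine ⟨C1 + C2 + 1, by positivity, ?_⟩
  intro δ hδ ι _ _ v β s hsep lam hlam hloc
  have hlam0 : 0 < lam := by linarith
  set Y : ℝ := (Fintype.card ι : ℝ) with hY
  have hY1 : 1 ≤ Y := by
    have : 0 < Fintype.card ι := Fintype.card_pos
    rw [hY]
    exact_mod_cast this
  have hY0 : 0 < Y := by linarith
  have hρ : 0 ≤ ρ₀ * δ := by positivity
  have hfin : 0 ≤ δ ^ d * Y ^ (1 + 1 / (d : ℝ) - θ) * lam ^ (θ - 2 / d - 1) := by positivity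
  by_cases hcase : lam ^ 2 < 2 * (Y * κ ^ d)
  · -- small multiplicity
    have h1 := lam_small L (ρ₀ * δ) v β s hρ hlam (hloc · (2 * L) (by positivity) le_rfl)
    refine h1.trans ?_
    rw [← ENNReal.ofReal_mul (by positivity)]
    apply ENNReal.ofReal_le_ofReal
    have h2 : lam ^ (2 * (1 / (d : ℝ) - θ)) ≤ (2 * κ ^ d) ^ (1 / (d : ℝ) - θ) * Y ^ (1 / (d : ℝ) - θ) := by
      rw [← Real.mul_rpow (by positivity) hY0.le]
      have h3 : lam ^ (2 * (1 / (d : ℝ) - θ)) = (lam ^ 2) ^ (1 / (d : ℝ) - θ) := by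
        rw [← Real.rpow_natCast lam 2, ← Real.rpow_mul hlam0.le]
        norm_num
      rw [h3]
      apply Real.rpow_le_rpow (by positivity) _ he.le
      calc lam ^ 2 ≤ 2 * (Y * κ ^ d) := hcase.le
        _ = 2 * κ ^ d * Y := by ring
    have h4 : lam ^ (-θ) / lam = lam ^ (2 * (1 / (d : ℝ) - θ)) * lam ^ (θ - 2 / d - 1) := by
      rw [← Real.rpow_add hlam0, div_eq_mul_inv, ← Real.rpow_neg_one, ← Real.rpow_add hlam0]
      congr 1
      ring
    have h5 : Y ^ (1 + 1 / (d : ℝ) - θ) = Y * Y ^ (1 / (d : ℝ) - θ) := by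
      have : 1 + 1 / (d : ℝ) - θ = 1 + (1 / (d : ℝ) - θ) := by ring
      rw [this, Real.rpow_add hY0, Real.rpow_one]
    have h6 : 0 ≤ lam ^ (θ - 2 / d - 1) := by positivity
    calc Cn * (2 * L) ^ (1 - d * θ) * lam ^ (-θ) * (Y * ((ρ₀ * δ) ^ d * ω) / lam)
        = (Cn * (2 * L) ^ (1 - d * θ) * (ρ₀ ^ d * ω)) * δ ^ d * Y * (lam ^ (-θ) / lam) := by
          rw [mul_pow]
          ring
      _ = (Cn * (2 * L) ^ (1 - d * θ) * (ρ₀ ^ d * ω)) * δ ^ d * Y *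
            (lam ^ (2 * (1 / (d : ℝ) - θ)) * lam ^ (θ - 2 / d - 1)) := by rw [h4]
      _ ≤ (Cn * (2 * L) ^ (1 - d * θ) * (ρ₀ ^ d * ω)) * δ ^ d * Y *
            (((2 * κ ^ d) ^ (1 / (d : ℝ) - θ) * Y ^ (1 / (d : ℝ) - θ)) * lam ^ (θ - 2 / d - 1)) := by gcongr
      _ = C1 * (δ ^ d * Y ^ (1 + 1 / (d : ℝ) - θ) * lam ^ (θ - 2 / d - 1)) := by
          rw [h5, hC1]
          ring
      _ ≤ (C1 + C2 + 1) * (δ ^ d * Y ^ (1 + 1 / (d : ℝ) - θ) * lam ^ (θ - 2 / d - 1)) := by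
          gcongr
          linarith
      _ = _ := by ring
  · -- large multiplicity
    push Not at hcase
    set h : ℝ := κ * (2 * Y / lam ^ 2) ^ (1 / (d : ℝ)) with hh
    have hh0 : 0 < h := by positivity
    have hhd : h ^ d = κ ^ d * (2 * Y / lam ^ 2) := by
      rw [hh, mul_pow, ← Real.rpow_natCast ((2 * Y / lam ^ 2) ^ (1 / (d : ℝ))), ← Real.rpow_mul (by positivity),
        one_div_mul_cancel hd0.ne', Real.rpow_one]
    have hh1 : h ≤ 1 := by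
      have h2 : h ^ d ≤ 1 := by
        rw [hhd, mul_div_assoc', div_le_one (by positivity)]
        linarith
      by_contra hcon
      push Not at hcon
      have h3 : 1 < h ^ d := one_lt_pow₀ hcon (by omega)
      linarith
    have h1 := lam_large L (ρ₀ * δ) v β s (P := (1 + 8 * (ρ₀ * δ) / (h * δ)) ^ d) hδ hρ hh0 hsep rfl hlam (by
        have e1 : 8 * (ρ₀ * δ) / (h * δ) = 8 * ρ₀ / h := by
          field_simp
        have e2 : 1 + 8 * (ρ₀ * δ) / (h * δ) ≤ κ / h := by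
          rw [e1, le_div_iff₀ hh0, add_mul, one_mul, div_mul_cancel₀ _ hh0.ne', hκ]
          linarith
        have e3 : (1 + 8 * (ρ₀ * δ) / (h * δ)) ^ d ≤ (κ / h) ^ d := by
          have : 0 ≤ 1 + 8 * (ρ₀ * δ) / (h * δ) := by positivity
          gcongr
        calc 2 * (Y * (1 + 8 * (ρ₀ * δ) / (h * δ)) ^ d) ≤ 2 * (Y * (κ / h) ^ d) := by gcongr
          _ = lam ^ 2 := by
              rw [div_pow, hhd]
              field_simp) (hloc · h hh0 (by linarith))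
    refine h1.trans ?_
    rw [show (4 : ℝ≥0∞) = ENNReal.ofReal 4 by norm_num, ← ENNReal.ofReal_mul (by norm_num),
      ← ENNReal.ofReal_mul (by positivity)]
    apply ENNReal.ofReal_le_ofReal
    have h4 : h ^ (1 - d * θ) = (κ * (2 : ℝ) ^ (1 / (d : ℝ))) ^ (1 - d * θ) * Y ^ (1 / (d : ℝ) - θ) *
        lam ^ (2 * θ - 2 / d) := by
      have e1 : h = (κ * (2 : ℝ) ^ (1 / (d : ℝ))) * (Y ^ (1 / (d : ℝ)) * lam ^ (-(2 / (d : ℝ)))) := by
        rw [hh, Real.div_rpow (by positivity) (by positivity), Real.mul_rpow (by norm_num) hY0.le,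
          ← Real.rpow_natCast lam 2, ← Real.rpow_mul hlam0.le, Real.rpow_neg hlam0.le]
        have : ((2 : ℕ) : ℝ) * (1 / (d : ℝ)) = 2 / d := by
          push_cast
          ring
        rw [this]
        ring
      have e2 : 1 / (d : ℝ) * (1 - d * θ) = 1 / d - θ := by
        field_simp
      have e3 : -(2 / (d : ℝ)) * (1 - d * θ) = 2 * θ - 2 / d := by
        field_simp
        ring
      have e4 : (Y ^ (1 / (d : ℝ)) * lam ^ (-(2 / (d : ℝ)))) ^ (1 - d * θ) =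
          Y ^ (1 / (d : ℝ) - θ) * lam ^ (2 * θ - 2 / d) := by
        rw [Real.mul_rpow (by positivity) (by positivity), ← Real.rpow_mul hY0.le, ← Real.rpow_mul hlam0.le,
          e2, e3]
      rw [e1, Real.mul_rpow (x := κ * (2 : ℝ) ^ (1 / (d : ℝ))) (by positivity) (by positivity), e4]
      ring
    have h5 : Y ^ (1 + 1 / (d : ℝ) - θ) = Y * Y ^ (1 / (d : ℝ) - θ) := by
      have : 1 + 1 / (d : ℝ) - θ = 1 + (1 / (d : ℝ) - θ) := by ring
      rw [this, Real.rpow_add hY0, Real.rpow_one]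
    have h6 : lam ^ (θ - 2 / d - 1) = lam ^ (2 * θ - 2 / d) * lam ^ (-θ) / lam := by
      have e1 : lam ^ (2 * θ - 2 / (d : ℝ)) * lam ^ (-θ) / lam =
          lam ^ (2 * θ - 2 / (d : ℝ)) * lam ^ (-θ) * lam ^ (-1 : ℝ) := by
        rw [Real.rpow_neg_one]
        rfl
      rw [e1, ← Real.rpow_add hlam0, ← Real.rpow_add hlam0]
      congr 1
      ring
    calc Cn * h ^ (1 - d * θ) * lam ^ (-θ) * (4 * (2 * (Y * ((ρ₀ * δ) ^ d * ω)) / lam))
        = C2 * (δ ^ d * Y ^ (1 + 1 / (d : ℝ) - θ) * lam ^ (θ - 2 / d - 1)) := by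
          rw [h4, h5, h6, hC2, mul_pow]
          ring
      _ ≤ (C1 + C2 + 1) * (δ ^ d * Y ^ (1 + 1 / (d : ℝ) - θ) * lam ^ (θ - 2 / d - 1)) := by
          gcongr
          linarith
      _ = _ := by ring

/-- **From the local bound for the rich heights to the sharp inequality.** -/
theorem lossless (hd : 1 ≤ d) {θ q : ℝ} (hθ : 0 < θ) (hθd : θ * d < 1) (hq : 2 < (q - 1 + θ) * d)
    {L ρ₀ Cn : ℝ} (hL : 1 / 2 ≤ L) (hρ₀ : 0 ≤ ρ₀) (hCn : 0 ≤ Cn) :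
    ∃ C : ℝ, 0 < C ∧ ∀ δ : ℝ, 0 < δ → ∀ (ι : Type) [Fintype ι] [Nonempty ι] (v β : ι → Vec d) (s : ι → ℝ),
      (∀ i j, i ≠ j → δ ≤ ‖v i - v j‖) →
      (∀ x h lam : ℝ, 1 ≤ lam → 0 < h → h ≤ 2 * L → volume (Eh L (ρ₀ * δ) v β s lam ∩ Icc x (x + h)) ≤
        ENNReal.ofReal (Cn * h ^ (1 - d * θ) * lam ^ (-θ))) →
      ∫⁻ t, ∫⁻ x, mu L (ρ₀ * δ) v β s t x ^ q ≤
        ENNReal.ofReal (C * δ ^ d * (Fintype.card ι : ℝ) ^ (q - 1 / d)) := by
  have hd0 : (0 : ℝ) < d := by exact_mod_cast hd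
  obtain ⟨C, hC, hlev⟩ := level_bound hd hθ hθd hL hρ₀ hCn
  set η : ℝ := q - 1 + θ - 2 / d with hη
  have hη0 : 0 < η := by
    rw [hη]
    have : 2 / (d : ℝ) < q - 1 + θ := by
      rw [div_lt_iff₀ hd0]
      exact hq
    linarith
  have hq0 : 0 < q := by
    have h1 : θ * d < 1 := hθd
    nlinarith
  set z : ℝ := (2 : ℝ) ^ η with hz
  have hz1 : 1 < z := Real.one_lt_rpow (by norm_num) hη0
  have hz0 : 0 < z := by linarith
  have hz10 : 0 < z - 1 := by linarith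
  refine ⟨C * 2 ^ q * (z / (z - 1)), by positivity, ?_⟩
  intro δ hδ ι _ _ v β s hsep hloc
  set Y : ℝ := (Fintype.card ι : ℝ) with hY
  have hcard : 0 < Fintype.card ι := Fintype.card_pos
  have hY1 : 1 ≤ Y := by
    rw [hY]
    exact_mod_cast hcard
  have hY0 : 0 < Y := by linarith
  refine (dyadic L (ρ₀ * δ) v β s hq0).trans ?_
  set J : ℕ := Nat.log 2 (Fintype.card ι) with hJ
  have hJ1 : 2 ^ J ≤ Fintype.card ι := Nat.pow_log_le_self 2 (by omega)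
  have hJ2 : Fintype.card ι < 2 ^ (J + 1) := Nat.lt_pow_succ_log_self (by norm_num) _
  have hzero : ∀ j ∉ Finset.range (J + 1), ENNReal.ofReal ((2 : ℝ) ^ (((j : ℝ) + 1) * q)) *
      ∫⁻ t, volume (Gl L (ρ₀ * δ) v β s ((2 : ℝ) ^ j) t) = 0 := by
    intro j hj
    rw [Finset.mem_range, not_lt] at hj
    have h1 : ∀ t, volume (Gl L (ρ₀ * δ) v β s ((2 : ℝ) ^ j) t) = 0 := by
      intro t
      have : Gl L (ρ₀ * δ) v β s ((2 : ℝ) ^ j) t = ∅ := by
        rw [Set.eq_empty_iff_forall_notMem]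
        intro x hx
        have h2 : ENNReal.ofReal ((2 : ℝ) ^ j) ≤ mu L (ρ₀ * δ) v β s t x := hx
        have h3 := h2.trans (mu_le L (ρ₀ * δ) v β s t x)
        rw [← ENNReal.ofReal_natCast, ENNReal.ofReal_le_ofReal_iff (Nat.cast_nonneg _)] at h3
        have h4 : 2 ^ j ≤ Fintype.card ι := by exact_mod_cast h3
        have h5 : 2 ^ (J + 1) ≤ 2 ^ j := Nat.pow_le_pow_right (by norm_num) hj
        omega
      rw [this, measure_empty]
    simp only [h1, lintegral_zero, mul_zero]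
  rw [tsum_eq_sum hzero]
  have hterm : ∀ j ∈ Finset.range (J + 1), ENNReal.ofReal ((2 : ℝ) ^ (((j : ℝ) + 1) * q)) *
      ∫⁻ t, volume (Gl L (ρ₀ * δ) v β s ((2 : ℝ) ^ j) t) ≤
      ENNReal.ofReal (C * 2 ^ q * δ ^ d * Y ^ (1 + 1 / (d : ℝ) - θ) * z ^ j) := by
    intro j _
    have h2j : (1 : ℝ) ≤ 2 ^ j := one_le_pow₀ (by norm_num)
    have h1 := hlev δ hδ ι v β s hsep ((2 : ℝ) ^ j) h2j (fun x h hh0 hh => hloc x h _ h2j hh0 hh)
    calc _ ≤ ENNReal.ofReal ((2 : ℝ) ^ (((j : ℝ) + 1) * q)) *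
          ENNReal.ofReal (C * δ ^ d * Y ^ (1 + 1 / (d : ℝ) - θ) * ((2 : ℝ) ^ j) ^ (θ - 2 / d - 1)) := by gcongr
      _ = _ := by
          rw [← ENNReal.ofReal_mul (by positivity)]
          congr 1
          have e1 : (2 : ℝ) ^ (((j : ℝ) + 1) * q) * ((2 : ℝ) ^ j) ^ (θ - 2 / d - 1) = 2 ^ q * z ^ j := by
            rw [← Real.rpow_natCast 2 j, ← Real.rpow_mul (by norm_num), ← Real.rpow_add (by norm_num),
              hz, ← Real.rpow_natCast ((2 : ℝ) ^ η) j, ← Real.rpow_mul (by norm_num), ← Real.rpow_add (by norm_num)]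
            congr 1
            rw [hη]
            ring
          calc (2 : ℝ) ^ (((j : ℝ) + 1) * q) * (C * δ ^ d * Y ^ (1 + 1 / (d : ℝ) - θ) *
                ((2 : ℝ) ^ j) ^ (θ - 2 / d - 1))
              = C * δ ^ d * Y ^ (1 + 1 / (d : ℝ) - θ) * ((2 : ℝ) ^ (((j : ℝ) + 1) * q) *
                ((2 : ℝ) ^ j) ^ (θ - 2 / d - 1)) := by ring
            _ = _ := by rw [e1]; ring
  refine (Finset.sum_le_sum hterm).trans ?_
  rw [← ENNReal.ofReal_sum_of_nonneg (fun j _ => by positivity), ← Finset.mul_sum, geom_sum_eq hz1.ne']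
  apply ENNReal.ofReal_le_ofReal
  have h1 : z ^ J ≤ Y ^ η := by
    rw [hz, ← Real.rpow_natCast ((2 : ℝ) ^ η) J, ← Real.rpow_mul (by norm_num), mul_comm, Real.rpow_mul (by norm_num),
      Real.rpow_natCast]
    apply Real.rpow_le_rpow (by positivity) _ hη0.le
    rw [hY]
    exact_mod_cast hJ1
  have h2 : (z ^ (J + 1) - 1) / (z - 1) ≤ z / (z - 1) * Y ^ η := by
    rw [div_mul_eq_mul_div]
    apply div_le_div_of_nonneg_right _ hz10.le
    rw [pow_succ]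
    nlinarith
  have h3 : Y ^ (q - 1 / (d : ℝ)) = Y ^ (1 + 1 / (d : ℝ) - θ) * Y ^ η := by
    rw [← Real.rpow_add hY0]
    congr 1
    rw [hη]
    ring
  rw [h3]
  calc C * 2 ^ q * δ ^ d * Y ^ (1 + 1 / (d : ℝ) - θ) * ((z ^ (J + 1) - 1) / (z - 1))
      ≤ C * 2 ^ q * δ ^ d * Y ^ (1 + 1 / (d : ℝ) - θ) * (z / (z - 1) * Y ^ η) := by gcongr
    _ = _ := by ring

end Pool.Agent.N250.GAP
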