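import Pool.Agent.N250.GAP.NL

/-!
# Project ST: `S_NL`, local version
-/

open MeasureTheory Set Matrix
open scoped ENNReal

namespace Pool.Agent.N250.GAP

/-- **S_NL**, local version -/
theorem nl_loc (r d : ℕ) (hd : 1 ≤ d) (C' θ s : ℝ) (hθ : 0 < θ) (_hθ1 : θ ≤ 1) (hs : 0 < s)
    (hsd : s < 1 / d) : ∃ C : ℝ, 0 < C ∧ ∀ (L : Fin r → ℝ), (∀ i, 0 < L i) →
  ∀ (w u : Fin r → Pool.Agent.N3.ST.Vec d),
  (∀ F : Finset (Fin r → ℤ), (∀ n ∈ F, (∀ i, |(n i : ℝ)| ≤ θ * L i) ∧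
    ‖∑ i, (n i : ℝ) • u i‖ ≤ θ) → (F.card : ℝ) ≤ C') →
  ∀ x h : ℝ, -1 ≤ x → x ≤ 1 → 0 < h → h ≤ 2 →
  ∀ lam : ℝ, 1 ≤ lam → volume {t ∈ Icc x (x + h) | ∃ F : Finset (Fin r → ℤ),
    (∀ n ∈ F, (∀ i, |(n i : ℝ)| ≤ L i) ∧ ‖∑ i, (n i : ℝ) • (w i + t • u i)‖ ≤ 1) ∧
    lam ≤ (F.card : ℝ)} ≤ ENNReal.ofReal (C * h ^ (1 - d * s) * lam ^ (-s)) := by
  have hd0 : (0 : ℝ) < d := by exact_mod_cast hd
  have hd1 : (1 : ℝ) ≤ d := by exact_mod_cast hd
  rcases Nat.eq_zero_or_pos r with hr | hr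
  · subst hr
    refine ⟨2, by norm_num, ?_⟩
    intro L _ w u _ x h hx hx1 hh hh2 lam hlam
    by_cases h1 : lam = 1
    · subst h1
      refine (measure_mono (sep_subset _ _)).trans ?_
      rw [Real.volume_Icc]
      apply ENNReal.ofReal_le_ofReal
      rw [Real.one_rpow, mul_one, add_sub_cancel_left]
      have hds : 0 < (d : ℝ) * s := by positivity
      have hds1 : (d : ℝ) * s < 1 := by
        rw [lt_div_iff₀ hd0] at hsd
        linarith
      have e1 : h = h ^ (1 - d * s) * h ^ (d * s) := by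
        rw [← Real.rpow_add hh]
        have : 1 - (d : ℝ) * s + d * s = 1 := by ring
        rw [this, Real.rpow_one]
      have e2 : h ^ ((d : ℝ) * s) ≤ 2 := by
        calc h ^ ((d : ℝ) * s) ≤ 2 ^ ((d : ℝ) * s) := by gcongr
          _ ≤ 2 ^ (1 : ℝ) := Real.rpow_le_rpow_of_exponent_le (by norm_num) hds1.le
          _ = 2 := Real.rpow_one _
      calc h = h ^ (1 - d * s) * h ^ (d * s) := e1
        _ ≤ h ^ (1 - d * s) * 2 := by gcongr
        _ = 2 * h ^ (1 - d * s) := by ring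
    · have : {t ∈ Icc x (x + h) | ∃ F : Finset (Fin 0 → ℤ),
          (∀ n ∈ F, (∀ i, |(n i : ℝ)| ≤ L i) ∧ ‖∑ i, (n i : ℝ) • (w i + t • u i)‖ ≤ 1) ∧
          lam ≤ (F.card : ℝ)} = ∅ := by
        rw [Set.eq_empty_iff_forall_notMem]
        rintro t ⟨-, F, -, hF⟩
        have h2 : F.card ≤ 1 := Finset.card_le_one_of_subsingleton F
        have h3 : (F.card : ℝ) ≤ 1 := by exact_mod_cast h2
        exact h1 (le_antisymm (hF.trans h3) hlam)
      rw [this, measure_empty]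
      exact bot_le
  set M : ℕ := ⌊C'⌋₊ + 1 with hM
  have hMr : (1 : ℝ) ≤ M := by
    rw [hM]
    push_cast
    linarith [Nat.cast_nonneg (α := ℝ) ⌊C'⌋₊]
  have hMC : C' < M := by
    rw [hM]
    push_cast
    exact Nat.lt_floor_add_one _
  set κ : ℝ := M * d / θ with hκ
  have hMκ : (M : ℝ) / θ ≤ κ := by
    rw [hκ]
    gcongr
    nlinarith
  have hκ1 : 1 ≤ κ := by
    rw [hκ, one_le_div hθ]
    nlinarith
  have hκ0 : 0 < κ := by linarith
  have hsd' : s * d < 1 := by rwa [lt_div_iff₀ hd0] at hsd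
  obtain ⟨C, hC, hlev⟩ := level hr hd hκ1 hs hsd'
  refine ⟨C, hC, ?_⟩
  intro L hL w u hF x h hx hx1 hh hh2 lam hlam
  set S1 : ℝ := ∑ i, L i * ‖u i‖ with hS1
  have hS10 : 0 ≤ S1 := Finset.sum_nonneg fun i _ => mul_nonneg (hL i).le (norm_nonneg _)
  set δ : ℝ := min 1 (1 / (κ * (S1 + 1))) with hδ
  have hδ0 : 0 < δ := lt_min one_pos (by positivity)
  have hδ1 : δ ≤ 1 := min_le_left _ _
  have hδ2 : δ * (κ * (S1 + 1)) ≤ 1 := by
    have : δ ≤ 1 / (κ * (S1 + 1)) := min_le_right _ _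
    rwa [le_div_iff₀ (by positivity)] at this
  set V : Matrix (Fin d) (Fin r) ℝ := (δ * κ) • Matrix.of (fun c l => (u l).ofLp c) with hV
  set A : Matrix (Fin d) (Fin r) ℝ := (δ * κ) • Matrix.of (fun c l => (w l).ofLp c) with hA
  have hmv : ∀ (p : Fin r → EuclideanSpace ℝ (Fin d)) (n : Fin r → ℤ),
      ((δ * κ) • Matrix.of (fun c l => (p l).ofLp c) : Matrix (Fin d) (Fin r) ℝ) *ᵥ (fun l => (n l : ℝ)) =
      (((δ * κ) • ∑ i, (n i : ℝ) • p i : EuclideanSpace ℝ (Fin d)).ofLp : Fin d → ℝ) := by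
    intro p n
    rw [smul_mulVec]
    ext c
    simp only [WithLp.ofLp_sum, Finset.sum_apply, WithLp.ofLp_smul, Pi.smul_apply,
      smul_eq_mul, Matrix.mulVec, dotProduct, Matrix.of_apply]
    congr 1
    apply Finset.sum_congr rfl
    intro l _
    ring
  set N' : Fin r → ℝ := fun i => θ * L i / M with hN'
  have hN'0 : ∀ i, 0 < N' i := by
    intro i
    have := hL i
    rw [hN']
    positivity
  have hsep : SepBox N' V A δ := by
    intro n hn hnN _
    by_contra hcon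
    push Not at hcon
    rw [hV, hmv u n] at hcon
    have h1 : ‖((δ * κ) • ∑ i, (n i : ℝ) • u i : EuclideanSpace ℝ (Fin d))‖ < d * δ := by
      refine (norm_le_sup _).trans_lt ?_
      exact mul_lt_mul_of_pos_left hcon hd0
    rw [norm_smul, Real.norm_eq_abs, abs_of_pos (by positivity)] at h1
    have h2 : ‖∑ i, (n i : ℝ) • u i‖ < θ / M := by
      rw [lt_div_iff₀ (by linarith)]
      have h3 : δ * κ * ‖∑ i, (n i : ℝ) • u i‖ = δ * d * (‖∑ i, (n i : ℝ) • u i‖ * M) / θ := by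
        rw [hκ]
        field_simp
      rw [h3, div_lt_iff₀ hθ] at h1
      have h4 : δ * d * (‖∑ i, (n i : ℝ) • u i‖ * M) < δ * d * θ := by linarith
      exact lt_of_mul_lt_mul_left h4 (by positivity)
    -- the multiples of `n`
    have hinj : Function.Injective (fun l : Fin M => ((l : ℕ) : ℤ) • n) := by
      intro l l' h
      obtain ⟨j, hj⟩ : ∃ j, n j ≠ 0 := by
        by_contra hc
        push Not at hc
        exact hn (funext hc)
      have h2 := congrFun h j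
      simp only [Pi.smul_apply, smul_eq_mul] at h2
      have h3 : ((l : ℕ) : ℤ) = ((l' : ℕ) : ℤ) := mul_right_cancel₀ hj h2
      have h4 : (l : ℕ) = l' := by exact_mod_cast h3
      exact Fin.ext h4
    have h5 := hF (Finset.univ.image fun l : Fin M => ((l : ℕ) : ℤ) • n) (by
      intro m hm
      rw [Finset.mem_image] at hm
      obtain ⟨l, -, rfl⟩ := hm
      have hlM : ((l : ℕ) : ℝ) ≤ M := by exact_mod_cast l.2.le
      constructor
      · intro i
        simp only [Pi.smul_apply, smul_eq_mul, Int.cast_mul, Int.cast_natCast]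
        rw [abs_mul, abs_of_nonneg (Nat.cast_nonneg _)]
        calc ((l : ℕ) : ℝ) * |(n i : ℝ)| ≤ M * (θ * L i / M) := by
              have := hnN i
              gcongr
          _ = θ * L i := by field_simp
      · have e : ∑ i, (((((l : ℕ) : ℤ) • n) i : ℤ) : ℝ) • u i = ((l : ℕ) : ℝ) • ∑ i, (n i : ℝ) • u i := by
          rw [Finset.smul_sum]
          apply Finset.sum_congr rfl
          intro i _
          rw [smul_smul]
          simp
        rw [e, norm_smul, Real.norm_eq_abs, abs_of_nonneg (Nat.cast_nonneg _)]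
        calc ((l : ℕ) : ℝ) * ‖∑ i, (n i : ℝ) • u i‖ ≤ M * (θ / M) := by gcongr
          _ = θ := by field_simp)
    rw [Finset.card_image_of_injective _ hinj, Finset.card_univ, Fintype.card_fin] at h5
    linarith
  have h6 := hlev N' hN'0 V A δ hδ0 hδ1 hsep x h (by linarith) hx1 hh (by linarith) lam
    (by linarith)
  refine le_trans (measure_mono ?_) h6
  rintro t ⟨ht, F, hF1, hF2⟩
  refine ⟨ht, hF2.trans ?_⟩
  rw [Nat.cast_le]
  unfold mt
  rw [← Set.ncard_coe_finset]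
  apply Set.ncard_le_ncard _ (Ps_finite _ _ _ _ _ _)
  intro n hn
  obtain ⟨g1, g2⟩ := hF1 n (Finset.mem_coe.1 hn)
  refine ⟨fun i => ?_, ?_, ?_⟩
  · refine (g1 i).trans ?_
    show L i ≤ κ * (θ * L i / M)
    have h7 : (M : ℝ) / θ * (θ * L i / M) = L i := by field_simp
    calc L i = (M : ℝ) / θ * (θ * L i / M) := h7.symm
      _ ≤ κ * (θ * L i / M) := by
          have := hL i
          gcongr
  · show ‖V *ᵥ (fun l => (n l : ℝ))‖ ≤ κ
    rw [hV, hmv u n]
    refine (sup_le_norm _).trans ?_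
    rw [norm_smul, Real.norm_eq_abs, abs_of_pos (by positivity)]
    have h8 : ‖∑ i, (n i : ℝ) • u i‖ ≤ S1 := by
      refine (norm_sum_le _ _).trans (Finset.sum_le_sum fun i _ => ?_)
      rw [norm_smul, Real.norm_eq_abs]
      have := g1 i
      gcongr
    calc δ * κ * ‖∑ i, (n i : ℝ) • u i‖ ≤ δ * κ * (S1 + 1) := by
          gcongr
          linarith
      _ ≤ 1 := by linarith
      _ ≤ κ := hκ1
  · show ‖A *ᵥ (fun l => (n l : ℝ)) + t • V *ᵥ (fun l => (n l : ℝ))‖ ≤ κ * δ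
    rw [hV, hA, hmv u n, hmv w n]
    have e : (((δ * κ) • ∑ i, (n i : ℝ) • w i : EuclideanSpace ℝ (Fin d)).ofLp : Fin d → ℝ) +
        t • (((δ * κ) • ∑ i, (n i : ℝ) • u i : EuclideanSpace ℝ (Fin d)).ofLp : Fin d → ℝ) =
        (((δ * κ) • ∑ i, (n i : ℝ) • (w i + t • u i) : EuclideanSpace ℝ (Fin d)).ofLp : Fin d → ℝ) := by
      have e2 : ∑ i, (n i : ℝ) • (w i + t • u i) = (∑ i, (n i : ℝ) • w i) + t • ∑ i, (n i : ℝ) • u i := by
        rw [Finset.smul_sum, ← Finset.sum_add_distrib]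
        apply Finset.sum_congr rfl
        intro i _
        rw [smul_add, smul_smul, smul_smul, mul_comm t]
      rw [e2, smul_add, smul_comm (δ * κ) t]
      rfl
    rw [e]
    refine (sup_le_norm _).trans ?_
    rw [norm_smul, Real.norm_eq_abs, abs_of_pos (by positivity)]
    calc δ * κ * ‖∑ i, (n i : ℝ) • (w i + t • u i)‖ ≤ δ * κ * 1 := by gcongr
      _ = κ * δ := by ring

end Pool.Agent.N250.GAP
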