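import Mathlib
import Pool.Agent.Helper404.Sublevel

/-!
# Polynomials on intervals: comparison of suprema, products, negative powers
-/

open MeasureTheory Set Polynomial

namespace Pool.Agent.N250.GAP
open Pool.Agent.Helper404

/-- the supremum of `|P|` on `[x, x + h]` -/
noncomputable def M (P : ℝ[X]) (x h : ℝ) : ℝ := sSup ((fun t => |P.eval t|) '' Icc x (x + h))

theorem img_cpt (P : ℝ[X]) (x h : ℝ) : IsCompact ((fun t => |P.eval t|) '' Icc x (x + h)) :=
  isCompact_Icc.image (P.continuous.abs)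

theorem le_M {P : ℝ[X]} {x h t : ℝ} (ht : t ∈ Icc x (x + h)) : |P.eval t| ≤ M P x h :=
  le_csSup (img_cpt P x h).bddAbove ⟨t, ht, rfl⟩

theorem M_le {P : ℝ[X]} {x h c : ℝ} (hh : 0 ≤ h) (H : ∀ t ∈ Icc x (x + h), |P.eval t| ≤ c) :
    M P x h ≤ c := by
  apply csSup_le ((nonempty_Icc.2 (by linarith)).image _)
  rintro _ ⟨t, ht, rfl⟩
  exact H t ht

theorem exists_M {P : ℝ[X]} {x h : ℝ} (hh : 0 ≤ h) : ∃ t ∈ Icc x (x + h), |P.eval t| = M P x h := by
  obtain ⟨t, ht, h2⟩ := (img_cpt P x h).sSup_mem ((nonempty_Icc.2 (by linarith)).image _)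
  exact ⟨t, ht, h2⟩

theorem M_nonneg {P : ℝ[X]} {x h : ℝ} (hh : 0 ≤ h) : 0 ≤ M P x h :=
  (abs_nonneg _).trans (le_M (t := x) ⟨le_rfl, by linarith⟩)

theorem M_mono {P : ℝ[X]} {x h x' h' : ℝ} (hh : 0 ≤ h') (h1 : x ≤ x') (h2 : x' + h' ≤ x + h) :
    M P x' h' ≤ M P x h :=
  M_le hh fun _ ht => le_M ⟨h1.trans ht.1, ht.2.trans h2⟩

/-- comparison of the suprema on two intervals -/
theorem M_comp {D : ℕ} (hD : 1 ≤ D) {P : ℝ[X]} (hP : P.natDegree ≤ D) {x h x' h' L : ℝ}
    (hh' : 0 < h') (hh : 0 ≤ h) (hL : ∀ z ∈ Icc x (x + h), ∀ y ∈ Icc x' (x' + h'), |z - y| ≤ L) 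
    (hhL : h' ≤ L) :
    M P x h ≤ (D + 1) * (D * L / h') ^ D * M P x' h' := by
  have hD0 : (0 : ℝ) < D := by exact_mod_cast hD
  apply M_le hh
  intro z hz
  set F : Finset ℝ := (Finset.range (D + 1)).image (fun k : ℕ => x' + k * (h' / D)) with hF
  have hinj : Function.Injective (fun k : ℕ => x' + k * (h' / D)) := by
    intro a b hab
    have h0 : (h' / D) ≠ 0 := by positivity
    simp only [add_right_inj] at hab
    exact_mod_cast mul_right_cancel₀ h0 hab
  have hcard : F.card = D + 1 := by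
    rw [hF, Finset.card_image_of_injective _ hinj, Finset.card_range]
  have hmem : ∀ y ∈ F, y ∈ Icc x' (x' + h') := by
    intro y hy
    rw [hF, Finset.mem_image] at hy
    obtain ⟨k, hk, rfl⟩ := hy
    have hk' : (k : ℝ) ≤ D := by
      have := Finset.mem_range.1 hk
      exact_mod_cast Nat.lt_succ_iff.1 this
    constructor
    · have : 0 ≤ (k : ℝ) * (h' / D) := by positivity
      linarith
    · have : (k : ℝ) * (h' / D) ≤ D * (h' / D) := by gcongr
      have e : (D : ℝ) * (h' / D) = h' := by field_simp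
      linarith
  have h1 := lagrange_bound D P hP F hcard (h' / D) L (M P x' h') z (by positivity)
    ((div_le_self hh'.le (by exact_mod_cast hD)).trans hhL) ?_ (fun y hy => hL z hz y (hmem y hy))
    (fun y hy => le_M (hmem y hy))
  · have e : L / (h' / D) = D * L / h' := by field_simp
    rw [e] at h1
    calc |P.eval z| ≤ _ := h1
      _ = _ := by ring
  · intro a ha b hb hab
    rw [hF, Finset.mem_image] at ha hb
    obtain ⟨k, hk, rfl⟩ := ha
    obtain ⟨l, hl, rfl⟩ := hb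
    have hkl : k ≠ l := fun e => hab (by rw [e])
    have h2 : (1 : ℝ) ≤ |(k : ℝ) - l| := by
      have : (1 : ℤ) ≤ |(k : ℤ) - l| := Int.one_le_abs (by omega)
      exact_mod_cast this
    have e : x' + (k : ℝ) * (h' / D) - (x' + l * (h' / D)) = (k - l) * (h' / D) := by ring
    rw [e, abs_mul, abs_of_pos (show 0 < h' / (D : ℝ) by positivity)]
    have : 0 < h' / (D : ℝ) := by positivity
    nlinarith

/-- sublevel sets on a closed interval -/
theorem sub_Icc {D : ℕ} (hD : 1 ≤ D) {P : ℝ[X]} (hP : P.natDegree ≤ D) {x h ε : ℝ} (hh : 0 < h)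
    (hM : 0 < M P x h) (hε : 0 < ε) :
    volume {t ∈ Icc x (x + h) | |P.eval t| < ε * M P x h} ≤
      ENNReal.ofReal (8 * (D + 1) ^ 2 * ε ^ (1 / (D : ℝ)) * h) := by
  obtain ⟨z, hz, hz2⟩ := exists_M (P := P) (x := x) hh.le
  have h1 := sublevel D hD P hP x (2 * h) (by linarith) z (M P x h) (ε * M P x h)
    ⟨hz.1, by linarith [hz.2]⟩ hM hz2.ge (by positivity)
  refine (measure_mono ?_).trans (h1.trans (ENNReal.ofReal_le_ofReal ?_))
  · rintro t ⟨ht, ht2⟩
    exact ⟨⟨ht.1, by linarith [ht.2]⟩, ht2⟩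
  · rw [mul_div_cancel_right₀ _ hM.ne']
    apply le_of_eq
    ring

/-- the supremum of a product -/
theorem M_mul {D : ℕ} (hD : 1 ≤ D) : ∃ C : ℝ, 1 ≤ C ∧ ∀ (P Q : ℝ[X]), P.natDegree ≤ D → Q.natDegree ≤ D →
    ∀ x h : ℝ, 0 < h → M P x h * M Q x h ≤ C * M (P * Q) x h := by
  have hD0 : (0 : ℝ) < D := by exact_mod_cast hD
  set ε : ℝ := (1 / (32 * ((D : ℝ) + 1) ^ 2)) ^ D with hε
  have hε0 : 0 < ε := by positivity
  have hε1 : ε ≤ 1 := by
    rw [hε]
    apply pow_le_one₀ (by positivity)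
    rw [div_le_one (by positivity)]
    nlinarith
  have hεD : ε ^ (1 / (D : ℝ)) = 1 / (32 * ((D : ℝ) + 1) ^ 2) := by
    rw [hε, ← Real.rpow_natCast, ← Real.rpow_mul (by positivity), mul_one_div_cancel hD0.ne', Real.rpow_one]
  refine ⟨1 / ε ^ 2, by rw [le_div_iff₀ (by positivity)]; nlinarith [pow_le_one₀ hε0.le hε1 (n := 2)], ?_⟩
  intro P Q hP hQ x h hh
  rcases (M_nonneg (P := P) (x := x) hh.le).eq_or_lt with h0 | hMP
  · rw [← h0, zero_mul]
    exact mul_nonneg (by positivity) (M_nonneg hh.le)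
  rcases (M_nonneg (P := Q) (x := x) hh.le).eq_or_lt with h0 | hMQ
  · rw [← h0, mul_zero]
    exact mul_nonneg (by positivity) (M_nonneg hh.le)
  have key : ∃ t ∈ Icc x (x + h), ε * M P x h ≤ |P.eval t| ∧ ε * M Q x h ≤ |Q.eval t| := by
    by_contra hcon
    push Not at hcon
    have hsub : Icc x (x + h) ⊆ {t ∈ Icc x (x + h) | |P.eval t| < ε * M P x h} ∪
        {t ∈ Icc x (x + h) | |Q.eval t| < ε * M Q x h} := by
      intro t ht
      by_cases h1 : |P.eval t| < ε * M P x h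
      · exact Or.inl ⟨ht, h1⟩
      · exact Or.inr ⟨ht, hcon t ht (not_lt.1 h1)⟩
    have h1 := (measure_mono hsub).trans (measure_union_le (μ := volume) _ _)
    rw [Real.volume_Icc] at h1
    have h2 := h1.trans (add_le_add (sub_Icc hD hP hh hMP hε0) (sub_Icc hD hQ hh hMQ hε0))
    rw [← ENNReal.ofReal_add (by positivity) (by positivity), ENNReal.ofReal_le_ofReal_iff (by positivity),
      hεD] at h2
    have e : 8 * ((D : ℝ) + 1) ^ 2 * (1 / (32 * ((D : ℝ) + 1) ^ 2)) * h = h / 4 := by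
      field_simp
      norm_num
    rw [e] at h2
    linarith
  obtain ⟨t, ht, h1, h2⟩ := key
  have h3 : ε * M P x h * (ε * M Q x h) ≤ M (P * Q) x h := by
    calc ε * M P x h * (ε * M Q x h) ≤ |P.eval t| * |Q.eval t| := by gcongr
      _ = |(P * Q).eval t| := by rw [eval_mul, abs_mul]
      _ ≤ _ := le_M ht
  rw [div_mul_eq_mul_div, le_div_iff₀ (by positivity), one_mul]
  calc M P x h * M Q x h * ε ^ 2 = ε * M P x h * (ε * M Q x h) := by ring
    _ ≤ _ := h3

/-- the number of the parts of the interval on which `P` is small -/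
theorem card_small {D : ℕ} (hD : 1 ≤ D) {P : ℝ[X]} (hP : P.natDegree ≤ D) {x h ε : ℝ} (hh : 0 < h)
    (hM : 0 < M P x h) (hε : 0 < ε) {K : ℕ} (hK : 1 ≤ K) :
    (((Finset.range K).filter fun l : ℕ => M P (x + l * (h / K)) (h / K) < ε * M P x h).card : ℝ) ≤
      8 * (D + 1) ^ 2 * ε ^ (1 / (D : ℝ)) * K := by
  have hK0 : (0 : ℝ) < K := by exact_mod_cast hK
  set B := (Finset.range K).filter fun l : ℕ => M P (x + l * (h / K)) (h / K) < ε * M P x h with hB
  have hw : 0 < h / K := by positivity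
  have hdisj : Set.PairwiseDisjoint (↑B : Set ℕ) (fun l : ℕ => Ico (x + l * (h / K)) (x + (l + 1) * (h / K))) := by
    intro a _ b _ hab
    rw [Function.onFun, Set.disjoint_left]
    rintro t ⟨h1, h2⟩ ⟨h3, h4⟩
    apply hab
    have h5 : (a : ℝ) < b + 1 := by
      by_contra hc
      push Not at hc
      nlinarith
    have h6 : (b : ℝ) < a + 1 := by
      by_contra hc
      push Not at hc
      nlinarith
    have h7 : a < b + 1 := by exact_mod_cast h5
    have h8 : b < a + 1 := by exact_mod_cast h6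
    omega
  have hsub : (⋃ l ∈ B, Ico (x + l * (h / K)) (x + (l + 1) * (h / K))) ⊆
      {t ∈ Icc x (x + h) | |P.eval t| < ε * M P x h} := by
    intro t ht
    simp only [mem_iUnion, exists_prop] at ht
    obtain ⟨l, hl, h1, h2⟩ := ht
    rw [hB, Finset.mem_filter, Finset.mem_range] at hl
    have hlK : (l : ℝ) + 1 ≤ K := by exact_mod_cast hl.1
    have e1 : (K : ℝ) * (h / K) = h := by field_simp
    refine ⟨⟨?_, ?_⟩, ?_⟩
    · have : 0 ≤ (l : ℝ) * (h / K) := by positivity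
      linarith
    · have : ((l : ℝ) + 1) * (h / K) ≤ K * (h / K) := by gcongr
      linarith
    · refine lt_of_le_of_lt (le_M ⟨h1, ?_⟩) hl.2
      have : ((l : ℝ) + 1) * (h / K) = l * (h / K) + h / K := by ring
      linarith
  have h1 := (measure_mono hsub).trans (sub_Icc hD hP hh hM hε)
  rw [measure_biUnion_finset hdisj (fun l _ => measurableSet_Ico)] at h1
  have h2 : ∀ l : ℕ, volume (Ico (x + l * (h / K)) (x + (l + 1) * (h / K))) = ENNReal.ofReal (h / K) := by
    intro l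
    rw [Real.volume_Ico]
    congr 1
    ring
  simp only [h2, Finset.sum_const, nsmul_eq_mul] at h1
  rw [← ENNReal.ofReal_natCast, ← ENNReal.ofReal_mul (by positivity),
    ENNReal.ofReal_le_ofReal_iff (by positivity)] at h1
  have h3 : (B.card : ℝ) * (h / K) ≤ (8 * (D + 1) ^ 2 * ε ^ (1 / (D : ℝ)) * K) * (h / K) := by
    refine h1.trans (le_of_eq ?_)
    field_simp
  exact le_of_mul_le_mul_right h3 hw

/-- **negative powers**: the mean of `(sup |P|)^(-β)` over the parts of an interval -/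
theorem sum_neg_pow {D : ℕ} (hD : 1 ≤ D) {β : ℝ} (hβ : 0 < β) (hβD : β * D < 1) :
    ∃ C : ℝ, 1 ≤ C ∧ ∀ P : ℝ[X], P.natDegree ≤ D → (∀ t, 0 < |P.eval t|) → ∀ x h : ℝ, 0 < h →
      ∀ K : ℕ, 1 ≤ K → ∑ l ∈ Finset.range K, (M P (x + l * (h / K)) (h / K)) ^ (-β) ≤
        C * K * (M P x h) ^ (-β) := by
  have hD0 : (0 : ℝ) < D := by exact_mod_cast hD
  set ρ : ℝ := 2 ^ (β - 1 / (D : ℝ)) with hρ
  have hρ1 : ρ < 1 := by
    rw [hρ]
    apply Real.rpow_lt_one_of_one_lt_of_neg (by norm_num)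
    rw [sub_neg, lt_div_iff₀ hD0]
    exact hβD
  have hρ0 : 0 < ρ := by positivity
  set c0 : ℝ := 8 * ((D : ℝ) + 1) ^ 2 with hc0
  have hc0p : 0 < c0 := by positivity
  set C : ℝ := 2 ^ β * (c0 * 2 ^ (1 / (D : ℝ))) * (1 - ρ)⁻¹ + 1 with hC
  have h1ρ : 0 < (1 - ρ)⁻¹ := inv_pos.2 (by linarith)
  refine ⟨C, by rw [hC]; have : 0 < 2 ^ β * (c0 * 2 ^ (1 / (D : ℝ))) * (1 - ρ)⁻¹ := by positivity
                linarith, ?_⟩
  intro P hP hpos x h hh K hK
  have hK0 : (0 : ℝ) < K := by exact_mod_cast hK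
  have hw : 0 < h / K := by positivity
  have hM : 0 < M P x h := (hpos x).trans_le (le_M ⟨le_rfl, by linarith⟩)
  have hMl : ∀ l : ℕ, 0 < M P (x + l * (h / K)) (h / K) := fun l =>
    (hpos _).trans_le (le_M ⟨le_rfl, by linarith⟩)
  set y : ℕ → ℝ := fun l => M P (x + l * (h / K)) (h / K) / M P x h with hy
  have hy0 : ∀ l, 0 < y l := fun l => div_pos (hMl l) hM
  have hy1 : ∀ l ∈ Finset.range K, y l ≤ 1 := by
    intro l hl
    rw [hy]
    simp only
    rw [div_le_one hM]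
    have hlK : (l : ℝ) + 1 ≤ K := by exact_mod_cast Finset.mem_range.1 hl
    apply M_mono hw.le
    · have : 0 ≤ (l : ℝ) * (h / K) := by positivity
      linarith
    · have : ((l : ℝ) + 1) * (h / K) ≤ K * (h / K) := by gcongr
      have e1 : (K : ℝ) * (h / K) = h := by field_simp
      linarith
  -- the dyadic size
  set m : ℕ → ℕ := fun l => ⌊Real.logb 2 (1 / y l)⌋₊ with hm
  have hlog : ∀ l ∈ Finset.range K, 0 ≤ Real.logb 2 (1 / y l) := by
    intro l hl
    apply Real.logb_nonneg (by norm_num)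
    rw [le_div_iff₀ (hy0 l)]
    linarith [hy1 l hl]
  have hm1 : ∀ l ∈ Finset.range K, (2 : ℝ) ^ (m l : ℝ) ≤ 1 / y l := by
    intro l hl
    rw [← Real.rpow_logb (show (0 : ℝ) < 2 by norm_num) (by norm_num) (show 0 < 1 / y l by
      have := hy0 l; positivity)]
    exact Real.rpow_le_rpow_of_exponent_le (by norm_num) (Nat.floor_le (hlog l hl))
  have hm2 : ∀ l, 1 / y l < (2 : ℝ) ^ ((m l : ℝ) + 1) := by
    intro l
    rw [← Real.rpow_logb (show (0 : ℝ) < 2 by norm_num) (by norm_num) (show 0 < 1 / y l by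
      have := hy0 l; positivity)]
    exact Real.rpow_lt_rpow_of_exponent_lt (by norm_num) (Nat.lt_floor_add_one _)
  have hsum1 : ∑ l ∈ Finset.range K, (y l) ^ (-β) ≤ ∑ l ∈ Finset.range K, (2 : ℝ) ^ (β * ((m l : ℝ) + 1)) := by
    apply Finset.sum_le_sum
    intro l hl
    have e1 : (y l) ^ (-β) = (1 / y l) ^ β := by
      rw [Real.rpow_neg (hy0 l).le, one_div, Real.inv_rpow (hy0 l).le]
    rw [e1]
    calc (1 / y l) ^ β ≤ ((2 : ℝ) ^ ((m l : ℝ) + 1)) ^ β := by
          apply Real.rpow_le_rpow (by have := hy0 l; positivity) (hm2 l).le hβ.le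
      _ = _ := by rw [← Real.rpow_mul (by norm_num)]; ring_nf
  have hfib : ∑ l ∈ Finset.range K, (2 : ℝ) ^ (β * ((m l : ℝ) + 1)) =
      ∑ j ∈ (Finset.range K).image m, (((Finset.range K).filter (fun l => m l = j)).card : ℝ) *
        (2 : ℝ) ^ (β * ((j : ℝ) + 1)) := by
    rw [← Finset.sum_fiberwise_of_maps_to (g := m) (t := (Finset.range K).image m)
      (fun l hl => Finset.mem_image_of_mem m hl)]
    apply Finset.sum_congr rfl
    intro j _
    rw [Finset.sum_congr rfl (g := fun _ => (2 : ℝ) ^ (β * ((j : ℝ) + 1)))]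
    · rw [Finset.sum_const, nsmul_eq_mul]
    · intro l hl
      rw [(Finset.mem_filter.1 hl).2]
  have hcard : ∀ j : ℕ, (((Finset.range K).filter (fun l => m l = j)).card : ℝ) ≤
      c0 * (2 * (2 : ℝ) ^ (-(j : ℝ))) ^ (1 / (D : ℝ)) * K := by
    intro j
    refine le_trans ?_ (card_small hD hP hh hM (ε := 2 * (2 : ℝ) ^ (-(j : ℝ))) (by positivity) hK)
    rw [Nat.cast_le]
    apply Finset.card_le_card
    intro l hl
    rw [Finset.mem_filter] at hl ⊢
    refine ⟨hl.1, ?_⟩
    have h1 := hm1 l hl.1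
    rw [hl.2] at h1
    have h2 : y l ≤ (2 : ℝ) ^ (-(j : ℝ)) := by
      rw [Real.rpow_neg (by norm_num), ← one_div, le_div_iff₀ (by positivity)]
      rw [le_div_iff₀ (hy0 l)] at h1
      linarith
    have h3 : y l < 2 * (2 : ℝ) ^ (-(j : ℝ)) := by
      have : 0 < (2 : ℝ) ^ (-(j : ℝ)) := by positivity
      linarith
    rw [hy] at h3
    simp only at h3
    rwa [div_lt_iff₀ hM] at h3
  have hsum2 : ∑ l ∈ Finset.range K, (y l) ^ (-β) ≤ C * K := by
    refine hsum1.trans ?_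
    rw [hfib]
    calc ∑ j ∈ (Finset.range K).image m, (((Finset.range K).filter (fun l => m l = j)).card : ℝ) *
          (2 : ℝ) ^ (β * ((j : ℝ) + 1))
        ≤ ∑ j ∈ (Finset.range K).image m, (2 ^ β * (c0 * 2 ^ (1 / (D : ℝ))) * K) * ρ ^ j := by
          apply Finset.sum_le_sum
          intro j _
          calc _ ≤ (c0 * (2 * (2 : ℝ) ^ (-(j : ℝ))) ^ (1 / (D : ℝ)) * K) * (2 : ℝ) ^ (β * ((j : ℝ) + 1)) := by
                gcongr
                exact hcard j
            _ = (2 ^ β * (c0 * 2 ^ (1 / (D : ℝ))) * K) * ρ ^ j := by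
                rw [Real.mul_rpow (by norm_num) (by positivity), ← Real.rpow_mul (by norm_num), mul_add, mul_one,
                  Real.rpow_add (by norm_num), hρ, ← Real.rpow_natCast, ← Real.rpow_mul (by norm_num)]
                have e2 : (2 : ℝ) ^ ((β - 1 / (D : ℝ)) * (j : ℝ)) =
                    (2 : ℝ) ^ (-(j : ℝ) * (1 / (D : ℝ))) * (2 : ℝ) ^ (β * (j : ℝ)) := by
                  rw [← Real.rpow_add (by norm_num)]
                  congr 1
                  ring
                rw [e2]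
                ring
      _ = (2 ^ β * (c0 * 2 ^ (1 / (D : ℝ))) * K) * ∑ j ∈ (Finset.range K).image m, ρ ^ j := by
          rw [Finset.mul_sum]
      _ ≤ (2 ^ β * (c0 * 2 ^ (1 / (D : ℝ))) * K) * (1 - ρ)⁻¹ := by
          gcongr
          rw [← tsum_geometric_of_lt_one hρ0.le hρ1]
          exact (summable_geometric_of_lt_one hρ0.le hρ1).sum_le_tsum _ (fun j _ => by positivity)
      _ ≤ C * K := by
          rw [hC]
          nlinarith
  have hfin : ∑ l ∈ Finset.range K, (M P (x + l * (h / K)) (h / K)) ^ (-β) =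
      (∑ l ∈ Finset.range K, (y l) ^ (-β)) * (M P x h) ^ (-β) := by
    rw [Finset.sum_mul]
    apply Finset.sum_congr rfl
    intro l _
    rw [hy]
    simp only
    rw [Real.div_rpow (hMl l).le hM.le, div_mul_cancel₀ _ (by positivity)]
  rw [hfin]
  gcongr

end Pool.Agent.N250.GAP
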