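import Pool.Agent.N250.GAP.Cnt

/-!
# The two-point inequality and the integrals of the multiplicity
-/

open Matrix Module Polynomial MeasureTheory Set
open scoped ENNReal

namespace Pool.Agent.N250.GAP

variable {r d : ℕ}

theorem cast_add (n m : Fin r → ℤ) : (fun j => (((n + m) j : ℤ) : ℝ)) = (fun j => (n j : ℝ)) + fun j => (m j : ℝ) := by
  ext j
  simp

theorem cast_sub' (n m : Fin r → ℤ) : (fun j => (((n - m) j : ℤ) : ℝ)) = (fun j => (n j : ℝ)) - fun j => (m j : ℝ) := by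
  ext j
  simp

/-- positions of the elements of `Ps` -/
theorem Ps_pos {N : Fin r → ℝ} {V A : Matrix (Fin d) (Fin r) ℝ} {δ κ t : ℝ} (hδ1 : δ ≤ 1)
    (hκ : 0 ≤ κ) (ht : |t| ≤ 1) {n : Fin r → ℤ} (hn : n ∈ Ps N V A δ κ t) :
    ‖A *ᵥ (fun j => (n j : ℝ))‖ ≤ 2 * κ := by
  obtain ⟨-, h2, h3⟩ := hn
  have e : A *ᵥ (fun j => (n j : ℝ)) = (A *ᵥ (fun j => (n j : ℝ)) + t • V *ᵥ (fun j => (n j : ℝ))) -
      t • V *ᵥ (fun j => (n j : ℝ)) := by
    rw [add_sub_cancel_right]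
  rw [e]
  refine (norm_sub_le _ _).trans ?_
  rw [norm_smul, Real.norm_eq_abs]
  have h4 : |t| * ‖V *ᵥ (fun j => (n j : ℝ))‖ ≤ 1 * κ := by gcongr
  have h5 : κ * δ ≤ κ * 1 := by gcongr
  linarith

theorem Ps_sub_Zs {N : Fin r → ℝ} (hN : ∀ j, 0 < N j) {V A : Matrix (Fin d) (Fin r) ℝ} {δ κ t : ℝ}
    (hδ1 : δ ≤ 1) (hκ : 0 ≤ κ) (ht : |t| ≤ 1) : Ps N V A δ κ t ⊆ Zs N V A (2 * κ) (2 * κ) (4 * κ) := by
  intro n hn
  have h4 := Ps_pos hδ1 hκ ht hn
  obtain ⟨h1, h2, h3⟩ := hn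
  refine ⟨fun j => (h1 j).trans ?_, h2.trans (by linarith), h4.trans (by linarith)⟩
  have := hN j
  gcongr
  linarith

/-- the multiplicity is at most the number of all the differences -/
theorem mt_le_X {N : Fin r → ℝ} (hN : ∀ j, 0 < N j) {V A : Matrix (Fin d) (Fin r) ℝ} {δ κ t : ℝ}
    (hδ1 : δ ≤ 1) (hκ : 0 ≤ κ) (ht : |t| ≤ 1) {X : ℝ} (hX : ((Zs N V A (2 * κ) (2 * κ) (4 * κ)).ncard : ℝ) ≤ X) :
    (mt N V A δ κ t : ℝ) ≤ X := by
  refine le_trans ?_ hX
  have := Set.ncard_le_ncard (Ps_sub_Zs (V := V) (A := A) hN hδ1 hκ ht) (Zs_finite _ _ _ _ _ _)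
  exact_mod_cast this

/-- **two points** -/
theorem two_pt {N : Fin r → ℝ} (hN : ∀ j, 0 < N j) {V A : Matrix (Fin d) (Fin r) ℝ} {δ : ℝ} (hδ : 0 < δ)
    (hδ1 : δ ≤ 1) (hs : SepBox N V A δ) {κ : ℝ} (hκ : 1 ≤ κ) {X : ℝ}
    (hX : ((Zs N V A (2 * κ) (2 * κ) (4 * κ)).ncard : ℝ) ≤ X) {t t' : ℝ} (ht : |t| ≤ 1) (ht' : |t'| ≤ 1)
    (hne : t ≠ t') :
    (mt N V A δ κ t : ℝ) * mt N V A δ κ t' ≤
      X * (((4 * κ + 3) ^ r * (8 * κ + 6) ^ d * (8 * κ + 3) ^ d) * (|t - t'| ^ d)⁻¹) := by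
  classical
  set ρ := |t - t'| with hρ
  have hρ0 : 0 < ρ := abs_pos.2 (sub_ne_zero.2 hne)
  have hρ2 : ρ ≤ 2 := by
    have := abs_sub t t'
    linarith
  have hκ0 : 0 ≤ κ := by linarith
  set P1 := (Ps_finite N V A δ κ t).toFinset with hP1
  set P2 := (Ps_finite N V A δ κ t').toFinset with hP2
  set Z := (Zs_finite N V A (2 * κ) (2 * κ) (4 * κ)).toFinset with hZ
  have c1 : P1.card = mt N V A δ κ t := by
    rw [mt, Set.ncard_eq_toFinset_card _ (Ps_finite N V A δ κ t)]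
  have c2 : P2.card = mt N V A δ κ t' := by
    rw [mt, Set.ncard_eq_toFinset_card _ (Ps_finite N V A δ κ t')]
  have c3 : (Z.card : ℝ) ≤ X := by
    rw [← Set.ncard_eq_toFinset_card _ (Zs_finite N V A (2 * κ) (2 * κ) (4 * κ))]
    exact hX
  set B : ℝ := (4 * κ + 3) ^ r * (8 * κ + 6) ^ d * (8 * κ + 3) ^ d * (ρ ^ d)⁻¹ with hB
  have hB0 : 0 ≤ B := by positivity
  have hmaps : ∀ p ∈ P1 ×ˢ P2, p.1 + p.2 ∈ Z := by
    rintro ⟨n, m⟩ hp
    rw [Finset.mem_product, hP1, hP2, Set.Finite.mem_toFinset, Set.Finite.mem_toFinset] at hp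
    obtain ⟨hn, hm⟩ := hp
    rw [hZ, Set.Finite.mem_toFinset]
    have hn4 := Ps_pos hδ1 hκ0 ht hn
    have hm4 := Ps_pos hδ1 hκ0 ht' hm
    obtain ⟨hn1, hn2, -⟩ := hn
    obtain ⟨hm1, hm2, -⟩ := hm
    refine ⟨fun j => ?_, ?_, ?_⟩
    · rw [Pi.add_apply, Int.cast_add]
      refine (abs_add_le _ _).trans ?_
      linarith [hn1 j, hm1 j]
    · rw [cast_add, mulVec_add]
      refine (norm_add_le _ _).trans (by linarith)
    · rw [cast_add, mulVec_add]
      refine (norm_add_le _ _).trans (by linarith)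
  have hfib : ∀ z ∈ Z, (((P1 ×ˢ P2).filter fun p => p.1 + p.2 = z).card : ℝ) ≤ B := by
    intro z _
    rcases ((P1 ×ˢ P2).filter fun p => p.1 + p.2 = z).eq_empty_or_nonempty with h0 | ⟨⟨n0, m0⟩, h0⟩
    · rw [h0, Finset.card_empty, Nat.cast_zero]
      exact hB0
    rw [Finset.mem_filter, Finset.mem_product, hP1, hP2, Set.Finite.mem_toFinset,
      Set.Finite.mem_toFinset] at h0
    obtain ⟨⟨hn0, hm0⟩, hz0⟩ := h0
    have h1 : (((P1 ×ˢ P2).filter fun p => p.1 + p.2 = z).image (fun p => p.1 - n0)).card =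
        ((P1 ×ˢ P2).filter fun p => p.1 + p.2 = z).card := by
      apply Finset.card_image_of_injOn
      rintro ⟨n, m⟩ hp ⟨n', m'⟩ hp' he
      rw [Finset.mem_coe, Finset.mem_filter] at hp hp'
      have e1 : n = n' := by simpa using he
      have e2 : m = m' := by
        have := hp.2.trans hp'.2.symm
        simp only [e1] at this
        simpa using this
      rw [e1, e2]
    rw [← h1]
    have h2 := Zs_card (κ := 2 * κ) (ρv := 4 * κ * δ / ρ) (ρa := 4 * κ) hN hδ hs (by positivity) (by positivity)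
      (by positivity) (((P1 ×ˢ P2).filter fun p => p.1 + p.2 = z).image (fun p => p.1 - n0)) (by
        intro w hw
        rw [Finset.mem_image] at hw
        obtain ⟨⟨n, m⟩, hp, rfl⟩ := hw
        rw [Finset.mem_filter, Finset.mem_product, hP1, hP2, Set.Finite.mem_toFinset,
          Set.Finite.mem_toFinset] at hp
        obtain ⟨⟨hn, hm⟩, hz⟩ := hp
        have hnn : n - n0 = m0 - m := by
          have : n + m = n0 + m0 := hz.trans hz0.symm
          rw [sub_eq_sub_iff_add_eq_add, this, add_comm]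
        have hn4 := Ps_pos hδ1 hκ0 ht hn
        have hn04 := Ps_pos hδ1 hκ0 ht hn0
        obtain ⟨a1, a2, a3⟩ := hn
        obtain ⟨b1, b2, b3⟩ := hn0
        obtain ⟨-, -, a3'⟩ := hm
        obtain ⟨-, -, b3'⟩ := hm0
        refine ⟨fun j => ?_, ?_, ?_⟩
        · show |(((n - n0) j : ℤ) : ℝ)| ≤ _
          rw [Pi.sub_apply, Int.cast_sub]
          refine (abs_sub _ _).trans ?_
          linarith [a1 j, b1 j]
        · show ‖V *ᵥ (fun j => (((n - n0) j : ℤ) : ℝ))‖ ≤ _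
          set w : Fin r → ℝ := fun j => (((n - n0) j : ℤ) : ℝ) with hw
          have g1 : ‖A *ᵥ w + t • V *ᵥ w‖ ≤ 2 * κ * δ := by
            have : A *ᵥ w + t • V *ᵥ w = (A *ᵥ (fun j => (n j : ℝ)) + t • V *ᵥ (fun j => (n j : ℝ))) -
                (A *ᵥ (fun j => (n0 j : ℝ)) + t • V *ᵥ (fun j => (n0 j : ℝ))) := by
              rw [hw, cast_sub', mulVec_sub, mulVec_sub, smul_sub]
              abel
            rw [this]
            refine (norm_sub_le _ _).trans (by linarith)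
          have g2 : ‖A *ᵥ w + t' • V *ᵥ w‖ ≤ 2 * κ * δ := by
            have : A *ᵥ w + t' • V *ᵥ w = (A *ᵥ (fun j => (m0 j : ℝ)) + t' • V *ᵥ (fun j => (m0 j : ℝ))) -
                (A *ᵥ (fun j => (m j : ℝ)) + t' • V *ᵥ (fun j => (m j : ℝ))) := by
              rw [hw, hnn, cast_sub', mulVec_sub, mulVec_sub, smul_sub]
              abel
            rw [this]
            refine (norm_sub_le _ _).trans (by linarith)
          have g3 : (t - t') • V *ᵥ w = (A *ᵥ w + t • V *ᵥ w) - (A *ᵥ w + t' • V *ᵥ w) := by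
            rw [sub_smul]
            abel
          have g4 : ρ * ‖V *ᵥ w‖ ≤ 4 * κ * δ := by
            have : ρ * ‖V *ᵥ w‖ = ‖(t - t') • V *ᵥ w‖ := by rw [norm_smul, Real.norm_eq_abs]
            rw [this, g3]
            refine (norm_sub_le _ _).trans (by linarith)
          rw [le_div_iff₀ hρ0, mul_comm]
          exact g4
        · show ‖A *ᵥ (fun j => (((n - n0) j : ℤ) : ℝ))‖ ≤ _
          rw [cast_sub', mulVec_sub]
          refine (norm_sub_le _ _).trans (by linarith))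
    refine h2.trans ?_
    have e1 : 4 * κ * δ / ρ / δ = 4 * κ / ρ := by
      field_simp
    have e2 : 2 * (4 * κ * δ / ρ / δ) + 3 ≤ (8 * κ + 6) / ρ := by
      rw [e1, le_div_iff₀ hρ0]
      have : 4 * κ / ρ * ρ = 4 * κ := by field_simp
      nlinarith
    have e3 : 2 * (2 * κ) + 3 = 4 * κ + 3 := by ring
    have e4 : 2 * (4 * κ) + 3 = 8 * κ + 3 := by ring
    have e5 : 0 ≤ 2 * (4 * κ * δ / ρ / δ) + 3 := by positivity
    rw [e3, e4]
    calc (4 * κ + 3) ^ r * (2 * (4 * κ * δ / ρ / δ) + 3) ^ d * (8 * κ + 3) ^ d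
        ≤ (4 * κ + 3) ^ r * ((8 * κ + 6) / ρ) ^ d * (8 * κ + 3) ^ d := by gcongr
      _ = B := by
          rw [hB, div_pow]
          field_simp
  have h3 : ((P1 ×ˢ P2).card : ℝ) ≤ Z.card * B := by
    rw [Finset.card_eq_sum_card_fiberwise (f := fun p : (Fin r → ℤ) × (Fin r → ℤ) => p.1 + p.2) (t := Z)
      (fun p hp => hmaps p hp)]
    push_cast
    calc ∑ z ∈ Z, (((P1 ×ˢ P2).filter fun p => p.1 + p.2 = z).card : ℝ) ≤ ∑ _z ∈ Z, B :=
          Finset.sum_le_sum hfib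
      _ = Z.card * B := by rw [Finset.sum_const, nsmul_eq_mul]
  rw [Finset.card_product, Nat.cast_mul, c1, c2] at h3
  refine h3.trans ?_
  gcongr

end Pool.Agent.N250.GAP
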