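import Pool.Agent.N250.GAP.TubeL
import Pool.Agent.N3.ST.J

/-!
# Rounding at scale `δ`, and the tube inequality without loss for families of bounded doubling at
scale `δ`
-/

set_option autoImplicit false

open MeasureTheory Set ENNReal NNReal Metric
open scoped Pointwise

namespace Pool.Agent.N250.GAP

open Pool.Agent.H810R3.Tub (Space tube dir dir_sub_le tube_eq tube_closed)
open Pool.Agent.N3.ST.J (rd rd_close Lat lat_rd lat_add lat_pairs pack)

variable {d : ℕ}

/-- rounding: a family of bounded doubling at scale `δ` lies near a set of lines of bounded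
doubling -/
theorem round_core (hd : 1 ≤ d) {K S : ℝ} (hK : 1 ≤ K) (hS : 0 ≤ S) : ∃ K' : ℝ, 1 ≤ K' ∧
    ∀ (δ : ℝ), 0 < δ → ∀ (ι : Type) [Fintype ι] (v c : ι → Vec d) (h : ι → ℝ),
    (∀ i, |h i| ≤ S) → (∀ i j, i ≠ j → δ ≤ ‖dir (v i) - dir (v j)‖) →
    (∃ Z : Finset (Vec d × Vec d), (Z.card : ℝ) ≤ K * Fintype.card ι ∧ ∀ i j, ∃ z ∈ Z,
      ‖v i + v j - z.1‖ ≤ δ ∧ ‖(c i - h i • v i) + (c j - h j • v j) - z.2‖ ≤ δ) →
    ∃ A : Finset (Vec d × Vec d), ((A + A).card : ℝ) ≤ K' * (A.card : ℝ) ∧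
      (∀ F : Finset (Vec d × Vec d), F ⊆ A → (∃ v₀ : Vec d, ∀ p ∈ F, ‖p.1 - v₀‖ ≤ δ) →
        (F.card : ℝ) ≤ K') ∧
      ∀ i, ∃ p ∈ A, ‖v i - p.1‖ ≤ K' * δ ∧ ‖c i - (p.2 + h i • p.1)‖ ≤ K' * δ := by
  classical
  set M' : ℝ := (6 * √(d : ℝ) + 1) ^ d * (6 * √(d : ℝ) + 1) ^ d with hM'
  set K' : ℝ := max (max (M' * K * 3 ^ d) (5 ^ d)) (1 + S) with hK'
  have hK'1 : 1 ≤ K' := le_trans (by linarith) (le_max_right _ _)
  refine ⟨K', hK'1, ?_⟩
  intro δ hδ ι _ v c h hh hsep hZ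
  obtain ⟨Z, hZK, hZ2⟩ := hZ
  set ρ : ℝ := δ / √(d : ℝ) with hρ
  set β : ι → Vec d := fun i => c i - h i • v i with hβ
  set R : ι → Vec d × Vec d := fun i => (rd ρ (v i), rd ρ (β i)) with hR
  set A : Finset (Vec d × Vec d) := Finset.univ.image R with hA
  have hsep' : ∀ i j, i ≠ j → δ ≤ ‖v i - v j‖ := fun i j hij => (hsep i j hij).trans (dir_sub_le _ _)
  have hR1 : ∀ i, ‖v i - (R i).1‖ ≤ δ := fun i => rd_close hd hδ _
  have hR2 : ∀ i, ‖β i - (R i).2‖ ≤ δ := fun i => rd_close hd hδ _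
  -- a packing lemma for slopes
  have hslope : ∀ (T : Finset ι) (v₀ : Vec d) (r : ℝ), 0 ≤ r → (∀ i ∈ T, ‖v i - v₀‖ ≤ r * δ) →
      (T.card : ℝ) ≤ (2 * r + 1) ^ d := by
    intro T v₀ r hr hT'
    have hinj : Set.InjOn v T := by
      intro i _ j _ hij
      by_contra hne
      have := hsep' i j hne
      rw [hij, sub_self, norm_zero] at this
      linarith
    rw [← Finset.card_image_of_injOn hinj]
    refine pack _ v₀ δ r hδ hr ?_ ?_
    · intro x hx y hy hxy
      obtain ⟨i, _, rfl⟩ := Finset.mem_image.1 hx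
      obtain ⟨j, _, rfl⟩ := Finset.mem_image.1 hy
      exact hsep' i j fun hij => hxy (by rw [hij])
    · intro x hx
      obtain ⟨i, hi, rfl⟩ := Finset.mem_image.1 hx
      exact hT' i hi
  -- (a)
  have ha : (Fintype.card ι : ℝ) ≤ 3 ^ d * A.card := by
    have h1 : (Finset.univ : Finset ι).card ≤ 3 ^ d * A.card := by
      refine Finset.card_le_mul_card_image _ _ fun p _ => ?_
      have h2 : (((Finset.univ : Finset ι).filter fun i => R i = p).card : ℝ) ≤ (2 * 1 + 1) ^ d := by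
        refine hslope _ p.1 1 zero_le_one fun i hi => ?_
        have hi' : R i = p := (Finset.mem_filter.1 hi).2
        rw [← hi', one_mul]
        exact hR1 i
      have h3 : (((Finset.univ : Finset ι).filter fun i => R i = p).card : ℝ) ≤
          ((3 ^ d : ℕ) : ℝ) := by
        refine h2.trans (le_of_eq ?_)
        push_cast
        norm_num
      exact_mod_cast h3
    rw [Finset.card_univ] at h1
    exact_mod_cast h1
  -- (b)
  have hb : ((A + A).card : ℝ) ≤ M' * Z.card := by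
    have hex : ∀ a ∈ A + A, ∃ z ∈ Z, ‖a.1 - z.1‖ ≤ 3 * δ ∧ ‖a.2 - z.2‖ ≤ 3 * δ := by
      intro a ha'
      obtain ⟨p, hp, q, hq, rfl⟩ := Finset.mem_add.1 ha'
      obtain ⟨i, _, rfl⟩ := Finset.mem_image.1 hp
      obtain ⟨j, _, rfl⟩ := Finset.mem_image.1 hq
      obtain ⟨z, hz, h1, h2⟩ := hZ2 i j
      refine ⟨z, hz, ?_, ?_⟩
      · have e : (R i + R j).1 - z.1 = (v i + v j - z.1) - (v i - (R i).1) - (v j - (R j).1) := by
          rw [Prod.fst_add]; abel
        rw [e]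
        have := norm_sub_le (v i + v j - z.1 - (v i - (R i).1)) (v j - (R j).1)
        have := norm_sub_le (v i + v j - z.1) (v i - (R i).1)
        linarith [hR1 i, hR1 j]
      · have e : (R i + R j).2 - z.2 = (β i + β j - z.2) - (β i - (R i).2) - (β j - (R j).2) := by
          rw [Prod.snd_add]; abel
        rw [e]
        have := norm_sub_le (β i + β j - z.2 - (β i - (R i).2)) (β j - (R j).2)
        have := norm_sub_le (β i + β j - z.2) (β i - (R i).2)
        linarith [hR2 i, hR2 j]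
    have hlat : ∀ a ∈ A + A, Lat ρ a.1 ∧ Lat ρ a.2 := by
      intro a ha'
      obtain ⟨p, hp, q, hq, rfl⟩ := Finset.mem_add.1 ha'
      obtain ⟨i, _, rfl⟩ := Finset.mem_image.1 hp
      obtain ⟨j, _, rfl⟩ := Finset.mem_image.1 hq
      exact ⟨lat_add (lat_rd _ _) (lat_rd _ _), lat_add (lat_rd _ _) (lat_rd _ _)⟩
    have hcov : A + A ⊆ Z.biUnion fun z => (A + A).filter fun a =>
        ‖a.1 - z.1‖ ≤ 3 * δ ∧ ‖a.2 - z.2‖ ≤ 3 * δ := by
      intro a ha'
      obtain ⟨z, hz, h1⟩ := hex a ha'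
      exact Finset.mem_biUnion.2 ⟨z, hz, Finset.mem_filter.2 ⟨ha', h1⟩⟩
    calc ((A + A).card : ℝ) ≤ ((Z.biUnion fun z => (A + A).filter fun a =>
        ‖a.1 - z.1‖ ≤ 3 * δ ∧ ‖a.2 - z.2‖ ≤ 3 * δ).card : ℝ) := by
          exact_mod_cast Finset.card_le_card hcov
      _ ≤ ∑ z ∈ Z, (((A + A).filter fun a =>
        ‖a.1 - z.1‖ ≤ 3 * δ ∧ ‖a.2 - z.2‖ ≤ 3 * δ).card : ℝ) := by
          exact_mod_cast Finset.card_biUnion_le
      _ ≤ ∑ _z ∈ Z, M' := by
          refine Finset.sum_le_sum fun z _ => ?_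
          refine lat_pairs hd hδ _ (fun p hp => ?_) z fun p hp => ?_
          · exact hlat p (Finset.mem_filter.1 hp).1
          · exact (Finset.mem_filter.1 hp).2
      _ = M' * Z.card := by rw [Finset.sum_const, nsmul_eq_mul]; ring
  have hM'0 : 0 ≤ M' := by positivity
  have hAA : ((A + A).card : ℝ) ≤ K' * (A.card : ℝ) := by
    calc ((A + A).card : ℝ) ≤ M' * Z.card := hb
      _ ≤ M' * (K * Fintype.card ι) := mul_le_mul_of_nonneg_left hZK hM'0
      _ ≤ M' * (K * (3 ^ d * A.card)) :=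
          mul_le_mul_of_nonneg_left (mul_le_mul_of_nonneg_left ha (by linarith)) hM'0
      _ = (M' * K * 3 ^ d) * A.card := by ring
      _ ≤ K' * A.card := mul_le_mul_of_nonneg_right
          ((le_max_left _ _).trans (le_max_left _ _)) (Nat.cast_nonneg _)
  refine ⟨A, hAA, ?_, ?_⟩
  · intro F hF hv0
    obtain ⟨v₀, hv0⟩ := hv0
    have hch : ∀ p : Vec d × Vec d, p ∈ F → ∃ i, R i = p := by
      intro p hp
      obtain ⟨i, _, hi⟩ := Finset.mem_image.1 (hF hp)
      exact ⟨i, hi⟩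
    rcases F.eq_empty_or_nonempty with rfl | hne
    · simp only [Finset.card_empty, Nat.cast_zero]
      linarith
    · obtain ⟨p0, hp0⟩ := hne
      obtain ⟨i0, hi0⟩ := hch p0 hp0
      let g : Vec d × Vec d → ι := fun p => if hp : p ∈ F then (hch p hp).choose else i0
      have hg : ∀ p ∈ F, R (g p) = p := by
        intro p hp
        simp only [g, dif_pos hp]
        exact (hch p hp).choose_spec
      have hginj : Set.InjOn g F := by
        intro p hp q hq hpq
        rw [← hg p hp, ← hg q hq, hpq]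
      have h5 : ((F.image g).card : ℝ) ≤ (2 * 2 + 1) ^ d := by
        refine hslope _ v₀ 2 zero_le_two fun i hi => ?_
        obtain ⟨p, hp, rfl⟩ := Finset.mem_image.1 hi
        have e : v (g p) - v₀ = (v (g p) - (R (g p)).1) + (p.1 - v₀) := by
          rw [hg p hp]; abel
        rw [e]
        have := norm_add_le (v (g p) - (R (g p)).1) (p.1 - v₀)
        linarith [hR1 (g p), hv0 p hp]
      rw [Finset.card_image_of_injOn hginj] at h5
      refine h5.trans (le_trans (le_of_eq ?_) ((le_max_right _ _).trans (le_max_left _ _)))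
      norm_num
  · intro i
    refine ⟨R i, Finset.mem_image_of_mem _ (Finset.mem_univ _), ?_, ?_⟩
    · exact (hR1 i).trans (by nlinarith)
    · have e : c i - ((R i).2 + h i • (R i).1) = (β i - (R i).2) +
          h i • (v i - (R i).1) := by
        simp only [hβ, smul_sub]; abel
      rw [e]
      have h1 : ‖h i • (v i - (R i).1)‖ ≤ S * δ := by
        rw [norm_smul, Real.norm_eq_abs]
        exact mul_le_mul (hh i) (hR1 i) (norm_nonneg _) (by linarith)
      have h2 := norm_add_le (β i - (R i).2) (h i • (v i - (R i).1))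
      have h3 : (1 + S) * δ ≤ K' * δ := mul_le_mul_of_nonneg_right (le_max_right _ _) hδ.le
      linarith [hR2 i]

/-- **The Kakeya inequality without loss for families of bounded doubling at scale `δ`**, all
exponents `q > (d + 1) / d`, all subfamilies. -/
theorem roundL (hd : 1 ≤ d) {K S : ℝ} (hK : 1 ≤ K) (hS : 0 ≤ S) {q : ℝ}
    (hq : ((d : ℝ) + 1) / d < q) :
    ∃ C : ℝ, 0 < C ∧ ∀ (δ : ℝ), 0 < δ → δ < 1 → ∀ (ι : Type) [Fintype ι] (v c : ι → Vec d)
    (h : ι → ℝ), (∀ i, ‖v i‖ ≤ 1) → (∀ i, |h i| ≤ S) →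
    (∀ i j, i ≠ j → δ ≤ ‖dir (v i) - dir (v j)‖) →
    (∃ Z : Finset (Vec d × Vec d), (Z.card : ℝ) ≤ K * Fintype.card ι ∧ ∀ i j, ∃ z ∈ Z,
      ‖v i + v j - z.1‖ ≤ δ ∧ ‖(c i - h i • v i) + (c j - h j • v j) - z.2‖ ≤ δ) →
    ∀ J : Finset ι, eLpNorm (fun y => ∑ i ∈ J, (tube δ (dir (v i)) (WithLp.toLp 2 (c i, h i))).indicator
      (fun _ => (1 : ℝ)) y) (ENNReal.ofReal q) volume ≤
      ENNReal.ofReal (C * δ ^ ((d : ℝ) / q) * (J.card : ℝ) ^ (1 - 1 / (q * d))) := by
  classical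
  obtain ⟨K', hK'1, hcore⟩ := round_core (d := d) hd hK hS
  obtain ⟨C, hC, hmain⟩ := tubeL (d := d) hd hK'1 hq
  refine ⟨C, hC, ?_⟩
  intro δ hδ hδ1 ι _ v c h hv hh hsep hZ J
  obtain ⟨A, hAA, hsl, hnear⟩ := hcore δ hδ ι v c h hh hsep hZ
  have h1 := hmain δ hδ hδ1 A hAA hsl {i // i ∈ J} (fun i => v i) (fun i => c i)
    (fun i => h i) (fun i => hv i) (fun i j hij => hsep i j fun he => hij (Subtype.ext he))
    (fun i => hnear i)
  have htsum : (fun y => ∑ i ∈ J, (tube δ (dir (v i)) (WithLp.toLp 2 (c i, h i))).indicator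
      (fun _ => (1 : ℝ)) y) = N3.ST.tsum δ (fun i : {i // i ∈ J} => v i) (fun i => c i)
        (fun i => h i) := by
    funext y
    unfold N3.ST.tsum
    exact (Finset.sum_coe_sort J fun i =>
      (tube δ (dir (v i)) (WithLp.toLp 2 (c i, h i))).indicator (fun _ => (1 : ℝ)) y).symm
  rw [htsum]
  rw [Fintype.card_coe] at h1
  exact h1

end Pool.Agent.N250.GAP
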