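import Pool.Agent.N250.GAP.Int

/-!
# Separated families in progressions; measurability; windows
-/

open MeasureTheory Set Matrix
open scoped ENNReal

namespace Pool.Agent.N250.GAP

/-- A family of positive density in a box, with separated slopes: no small multiple of the box
contains a vector with a very small slope. -/
theorem sep_family {ι : Type*} [Fintype ι] [Nonempty ι] {r d : ℕ} {N : Fin r → ℕ} {k : ι → Fin r → ℤ}
    (hk : ∀ i j, 0 ≤ k i j ∧ k i j < N j) {V : Matrix (Fin d) (Fin r) ℝ} {δ : ℝ}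
    (hsep : ∀ i j, i ≠ j → δ ≤ ‖V *ᵥ (fun l => (((k j - k i) l : ℤ) : ℝ))‖) {K : ℝ}
    (hcard : ((∏ j, N j : ℕ) : ℝ) ≤ K * Fintype.card ι) {M : ℕ} (hM : 4 ^ r * K < M) (hM0 : 0 < M)
    (n : Fin r → ℤ) (hn : n ≠ 0) (hnN : ∀ j, |(n j : ℝ)| ≤ N j / M) :
    δ / M ≤ ‖V *ᵥ (fun l => (n l : ℝ))‖ := by
  classical
  by_contra hcon
  push Not at hcon
  have hMr : (0 : ℝ) < M := by exact_mod_cast hM0
  have hN1 : ∀ j, 1 ≤ N j := by
    intro j
    obtain ⟨i⟩ := (inferInstance : Nonempty ι)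
    have := hk i j
    omega
  set B : Finset (Fin r → ℤ) := Fintype.piFinset fun j => Finset.Icc (-(N j : ℤ)) (2 * N j) with hB
  have hBc : B.card ≤ 4 ^ r * ∏ j, N j := by
    rw [hB, Fintype.card_piFinset]
    calc ∏ j, (Finset.Icc (-(N j : ℤ)) (2 * N j)).card ≤ ∏ j, 4 * N j := by
          apply Finset.prod_le_prod'
          intro j _
          rw [Int.card_Icc]
          have := hN1 j
          omega
      _ = 4 ^ r * ∏ j, N j := by
          rw [Finset.prod_mul_distrib, Finset.prod_const, Finset.card_univ, Fintype.card_fin]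
  have hinj : Function.Injective (fun p : ι × Fin M => k p.1 + ((p.2 : ℕ) : ℤ) • n) := by
    rintro ⟨i, l⟩ ⟨i', l'⟩ h
    simp only at h
    by_cases hii : i = i'
    · subst hii
      have h1 : ((l : ℕ) : ℤ) • n = ((l' : ℕ) : ℤ) • n := by simpa using h
      obtain ⟨j, hj⟩ : ∃ j, n j ≠ 0 := by
        by_contra hc
        push Not at hc
        exact hn (funext hc)
      have h2 := congrFun h1 j
      simp only [Pi.smul_apply, smul_eq_mul] at h2
      have h3 : ((l : ℕ) : ℤ) = ((l' : ℕ) : ℤ) := mul_right_cancel₀ hj h2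
      have h4 : (l : ℕ) = l' := by exact_mod_cast h3
      rw [Fin.ext h4]
    · exfalso
      have h1 : k i' - k i = (((l : ℕ) : ℤ) - ((l' : ℕ) : ℤ)) • n := by
        rw [sub_smul]
        have : k i + ((l : ℕ) : ℤ) • n = k i' + ((l' : ℕ) : ℤ) • n := h
        rw [sub_eq_sub_iff_add_eq_add, ← this, add_comm]
      have h2 := hsep i i' hii
      have h3 : (fun j => (((k i' - k i) j : ℤ) : ℝ)) = (((l : ℕ) : ℝ) - ((l' : ℕ) : ℝ)) • fun j => (n j : ℝ) := by
        rw [h1]
        ext j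
        simp
      rw [h3, mulVec_smul, norm_smul, Real.norm_eq_abs] at h2
      have h4 : |((l : ℕ) : ℝ) - ((l' : ℕ) : ℝ)| ≤ M := by
        have e1 : ((l : ℕ) : ℝ) ≤ M := by exact_mod_cast l.2.le
        have e2 : ((l' : ℕ) : ℝ) ≤ M := by exact_mod_cast l'.2.le
        have e3 : (0 : ℝ) ≤ ((l : ℕ) : ℝ) := Nat.cast_nonneg _
        have e4 : (0 : ℝ) ≤ ((l' : ℕ) : ℝ) := Nat.cast_nonneg _
        rw [abs_le]
        constructor <;> linarith
      have h5 : |((l : ℕ) : ℝ) - ((l' : ℕ) : ℝ)| * ‖V *ᵥ fun j => (n j : ℝ)‖ ≤ M * ‖V *ᵥ fun j => (n j : ℝ)‖ := by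
        gcongr
      rw [lt_div_iff₀ hMr] at hcon
      linarith
  have hmap : ∀ p ∈ (Finset.univ : Finset (ι × Fin M)), k p.1 + ((p.2 : ℕ) : ℤ) • n ∈ B := by
    rintro ⟨i, l⟩ _
    rw [hB, Fintype.mem_piFinset]
    intro j
    rw [Finset.mem_Icc]
    have h1 := hk i j
    have h2 : |((l : ℕ) : ℝ) * n j| ≤ N j := by
      rw [abs_mul, abs_of_nonneg (Nat.cast_nonneg _)]
      calc ((l : ℕ) : ℝ) * |(n j : ℝ)| ≤ M * (N j / M) := by
            have : ((l : ℕ) : ℝ) ≤ M := by exact_mod_cast l.2.le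
            have := hnN j
            gcongr
        _ = N j := by field_simp
    have h3 := abs_le.1 h2
    have h4 : -(N j : ℤ) ≤ ((l : ℕ) : ℤ) * n j := by exact_mod_cast h3.1
    have h5 : ((l : ℕ) : ℤ) * n j ≤ (N j : ℤ) := by exact_mod_cast h3.2
    simp only [Pi.add_apply, Pi.smul_apply, smul_eq_mul]
    constructor <;> linarith [h1.1, h1.2]
  have h1 := Finset.card_le_card_of_injOn _ hmap hinj.injOn
  rw [Finset.card_univ, Fintype.card_prod, Fintype.card_fin] at h1
  have h2 : ((Fintype.card ι * M : ℕ) : ℝ) ≤ 4 ^ r * (K * Fintype.card ι) := by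
    calc ((Fintype.card ι * M : ℕ) : ℝ) ≤ ((4 ^ r * ∏ j, N j : ℕ) : ℝ) := by exact_mod_cast h1.trans hBc
      _ = 4 ^ r * ((∏ j, N j : ℕ) : ℝ) := by push_cast; ring
      _ ≤ _ := by gcongr
  have hc0 : (0 : ℝ) < Fintype.card ι := by exact_mod_cast Fintype.card_pos
  push_cast at h2
  nlinarith

/-- the number of the differences -/
theorem Zs_box {r d : ℕ} {N : Fin r → ℕ} (hN1 : ∀ j, 1 ≤ N j) {N' : Fin r → ℝ} {κ : ℝ} (hκ : 0 ≤ κ)
    (hN' : ∀ j, N' j ≤ N j)
    (V A : Matrix (Fin d) (Fin r) ℝ) (ρv ρa : ℝ) :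
    ((Zs N' V A κ ρv ρa).ncard : ℝ) ≤ (2 * κ + 1) ^ r * ((∏ j, N j : ℕ) : ℝ) := by
  classical
  set B : Finset (Fin r → ℤ) := Fintype.piFinset fun j => Finset.Icc (-(⌊κ * N j⌋₊ : ℤ)) (⌊κ * N j⌋₊) with hB
  have hsub : Zs N' V A κ ρv ρa ⊆ (B : Set (Fin r → ℤ)) := by
    rintro n ⟨h, -, -⟩
    rw [Finset.mem_coe, hB, Fintype.mem_piFinset]
    intro j
    have h1 := h j
    have h2 : κ * N' j ≤ κ * N j := mul_le_mul_of_nonneg_left (hN' j) hκ
    have h3 : ((n j).natAbs : ℝ) ≤ κ * N j := by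
      have : ((n j).natAbs : ℝ) = |(n j : ℝ)| := by
        rw [Nat.cast_natAbs, Int.cast_abs]
      rw [this]
      linarith
    have h4 : (n j).natAbs ≤ ⌊κ * N j⌋₊ := Nat.le_floor h3
    rw [Finset.mem_Icc]
    constructor <;> omega
  have h1 := Set.ncard_le_ncard hsub (Finset.finite_toSet _)
  rw [Set.ncard_coe_finset] at h1
  calc ((Zs N' V A κ ρv ρa).ncard : ℝ) ≤ B.card := by exact_mod_cast h1
    _ = ∏ j, ((Finset.Icc (-(⌊κ * N j⌋₊ : ℤ)) (⌊κ * N j⌋₊)).card : ℝ) := by
        rw [hB, Fintype.card_piFinset]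
        push_cast
        rfl
    _ ≤ ∏ j, ((2 * κ + 1) * (N j : ℝ)) := by
        apply Finset.prod_le_prod
        · intro j _
          positivity
        · intro j _
          rw [Int.card_Icc]
          have e : ((⌊κ * N j⌋₊ : ℤ) + 1 - -(⌊κ * N j⌋₊ : ℤ)).toNat = 2 * ⌊κ * N j⌋₊ + 1 := by omega
          rw [e]
          push_cast
          have h2 : (⌊κ * N j⌋₊ : ℝ) ≤ κ * N j := Nat.floor_le (by positivity)
          have h3 : (1 : ℝ) ≤ N j := by exact_mod_cast hN1 j
          linarith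
    _ = _ := by
        rw [Finset.prod_mul_distrib, Finset.prod_const, Finset.card_univ, Fintype.card_fin]
        push_cast
        rfl

/-- measurability of the multiplicity -/
theorem mt_meas {r d : ℕ} (N : Fin r → ℝ) (V A : Matrix (Fin d) (Fin r) ℝ) (δ κ : ℝ) :
    Measurable (fun t => (mt N V A δ κ t : ℝ)) := by
  classical
  set Z := (box_finite (fun j => κ * N j)).toFinset with hZ
  have e : (fun t => (mt N V A δ κ t : ℝ)) = fun t => ∑ n ∈ Z, ({t | n ∈ Ps N V A δ κ t} : Set ℝ).indicator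
      (fun _ => (1 : ℝ)) t := by
    funext t
    have h1 : ∀ n, ({t | n ∈ Ps N V A δ κ t} : Set ℝ).indicator (fun _ => (1 : ℝ)) t =
        if n ∈ Ps N V A δ κ t then 1 else 0 := by
      intro n
      rw [Set.indicator_apply]
      rfl
    simp only [h1]
    rw [Finset.sum_boole]
    unfold mt
    have : Ps N V A δ κ t = ((Z.filter fun n => n ∈ Ps N V A δ κ t : Finset _) : Set (Fin r → ℤ)) := by
      ext n
      rw [Finset.coe_filter, Set.mem_ofPred_eq, hZ, Set.Finite.mem_toFinset]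
      exact ⟨fun h => ⟨h.1, h⟩, fun h => h.2⟩
    conv_lhs => rw [this, Set.ncard_coe_finset]
  rw [e]
  apply Finset.measurable_fun_sum
  intro n _
  apply measurable_const.indicator
  have : IsClosed {t : ℝ | n ∈ Ps N V A δ κ t} := by
    have e1 : {t : ℝ | n ∈ Ps N V A δ κ t} = {t | (∀ j, |(n j : ℝ)| ≤ κ * N j)} ∩
        ({t | ‖V *ᵥ (fun j => (n j : ℝ))‖ ≤ κ} ∩
        {t | ‖A *ᵥ (fun j => (n j : ℝ)) + t • V *ᵥ (fun j => (n j : ℝ))‖ ≤ κ * δ}) := by
      ext t
      rfl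
    rw [e1]
    refine isClosed_const.inter (isClosed_const.inter ?_)
    apply isClosed_le _ continuous_const
    exact (continuous_const.add (continuous_id.smul continuous_const)).norm
  exact this.measurableSet

/-- affine change of the height -/
theorem window {H : ℝ} (hH : 0 < H) (s : ℝ) (g : ℝ → ℝ≥0∞) (hg : Measurable g) :
    ∫⁻ t in Icc (s - H) (s + H), g ((t - s) / H) = ENNReal.ofReal H * ∫⁻ τ in Icc (-1 : ℝ) 1, g τ := by
  rw [← lintegral_indicator measurableSet_Icc, ← lintegral_indicator measurableSet_Icc]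
  set F : ℝ → ℝ≥0∞ := (Icc (-1 : ℝ) 1).indicator g with hF
  have hFm : Measurable F := hg.indicator measurableSet_Icc
  have e1 : (Icc (s - H) (s + H)).indicator (fun t => g ((t - s) / H)) = fun t => F (H⁻¹ • (t - s)) := by
    funext t
    have h1 : H⁻¹ • (t - s) = (t - s) / H := by
      rw [smul_eq_mul]
      ring
    rw [h1, hF]
    by_cases h : t ∈ Icc (s - H) (s + H)
    · rw [indicator_of_mem h, indicator_of_mem]
      constructor
      · rw [le_div_iff₀ hH]
        linarith [h.1]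
      · rw [div_le_iff₀ hH]
        linarith [h.2]
    · rw [indicator_of_notMem h, indicator_of_notMem]
      rintro ⟨h2, h3⟩
      apply h
      rw [le_div_iff₀ hH] at h2
      rw [div_le_iff₀ hH] at h3
      constructor <;> linarith
  rw [e1, lintegral_sub_right_eq_self (fun t => F (H⁻¹ • t)) s]
  have h1 : ∫⁻ x : ℝ, F (H⁻¹ • x) = ∫⁻ x, F x ∂(Measure.map (fun x : ℝ => H⁻¹ • x) volume) := by
    rw [lintegral_map hFm (measurable_const_smul _)]
  rw [h1, Measure.map_addHaar_smul _ (inv_ne_zero hH.ne'), lintegral_smul_measure, Module.finrank_self, pow_one,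
    inv_inv, abs_of_pos hH]
  rfl

end Pool.Agent.N250.GAP
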