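import Pool.Agent.N250.GAP.Abs

/-!
# Nondivergence without a loss: stopping times on a dyadic tree
-/

open MeasureTheory Set Polynomial
open scoped ENNReal

namespace Pool.Agent.N250.GAP

section

variable {S : Type} [Lattice S] {r D : ℕ} {rk : S → ℕ} {P : S → ℝ[X]} {β ε : ℝ}

theorem M_pos' (hS : Sys S r D rk P) (a : S) (x : ℝ) {h : ℝ} (hh : 0 < h) : 0 < M (P a) x h := by
  have := le_M (P := P a) (x := x) (h := h) (t := x) ⟨le_rfl, by linarith⟩
  rw [abs_of_pos (hS.pos a x)] at this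
  exact (hS.pos a x).trans_le this

theorem wt_pos (hS : Sys S r D rk P) (hε : 0 < ε) (a : S) (x : ℝ) {h : ℝ} (hh : 0 < h) :
    0 < wt r β ε rk P a x h := by
  have := M_pos' hS a x hh
  unfold wt
  positivity

theorem wt_sub (hS : Sys S r D rk P) (hβ : 0 < β) (hε : 0 < ε) (a : S) {x h x' h' : ℝ} (hh' : 0 < h')
    (h1 : x ≤ x') (h2 : x' + h' ≤ x + h) : wt r β ε rk P a x h ≤ wt r β ε rk P a x' h' := by
  unfold wt
  have h3 := M_pos' hS a x' hh'
  apply mul_le_mul_of_nonneg_left _ (by positivity)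
  exact Real.rpow_le_rpow_of_nonpos h3 (M_mono hh'.le h1 h2) (by linarith)

theorem wt_half (hD : 1 ≤ D) (hS : Sys S r D rk P) (hβ : 0 < β) (hε : 0 < ε) (a : S) {x h x' : ℝ}
    (hh : 0 < h) (hx : x' = x ∨ x' = x + h / 2) :
    wt r β ε rk P a x' (h / 2) ≤ (QK D 2) ^ β * wt r β ε rk P a x h := by
  have hQ := QK_ge (K := 2) hD (by norm_num)
  have hQ0 : 0 < QK D 2 := by linarith
  have h1 : M (P a) x h ≤ QK D 2 * M (P a) x' (h / 2) := by
    rcases hx with hx | hx
    · have := M_child hD (hS.deg a) hh (K := 2) (l := 0) (by norm_num) (by norm_num) (x := x)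
      rw [hx]
      simpa using this
    · have := M_child hD (hS.deg a) hh (K := 2) (l := 1) (by norm_num) (by norm_num) (x := x)
      rw [hx]
      simpa using this
  have h2 : 0 < M (P a) x' (h / 2) := M_pos' hS a x' (by positivity)
  have h3 : 0 < M (P a) x h := M_pos' hS a x hh
  have h4 : M (P a) x' (h / 2) ^ (-β) ≤ (QK D 2) ^ β * M (P a) x h ^ (-β) := by
    have h5 : (QK D 2 * M (P a) x' (h / 2)) ^ (-β) ≤ M (P a) x h ^ (-β) :=
      Real.rpow_le_rpow_of_nonpos h3 h1 (by linarith)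
    rw [Real.mul_rpow hQ0.le h2.le, Real.rpow_neg hQ0.le, inv_mul_le_iff₀ (by positivity)] at h5
    exact h5
  unfold wt
  calc ε ^ (rk a * (r - rk a)) * M (P a) x' (h / 2) ^ (-β)
      ≤ ε ^ (rk a * (r - rk a)) * ((QK D 2) ^ β * M (P a) x h ^ (-β)) := by gcongr
    _ = _ := by ring

/-- submodularity of the weights -/
theorem wt_mod (hS : Sys S r D rk P) (hβ : 0 < β) (hε : 0 < ε) (hε1 : ε ≤ 1) {Cm : ℝ} (hCm : 1 ≤ Cm)
    (hmul : ∀ (P Q : ℝ[X]), P.natDegree ≤ D → Q.natDegree ≤ D →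
      ∀ x h : ℝ, 0 < h → M P x h * M Q x h ≤ Cm * M (P * Q) x h) {a b : S} (hne : a ≠ b)
    (hab : rk a = rk b) {x h : ℝ} (hh : 0 < h) :
    Cm ^ (-β) * (wt r β ε rk P a x h * wt r β ε rk P b x h) ≤
      ε ^ 2 * (wt r β ε rk P (a ⊔ b) x h * wt r β ε rk P (a ⊓ b) x h) := by
  obtain ⟨j, hj, h1, h2⟩ := hS.modular a b hne hab
  set m := rk (a ⊓ b) with hm
  have hr : m + 2 * j ≤ r := by
    have := hS.rk_le (a ⊔ b)
    omega
  have e1 : rk (a ⊔ b) * (r - rk (a ⊔ b)) + m * (r - m) + 2 * j ^ 2 = 2 * (rk a * (r - rk a)) := by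
    rw [h1, h2]
    obtain ⟨s, hs⟩ := Nat.exists_eq_add_of_le hr
    have e2 : r - (m + j + j) = s := by omega
    have e3 : r - m = s + 2 * j := by omega
    have e4 : r - (m + j) = s + j := by omega
    rw [e2, e3, e4]
    ring
  have hCm0 : 0 < Cm := by linarith
  have hA := M_pos' hS a x hh
  have hB := M_pos' hS b x hh
  have hU := M_pos' hS (a ⊔ b) x hh
  have hI := M_pos' hS (a ⊓ b) x hh
  have h3 : M (P (a ⊔ b)) x h * M (P (a ⊓ b)) x h ≤ Cm * (M (P a) x h * M (P b) x h) := by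
    refine (hmul _ _ (hS.deg _) (hS.deg _) x h hh).trans ?_
    gcongr
    apply M_le hh.le
    intro t ht
    rw [eval_mul, abs_of_pos (mul_pos (hS.pos _ _) (hS.pos _ _))]
    refine (hS.sub a b t).trans ?_
    have h4 := le_M (P := P a) ht
    have h5 := le_M (P := P b) ht
    rw [abs_of_pos (hS.pos _ _)] at h4 h5
    exact mul_le_mul h4 h5 (hS.pos _ _).le hA.le
  have h4 : Cm ^ (-β) * ((M (P a) x h) ^ (-β) * (M (P b) x h) ^ (-β)) ≤
      (M (P (a ⊔ b)) x h) ^ (-β) * (M (P (a ⊓ b)) x h) ^ (-β) := by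
    rw [← Real.mul_rpow hA.le hB.le, ← Real.mul_rpow hU.le hI.le,
      ← Real.mul_rpow hCm0.le (by positivity)]
    exact Real.rpow_le_rpow_of_nonpos (by positivity) h3 (by linarith)
  have h7 : Cm ^ (-β) * (wt r β ε rk P a x h * wt r β ε rk P b x h) ≤ ε ^ (2 * j ^ 2) *
      (wt r β ε rk P (a ⊔ b) x h * wt r β ε rk P (a ⊓ b) x h) := by
    unfold wt
    rw [← hab]
    calc Cm ^ (-β) * (ε ^ (rk a * (r - rk a)) * M (P a) x h ^ (-β) * (ε ^ (rk a * (r - rk a)) * M (P b) x h ^ (-β)))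
        = ε ^ (2 * (rk a * (r - rk a))) * (Cm ^ (-β) * (M (P a) x h ^ (-β) * M (P b) x h ^ (-β))) := by
          rw [two_mul, pow_add]; ring
      _ ≤ ε ^ (2 * (rk a * (r - rk a))) * (M (P (a ⊔ b)) x h ^ (-β) * M (P (a ⊓ b)) x h ^ (-β)) := by
          gcongr
      _ = _ := by
          rw [← e1, pow_add, pow_add]
          ring
  have h8 : ε ^ (2 * j ^ 2) ≤ ε ^ 2 := by
    apply pow_le_pow_of_le_one hε.le hε1
    nlinarith
  have hp1 := wt_pos (β := β) hS hε (a ⊔ b) x hh
  have hp2 := wt_pos (β := β) hS hε (a ⊓ b) x hh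
  refine h7.trans ?_
  gcongr

open Classical in
/-- the total length of the first intervals of the dyadic tree (of depth `n`) below `[x, x + h]` on which
a weight exceeds `L`, and on which the weight of an element with the property `T` exceeds `L` -/
noncomputable def fp (w : S → ℝ → ℝ → ℝ) (L : ℝ) (T : S → Prop) : ℕ → ℝ → ℝ → ℝ
  | 0, x, h => if ∃ b, L < w b x h then (if ∃ b, T b ∧ L < w b x h then h else 0) else 0
  | n + 1, x, h => if ∃ b, L < w b x h then (if ∃ b, T b ∧ L < w b x h then h else 0) else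
      fp w L T n x (h / 2) + fp w L T n (x + h / 2) (h / 2)

omit [Lattice S] in
theorem fp_pass {w : S → ℝ → ℝ → ℝ} {L : ℝ} {T : S → Prop} {n : ℕ} {x h : ℝ} (H : ∃ b, T b ∧ L < w b x h) :
    fp w L T n x h = h := by
  have H2 : ∃ b, L < w b x h := by
    obtain ⟨b, _, hb⟩ := H
    exact ⟨b, hb⟩
  cases n <;> simp [fp, H, H2]

omit [Lattice S] in
theorem fp_pass' {w : S → ℝ → ℝ → ℝ} {L : ℝ} {T : S → Prop} {n : ℕ} {x h : ℝ} (H2 : ∃ b, L < w b x h)
    (H : ¬ ∃ b, T b ∧ L < w b x h) : fp w L T n x h = 0 := by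
  cases n <;> simp only [fp, if_pos H2, if_neg H]

omit [Lattice S] in
theorem fp_zero {w : S → ℝ → ℝ → ℝ} {L : ℝ} {T : S → Prop} {x h : ℝ} (H2 : ¬ ∃ b, L < w b x h) :
    fp w L T 0 x h = 0 := by
  simp only [fp, if_neg H2]

omit [Lattice S] in
theorem fp_succ {w : S → ℝ → ℝ → ℝ} {L : ℝ} {T : S → Prop} {n : ℕ} {x h : ℝ} (H2 : ¬ ∃ b, L < w b x h) :
    fp w L T (n + 1) x h = fp w L T n x (h / 2) + fp w L T n (x + h / 2) (h / 2) := by
  simp only [fp, if_neg H2]

omit [Lattice S] in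
theorem fp_le {w : S → ℝ → ℝ → ℝ} {L : ℝ} {T : S → Prop} (n : ℕ) : ∀ (x h : ℝ), 0 < h → fp w L T n x h ≤ h := by
  induction n with
  | zero =>
    intro x h hh
    by_cases H2 : ∃ b, L < w b x h
    · by_cases H : ∃ b, T b ∧ L < w b x h
      · rw [fp_pass H]
      · rw [fp_pass' H2 H]
        exact hh.le
    · rw [fp_zero H2]
      exact hh.le
  | succ n ih =>
    intro x h hh
    by_cases H2 : ∃ b, L < w b x h
    · by_cases H : ∃ b, T b ∧ L < w b x h
      · rw [fp_pass H]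
      · rw [fp_pass' H2 H]
        exact hh.le
    · rw [fp_succ H2]
      have h1 := ih x (h / 2) (by positivity)
      have h2 := ih (x + h / 2) (h / 2) (by positivity)
      linarith

theorem vol_half (Q : ℝ → Prop) (hQ : MeasurableSet {t | Q t}) (x h : ℝ) (hh : 0 < h) :
    (volume {t ∈ Ico x (x + h) | Q t}).toReal = (volume {t ∈ Ico x (x + h / 2) | Q t}).toReal +
      (volume {t ∈ Ico (x + h / 2) (x + h / 2 + h / 2) | Q t}).toReal := by
  have e1 : {t ∈ Ico x (x + h) | Q t} = {t ∈ Ico x (x + h / 2) | Q t} ∪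
      {t ∈ Ico (x + h / 2) (x + h / 2 + h / 2) | Q t} := by
    ext t
    simp only [mem_Ico, mem_union, mem_ofPred_eq]
    constructor
    · rintro ⟨⟨h1, h2⟩, h3⟩
      rcases lt_or_ge t (x + h / 2) with h4 | h4
      · exact Or.inl ⟨⟨h1, h4⟩, h3⟩
      · exact Or.inr ⟨⟨h4, by linarith⟩, h3⟩
    · rintro (⟨⟨h1, h2⟩, h3⟩ | ⟨⟨h1, h2⟩, h3⟩)
      · exact ⟨⟨h1, by linarith⟩, h3⟩
      · exact ⟨⟨by linarith, by linarith⟩, h3⟩
  have hfin : ∀ a b, volume {t ∈ Ico a b | Q t} ≠ ⊤ := fun a b =>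
    ((measure_mono (fun t ht => ht.1)).trans_lt measure_Ico_lt_top).ne
  have hm : MeasurableSet {t | t ∈ Ico (x + h / 2) (x + h / 2 + h / 2) ∧ Q t} := measurableSet_Ico.inter hQ
  rw [e1, measure_union _ hm, ENNReal.toReal_add (hfin _ _) (hfin _ _)]
  rw [Set.disjoint_left]
  rintro t ⟨⟨_, h2⟩, _⟩ ⟨⟨h3, _⟩, _⟩
  linarith

omit [Lattice S] in
/-- the first passages of a single element -/
theorem fp_single {w : S → ℝ → ℝ → ℝ} {L lam : ℝ} {a : S} {p : ℝ[X]}
    (hw : ∀ x h : ℝ, 0 < h → L < w a x h → M p x h < lam) (n : ℕ) : ∀ (x h : ℝ), 0 < h →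
    fp w L (fun b => b = a) n x h ≤ (volume {t ∈ Ico x (x + h) | |p.eval t| < lam}).toReal := by
  have hmeas : MeasurableSet {t : ℝ | |p.eval t| < lam} :=
    measurableSet_lt p.continuous.abs.measurable measurable_const
  have hpass : ∀ (m : ℕ) (x h : ℝ), 0 < h → (∃ b, b = a ∧ L < w b x h) →
      fp w L (fun b => b = a) m x h ≤ (volume {t ∈ Ico x (x + h) | |p.eval t| < lam}).toReal := by
    intro m x h hh H
    rw [fp_pass H]
    obtain ⟨b, rfl, hb⟩ := H
    have e1 : {t ∈ Ico x (x + h) | |p.eval t| < lam} = Ico x (x + h) := by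
      ext t
      simp only [mem_ofPred_eq, and_iff_left_iff_imp]
      intro ht
      exact (le_M ⟨ht.1, ht.2.le⟩).trans_lt (hw x h hh hb)
    rw [e1, Real.volume_Ico, ENNReal.toReal_ofReal (by linarith)]
    linarith
  induction n with
  | zero =>
    intro x h hh
    by_cases H2 : ∃ b, L < w b x h
    · by_cases H : ∃ b, b = a ∧ L < w b x h
      · exact hpass 0 x h hh H
      · rw [fp_pass' H2 H]
        exact ENNReal.toReal_nonneg
    · rw [fp_zero H2]
      exact ENNReal.toReal_nonneg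
  | succ n ih =>
    intro x h hh
    by_cases H2 : ∃ b, L < w b x h
    · by_cases H : ∃ b, b = a ∧ L < w b x h
      · exact hpass (n + 1) x h hh H
      · rw [fp_pass' H2 H]
        exact ENNReal.toReal_nonneg
    · rw [fp_succ H2, vol_half (fun t => |p.eval t| < lam) hmeas x h hh]
      have h1 := ih x (h / 2) (by positivity)
      have h2 := ih (x + h / 2) (h / 2) (by positivity)
      exact add_le_add h1 h2

/-- below an interval on which the weight of `a` is large, the first passages of the elements of the rank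
of `a` are those of `a` -/
theorem fp_split (hD : 1 ≤ D) (hS : Sys S r D rk P) (hβ : 0 < β) (hε : 0 < ε) (hε1 : ε ≤ 1) {Cm : ℝ}
    (hCm : 1 ≤ Cm) (hmul : ∀ (P Q : ℝ[X]), P.natDegree ≤ D → Q.natDegree ≤ D →
      ∀ x h : ℝ, 0 < h → M P x h * M Q x h ≤ Cm * M (P * Q) x h) {g H : ℝ} (hg : 0 < g) (hH : 0 < H)
    (hεH : ε ^ 2 * ((QK D 2) ^ β) ^ 2 * H ≤ Cm ^ (-β)) (R : Finset ℕ) (a : S) (n : ℕ) :
    ∀ (x h : ℝ), 0 < h → g < wt r β ε rk P a x h →
      (∀ b, wt r β ε rk P b x h ≤ (QK D 2) ^ β * (H * g)) →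
      fp (wt r β ε rk P) (H * g) (fun b => rk b ∈ R) n x h ≤
      fp (wt r β ε rk P) (H * g) (fun b => b = a) n x h +
      fp (wt r β ε rk P) (H * g) (fun b => rk b ∈ R.erase (rk a)) n x h := by
  have hfp0 : ∀ (T : S → Prop) (m : ℕ) (x h : ℝ), 0 < h → 0 ≤ fp (wt r β ε rk P) (H * g) T m x h := by
    intro T m
    induction m with
    | zero =>
      intro x h hh
      by_cases H2 : ∃ b, H * g < wt r β ε rk P b x h
      · by_cases H3 : ∃ b, T b ∧ H * g < wt r β ε rk P b x h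
        · rw [fp_pass H3]; exact hh.le
        · rw [fp_pass' H2 H3]
      · rw [fp_zero H2]
    | succ m ih =>
      intro x h hh
      by_cases H2 : ∃ b, H * g < wt r β ε rk P b x h
      · by_cases H3 : ∃ b, T b ∧ H * g < wt r β ε rk P b x h
        · rw [fp_pass H3]; exact hh.le
        · rw [fp_pass' H2 H3]
      · rw [fp_succ H2]
        exact add_nonneg (ih _ _ (by positivity)) (ih _ _ (by positivity))
  have hQ0 : 0 < (QK D 2) ^ β := by
    have := QK_ge (K := 2) hD (by norm_num)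
    have h2 : 0 < QK D 2 := by linarith
    positivity
  have hpass : ∀ (m : ℕ) (x h : ℝ), 0 < h → g < wt r β ε rk P a x h →
      (∀ b, wt r β ε rk P b x h ≤ (QK D 2) ^ β * (H * g)) → (∃ b, H * g < wt r β ε rk P b x h) →
      fp (wt r β ε rk P) (H * g) (fun b => rk b ∈ R) m x h ≤
      fp (wt r β ε rk P) (H * g) (fun b => b = a) m x h +
      fp (wt r β ε rk P) (H * g) (fun b => rk b ∈ R.erase (rk a)) m x h := by
    intro m x h hh ha hall H2
    by_cases H3 : ∃ b, rk b ∈ R ∧ H * g < wt r β ε rk P b x h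
    · rw [fp_pass H3]
      obtain ⟨b, hbR, hb⟩ := H3
      by_cases hba : b = a
      · rw [fp_pass (T := fun b => b = a) ⟨b, hba, hb⟩]
        have := hfp0 (fun b => rk b ∈ R.erase (rk a)) m x h hh
        linarith
      · have hrk : rk b ≠ rk a := by
          intro hrk
          have h1 := wt_mod hS hβ hε hε1 hCm hmul (a := a) (b := b) (Ne.symm hba) hrk.symm (x := x) hh
          have h2 : g * (H * g) < wt r β ε rk P a x h * wt r β ε rk P b x h :=
            mul_lt_mul'' ha hb hg.le (by positivity)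
          have h3 : wt r β ε rk P (a ⊔ b) x h * wt r β ε rk P (a ⊓ b) x h ≤
              ((QK D 2) ^ β * (H * g)) * ((QK D 2) ^ β * (H * g)) :=
            mul_le_mul (hall _) (hall _) (wt_pos hS hε _ x hh).le (by positivity)
          have hc : 0 < Cm ^ (-β) := by positivity
          have h4 : Cm ^ (-β) * (g * (H * g)) < ε ^ 2 * (((QK D 2) ^ β * (H * g)) * ((QK D 2) ^ β * (H * g))) := by
            calc Cm ^ (-β) * (g * (H * g)) < Cm ^ (-β) * (wt r β ε rk P a x h * wt r β ε rk P b x h) := by gcongr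
              _ ≤ _ := h1
              _ ≤ _ := by gcongr
          have h5 : ε ^ 2 * (((QK D 2) ^ β * (H * g)) * ((QK D 2) ^ β * (H * g))) =
              (ε ^ 2 * ((QK D 2) ^ β) ^ 2 * H) * (g * (H * g)) := by ring
          rw [h5] at h4
          have h6 : (ε ^ 2 * ((QK D 2) ^ β) ^ 2 * H) * (g * (H * g)) ≤ Cm ^ (-β) * (g * (H * g)) := by
            gcongr
          linarith
        have H4 : ∃ b, rk b ∈ R.erase (rk a) ∧ H * g < wt r β ε rk P b x h :=
          ⟨b, Finset.mem_erase.2 ⟨hrk, hbR⟩, hb⟩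
        rw [fp_pass (T := fun b => rk b ∈ R.erase (rk a)) H4]
        have := hfp0 (fun b => b = a) m x h hh
        linarith
    · rw [fp_pass' H2 H3]
      exact add_nonneg (hfp0 _ _ _ _ hh) (hfp0 _ _ _ _ hh)
  induction n with
  | zero =>
    intro x h hh ha hall
    by_cases H2 : ∃ b, H * g < wt r β ε rk P b x h
    · exact hpass 0 x h hh ha hall H2
    · rw [fp_zero H2, fp_zero H2, fp_zero H2]
      norm_num
  | succ n ih =>
    intro x h hh ha hall
    by_cases H2 : ∃ b, H * g < wt r β ε rk P b x h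
    · exact hpass (n + 1) x h hh ha hall H2
    · rw [fp_succ H2, fp_succ H2, fp_succ H2]
      push Not at H2
      have h1 := ih x (h / 2) (by positivity)
        (ha.trans_le (wt_sub hS hβ hε a (by positivity) le_rfl (by linarith)))
        (fun b => (wt_half hD hS hβ hε b hh (Or.inl rfl)).trans (by have := H2 b; gcongr))
      have h2 := ih (x + h / 2) (h / 2) (by positivity)
        (ha.trans_le (wt_sub hS hβ hε a (by positivity) (by linarith) (by linarith)))
        (fun b => (wt_half hD hS hβ hε b hh (Or.inr rfl)).trans (by have := H2 b; gcongr))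
      linarith

end

end Pool.Agent.N250.GAP
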