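import Pool.Agent.N250.GAP.Tree

/-!
# Nondivergence without a loss: the result
-/

open MeasureTheory Set Polynomial
open scoped ENNReal

namespace Pool.Agent.N250.GAP

section

variable {S : Type} [Lattice S] {r D : ℕ} {rk : S → ℕ} {P : S → ℝ[X]} {β ε : ℝ}

/-- descending to the intervals on which a weight of rank in `R` is large -/
theorem fp_descend (hD : 1 ≤ D) (hS : Sys S r D rk P) (hβ : 0 < β) (hε : 0 < ε) {g H B Λ : ℝ}
    (hg : 0 < g) (hH : 0 < H) (hBH : B ≤ H) (hΛ : 0 ≤ Λ) (R : Finset ℕ)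
    (hX : ∀ (m : ℕ) (x h : ℝ), 0 < h → (∃ a, rk a ∈ R ∧ B * g < wt r β ε rk P a x h) →
      (∀ b, rk b ∈ R → wt r β ε rk P b x h ≤ (QK D 2) ^ β * (B * g)) →
      (∀ b, wt r β ε rk P b x h ≤ (QK D 2) ^ β * (H * g)) →
      fp (wt r β ε rk P) (H * g) (fun b => rk b ∈ R) m x h ≤ Λ * h) (n : ℕ) :
    ∀ (x h : ℝ), 0 < h → (∀ b, rk b ∈ R → wt r β ε rk P b x h ≤ B * g) →
      fp (wt r β ε rk P) (H * g) (fun b => rk b ∈ R) n x h ≤ Λ * h := by
  have hQ0 : 0 < (QK D 2) ^ β := by
    have := QK_ge (K := 2) hD (by norm_num)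
    have h2 : 0 < QK D 2 := by linarith
    positivity
  have hpass : ∀ (m : ℕ) (x h : ℝ), 0 < h → (∀ b, rk b ∈ R → wt r β ε rk P b x h ≤ B * g) →
      (∃ b, H * g < wt r β ε rk P b x h) →
      fp (wt r β ε rk P) (H * g) (fun b => rk b ∈ R) m x h ≤ Λ * h := by
    intro m x h hh hR H2
    rw [fp_pass' H2]
    · positivity
    · rintro ⟨b, hb1, hb2⟩
      have := hR b hb1
      have h3 : B * g ≤ H * g := by gcongr
      linarith
  induction n with
  | zero =>
    intro x h hh hR
    by_cases H2 : ∃ b, H * g < wt r β ε rk P b x h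
    · exact hpass 0 x h hh hR H2
    · rw [fp_zero H2]
      positivity
  | succ n ih =>
    intro x h hh hR
    by_cases H2 : ∃ b, H * g < wt r β ε rk P b x h
    · exact hpass (n + 1) x h hh hR H2
    · rw [fp_succ H2]
      push Not at H2
      have hch : ∀ x', (x' = x ∨ x' = x + h / 2) →
          fp (wt r β ε rk P) (H * g) (fun b => rk b ∈ R) n x' (h / 2) ≤ Λ * (h / 2) := by
        intro x' hx'
        by_cases H3 : ∃ a, rk a ∈ R ∧ B * g < wt r β ε rk P a x' (h / 2)
        · apply hX n x' (h / 2) (by positivity) H3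
          · intro b hb
            refine (wt_half hD hS hβ hε b hh hx').trans ?_
            have := hR b hb
            gcongr
          · intro b
            refine (wt_half hD hS hβ hε b hh hx').trans ?_
            have := H2 b
            gcongr
        · push Not at H3
          exact ih x' (h / 2) (by positivity) H3
      have h1 := hch x (Or.inl rfl)
      have h2 := hch (x + h / 2) (Or.inr rfl)
      linarith

/-- the constants -/
noncomputable def Gam (D : ℕ) (β : ℝ) : ℕ → ℝ
  | 0 => 1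
  | k + 1 => (1 + 8 * ((D : ℝ) + 1) ^ 2 + Gam D β k) * ((QK D 2) ^ β) ^ (1 / (β * D))

theorem Gam_ge (hD : 1 ≤ D) (hβ : 0 < β) (k : ℕ) : 1 ≤ Gam D β k := by
  have hQ := QK_ge (K := 2) hD (by norm_num)
  have h1 : 1 ≤ (QK D 2) ^ β := Real.one_le_rpow hQ hβ.le
  have h2 : 1 ≤ ((QK D 2) ^ β) ^ (1 / (β * D)) := Real.one_le_rpow h1 (by positivity)
  induction k with
  | zero => simp [Gam]
  | succ k ih =>
    rw [Gam]
    have h3 : 1 ≤ 1 + 8 * ((D : ℝ) + 1) ^ 2 + Gam D β k := by nlinarith [sq_nonneg ((D : ℝ) + 1)]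
    nlinarith

/-- the first passages of one element, below an interval on which its weight is bounded -/
theorem fp_one (hD : 1 ≤ D) (hS : Sys S r D rk P) (hβ : 0 < β) (hε : 0 < ε) {g H B : ℝ}
    (hg : 0 < g) (hH : 0 < H) (hB : 0 < B) (a : S) (n : ℕ) (x h : ℝ) (hh : 0 < h)
    (ha : wt r β ε rk P a x h ≤ B * g) :
    fp (wt r β ε rk P) (H * g) (fun b => b = a) n x h ≤ 8 * ((D : ℝ) + 1) ^ 2 * (B / H) ^ (1 / (β * D)) * h := by
  have hD0 : (0 : ℝ) < D := by exact_mod_cast hD
  set e : ℝ := ε ^ (rk a * (r - rk a)) with he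
  have he0 : 0 < e := by positivity
  set lam : ℝ := (e / (H * g)) ^ (1 / β) with hlam
  have hlam0 : 0 < lam := by positivity
  have h1 : ∀ x h : ℝ, 0 < h → H * g < wt r β ε rk P a x h → M (P a) x h < lam := by
    intro y k hk hlt
    have hM := M_pos' hS a y hk
    unfold wt at hlt
    rw [← he, Real.rpow_neg hM.le, ← div_eq_mul_inv, lt_div_iff₀ (by positivity)] at hlt
    have h2 : M (P a) y k ^ β < e / (H * g) := by
      rw [lt_div_iff₀ (by positivity)]
      linarith
    calc M (P a) y k = (M (P a) y k ^ β) ^ (1 / β) := by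
          rw [← Real.rpow_mul hM.le, mul_one_div_cancel hβ.ne', Real.rpow_one]
      _ < lam := by
          rw [hlam]
          exact Real.rpow_lt_rpow (by positivity) h2 (by positivity)
  have h2 := fp_single (w := wt r β ε rk P) (L := H * g) (lam := lam) (a := a) (p := P a) h1 n x h hh
  have hM := M_pos' hS a x hh
  have h3 : lam / M (P a) x h ≤ (B / H) ^ (1 / β) := by
    unfold wt at ha
    rw [← he, Real.rpow_neg hM.le, ← div_eq_mul_inv, div_le_iff₀ (by positivity)] at ha
    have h4 : e / (B * g) ≤ M (P a) x h ^ β := by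
      rw [div_le_iff₀ (by positivity)]
      linarith
    have h5 : (e / (B * g)) ^ (1 / β) ≤ M (P a) x h := by
      calc (e / (B * g)) ^ (1 / β) ≤ (M (P a) x h ^ β) ^ (1 / β) := by gcongr
        _ = M (P a) x h := by
          rw [← Real.rpow_mul hM.le, mul_one_div_cancel hβ.ne', Real.rpow_one]
    rw [div_le_iff₀ hM]
    calc lam = (B / H) ^ (1 / β) * (e / (B * g)) ^ (1 / β) := by
          rw [hlam, ← Real.mul_rpow (by positivity) (by positivity)]
          congr 1
          field_simp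
      _ ≤ _ := by gcongr
  have h6 : (volume {t | t ∈ Ico x (x + h) ∧ |(P a).eval t| < lam}).toReal ≤
      8 * ((D : ℝ) + 1) ^ 2 * (lam / M (P a) x h) ^ (1 / (D : ℝ)) * h := by
    have h7 := sub_Icc hD (hS.deg a) (x := x) hh hM (show 0 < lam / M (P a) x h by positivity)
    rw [div_mul_cancel₀ _ hM.ne'] at h7
    have h8 := (measure_mono (show {t | t ∈ Ico x (x + h) ∧ |(P a).eval t| < lam} ⊆
      {t ∈ Icc x (x + h) | |(P a).eval t| < lam} from fun t ht => ⟨⟨ht.1.1, ht.1.2.le⟩, ht.2⟩)).trans h7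
    have h9 := ENNReal.toReal_mono ENNReal.ofReal_ne_top h8
    rwa [ENNReal.toReal_ofReal (by positivity)] at h9
  refine h2.trans (h6.trans ?_)
  have h7 : (lam / M (P a) x h) ^ (1 / (D : ℝ)) ≤ (B / H) ^ (1 / (β * D)) := by
    calc (lam / M (P a) x h) ^ (1 / (D : ℝ)) ≤ ((B / H) ^ (1 / β)) ^ (1 / (D : ℝ)) := by gcongr
      _ = (B / H) ^ (1 / (β * D)) := by
        rw [← Real.rpow_mul (by positivity)]
        congr 1
        field_simp
  gcongr

theorem fp_ranks (hD : 1 ≤ D) (hS : Sys S r D rk P) (hβ : 0 < β) (hε : 0 < ε) (hε1 : ε ≤ 1) {Cm : ℝ}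
    (hCm : 1 ≤ Cm) (hmul : ∀ (P Q : ℝ[X]), P.natDegree ≤ D → Q.natDegree ≤ D →
      ∀ x h : ℝ, 0 < h → M P x h * M Q x h ≤ Cm * M (P * Q) x h) {g H : ℝ} (hg : 0 < g) (hH : 0 < H)
    (hεH : ε ^ 2 * ((QK D 2) ^ β) ^ 2 * H ≤ Cm ^ (-β)) (k : ℕ) :
    ∀ (R : Finset ℕ), R.card ≤ k → ∀ B : ℝ, 1 ≤ B → ∀ (n : ℕ) (x h : ℝ), 0 < h →
      (∀ b, rk b ∈ R → wt r β ε rk P b x h ≤ B * g) →
      fp (wt r β ε rk P) (H * g) (fun b => rk b ∈ R) n x h ≤ Gam D β k * (B / H) ^ (1 / (β * D)) * h := by
  have hD0 : (0 : ℝ) < D := by exact_mod_cast hD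
  have hQ := QK_ge (K := 2) hD (by norm_num)
  have hC2 : 1 ≤ (QK D 2) ^ β := Real.one_le_rpow hQ hβ.le
  have hα : 0 < 1 / (β * D) := by positivity
  have triv : ∀ (k : ℕ) (R : Finset ℕ) (B : ℝ), H < B → ∀ (n : ℕ) (x h : ℝ), 0 < h →
      fp (wt r β ε rk P) (H * g) (fun b => rk b ∈ R) n x h ≤ Gam D β k * (B / H) ^ (1 / (β * D)) * h := by
    intro k R B hB n x h hh
    have h1 : 1 ≤ (B / H) ^ (1 / (β * D)) :=
      Real.one_le_rpow (by rw [le_div_iff₀ hH]; linarith) hα.le
    have h2 := Gam_ge hD hβ k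
    refine (fp_le n x h hh).trans ?_
    calc h = 1 * 1 * h := by ring
      _ ≤ _ := by gcongr
  induction k with
  | zero =>
    intro R hR B hB n x h hh hw
    rcases lt_or_ge H B with hBH | hBH
    · exact triv 0 R B hBH n x h hh
    have hR0 : R = ∅ := Finset.card_eq_zero.1 (Nat.le_zero.1 hR)
    refine fp_descend hD hS hβ hε hg hH hBH (Λ := Gam D β 0 * (B / H) ^ (1 / (β * D)))
      (by have := Gam_ge hD hβ 0; positivity) R ?_ n x h hh hw
    rintro m y k hk ⟨a, ha, _⟩
    rw [hR0] at ha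
    exact absurd ha (Finset.notMem_empty _)
  | succ k ih =>
    intro R hR B hB n x h hh hw
    rcases lt_or_ge H B with hBH | hBH
    · exact triv (k + 1) R B hBH n x h hh
    have hB0 : 0 < B := by linarith
    refine fp_descend hD hS hβ hε hg hH hBH (Λ := Gam D β (k + 1) * (B / H) ^ (1 / (β * D)))
      (by have := Gam_ge hD hβ (k + 1); positivity) R ?_ n x h hh hw
    rintro m y l hl ⟨a, ha, ha2⟩ hR2 hall
    have h1 : g < wt r β ε rk P a y l := by
      refine lt_of_le_of_lt ?_ ha2
      nlinarith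
    have h2 := fp_split hD hS hβ hε hε1 hCm hmul hg hH hεH R a m y l hl h1 hall
    have hB2 : 1 ≤ (QK D 2) ^ β * B := by nlinarith
    have h3 := fp_one hD hS hβ hε hg hH (B := (QK D 2) ^ β * B) (by positivity) a m y l hl
      (by rw [mul_assoc]; exact hR2 a ha)
    have h4 := ih (R.erase (rk a)) (by rw [Finset.card_erase_of_mem ha]; omega) ((QK D 2) ^ β * B) hB2
      m y l hl (fun b hb => by rw [mul_assoc]; exact hR2 b (Finset.mem_of_mem_erase hb))
    have h5 : ((QK D 2) ^ β * B / H) ^ (1 / (β * D)) =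
        ((QK D 2) ^ β) ^ (1 / (β * D)) * (B / H) ^ (1 / (β * D)) := by
      rw [← Real.mul_rpow (by positivity) (by positivity), mul_div_assoc]
    rw [h5] at h3 h4
    refine h2.trans ?_
    have h6 : 0 ≤ ((QK D 2) ^ β) ^ (1 / (β * D)) * (B / H) ^ (1 / (β * D)) * l := by positivity
    calc _ ≤ 8 * ((D : ℝ) + 1) ^ 2 * (((QK D 2) ^ β) ^ (1 / (β * D)) * (B / H) ^ (1 / (β * D))) * l +
          Gam D β k * (((QK D 2) ^ β) ^ (1 / (β * D)) * (B / H) ^ (1 / (β * D))) * l := add_le_add h3 h4
      _ ≤ Gam D β (k + 1) * (B / H) ^ (1 / (β * D)) * l := by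
        rw [Gam]
        nlinarith

end

/-- **Nondivergence without a loss.** -/
theorem free {D : ℕ} (hD : 1 ≤ D) {β : ℝ} (hβ : 0 < β) (hβD : β * D < 1) (r : ℕ) :
    ∃ C : ℝ, 0 < C ∧ ∀ (S : Type) [Lattice S] (rk : S → ℕ) (P : S → ℝ[X]), Sys S r D rk P →
      ∀ δ : ℝ, 0 < δ → ∀ (F : ℝ → ℝ≥0∞) (C0 : ℝ≥0∞),
      (∀ x h : ℝ, 0 < h → h ≤ δ → ∀ t ∈ Icc x (x + h), ∀ u : ℝ, 0 < u →
        (∀ a, (M (P a) x h) ^ (-β) ≤ u) → F t ≤ C0 * ENNReal.ofReal u) →
      ∀ x h : ℝ, 0 < h → ∀ g : ℝ, 0 < g → (∀ a, (M (P a) x h) ^ (-β) ≤ g) →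
        ∫⁻ t in Icc x (x + h), F t ≤ C0 * ENNReal.ofReal (C * h * g) := by
  have hD0 : (0 : ℝ) < D := by exact_mod_cast hD
  obtain ⟨Cm, hCm, hmul⟩ := M_mul hD
  have hCm0 : 0 < Cm := by linarith
  set C2 : ℝ := (QK D 2) ^ β with hC2def
  have hC2 : 1 ≤ C2 := Real.one_le_rpow (QK_ge (K := 2) hD (by norm_num)) hβ.le
  have hC20 : 0 < C2 := by linarith
  set α : ℝ := 1 / (β * D) with hα
  have hα1 : 1 < α := by
    rw [hα, lt_div_iff₀ (by positivity), one_mul]
    exact hβD
  set Γ := Gam D β (r + 1) with hΓ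
  have hΓ1 : 1 ≤ Γ := Gam_ge hD hβ _
  have hΓ0 : 0 < Γ := by linarith
  -- the level
  set H : ℝ := (2 * C2 * Γ) ^ (1 / (α - 1)) with hH
  have hα10 : 0 < α - 1 := by linarith
  have hbase : 1 ≤ 2 * C2 * Γ := by nlinarith
  have hH1 : 1 ≤ H := Real.one_le_rpow hbase (by positivity)
  have hH0 : 0 < H := by linarith
  have hHα : 2 * C2 * Γ * H ^ (1 - α) = 1 := by
    have e1 : H ^ (1 - α) = (2 * C2 * Γ) ^ (-(1 : ℝ)) := by
      rw [hH, ← Real.rpow_mul (by positivity)]
      congr 1
      field_simp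
      ring
    rw [e1, Real.rpow_neg (by positivity), Real.rpow_one, mul_inv_cancel₀ (by positivity)]
  set ε : ℝ := Real.sqrt (Cm ^ (-β) / (C2 ^ 2 * H)) with hε
  have hε0 : 0 < ε := by rw [hε]; apply Real.sqrt_pos.2; positivity
  have hε2 : ε ^ 2 = Cm ^ (-β) / (C2 ^ 2 * H) := by rw [hε, Real.sq_sqrt (by positivity)]
  have hcm1 : Cm ^ (-β) ≤ 1 := Real.rpow_le_one_of_one_le_of_nonpos hCm (by linarith)
  have hε1 : ε ≤ 1 := by
    have h1 : ε ^ 2 ≤ 1 := by
      rw [hε2, div_le_one (by positivity)]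
      have : 1 ≤ C2 ^ 2 * H := by nlinarith
      linarith
    by_contra hcon
    push Not at hcon
    nlinarith
  have hεH : ε ^ 2 * ((QK D 2) ^ β) ^ 2 * H ≤ Cm ^ (-β) := by
    rw [hε2, ← hC2def, mul_assoc, div_mul_cancel₀ _ (by positivity)]
  set E : ℝ := (ε ^ (r ^ 2))⁻¹ with hE
  have hE0 : 0 < E := by positivity
  refine ⟨E * (2 * H), by positivity, ?_⟩
  intro S _ rk P hS δ hδ F C0 hF
  -- the claim in terms of the weights
  have main : ∀ (n : ℕ) (x h g : ℝ), 0 < h → h ≤ δ * 2 ^ n → 0 < g →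
      (∀ a, wt r β ε rk P a x h ≤ g) →
      ∫⁻ t in Icc x (x + h), F t ≤ C0 * ENNReal.ofReal (E * (2 * H) * h * g) := by
    intro n
    induction n using Nat.strong_induction_on with
    | _ n IH =>
    intro x h g hh hhn hg hw
    have inner : ∀ (m : ℕ), m ≤ n → ∀ (x' h' : ℝ), 0 < h' → h' ≤ δ * 2 ^ m →
        (∀ a, wt r β ε rk P a x' h' ≤ C2 * (H * g)) →
        ((∃ b, H * g < wt r β ε rk P b x' h') → m < n) →
        ∫⁻ t in Icc x' (x' + h'), F t ≤ C0 * ENNReal.ofReal (E * (H * g * h' +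
          (2 * H) * (C2 * (H * g)) * fp (wt r β ε rk P) (H * g) (fun b => rk b ∈ Finset.range (r + 1)) m x' h')) := by
      intro m
      induction m with
      | zero =>
        intro _ x' h' hh' hle hall hp
        by_cases H2 : ∃ b, H * g < wt r β ε rk P b x' h'
        · have hmn := hp H2
          obtain ⟨b, hb⟩ := H2
          rw [fp_pass ⟨b, Finset.mem_range.2 (Nat.lt_succ_of_le (hS.rk_le b)), hb⟩]
          refine (IH 0 hmn x' h' (C2 * (H * g)) hh' hle (by positivity) hall).trans ?_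
          gcongr C0 * ENNReal.ofReal ?_
          have : 0 ≤ H * g * h' := by positivity
          calc E * (2 * H) * h' * (C2 * (H * g)) = E * (2 * H * (C2 * (H * g)) * h') := by ring
            _ ≤ _ := by gcongr; linarith
        · rw [fp_zero H2, mul_zero, add_zero]
          push Not at H2
          have h1 : ∀ t ∈ Icc x' (x' + h'), F t ≤ C0 * ENNReal.ofReal (E * (H * g)) := by
            intro t ht
            refine hF x' h' hh' (by simpa using hle) t ht (E * (H * g)) (by positivity) ?_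
            intro a
            have h2 := H2 a
            unfold wt at h2
            have h3 : ε ^ (r ^ 2) ≤ ε ^ (rk a * (r - rk a)) := by
              apply pow_le_pow_of_le_one hε0.le hε1
              have := hS.rk_le a
              calc rk a * (r - rk a) ≤ r * r := Nat.mul_le_mul this (Nat.sub_le _ _)
                _ = r ^ 2 := (sq r).symm
            have h4 : 0 < M (P a) x' h' ^ (-β) := by have := M_pos' hS a x' hh'; positivity
            rw [hE, ← div_eq_inv_mul, le_div_iff₀ (by positivity)]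
            calc M (P a) x' h' ^ (-β) * ε ^ (r ^ 2) ≤ M (P a) x' h' ^ (-β) * ε ^ (rk a * (r - rk a)) := by gcongr
              _ ≤ _ := by rw [mul_comm]; exact h2
          calc ∫⁻ t in Icc x' (x' + h'), F t ≤ ∫⁻ t in Icc x' (x' + h'), C0 * ENNReal.ofReal (E * (H * g)) :=
                setLIntegral_mono' measurableSet_Icc h1
            _ = C0 * ENNReal.ofReal (E * (H * g * h')) := by
                rw [setLIntegral_const, Real.volume_Icc, mul_assoc, show x' + h' - x' = h' by ring,
                  ← ENNReal.ofReal_mul (by positivity), mul_assoc]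
      | succ m ih =>
        intro hmn x' h' hh' hle hall hp
        by_cases H2 : ∃ b, H * g < wt r β ε rk P b x' h'
        · have hmn := hp H2
          obtain ⟨b, hb⟩ := H2
          rw [fp_pass ⟨b, Finset.mem_range.2 (Nat.lt_succ_of_le (hS.rk_le b)), hb⟩]
          refine (IH (m + 1) hmn x' h' (C2 * (H * g)) hh' hle (by positivity) hall).trans ?_
          gcongr C0 * ENNReal.ofReal ?_
          have : 0 ≤ H * g * h' := by positivity
          calc E * (2 * H) * h' * (C2 * (H * g)) = E * (2 * H * (C2 * (H * g)) * h') := by ring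
            _ ≤ _ := by gcongr; linarith
        · rw [fp_succ H2]
          push Not at H2
          have hle2 : h' / 2 ≤ δ * 2 ^ m := by
            rw [pow_succ] at hle
            linarith
          have hch : ∀ y, (y = x' ∨ y = x' + h' / 2) → ∫⁻ t in Icc y (y + h' / 2), F t ≤
              C0 * ENNReal.ofReal (E * (H * g * (h' / 2) + (2 * H) * (C2 * (H * g)) *
              fp (wt r β ε rk P) (H * g) (fun b => rk b ∈ Finset.range (r + 1)) m y (h' / 2))) := by
            intro y hy
            refine ih (by omega) y (h' / 2) (by positivity) hle2 ?_ (fun _ => by omega)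
            intro a
            refine (wt_half hD hS hβ hε0 a hh' hy).trans ?_
            have := H2 a
            gcongr
          have hfp0 : ∀ (y : ℝ), 0 ≤ fp (wt r β ε rk P) (H * g) (fun b => rk b ∈ Finset.range (r + 1)) m y (h' / 2) := by
            have : ∀ (m : ℕ) (y l : ℝ), 0 < l →
                0 ≤ fp (wt r β ε rk P) (H * g) (fun b => rk b ∈ Finset.range (r + 1)) m y l := by
              intro m
              induction m with
              | zero =>
                intro x h hh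
                by_cases H2 : ∃ b, H * g < wt r β ε rk P b x h
                · by_cases H3 : ∃ b, rk b ∈ Finset.range (r + 1) ∧ H * g < wt r β ε rk P b x h
                  · rw [fp_pass H3]; exact hh.le
                  · rw [fp_pass' H2 H3]
                · rw [fp_zero H2]
              | succ m ih =>
                intro x h hh
                by_cases H2 : ∃ b, H * g < wt r β ε rk P b x h
                · by_cases H3 : ∃ b, rk b ∈ Finset.range (r + 1) ∧ H * g < wt r β ε rk P b x h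
                  · rw [fp_pass H3]; exact hh.le
                  · rw [fp_pass' H2 H3]
                · rw [fp_succ H2]
                  exact add_nonneg (ih _ _ (by positivity)) (ih _ _ (by positivity))
            exact fun y => this m y _ (by positivity)
          have hcov : Icc x' (x' + h') ⊆ Icc x' (x' + h' / 2) ∪ Icc (x' + h' / 2) (x' + h' / 2 + h' / 2) := by
            intro t ht
            rcases le_total t (x' + h' / 2) with h1 | h1
            · exact Or.inl ⟨ht.1, h1⟩
            · exact Or.inr ⟨h1, by linarith [ht.2]⟩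
          calc ∫⁻ t in Icc x' (x' + h'), F t
              ≤ ∫⁻ t in Icc x' (x' + h' / 2) ∪ Icc (x' + h' / 2) (x' + h' / 2 + h' / 2), F t :=
                lintegral_mono_set hcov
            _ ≤ _ := lintegral_union_le _ _ _
            _ ≤ _ := add_le_add (hch x' (Or.inl rfl)) (hch (x' + h' / 2) (Or.inr rfl))
            _ = _ := by
                have h1 := hfp0 x'
                have h2 := hfp0 (x' + h' / 2)
                rw [← mul_add, ← ENNReal.ofReal_add (by positivity) (by positivity)]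
                congr 2
                ring
    have hgH : g ≤ H * g := by nlinarith
    have h1 := inner n le_rfl x h hh hhn (fun a => (hw a).trans (by nlinarith)) (by
      rintro ⟨b, hb⟩
      have := hw b
      linarith)
    refine h1.trans ?_
    have h2 := fp_ranks hD hS hβ hε0 hε1 hCm hmul hg hH0 hεH (r + 1) (Finset.range (r + 1))
      (by rw [Finset.card_range]) 1 le_rfl n x h hh (fun b _ => by rw [one_mul]; exact hw b)
    rw [← hΓ, ← hα] at h2
    gcongr C0 * ENNReal.ofReal ?_
    have h3 : H * (1 / H) ^ α = H ^ (1 - α) := by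
      rw [one_div, Real.inv_rpow hH0.le, ← Real.rpow_neg hH0.le, Real.rpow_sub hH0, Real.rpow_one,
        Real.rpow_neg hH0.le, div_eq_mul_inv]
    calc E * (H * g * h + 2 * H * (C2 * (H * g)) * fp (wt r β ε rk P) (H * g)
          (fun b => rk b ∈ Finset.range (r + 1)) n x h)
        ≤ E * (H * g * h + 2 * H * (C2 * (H * g)) * (Γ * (1 / H) ^ α * h)) := by gcongr
      _ = E * (H * g * h * (1 + 2 * C2 * Γ * (H * (1 / H) ^ α))) := by ring
      _ = E * (2 * H) * h * g := by rw [h3, hHα]; ring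
  intro x h hh g hg hw
  obtain ⟨n, hn⟩ := pow_unbounded_of_one_lt (h / δ) (show (1 : ℝ) < 2 by norm_num)
  refine main n x h g hh ?_ hg ?_
  · rw [div_lt_iff₀ hδ] at hn
    linarith
  · intro a
    unfold wt
    have h1 : ε ^ (rk a * (r - rk a)) ≤ 1 := pow_le_one₀ hε0.le hε1
    have h2 : 0 < M (P a) x h ^ (-β) := by have := M_pos' hS a x hh; positivity
    calc _ ≤ 1 * M (P a) x h ^ (-β) := by gcongr
      _ ≤ g := by rw [one_mul]; exact hw a

end Pool.Agent.N250.GAP
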