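import Pool.Agent.N250.GAP.SepFam
import Pool.Agent.H810R3.Tub.Main

/-!
# The tube inequality for families in progressions
-/

open MeasureTheory Set ENNReal NNReal Metric Matrix

namespace Pool.Agent.N250.GAP

open Pool.Agent.H810R3.Tub (Space tube dir dir_sub_le tube_eq tube_closed)
abbrev Vec (d : ℕ) : Type := EuclideanSpace ℝ (Fin d)

variable {d : ℕ}

/-- Fubini on the heights. -/
theorem fub {F : Space d → ℝ≥0∞} (hF : Measurable F) :
    ∫⁻ y : Space d, F y = ∫⁻ t : ℝ, ∫⁻ x : Vec d, F (WithLp.toLp 2 (x, t)) := by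
  have hmp := WithLp.volume_preserving_toLp (Vec d) ℝ
  rw [← hmp.lintegral_comp hF, Measure.volume_eq_prod]
  exact lintegral_prod_symm (fun p : Vec d × ℝ => F (WithLp.toLp 2 p))
    (hF.comp hmp.measurable).aemeasurable

theorem sup_le_norm (x : Vec d) : ‖(x.ofLp : Fin d → ℝ)‖ ≤ ‖x‖ := by
  rw [pi_norm_le_iff_of_nonneg (norm_nonneg _)]
  intro i
  exact PiLp.norm_apply_le x i

theorem norm_le_sup (x : Vec d) : ‖x‖ ≤ d * ‖(x.ofLp : Fin d → ℝ)‖ := by
  have hd0 : (0 : ℝ) ≤ d := Nat.cast_nonneg d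
  rw [EuclideanSpace.norm_eq]
  apply Real.sqrt_le_iff.2
  refine ⟨by positivity, ?_⟩
  calc ∑ i, ‖x.ofLp i‖ ^ 2 ≤ ∑ _i : Fin d, ‖(x.ofLp : Fin d → ℝ)‖ ^ 2 := by
        apply Finset.sum_le_sum
        intro i _
        have := norm_le_pi_norm (x.ofLp : Fin d → ℝ) i
        gcongr
    _ = d * ‖(x.ofLp : Fin d → ℝ)‖ ^ 2 := by
        rw [Finset.sum_const, Finset.card_univ, Fintype.card_fin, nsmul_eq_mul]
    _ ≤ (d * ‖(x.ofLp : Fin d → ℝ)‖) ^ 2 := by
        rw [mul_pow]
        have h1 : (d : ℝ) ≤ (d : ℝ) ^ 2 := by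
          rcases Nat.eq_zero_or_pos d with h | h
          · simp [h]
          · have : (1 : ℝ) ≤ d := by exact_mod_cast h
            nlinarith
        gcongr

/-- **The tube inequality for families of positive density in progressions** (integral form). -/
theorem tube_main {r : ℕ} (hr : 1 ≤ r) (hd : 1 ≤ d) {q : ℝ} (hq : 1 < (q - 1) * d) {K : ℝ} (hK : 1 ≤ K) :
    ∃ C : ℝ, 0 < C ∧ ∀ δ : ℝ, 0 < δ → δ < 1 → ∀ (ι : Type) [Fintype ι] [Nonempty ι] (v β : ι → Vec d)
      (s : ι → ℝ) (N : Fin r → ℕ) (V A : Matrix (Fin d) (Fin r) ℝ) (k : ι → Fin r → ℤ),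
      (∀ i, ‖v i‖ ≤ 1) → (∀ i j, i ≠ j → δ ≤ ‖v i - v j‖) →
      (∀ i j, 0 ≤ k i j ∧ k i j < N j) →
      (∀ i j, ((v j - v i : Vec d).ofLp : Fin d → ℝ) = V *ᵥ (fun l => (((k j - k i) l : ℤ) : ℝ))) →
      (∀ i j, ((β j - β i : Vec d).ofLp : Fin d → ℝ) = A *ᵥ (fun l => (((k j - k i) l : ℤ) : ℝ))) →
      ((∏ j, N j : ℕ) : ℝ) ≤ K * Fintype.card ι →
      ∫⁻ y : Space d, (∑ i, (tube δ (dir (v i)) (WithLp.toLp 2 (β i + s i • v i, s i))).indicator
          (fun _ => (1 : ℝ≥0∞)) y) ^ q ≤
        ENNReal.ofReal (C * δ ^ d * (Fintype.card ι : ℝ) ^ (q - 1 / d)) := by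
  classical
  have hd0 : (0 : ℝ) < d := by exact_mod_cast hd
  have hd1 : (1 : ℝ) ≤ d := by exact_mod_cast hd
  have hq1 : 0 < q - 1 := by
    by_contra h
    push Not at h
    nlinarith
  have hq0 : 0 < q := by linarith
  set M : ℕ := ⌊4 ^ r * K⌋₊ + 1 with hMdef
  have hM : 4 ^ r * K < M := by
    rw [hMdef]
    push_cast
    exact Nat.lt_floor_add_one _
  have hM0 : 0 < M := by omega
  have hMr : (1 : ℝ) ≤ M := by exact_mod_cast hM0
  set κ : ℝ := 4 * d * M with hκdef
  have hκ4 : 4 ≤ κ := by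
    rw [hκdef]
    nlinarith
  have hκ1 : 1 ≤ κ := by linarith
  obtain ⟨C, hC, hbig⟩ := int_big hr hd hκ1 hq
  set ω : ℝ := (volume (ball (0 : Vec d) 1)).toReal with hω
  have hωtop : volume (ball (0 : Vec d) 1) ≠ ∞ := measure_ball_lt_top.ne
  have hω0 : 0 < ω := ENNReal.toReal_pos (measure_ball_pos _ _ one_pos).ne' hωtop
  refine ⟨(2 ^ d * ω) * (3 / 2 * (C * ((4 * κ + 1) ^ r * K) ^ (q - 1 - 1 / d))), by positivity, ?_⟩
  intro δ hδ hδ1 ι _ _ v β s N V A k hv hsep hk hV hA hcard
  have hn0 : (1 : ℝ) ≤ Fintype.card ι := by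
    have : 0 < Fintype.card ι := Fintype.card_pos
    exact_mod_cast this
  have hN1 : ∀ j, 1 ≤ N j := by
    intro j
    obtain ⟨i⟩ := (inferInstance : Nonempty ι)
    have := hk i j
    omega
  set δ' : ℝ := δ / d / M with hδ'
  have hδ'0 : 0 < δ' := by positivity
  have hδ'1 : δ' ≤ 1 := by
    rw [hδ', div_div]
    apply div_le_one_of_le₀ _ (by positivity)
    nlinarith
  set N' : Fin r → ℝ := fun j => N j / M with hN'
  have hN'0 : ∀ j, 0 < N' j := by
    intro j
    have : (0 : ℝ) < N j := by exact_mod_cast hN1 j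
    rw [hN']
    positivity
  have hN'le : ∀ j, N' j ≤ N j := by
    intro j
    exact div_le_self (Nat.cast_nonneg _) hMr
  have hsep1 : ∀ i j, i ≠ j → δ / d ≤ ‖V *ᵥ (fun l => (((k j - k i) l : ℤ) : ℝ))‖ := by
    intro i j hij
    rw [← hV i j, div_le_iff₀ hd0]
    have h1 := norm_le_sup (v j - v i)
    have h2 := hsep j i (Ne.symm hij)
    linarith
  have hsf : ∀ n : Fin r → ℤ, n ≠ 0 → (∀ j, |(n j : ℝ)| ≤ N' j) → δ' ≤ ‖V *ᵥ (fun l => (n l : ℝ))‖ :=
    fun n hn hnN => sep_family hk hsep1 hcard hM hM0 n hn hnN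
  have hsb : ∀ u : ℝ, SepBox N' ((3 / 2 : ℝ) • V) (A + u • V) δ' := by
    intro u n hn hnN _
    rw [smul_mulVec, norm_smul, Real.norm_eq_abs, abs_of_pos (by norm_num : (0 : ℝ) < 3 / 2)]
    have := hsf n hn hnN
    linarith
  set X : ℝ := (4 * κ + 1) ^ r * (K * Fintype.card ι) with hXdef
  have hX1 : 1 ≤ X := by
    have h1 : (1 : ℝ) ≤ (4 * κ + 1) ^ r := one_le_pow₀ (by linarith)
    have h2 : (1 : ℝ) ≤ K * Fintype.card ι := by nlinarith
    nlinarith
  have hXc : ∀ u : ℝ, ((Zs N' ((3 / 2 : ℝ) • V) (A + u • V) (2 * κ) (2 * κ) (4 * κ)).ncard : ℝ) ≤ X := by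
    intro u
    refine (Zs_box hN1 (by positivity) hN'le _ _ _ _).trans ?_
    have e : 2 * (2 * κ) + 1 = 4 * κ + 1 := by ring
    rw [e, hXdef]
    gcongr
  -- the multiplicity at the height `t`, for the tube number `i`
  let m : ι → ℝ → ℝ := fun i τ => (mt N' ((3 / 2 : ℝ) • V) (A + s i • V) δ' κ τ : ℝ)
  have hm : ∀ i, ∫⁻ t in Icc (s i - 3 / 2) (s i + 3 / 2), ENNReal.ofReal (m i ((t - s i) / (3 / 2)) ^ (q - 1)) ≤
      ENNReal.ofReal (3 / 2 * (C * X ^ (q - 1 - 1 / d))) := by
    intro i
    rw [window (by norm_num : (0 : ℝ) < 3 / 2) (s i) (fun τ => ENNReal.ofReal (m i τ ^ (q - 1)))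
      (((mt_meas _ _ _ _ _).pow_const _).ennreal_ofReal)]
    rw [ENNReal.ofReal_mul (by norm_num : (0 : ℝ) ≤ 3 / 2)]
    gcongr
    exact hbig N' hN'0 _ _ δ' hδ'0 hδ'1 (hsb (s i)) X hX1 (hXc (s i))
  -- the graph tubes
  let f : ι → ℝ → Vec d → ℝ≥0∞ := fun i t x =>
    (Icc (s i - 3 / 2) (s i + 3 / 2)).indicator (fun _ => (closedBall (β i + t • v i) (2 * δ)).indicator
      (fun _ => (1 : ℝ≥0∞)) x) t
  have hf01 : ∀ i t x, f i t x ≠ 0 → t ∈ Icc (s i - 3 / 2) (s i + 3 / 2) ∧ ‖x - (β i + t • v i)‖ ≤ 2 * δ ∧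
      f i t x = 1 := by
    intro i t x h
    have h1 : t ∈ Icc (s i - 3 / 2) (s i + 3 / 2) := by
      by_contra hc
      exact h (indicator_of_notMem hc _)
    have h2 : f i t x = (closedBall (β i + t • v i) (2 * δ)).indicator (fun _ => (1 : ℝ≥0∞)) x :=
      indicator_of_mem h1 _
    have h3 : x ∈ closedBall (β i + t • v i) (2 * δ) := by
      by_contra hc
      rw [h2] at h
      exact h (indicator_of_notMem hc _)
    refine ⟨h1, ?_, ?_⟩
    · rwa [mem_closedBall, dist_eq_norm] at h3
    · rw [h2, indicator_of_mem h3]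
  have hpt : ∀ i t x, (tube δ (dir (v i)) (WithLp.toLp 2 (β i + s i • v i, s i))).indicator
      (fun _ => (1 : ℝ≥0∞)) (WithLp.toLp 2 (x, t)) ≤ f i t x := by
    intro i t x
    by_cases hmem : (WithLp.toLp 2 (x, t) : Space d) ∈ tube δ (dir (v i)) (WithLp.toLp 2 (β i + s i • v i, s i))
    · rw [indicator_of_mem hmem]
      rw [tube_eq] at hmem
      obtain ⟨ht, hx⟩ := Pool.Agent.H803R2.KakFTO.tube_subset hδ hδ1 (fun _ => β i) (hv i) (s i) hmem
      have h1 : t ∈ Icc (s i - 3 / 2) (s i + 3 / 2) := ⟨ht.1, by linarith [ht.2]⟩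
      have h2 : x ∈ closedBall (β i + t • v i) (2 * δ) := by
        rw [mem_closedBall, dist_eq_norm]
        exact hx
      show _ ≤ (Icc (s i - 3 / 2) (s i + 3 / 2)).indicator (fun _ => (closedBall (β i + t • v i) (2 * δ)).indicator
        (fun _ => (1 : ℝ≥0∞)) x) t
      rw [indicator_of_mem h1, indicator_of_mem h2]
    · rw [indicator_of_notMem hmem]
      exact bot_le
  -- the number of the tubes through a point
  have hmult : ∀ i t x, f i t x ≠ 0 → ∑ j, f j t x ≤ ENNReal.ofReal (m i ((t - s i) / (3 / 2))) := by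
    intro i t x hi
    obtain ⟨hti, hxi, -⟩ := hf01 i t x hi
    set J : Finset ι := Finset.univ.filter fun j => f j t x ≠ 0 with hJ
    have h1 : ∑ j, f j t x ≤ (J.card : ℝ≥0∞) := by
      have e1 : ∑ j, f j t x = ∑ j ∈ J, f j t x := by
        rw [hJ, Finset.sum_filter_ne_zero]
      rw [e1]
      calc ∑ j ∈ J, f j t x ≤ ∑ _j ∈ J, 1 := by
            apply Finset.sum_le_sum
            intro j hj
            exact (hf01 j t x (Finset.mem_filter.1 hj).2).2.2.le
        _ = J.card := by simp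
    have h2 : J.card ≤ mt N' ((3 / 2 : ℝ) • V) (A + s i • V) δ' κ ((t - s i) / (3 / 2)) := by
      unfold mt
      have hki : ∀ j j', k j - k i = k j' - k i → j = j' := by
        intro j j' hjj
        by_contra hne
        have h3 : k j = k j' := by simpa using hjj
        have h4 := hsep1 j j' hne
        rw [h3, sub_self] at h4
        have e : (fun l : Fin r => (((0 : Fin r → ℤ) l : ℤ) : ℝ)) = 0 := by
          ext l
          simp
        rw [e, mulVec_zero, norm_zero] at h4
        have : 0 < δ / d := by positivity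
        linarith
      have h3 : (J.image fun j => k j - k i).card = J.card :=
        Finset.card_image_of_injOn fun j _ j' _ h => hki j j' h
      rw [← h3, ← Set.ncard_coe_finset]
      apply Set.ncard_le_ncard _ (Ps_finite _ _ _ _ _ _)
      intro n hn
      rw [Finset.mem_coe, Finset.mem_image] at hn
      obtain ⟨j, hj, rfl⟩ := hn
      obtain ⟨htj, hxj, -⟩ := hf01 j t x (Finset.mem_filter.1 hj).2
      have hMκ : (M : ℝ) ≤ κ := by
        rw [hκdef]
        nlinarith
      refine ⟨fun l => ?_, ?_, ?_⟩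
      · have h4 := hk i l
        have h5 := hk j l
        have h6 : |(((k j - k i) l : ℤ) : ℝ)| ≤ N l := by
          rw [Pi.sub_apply, abs_le]
          constructor
          · have : -(N l : ℤ) ≤ k j l - k i l := by omega
            exact_mod_cast this
          · have : k j l - k i l ≤ N l := by omega
            exact_mod_cast this
        refine h6.trans ?_
        have h7 : (0 : ℝ) < N l := by exact_mod_cast hN1 l
        show (N l : ℝ) ≤ κ * (N l / M)
        rw [mul_div_assoc', le_div_iff₀ (by linarith), mul_comm]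
        gcongr
      · show ‖((3 / 2 : ℝ) • V) *ᵥ (fun l => (((k j - k i) l : ℤ) : ℝ))‖ ≤ κ
        rw [smul_mulVec, ← hV i j, norm_smul, Real.norm_eq_abs, abs_of_pos (by norm_num : (0 : ℝ) < 3 / 2)]
        have h4 := sup_le_norm (v j - v i)
        have h5 : ‖v j - v i‖ ≤ 2 := (norm_sub_le _ _).trans (by linarith [hv i, hv j])
        linarith
      · show ‖(A + s i • V) *ᵥ (fun l => (((k j - k i) l : ℤ) : ℝ)) + ((t - s i) / (3 / 2)) •
          (((3 / 2 : ℝ) • V) *ᵥ (fun l => (((k j - k i) l : ℤ) : ℝ)))‖ ≤ κ * δ'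
        have e1 : (A + s i • V) *ᵥ (fun l => (((k j - k i) l : ℤ) : ℝ)) + ((t - s i) / (3 / 2)) •
            (((3 / 2 : ℝ) • V) *ᵥ (fun l => (((k j - k i) l : ℤ) : ℝ))) =
            ((β j - β i + t • (v j - v i) : Vec d).ofLp : Fin d → ℝ) := by
          rw [add_mulVec, smul_mulVec, smul_mulVec, ← hV i j, ← hA i j, smul_smul, add_assoc, ← add_smul]
          have : s i + (t - s i) / (3 / 2) * (3 / 2) = t := by
            field_simp
            ring
          rw [this]
          rfl
        rw [e1]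
        refine (sup_le_norm _).trans ?_
        have e2 : β j - β i + t • (v j - v i) = (x - (β i + t • v i)) - (x - (β j + t • v j)) := by
          rw [smul_sub]
          abel
        have e3 : κ * δ' = 4 * δ := by
          rw [hκdef, hδ']
          field_simp
        rw [e2, e3]
        refine (norm_sub_le _ _).trans (by linarith)
    refine h1.trans ?_
    rw [← ENNReal.ofReal_natCast]
    exact ENNReal.ofReal_le_ofReal (Nat.cast_le.2 h2)
  have hm0 : ∀ i τ, 0 ≤ m i τ := fun i τ => Nat.cast_nonneg _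
  have hpow : ∀ t x, (∑ i, f i t x) ^ q ≤ ∑ i, f i t x * ENNReal.ofReal (m i ((t - s i) / (3 / 2)) ^ (q - 1)) := by
    intro t x
    have e1 : (∑ i, f i t x) ^ q = (∑ i, f i t x) * (∑ i, f i t x) ^ (q - 1) := by
      have : q = 1 + (q - 1) := by ring
      conv_lhs => rw [this]
      rw [ENNReal.rpow_add_of_nonneg _ _ (by norm_num) hq1.le, ENNReal.rpow_one]
    rw [e1, Finset.sum_mul]
    apply Finset.sum_le_sum
    intro i _
    by_cases h0 : f i t x = 0
    · rw [h0, zero_mul]
      exact bot_le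
    · gcongr
      rw [← ENNReal.ofReal_rpow_of_nonneg (hm0 i _) hq1.le]
      apply ENNReal.rpow_le_rpow (hmult i t x h0) hq1.le
  have hFm : Measurable (fun y : Space d => (∑ i, (tube δ (dir (v i)) (WithLp.toLp 2 (β i + s i • v i, s i))).indicator
          (fun _ => (1 : ℝ≥0∞)) y) ^ q) := by
    apply Measurable.pow_const
    apply Finset.measurable_fun_sum
    intro i _
    exact measurable_const.indicator (tube_closed _ _ _).measurableSet
  have hball : ∀ i t, ∫⁻ x : Vec d, f i t x ≤ (Icc (s i - 3 / 2) (s i + 3 / 2)).indicator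
      (fun _ => ENNReal.ofReal ((2 * δ) ^ d * ω)) t := by
    intro i t
    by_cases ht : t ∈ Icc (s i - 3 / 2) (s i + 3 / 2)
    · rw [indicator_of_mem ht]
      have : ∀ x, f i t x = (closedBall (β i + t • v i) (2 * δ)).indicator (fun _ => (1 : ℝ≥0∞)) x :=
        fun x => indicator_of_mem ht _
      simp only [this]
      rw [lintegral_indicator_const measurableSet_closedBall, one_mul,
        Measure.addHaar_closedBall _ _ (by positivity), finrank_euclideanSpace, Fintype.card_fin,
        ENNReal.ofReal_mul (by positivity), hω, ENNReal.ofReal_toReal hωtop]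
    · have : ∀ x, f i t x = 0 := fun x => indicator_of_notMem ht _
      simp only [this, lintegral_zero]
      exact bot_le
  have hfm : ∀ i t, Measurable (fun x => f i t x) := by
    intro i t
    by_cases ht : t ∈ Icc (s i - 3 / 2) (s i + 3 / 2)
    · have : (fun x => f i t x) = (closedBall (β i + t • v i) (2 * δ)).indicator (fun _ => (1 : ℝ≥0∞)) := by
        funext x
        exact indicator_of_mem ht _
      rw [this]
      exact measurable_const.indicator measurableSet_closedBall
    · have : (fun x => f i t x) = fun _ => 0 := by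
        funext x
        exact indicator_of_notMem ht _
      rw [this]
      exact measurable_const
  rw [fub hFm]
  calc ∫⁻ t : ℝ, ∫⁻ x : Vec d, (∑ i, (tube δ (dir (v i)) (WithLp.toLp 2 (β i + s i • v i, s i))).indicator
          (fun _ => (1 : ℝ≥0∞)) (WithLp.toLp 2 (x, t))) ^ q
      ≤ ∫⁻ t : ℝ, ∑ i, (Icc (s i - 3 / 2) (s i + 3 / 2)).indicator
          (fun t => ENNReal.ofReal ((2 * δ) ^ d * ω) * ENNReal.ofReal (m i ((t - s i) / (3 / 2)) ^ (q - 1))) t := by
        refine lintegral_mono fun t => ?_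
        calc ∫⁻ x : Vec d, (∑ i, (tube δ (dir (v i)) (WithLp.toLp 2 (β i + s i • v i, s i))).indicator
              (fun _ => (1 : ℝ≥0∞)) (WithLp.toLp 2 (x, t))) ^ q
            ≤ ∫⁻ x : Vec d, ∑ i, f i t x * ENNReal.ofReal (m i ((t - s i) / (3 / 2)) ^ (q - 1)) := by
              refine lintegral_mono fun x => ?_
              refine le_trans ?_ (hpow t x)
              apply ENNReal.rpow_le_rpow _ hq0.le
              exact Finset.sum_le_sum fun i _ => hpt i t x
          _ = ∑ i, (∫⁻ x : Vec d, f i t x) * ENNReal.ofReal (m i ((t - s i) / (3 / 2)) ^ (q - 1)) := by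
              rw [lintegral_finsetSum _ (fun i _ => (hfm i t).mul_const _)]
              apply Finset.sum_congr rfl
              intro i _
              rw [lintegral_mul_const _ (hfm i t)]
          _ ≤ _ := by
              apply Finset.sum_le_sum
              intro i _
              have h1 := hball i t
              by_cases ht : t ∈ Icc (s i - 3 / 2) (s i + 3 / 2)
              · rw [indicator_of_mem ht] at h1 ⊢
                gcongr
              · rw [indicator_of_notMem ht] at h1 ⊢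
                have h2 : ∫⁻ x : Vec d, f i t x = 0 := le_antisymm h1 bot_le
                rw [h2, zero_mul]
    _ = ∑ i, ∫⁻ t in Icc (s i - 3 / 2) (s i + 3 / 2),
          ENNReal.ofReal ((2 * δ) ^ d * ω) * ENNReal.ofReal (m i ((t - s i) / (3 / 2)) ^ (q - 1)) := by
        rw [lintegral_finsetSum']
        · apply Finset.sum_congr rfl
          intro i _
          rw [lintegral_indicator measurableSet_Icc]
        · intro i _
          apply Measurable.aemeasurable
          apply Measurable.indicator _ measurableSet_Icc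
          apply Measurable.const_mul
          apply Measurable.ennreal_ofReal
          apply Measurable.pow_const
          exact (mt_meas _ _ _ _ _).comp ((measurable_id.sub_const _).div_const _)
    _ ≤ ∑ _i : ι, ENNReal.ofReal ((2 * δ) ^ d * ω) * ENNReal.ofReal (3 / 2 * (C * X ^ (q - 1 - 1 / d))) := by
        apply Finset.sum_le_sum
        intro i _
        rw [lintegral_const_mul' _ _ ENNReal.ofReal_ne_top]
        gcongr
        exact hm i
    _ = _ := by
        rw [Finset.sum_const, Finset.card_univ, nsmul_eq_mul, ← ENNReal.ofReal_mul (by positivity),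
          ← ENNReal.ofReal_natCast, ← ENNReal.ofReal_mul (by positivity)]
        congr 1
        have e1 : X ^ (q - 1 - 1 / (d : ℝ)) = ((4 * κ + 1) ^ r * K) ^ (q - 1 - 1 / (d : ℝ)) *
            (Fintype.card ι : ℝ) ^ (q - 1 - 1 / (d : ℝ)) := by
          rw [hXdef, ← mul_assoc, Real.mul_rpow (by positivity) (by positivity)]
        have e2 : (Fintype.card ι : ℝ) ^ (q - 1 / (d : ℝ)) = (Fintype.card ι : ℝ) *
            (Fintype.card ι : ℝ) ^ (q - 1 - 1 / (d : ℝ)) := by
          have : q - 1 / (d : ℝ) = 1 + (q - 1 - 1 / (d : ℝ)) := by ring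
          rw [this, Real.rpow_add (by linarith), Real.rpow_one]
        rw [e1, e2, mul_pow]
        ring

end Pool.Agent.N250.GAP
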