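import Pool.Agent.N250.GAP.Hloc
import Pool.Agent.N250.GAP.Loss3
import Pool.Agent.N3.ST.I0

/-!
# The tube inequality without loss, for tubes near the lines of a set of bounded doubling
-/

set_option autoImplicit false

open MeasureTheory Set ENNReal NNReal Metric
open scoped Pointwise

namespace Pool.Agent.N250.GAP

open Pool.Agent.H810R3.Tub (Space tube dir dir_sub_le tube_eq tube_closed)

variable {d : ℕ}

/-- from rich points to many elements of the set of lines -/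
theorem to_pts (K : ℝ) {L : ℝ} (hL : 0 ≤ L) : ∃ M : ℕ, 1 ≤ M ∧ ∀ (δ ρ : ℝ), 0 < δ →
    ∀ (A : Finset (Vec d × Vec d)) (ι : Type) [Fintype ι] (v β : ι → Vec d) (s : ι → ℝ),
    (∀ i j, i ≠ j → δ ≤ ‖v i - v j‖) →
    (∀ i, ∃ p ∈ A, ‖v i - p.1‖ ≤ K * δ ∧ ‖β i + s i • v i - (p.2 + s i • p.1)‖ ≤ K * δ) →
    ∀ (x : Vec d) (t lam : ℝ), ENNReal.ofReal lam ≤ mu L ρ v β s t x → 1 ≤ lam →
      ∃ F ⊆ A, (∀ p ∈ F, ‖p.2 + t • p.1 - x‖ ≤ ρ + (1 + L) * (K * δ)) ∧
      max 1 (lam / M) ≤ (F.card : ℝ) := by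
  classical
  obtain ⟨M, hM1, hM⟩ := Pool.Agent.N3.ST.I.packing (d := d) K
  have hMr : (0 : ℝ) < M := by exact_mod_cast (by omega : 0 < M)
  refine ⟨M, hM1, ?_⟩
  intro δ ρ hδ A ι _ v β s hs hA x t lam hlam hlam1
  choose p hpA hp1 hp2 using hA
  set I := Finset.univ.filter fun i => gt L ρ v β s i t x ≠ 0 with hI
  have hmu : mu L ρ v β s t x = (I.card : ℝ≥0∞) := by
    unfold mu
    have e1 : ∑ i, gt L ρ v β s i t x = ∑ i ∈ I, gt L ρ v β s i t x := by
      rw [hI, Finset.sum_filter_ne_zero]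
    rw [e1, Finset.sum_congr rfl (fun i hi => (gt_one (Finset.mem_filter.1 hi).2).2.2)]
    rw [Finset.sum_const, nsmul_eq_mul, mul_one]
  have hI1 : lam ≤ I.card := by
    rw [hmu, ← ENNReal.ofReal_natCast, ENNReal.ofReal_le_ofReal_iff (Nat.cast_nonneg _)] at hlam
    exact hlam
  have hcardI : I.card ≤ M * (I.image p).card := by
    refine Finset.card_le_mul_card_image I M fun z hz => ?_
    refine hM δ hδ ι v z.1 _ (fun i hi => ?_) hs
    rw [← (Finset.mem_filter.1 hi).2]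
    exact hp1 i
  have hcard2 : lam ≤ M * ((I.image p).card : ℝ) := by
    refine hI1.trans ?_
    exact_mod_cast hcardI
  refine ⟨I.image p, ?_, ?_, ?_⟩
  · intro z hz
    obtain ⟨i, -, rfl⟩ := Finset.mem_image.1 hz
    exact hpA i
  · intro z hz
    obtain ⟨i, hi, rfl⟩ := Finset.mem_image.1 hz
    obtain ⟨g1, g2, -⟩ := gt_one (Finset.mem_filter.1 hi).2
    have g3 : |t - s i| ≤ L := by
      rw [abs_le]
      constructor <;> linarith [g1.1, g1.2]
    have e : (p i).2 + t • (p i).1 - x = -(x - (β i + t • v i)) -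
        (β i + s i • v i - ((p i).2 + s i • (p i).1)) - (t - s i) • (v i - (p i).1) := by
      rw [smul_sub, sub_smul, sub_smul]
      abel
    have k1 : ‖(t - s i) • (v i - (p i).1)‖ ≤ L * (K * δ) := by
      rw [norm_smul, Real.norm_eq_abs]
      exact mul_le_mul g3 (hp1 i) (norm_nonneg _) hL
    rw [e]
    calc _ ≤ ‖-(x - (β i + t • v i)) - (β i + s i • v i - ((p i).2 + s i • (p i).1))‖ +
          ‖(t - s i) • (v i - (p i).1)‖ := norm_sub_le _ _
      _ ≤ ‖-(x - (β i + t • v i))‖ + ‖β i + s i • v i - ((p i).2 + s i • (p i).1)‖ +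
          ‖(t - s i) • (v i - (p i).1)‖ := by
          gcongr
          exact norm_sub_le _ _
      _ ≤ ρ + K * δ + L * (K * δ) := by
          rw [norm_neg]
          have := hp2 i
          linarith
      _ = _ := by ring
  · apply max_le
    · have h1 : 0 < ((I.image p).card : ℝ) := by
        by_contra hc
        push Not at hc
        nlinarith
      have h2 : 0 < (I.image p).card := by exact_mod_cast h1
      exact_mod_cast h2
    · rw [div_le_iff₀ hMr, mul_comm]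
      exact hcard2

/-- the local bound for the rich heights, for tubes near the lines of a set of bounded doubling -/
theorem hloc_double (hd : 1 ≤ d) {K θ : ℝ} (hK : 1 ≤ K) (hθ : 0 < θ) (hθd : θ * d < 1) {L ρ₀ : ℝ}
    (hL : 0 < L) (hL2 : L ≤ 2) (hρ₀ : 0 ≤ ρ₀) : ∃ Cn : ℝ, 0 ≤ Cn ∧ ∀ δ : ℝ, 0 < δ →
    ∀ (A : Finset (Vec d × Vec d)), ((A + A).card : ℝ) ≤ K * (A.card : ℝ) →
    (∀ F : Finset (Vec d × Vec d), F ⊆ A → (∃ v₀ : Vec d, ∀ p ∈ F, ‖p.1 - v₀‖ ≤ δ) →
      (F.card : ℝ) ≤ K) →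
    ∀ (ι : Type) [Fintype ι] (v β : ι → Vec d) (s : ι → ℝ),
    (∀ i j, i ≠ j → δ ≤ ‖v i - v j‖) →
    (∀ i, ∃ p ∈ A, ‖v i - p.1‖ ≤ K * δ ∧ ‖β i + s i • v i - (p.2 + s i • p.1)‖ ≤ K * δ) →
    ∀ x h lam : ℝ, 1 ≤ lam → 0 < h → h ≤ 2 * L →
      volume (Eh L (ρ₀ * δ) v β s lam ∩ Icc x (x + h)) ≤
        ENNReal.ofReal (Cn * h ^ (1 - d * θ) * lam ^ (-θ)) := by
  classical
  have hd0 : (0 : ℝ) < d := by exact_mod_cast hd
  have hK0 : 0 ≤ K := by linarith
  set R : ℝ := ρ₀ + (1 + L) * K with hR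
  have hR0 : 0 < R := by
    have : 0 < (1 + L) * K := by positivity
    linarith
  have hR1 : 1 ≤ R := by
    have : 1 ≤ (1 + L) * K := by nlinarith
    linarith
  obtain ⟨M, hM1, hM⟩ := to_pts (d := d) K hL.le
  obtain ⟨N0, hN01, hN0⟩ := Pool.Agent.N3.ST.I.slopes (d := d) R
  have hN0r : (1 : ℝ) ≤ N0 := by exact_mod_cast hN01
  have hMr : (1 : ℝ) ≤ M := by exact_mod_cast hM1
  have hM0 : (0 : ℝ) < M := by linarith
  obtain ⟨C, hC, hdl⟩ := double_loc4 d hd (N0 * K) θ (by nlinarith) hθ (by rwa [lt_div_iff₀ hd0])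
  refine ⟨C * (M : ℝ) ^ θ, by positivity, ?_⟩
  intro δ hδ A hA2 hslope ι _ v β s hsep hnear x h lam hlam hh hhL
  have hlam0 : 0 < lam := by linarith
  have hA2' : ((A + A).card : ℝ) ≤ N0 * K * (A.card : ℝ) := by
    refine hA2.trans ?_
    have : 0 ≤ K * (A.card : ℝ) := by positivity
    calc K * (A.card : ℝ) = 1 * (K * (A.card : ℝ)) := by ring
      _ ≤ N0 * (K * (A.card : ℝ)) := by gcongr
      _ = _ := by ring
  have h1 := hdl (R * δ) (by positivity) A hA2' (hN0 δ hδ K hK0 A hslope) x h (max 1 (lam / M)) hh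
    (by linarith) (le_max_left _ _)
  refine (measure_mono ?_).trans (h1.trans ?_)
  · rintro t ⟨ht, htx⟩
    refine ⟨htx, ?_⟩
    have h2 : (Gl L (ρ₀ * δ) v β s lam t).Nonempty := by
      rw [Set.nonempty_iff_ne_empty]
      intro h0
      exact ht (by rw [h0, measure_empty])
    obtain ⟨y, hy⟩ := h2
    obtain ⟨F, hFA, hF1, hF2⟩ := hM δ (ρ₀ * δ) hδ A ι v β s hsep hnear y t lam hy hlam
    refine ⟨F, hFA, ⟨y, fun p hp => ?_⟩, hF2⟩
    refine (hF1 p hp).trans (le_of_eq ?_)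
    rw [hR]
    ring
  · apply ENNReal.ofReal_le_ofReal
    have h3 : (max 1 (lam / M)) ^ (-θ) ≤ (lam / M) ^ (-θ) :=
      Real.rpow_le_rpow_of_nonpos (by positivity) (le_max_right _ _) (by linarith)
    have h4 : (lam / M) ^ (-θ) = (M : ℝ) ^ θ * lam ^ (-θ) := by
      rw [Real.div_rpow hlam0.le hM0.le, Real.rpow_neg hM0.le, div_inv_eq_mul, mul_comm]
    rw [h4] at h3
    calc C * h ^ (1 - d * θ) * (max 1 (lam / M)) ^ (-θ) ≤ C * h ^ (1 - d * θ) * ((M : ℝ) ^ θ * lam ^ (-θ)) := by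
          gcongr
      _ = _ := by ring

/-- exponents -/
theorem exists_theta (hd : 1 ≤ d) {q : ℝ} (hq : 1 < (q - 1) * d) :
    ∃ θ : ℝ, 0 < θ ∧ θ * d < 1 ∧ 2 < (q - 1 + θ) * d := by
  have hd0 : (0 : ℝ) < d := by exact_mod_cast hd
  have h1 : max 0 (2 / d - (q - 1)) < 1 / (d : ℝ) := by
    apply max_lt (by positivity)
    have : 1 / (d : ℝ) < q - 1 := by
      rw [div_lt_iff₀ hd0]
      exact hq
    have e : 2 / (d : ℝ) = 1 / d + 1 / d := by ring
    linarith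
  obtain ⟨θ, h2, h3⟩ := exists_between h1
  have h4 := (max_lt_iff.1 h2).1
  have h5 := (max_lt_iff.1 h2).2
  refine ⟨θ, h4, ?_, ?_⟩
  · rwa [lt_div_iff₀ hd0] at h3
  · have : 2 / (d : ℝ) < q - 1 + θ := by linarith
    rwa [div_lt_iff₀ hd0] at this

/-- **The tube inequality without loss for tubes near the lines of a set of bounded doubling**. -/
theorem tubeL (hd : 1 ≤ d) {K : ℝ} (hK : 1 ≤ K) {q : ℝ} (hq : ((d : ℝ) + 1) / d < q) :
    ∃ C : ℝ, 0 < C ∧ ∀ (δ : ℝ), 0 < δ → δ < 1 → ∀ (A : Finset (Vec d × Vec d)),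
    ((A + A).card : ℝ) ≤ K * (A.card : ℝ) →
    (∀ F : Finset (Vec d × Vec d), F ⊆ A → (∃ v₀ : Vec d, ∀ p ∈ F, ‖p.1 - v₀‖ ≤ δ) →
      (F.card : ℝ) ≤ K) →
    ∀ (ι : Type) [Fintype ι] (v c : ι → Vec d) (h : ι → ℝ), (∀ i, ‖v i‖ ≤ 1) →
    (∀ i j, i ≠ j → δ ≤ ‖dir (v i) - dir (v j)‖) →
    (∀ i, ∃ p ∈ A, ‖v i - p.1‖ ≤ K * δ ∧ ‖c i - (p.2 + h i • p.1)‖ ≤ K * δ) →
    eLpNorm (N3.ST.tsum δ v c h) (ENNReal.ofReal q) volume ≤
      ENNReal.ofReal (C * δ ^ ((d : ℝ) / q) * (Fintype.card ι : ℝ) ^ (1 - 1 / (q * d))) := by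
  classical
  have hd0 : (0 : ℝ) < d := by exact_mod_cast hd
  have hq' : 1 < (q - 1) * d := by
    rw [div_lt_iff₀ hd0] at hq
    linarith
  have hq0 : 0 < q := lt_trans (by positivity) hq
  obtain ⟨θ, hθ, hθd, hθq⟩ := exists_theta hd hq'
  obtain ⟨Cn, hCn, hloc⟩ := hloc_double hd hK hθ hθd (L := 3 / 2) (ρ₀ := 2) (by norm_num) (by norm_num)
    (by norm_num)
  obtain ⟨C, hC, hmain⟩ := lossless hd hθ hθd hθq (L := 3 / 2) (ρ₀ := 2) (by norm_num) (by norm_num) hCn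
  refine ⟨C ^ (1 / q), by positivity, ?_⟩
  intro δ hδ hδ1 A hA2 hslope ι _ v c h hv hsep hnear
  have hp0 : ENNReal.ofReal q ≠ 0 := by
    rw [ne_eq, ENNReal.ofReal_eq_zero, not_le]
    exact hq0
  rcases isEmpty_or_nonempty ι with hι | hι
  · have : N3.ST.tsum δ v c h = 0 := by
      funext y
      simp [N3.ST.tsum]
    rw [this, eLpNorm_zero]
    exact bot_le
  set β : ι → Vec d := fun i => c i - h i • v i with hβ
  have hsep' : ∀ i j, i ≠ j → δ ≤ ‖v i - v j‖ := fun i j hij => (hsep i j hij).trans (dir_sub_le _ _)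
  have hβc : ∀ i, β i + h i • v i = c i := fun i => sub_add_cancel _ _
  have hnear' : ∀ i, ∃ p ∈ A, ‖v i - p.1‖ ≤ K * δ ∧ ‖β i + h i • v i - (p.2 + h i • p.1)‖ ≤ K * δ := by
    intro i
    rw [hβc]
    exact hnear i
  have key := hmain δ hδ ι v β h hsep' (fun x k lam hlam hk hk2 =>
    hloc δ hδ A hA2 hslope ι v β h hsep' hnear' x k lam hlam hk hk2)
  have hN0 : (0 : ℝ) < Fintype.card ι := by exact_mod_cast Fintype.card_pos
  rw [eLpNorm_eq_lintegral_rpow_enorm_toReal hp0 ENNReal.ofReal_ne_top, ENNReal.toReal_ofReal hq0.le]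
  have e3 : ∀ y, ‖N3.ST.tsum δ v c h y‖ₑ = ∑ i, (tube δ (dir (v i))
      (WithLp.toLp 2 (c i, h i))).indicator (fun _ => (1 : ℝ≥0∞)) y := by
    intro y
    unfold N3.ST.tsum
    rw [Real.enorm_of_nonneg (Finset.sum_nonneg fun i _ =>
      Set.indicator_nonneg (fun _ _ => zero_le_one) _),
      ENNReal.ofReal_sum_of_nonneg fun i _ => Set.indicator_nonneg (fun _ _ => zero_le_one) _]
    refine Finset.sum_congr rfl fun i _ => ?_
    by_cases hx : y ∈ tube δ (dir (v i)) (WithLp.toLp 2 (c i, h i))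
    · rw [Set.indicator_of_mem hx, Set.indicator_of_mem hx, ENNReal.ofReal_one]
    · rw [Set.indicator_of_notMem hx, Set.indicator_of_notMem hx, ENNReal.ofReal_zero]
  simp only [e3]
  have hFm : Measurable (fun y : Space d => (∑ i, (tube δ (dir (v i)) (WithLp.toLp 2 (c i, h i))).indicator
          (fun _ => (1 : ℝ≥0∞)) y) ^ q) := by
    apply Measurable.pow_const
    apply Finset.measurable_fun_sum
    intro i _
    exact measurable_const.indicator (tube_closed _ _ _).measurableSet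
  have hle : ∫⁻ y : Space d, (∑ i, (tube δ (dir (v i)) (WithLp.toLp 2 (c i, h i))).indicator
          (fun _ => (1 : ℝ≥0∞)) y) ^ q ≤ ∫⁻ t, ∫⁻ x, mu (3 / 2) (2 * δ) v β h t x ^ q := by
    rw [fub hFm]
    refine lintegral_mono fun t => lintegral_mono fun x => ENNReal.rpow_le_rpow ?_ hq0.le
    unfold mu
    refine Finset.sum_le_sum fun i _ => ?_
    by_cases hm : (WithLp.toLp 2 (x, t) : Space d) ∈ tube δ (dir (v i)) (WithLp.toLp 2 (c i, h i))
    · rw [indicator_of_mem hm]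
      obtain ⟨g1, g2⟩ := Pool.Agent.N3.ST.I.geo hδ hδ1 (hv i) (h i) hm
      rw [gt_of_mem g1]
      have e : x - (β i + t • v i) = x - (c i + (t - h i) • v i) := by
        show x - (c i - h i • v i + t • v i) = _
        rw [sub_smul]
        abel
      rw [e]
      exact g2
    · rw [indicator_of_notMem hm]
      exact bot_le
  calc (∫⁻ y, (∑ i, (tube δ (dir (v i)) (WithLp.toLp 2 (c i, h i))).indicator
          (fun _ => (1 : ℝ≥0∞)) y) ^ q) ^ (1 / q)
      ≤ (ENNReal.ofReal (C * δ ^ d * (Fintype.card ι : ℝ) ^ (q - 1 / d))) ^ (1 / q) :=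
        ENNReal.rpow_le_rpow (hle.trans key) (by positivity)
    _ = ENNReal.ofReal ((C * δ ^ d * (Fintype.card ι : ℝ) ^ (q - 1 / d)) ^ (1 / q)) :=
        ENNReal.ofReal_rpow_of_nonneg (by positivity) (by positivity)
    _ = _ := by
        congr 1
        rw [Real.mul_rpow (by positivity) (by positivity), Real.mul_rpow hC.le (by positivity),
          ← Real.rpow_natCast δ d, ← Real.rpow_mul hδ.le, ← Real.rpow_mul hN0.le]
        have f1 : (d : ℝ) * (1 / q) = d / q := by ring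
        have f2 : (q - 1 / (d : ℝ)) * (1 / q) = 1 - 1 / (q * d) := by field_simp
        rw [f1, f2]

end Pool.Agent.N250.GAP
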